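import Pool.Agent.Helper904_QS.Stmts

/-!
# MP_177f55_an, piece CA: all `k > 0`.
-/

set_option autoImplicit false

open MeasureTheory Set Metric Filter Topology
open scoped ContDiff

namespace Pool.Agent.Helper904_QS.PCA

open Pool.Agent.Helper904_QS

theorem t_CA (hHK : S_HK) (hLK : S_LK) : S_CA := by
  intro M ι _ _ _ _ ψ σ hA hC
  obtain ⟨k₀, c, hk₀, hc, h1⟩ := hHK M ι ψ σ hA hC
  obtain ⟨c', hc', h2⟩ := hLK M ι ψ σ hA k₀ hk₀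
  refine ⟨min c c', lt_min hc hc', ?_⟩
  intro k u f hk hE
  rcases le_total k₀ k with hkk | hkk
  · obtain ⟨⟨i, hi⟩, ⟨j, hj⟩⟩ := h1 k u f hkk hE
    exact ⟨⟨i, (min_le_left _ _).trans hi⟩, ⟨j, (min_le_left _ _).trans hj⟩⟩
  · obtain ⟨⟨i, hi⟩, ⟨j, hj⟩⟩ := h2 k u f hk hkk hE
    exact ⟨⟨i, (min_le_right _ _).trans hi⟩, ⟨j, (min_le_right _ _).trans hj⟩⟩

end Pool.Agent.Helper904_QS.PCA
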