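import Pool.Agent.Helper904_QS.Defs

/-!
Calculus rules for `dx`, `dy`, `lap`.
-/

set_option autoImplicit false

open MeasureTheory Set Metric Filter Topology
open scoped ContDiff

namespace Pool.Agent.Helper904_QS

variable {f g : ℂ → ℝ} {z : ℂ}

theorem contDiff_dv {n : ℕ} (hf : ContDiff ℝ ((n + 1 : ℕ) : ℕ∞ω) f) (v : ℂ) :
    ContDiff ℝ (n : ℕ∞ω) (fun z => fderiv ℝ f z v) := by
  have h : ContDiff ℝ (n : ℕ∞ω) (fderiv ℝ f) := hf.fderiv_right (by norm_cast)
  exact h.clm_apply contDiff_const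

theorem contDiff_dx3 (hf : ContDiff ℝ 4 f) : ContDiff ℝ 3 (dx f) := contDiff_dv (n := 3) hf 1
theorem contDiff_dx2 (hf : ContDiff ℝ 3 f) : ContDiff ℝ 2 (dx f) := contDiff_dv (n := 2) hf 1
theorem contDiff_dx1 (hf : ContDiff ℝ 2 f) : ContDiff ℝ 1 (dx f) := contDiff_dv (n := 1) hf 1
theorem contDiff_dy3 (hf : ContDiff ℝ 4 f) : ContDiff ℝ 3 (dy f) :=
  contDiff_dv (n := 3) hf Complex.I
theorem contDiff_dy2 (hf : ContDiff ℝ 3 f) : ContDiff ℝ 2 (dy f) :=
  contDiff_dv (n := 2) hf Complex.I
theorem contDiff_dy1 (hf : ContDiff ℝ 2 f) : ContDiff ℝ 1 (dy f) :=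
  contDiff_dv (n := 1) hf Complex.I
theorem continuous_dx (hf : ContDiff ℝ 1 f) : Continuous (dx f) :=
  (contDiff_dv (n := 0) (by simpa using hf) 1).continuous
theorem continuous_dy (hf : ContDiff ℝ 1 f) : Continuous (dy f) :=
  (contDiff_dv (n := 0) (by simpa using hf) Complex.I).continuous
theorem contDiff_lap2 (hf : ContDiff ℝ 4 f) : ContDiff ℝ 2 (lap f) :=
  (contDiff_dx2 (contDiff_dx3 hf)).add (contDiff_dy2 (contDiff_dy3 hf))
theorem contDiff_lap1 (hf : ContDiff ℝ 3 f) : ContDiff ℝ 1 (lap f) :=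
  (contDiff_dx1 (contDiff_dx2 hf)).add (contDiff_dy1 (contDiff_dy2 hf))
theorem continuous_lap (hf : ContDiff ℝ 2 f) : Continuous (lap f) :=
  (continuous_dx (contDiff_dx1 hf)).add (continuous_dy (contDiff_dy1 hf))

theorem dx_add (hf : DifferentiableAt ℝ f z) (hg : DifferentiableAt ℝ g z) :
    dx (fun z => f z + g z) z = dx f z + dx g z := by
  unfold dx; rw [fderiv_fun_add hf hg]; simp
theorem dy_add (hf : DifferentiableAt ℝ f z) (hg : DifferentiableAt ℝ g z) :
    dy (fun z => f z + g z) z = dy f z + dy g z := by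
  unfold dy; rw [fderiv_fun_add hf hg]; simp
theorem dx_sub (hf : DifferentiableAt ℝ f z) (hg : DifferentiableAt ℝ g z) :
    dx (fun z => f z - g z) z = dx f z - dx g z := by
  unfold dx; rw [fderiv_fun_sub hf hg]; simp
theorem dy_sub (hf : DifferentiableAt ℝ f z) (hg : DifferentiableAt ℝ g z) :
    dy (fun z => f z - g z) z = dy f z - dy g z := by
  unfold dy; rw [fderiv_fun_sub hf hg]; simp
theorem dx_neg : dx (fun z => -f z) z = -dx f z := by
  unfold dx; rw [fderiv_fun_neg]; simp
theorem dy_neg : dy (fun z => -f z) z = -dy f z := by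
  unfold dy; rw [fderiv_fun_neg]; simp
theorem dx_const (c : ℝ) : dx (fun _ => c) z = 0 := by unfold dx; simp
theorem dy_const (c : ℝ) : dy (fun _ => c) z = 0 := by unfold dy; simp
theorem dx_mul (hf : DifferentiableAt ℝ f z) (hg : DifferentiableAt ℝ g z) :
    dx (fun z => f z * g z) z = f z * dx g z + dx f z * g z := by
  unfold dx; rw [fderiv_fun_mul hf hg]; simp; ring
theorem dy_mul (hf : DifferentiableAt ℝ f z) (hg : DifferentiableAt ℝ g z) :
    dy (fun z => f z * g z) z = f z * dy g z + dy f z * g z := by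
  unfold dy; rw [fderiv_fun_mul hf hg]; simp; ring
theorem dx_const_mul (c : ℝ) (hf : DifferentiableAt ℝ f z) :
    dx (fun z => c * f z) z = c * dx f z := by
  rw [dx_mul (differentiableAt_const c) hf, dx_const]; ring
theorem dy_const_mul (c : ℝ) (hf : DifferentiableAt ℝ f z) :
    dy (fun z => c * f z) z = c * dy f z := by
  rw [dy_mul (differentiableAt_const c) hf, dy_const]; ring
theorem dx_sq (hf : DifferentiableAt ℝ f z) : dx (fun z => f z ^ 2) z = 2 * f z * dx f z := by
  have h : (fun z => f z ^ 2) = fun z => f z * f z := by ext; ring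
  rw [h, dx_mul hf hf]; ring
theorem dy_sq (hf : DifferentiableAt ℝ f z) : dy (fun z => f z ^ 2) z = 2 * f z * dy f z := by
  have h : (fun z => f z ^ 2) = fun z => f z * f z := by ext; ring
  rw [h, dy_mul hf hf]; ring

/-- the mixed derivatives commute -/
theorem dx_dy (hf : ContDiff ℝ 2 f) (z : ℂ) : dx (dy f) z = dy (dx f) z := by
  have h1 : ContDiff ℝ 1 (fderiv ℝ f) := hf.fderiv_right (by norm_num)
  have h2 : DifferentiableAt ℝ (fderiv ℝ f) z := h1.differentiable (by norm_num) z
  have hsym : IsSymmSndFDerivAt ℝ f z :=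
    hf.contDiffAt.isSymmSndFDerivAt (by simp)
  have e1 : ∀ v : ℂ, fderiv ℝ (fun z => fderiv ℝ f z v) z = (fderiv ℝ (fderiv ℝ f) z).flip v := by
    intro v
    rw [fderiv_clm_apply h2 (differentiableAt_const v)]
    simp
  unfold dx dy
  rw [e1, e1]
  simpa using hsym 1 Complex.I

theorem dx_congr {U : Set ℂ} (hU : IsOpen U) (h : ∀ z ∈ U, f z = g z) :
    ∀ z ∈ U, dx f z = dx g z := by
  intro z hz
  unfold dx
  have : f =ᶠ[𝓝 z] g := by filter_upwards [hU.mem_nhds hz] with y hy using h y hy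
  rw [this.fderiv_eq]

theorem dy_congr {U : Set ℂ} (hU : IsOpen U) (h : ∀ z ∈ U, f z = g z) :
    ∀ z ∈ U, dy f z = dy g z := by
  intro z hz
  unfold dy
  have : f =ᶠ[𝓝 z] g := by filter_upwards [hU.mem_nhds hz] with y hy using h y hy
  rw [this.fderiv_eq]

theorem lap_congr {U : Set ℂ} (hU : IsOpen U) (h : ∀ z ∈ U, f z = g z) :
    ∀ z ∈ U, lap f z = lap g z := by
  intro z hz
  unfold lap
  rw [dx_congr hU (dx_congr hU h) z hz, dy_congr hU (dy_congr hU h) z hz]

theorem lap_add (hf : ContDiff ℝ 2 f) (hg : ContDiff ℝ 2 g) (z : ℂ) :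
    lap (fun z => f z + g z) z = lap f z + lap g z := by
  have h1 : dx (fun z => f z + g z) = fun z => dx f z + dx g z := by
    ext y
    exact dx_add (hf.differentiable (by norm_num) y) (hg.differentiable (by norm_num) y)
  have h2 : dy (fun z => f z + g z) = fun z => dy f z + dy g z := by
    ext y
    exact dy_add (hf.differentiable (by norm_num) y) (hg.differentiable (by norm_num) y)
  unfold lap
  rw [h1, h2, dx_add ((contDiff_dx1 hf).differentiable (by norm_num) z)
    ((contDiff_dx1 hg).differentiable (by norm_num) z),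
    dy_add ((contDiff_dy1 hf).differentiable (by norm_num) z)
    ((contDiff_dy1 hg).differentiable (by norm_num) z)]
  ring

theorem lap_const_mul (c : ℝ) (hf : ContDiff ℝ 2 f) (z : ℂ) :
    lap (fun z => c * f z) z = c * lap f z := by
  have h1 : dx (fun z => c * f z) = fun z => c * dx f z := by
    ext y
    exact dx_const_mul c (hf.differentiable (by norm_num) y)
  have h2 : dy (fun z => c * f z) = fun z => c * dy f z := by
    ext y
    exact dy_const_mul c (hf.differentiable (by norm_num) y)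
  unfold lap
  rw [h1, h2, dx_const_mul c ((contDiff_dx1 hf).differentiable (by norm_num) z),
    dy_const_mul c ((contDiff_dy1 hf).differentiable (by norm_num) z)]
  ring

theorem lap_neg (z : ℂ) : lap (fun z => -f z) z = -lap f z := by
  have h1 : dx (fun z => -f z) = fun z => -dx f z := by ext y; exact dx_neg
  have h2 : dy (fun z => -f z) = fun z => -dy f z := by ext y; exact dy_neg
  unfold lap
  rw [h1, h2, dx_neg, dy_neg]; ring

theorem lap_sub (hf : ContDiff ℝ 2 f) (hg : ContDiff ℝ 2 g) (z : ℂ) :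
    lap (fun z => f z - g z) z = lap f z - lap g z := by
  have h : (fun z => f z - g z) = fun z => f z + -g z := by ext; ring
  rw [h, lap_add hf hg.neg, lap_neg]; ring

theorem lap_const (c : ℝ) (z : ℂ) : lap (fun _ => c) z = 0 := by
  have h1 : dx (fun _ : ℂ => c) = fun _ => 0 := by ext y; exact dx_const c
  have h2 : dy (fun _ : ℂ => c) = fun _ => 0 := by ext y; exact dy_const c
  unfold lap
  rw [h1, h2, dx_const, dy_const]; ring

theorem lap_mul (hf : ContDiff ℝ 2 f) (hg : ContDiff ℝ 2 g) (z : ℂ) :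
    lap (fun z => f z * g z) z =
      f z * lap g z + 2 * (dx f z * dx g z + dy f z * dy g z) + g z * lap f z := by
  have df := hf.differentiable (by norm_num)
  have dg := hg.differentiable (by norm_num)
  have dfx := (contDiff_dx1 hf).differentiable (by norm_num)
  have dfy := (contDiff_dy1 hf).differentiable (by norm_num)
  have dgx := (contDiff_dx1 hg).differentiable (by norm_num)
  have dgy := (contDiff_dy1 hg).differentiable (by norm_num)
  have h1 : dx (fun z => f z * g z) = fun z => f z * dx g z + dx f z * g z := by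
    ext y; exact dx_mul (df y) (dg y)
  have h2 : dy (fun z => f z * g z) = fun z => f z * dy g z + dy f z * g z := by
    ext y; exact dy_mul (df y) (dg y)
  unfold lap
  rw [h1, h2, dx_add ((df z).fun_mul (dgx z)) ((dfx z).fun_mul (dg z)), dx_mul (df z) (dgx z),
    dx_mul (dfx z) (dg z), dy_add ((df z).fun_mul (dgy z)) ((dfy z).fun_mul (dg z)),
    dy_mul (df z) (dgy z), dy_mul (dfy z) (dg z)]
  ring

theorem lap_sq (hf : ContDiff ℝ 2 f) (z : ℂ) :
    lap (fun z => f z ^ 2) z = 2 * gsq f z + 2 * f z * lap f z := by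
  have h : (fun z => f z ^ 2) = fun z => f z * f z := by ext; ring
  rw [h, lap_mul hf hf]; unfold gsq; ring

theorem dx_log (hf : DifferentiableAt ℝ f z) (h0 : f z ≠ 0) :
    dx (fun z => Real.log (f z)) z = dx f z / f z := by
  unfold dx
  rw [(hf.hasFDerivAt.log h0).fderiv]
  simp; ring
theorem dy_log (hf : DifferentiableAt ℝ f z) (h0 : f z ≠ 0) :
    dy (fun z => Real.log (f z)) z = dy f z / f z := by
  unfold dy
  rw [(hf.hasFDerivAt.log h0).fderiv]
  simp; ring

theorem lap_log (hf : ContDiff ℝ 2 f) (h0 : ∀ z, f z ≠ 0) (z : ℂ) :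
    lap (fun z => Real.log (f z)) z = (f z * lap f z - gsq f z) / f z ^ 2 := by
  have df := hf.differentiable (by norm_num)
  have dfx := (contDiff_dx1 hf).differentiable (by norm_num)
  have dfy := (contDiff_dy1 hf).differentiable (by norm_num)
  have h1 : dx (fun z => Real.log (f z)) = fun z => dx f z * (f z)⁻¹ := by
    ext y; rw [dx_log (df y) (h0 y)]; ring
  have h2 : dy (fun z => Real.log (f z)) = fun z => dy f z * (f z)⁻¹ := by
    ext y; rw [dy_log (df y) (h0 y)]; ring
  have dinv : DifferentiableAt ℝ (fun z => (f z)⁻¹) z := (df z).inv (h0 z)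
  have hinv : HasFDerivAt (fun z => (f z)⁻¹) (-(f z ^ 2)⁻¹ • fderiv ℝ f z) z :=
    (hasDerivAt_inv (h0 z)).comp_hasFDerivAt z (df z).hasFDerivAt
  have h3 : dx (fun z => (f z)⁻¹) z = -dx f z / f z ^ 2 := by
    unfold dx
    rw [hinv.fderiv]
    simp; ring
  have h4 : dy (fun z => (f z)⁻¹) z = -dy f z / f z ^ 2 := by
    unfold dy
    rw [hinv.fderiv]
    simp; ring
  unfold lap
  rw [h1, h2, dx_mul (dfx z) dinv, dy_mul (dfy z) dinv, h3, h4]
  unfold gsq
  have := h0 z
  field_simp
  ring

end Pool.Agent.Helper904_QS
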