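import Pool.Agent.Helper904_QS.Stmts
import Pool.Agent.Helper904_QS.Calc

/-!
# CIRC: Step 1 of the typical point theorem (PAPER.md, section 3)
-/

set_option autoImplicit false

open MeasureTheory Set Metric Filter Topology
open scoped ContDiff

namespace Pool.Agent.Helper904_QS.PCIRC

theorem klog (R : ℝ) (hR : 0 < R) :
    (∫⁻ t in Icc (-R) R, ENNReal.ofReal (Real.log R - Real.log t)) ≠ ⊤ := by
  have h : IntegrableOn (fun t => Real.log R - Real.log t) (Icc (-R) R) volume := by
    have h1 : IntervalIntegrable (fun t => Real.log R - Real.log t) volume (-R) R :=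
      intervalIntegrable_const.sub intervalIntegral.intervalIntegrable_log'
    exact (intervalIntegrable_iff_integrableOn_Icc_of_le (by linarith)).1 h1
  exact h.lintegral_lt_top.ne

theorem kshift (R s a b : ℝ) (h1 : s - b ≥ -R) (h2 : s - a ≤ R) :
    (∫⁻ r in Icc a b, ENNReal.ofReal (Real.log R - Real.log (s - r))) ≤
      ∫⁻ t in Icc (-R) R, ENNReal.ofReal (Real.log R - Real.log t) := by
  rw [← lintegral_indicator measurableSet_Icc, ← lintegral_indicator measurableSet_Icc]
  rw [← lintegral_sub_left_eq_self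
    ((Icc (-R) R).indicator (fun t => ENNReal.ofReal (Real.log R - Real.log t))) s]
  apply lintegral_mono
  intro r
  by_cases hr : r ∈ Icc a b
  · have hr' : s - r ∈ Icc (-R) R := ⟨by linarith [hr.2], by linarith [hr.1]⟩
    simp only [indicator_of_mem hr, indicator_of_mem hr']
    exact le_rfl
  · simp only [indicator_of_notMem hr]
    exact zero_le

/-- selection of the radius -/
theorem sel (R r₀ M : ℝ) (hR : 0 < R) (hr₀ : 0 < r₀) (h4 : 4 * r₀ ≤ R) (hM : 0 ≤ M) (h : ℂ → ℝ)
    (hc : Continuous h)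
    (hm : ∫⁻ z in ball (0 : ℂ) (4 * r₀), ENNReal.ofReal (h z) ≤ ENNReal.ofReal (M * r₀ ^ 2)) :
    ∃ r ∈ Icc r₀ (2 * r₀),
      ∫⁻ z in ball (0 : ℂ) (4 * r₀), ENNReal.ofReal (Real.log R - Real.log (‖z‖ - r)) *
        ENNReal.ofReal (h z) ≤
      ENNReal.ofReal (M * r₀ *
        (∫⁻ t in Icc (-R) R, ENNReal.ofReal (Real.log R - Real.log t)).toReal + 1) := by
  by_contra hcon
  push Not at hcon
  set K := ∫⁻ t in Icc (-R) R, ENNReal.ofReal (Real.log R - Real.log t) with hK
  have hKt : K ≠ ⊤ := klog R hR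
  -- Tonelli
  have h1 : ∫⁻ r in Icc r₀ (2 * r₀), ∫⁻ z in ball (0 : ℂ) (4 * r₀),
      ENNReal.ofReal (Real.log R - Real.log (‖z‖ - r)) * ENNReal.ofReal (h z) ≤
      K * ENNReal.ofReal (M * r₀ ^ 2) := by
    rw [lintegral_lintegral_swap]
    · calc ∫⁻ z in ball (0 : ℂ) (4 * r₀), ∫⁻ r in Icc r₀ (2 * r₀),
          ENNReal.ofReal (Real.log R - Real.log (‖z‖ - r)) * ENNReal.ofReal (h z)
          ≤ ∫⁻ z in ball (0 : ℂ) (4 * r₀), K * ENNReal.ofReal (h z) := by
            apply setLIntegral_mono' measurableSet_ball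
            intro z hz
            have hz' : ‖z‖ < 4 * r₀ := by simpa using hz
            rw [lintegral_mul_const']
            · gcongr
              exact kshift R ‖z‖ r₀ (2 * r₀) (by linarith [norm_nonneg z]) (by linarith)
            · exact ENNReal.ofReal_ne_top
        _ = K * ∫⁻ z in ball (0 : ℂ) (4 * r₀), ENNReal.ofReal (h z) := by
            rw [lintegral_const_mul']
            exact hKt
        _ ≤ K * ENNReal.ofReal (M * r₀ ^ 2) := by gcongr
    · apply Measurable.aemeasurable
      have m1 : Measurable (fun p : ℝ × ℂ => Real.log (‖p.2‖ - p.1)) :=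
        Real.measurable_log.comp ((measurable_snd.norm).sub measurable_fst)
      have m2 : Measurable (fun p : ℝ × ℂ => h p.2) := hc.measurable.comp measurable_snd
      exact ((measurable_const.sub m1).ennreal_ofReal).mul m2.ennreal_ofReal
  have h2 : ENNReal.ofReal ((M * r₀ * K.toReal + 1) * r₀) ≤
      ∫⁻ r in Icc r₀ (2 * r₀), ∫⁻ z in ball (0 : ℂ) (4 * r₀),
      ENNReal.ofReal (Real.log R - Real.log (‖z‖ - r)) * ENNReal.ofReal (h z) := by
    calc ENNReal.ofReal ((M * r₀ * K.toReal + 1) * r₀)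
        = ∫⁻ _r in Icc r₀ (2 * r₀), ENNReal.ofReal (M * r₀ * K.toReal + 1) := by
          rw [setLIntegral_const, Real.volume_Icc, ← ENNReal.ofReal_mul (by positivity)]
          congr 1; ring
      _ ≤ _ := by
          apply setLIntegral_mono' measurableSet_Icc
          intro r hr
          exact (hcon r hr).le
  have h3 := h2.trans h1
  have h4 : K * ENNReal.ofReal (M * r₀ ^ 2) = ENNReal.ofReal (K.toReal * (M * r₀ ^ 2)) := by
    rw [ENNReal.ofReal_mul ENNReal.toReal_nonneg, ENNReal.ofReal_toReal hKt]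
  rw [h4, ENNReal.ofReal_le_ofReal_iff (by positivity)] at h3
  nlinarith

theorem t_CIRC (hJ : S_J) (hKER : S_KER) (hINT : S_INT) (hLC : S_LC) : S_CIRC := by
  intro C₁ T hC₁ hT
  set R : ℝ := 8 * T with hRdef
  have hR : 0 < R := by positivity
  set K : ℝ := (∫⁻ t in Icc (-R) R, ENNReal.ofReal (Real.log R - Real.log t)).toReal with hK
  have hK0 : 0 ≤ K := ENNReal.toReal_nonneg
  set C₂ : ℝ := 16 * R ^ 2 / 3 * (2 * Real.pi + 8 * C₁ * R ^ 2) with hC₂
  have hC₂0 : 0 < C₂ := by positivity
  set C₃ : ℝ := 40 * T * C₂ / R ^ 3 + C₁ * R ^ 2 / 2 + (16 * C₁ * T * K + 1) + 2 * C₁ * R ^ 2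
    with hC₃
  have hC₃0 : 0 < C₃ := by positivity
  refine ⟨C₃ / (2 * Real.pi), by positivity, ?_⟩
  intro w hw hw0 hm
  have hcl : Continuous (lap w) := continuous_lap hw
  have hca : Continuous (fun z => |lap w z|) := hcl.abs
  have hR32 : 32 * T = 4 * R := by rw [hRdef]; ring
  rw [hR32] at hm hw0
  have hw00 : 0 ≤ w 0 := hw0 0 (by simp; positivity)
  set r₀ : ℝ := T * Real.exp (-w 0) with hr₀
  have hr₀0 : 0 < r₀ := by positivity
  have hr₀T : r₀ ≤ T := by
    have : Real.exp (-w 0) ≤ 1 := by rw [Real.exp_le_one_iff]; linarith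
    nlinarith
  have hr₀w : r₀ * (w 0 + 1) ≤ T := by
    have h1 : w 0 + 1 ≤ Real.exp (w 0) := Real.add_one_le_exp _
    have h2 : Real.exp (-w 0) * Real.exp (w 0) = 1 := by rw [← Real.exp_add]; simp
    have h3 : 0 < Real.exp (-w 0) := Real.exp_pos _
    calc r₀ * (w 0 + 1) ≤ r₀ * Real.exp (w 0) := by gcongr
      _ = T * (Real.exp (-w 0) * Real.exp (w 0)) := by rw [hr₀]; ring
      _ = T := by rw [h2, mul_one]
  -- the logarithmic potentials at `0`
  have hlc : ∀ ρ : ℝ, 0 < ρ → ρ ≤ 4 * R →
      IntegrableOn (fun z => Real.log (ρ / ‖z‖) * |lap w z|) (ball 0 ρ) ∧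
        ∫ z in ball (0 : ℂ) ρ, Real.log (ρ / ‖z‖) * |lap w z| ≤ C₁ * ρ ^ 2 / 2 := by
    intro ρ hρ hρ2
    have := hLC (fun z => |lap w z|) 0 ρ C₁ hca (fun z => abs_nonneg _) hρ
      (fun t ht => hm t ⟨ht.1, ht.2.trans hρ2⟩)
    simpa using this
  have hPhi : ∀ ρ : ℝ, 0 < ρ → ρ ≤ 4 * R →
      ∫ z, Phi ρ z * |lap w z| ≤ C₁ * ρ ^ 2 / 2 := by
    intro ρ hρ hρ2
    obtain ⟨-, -, -, -, -, -, -, -, hP0, hPz, hPl, -⟩ := hKER ρ hρ
    obtain ⟨hi, hb⟩ := hlc ρ hρ hρ2
    refine le_trans ?_ hb
    rw [← integral_indicator measurableSet_ball]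
    apply integral_mono
    · have := (hINT (fun z => |lap w z|) 0 ρ hca hρ).2
      simpa using this
    · exact hi.integrable_indicator measurableSet_ball
    · intro z
      by_cases hz : z ∈ ball (0 : ℂ) ρ
      · rw [indicator_of_mem hz]
        have hz' : ‖z‖ < ρ := by simpa using hz
        by_cases hz0 : 0 < ‖z‖
        · exact mul_le_mul_of_nonneg_right (hPl z hz0 hz') (abs_nonneg _)
        · have : ‖z‖ = 0 := le_antisymm (not_lt.1 hz0) (norm_nonneg _)
          simp only [Phi, this]
          simp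
      · rw [indicator_of_notMem hz]
        have hz' : ρ ≤ ‖z‖ := by simpa using hz
        simp [hPz z hz']
  have hPhi' : ∀ ρ : ℝ, 0 < ρ → ρ ≤ 4 * R → ∀ y : ℂ,
      |∫ z, Phi ρ (z - y) * lap w z| ≤ ∫ z, Phi ρ (z - y) * |lap w z| := by
    intro ρ hρ _ y
    obtain ⟨-, -, -, -, -, -, -, -, hP0, -⟩ := hKER ρ hρ
    calc |∫ z, Phi ρ (z - y) * lap w z| ≤ ∫ z, |Phi ρ (z - y) * lap w z| :=
          abs_integral_le_integral_abs
      _ = ∫ z, Phi ρ (z - y) * |lap w z| := by
          congr 1; ext z; rw [abs_mul, abs_of_nonneg (hP0 _)]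
  -- the mass of `w`
  have hIw : IntegrableOn w (ball (0 : ℂ) (2 * R)) :=
    (hw.continuous.continuousOn.integrableOn_compact (isCompact_closedBall (0 : ℂ) (2 * R))).mono_set
      ball_subset_closedBall
  have hmass : ∫ z in ball (0 : ℂ) (2 * R), w z ≤ C₂ * (w 0 + 1) := by
    obtain ⟨-, hc0, -, hcz, hcl, -⟩ := hKER (4 * R) (by positivity)
    have hJ0 := hJ w 0 (4 * R) hw (by positivity)
    have hI0 := (hINT w 0 (4 * R) hw.continuous (by positivity)).1
    simp only [sub_zero] at hJ0 hI0
    have h1 : 3 / (4 * R) ^ 2 * ∫ z in ball (0 : ℂ) (2 * R), w z ≤ ∫ z, chi (4 * R) z * w z := by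
      rw [← integral_const_mul, ← integral_indicator measurableSet_ball]
      apply integral_mono
      · exact IntegrableOn.integrable_indicator (hIw.const_mul _) measurableSet_ball
      · exact hI0
      · intro z
        by_cases hz : z ∈ ball (0 : ℂ) (2 * R)
        · rw [indicator_of_mem hz]
          have hz' : ‖z‖ < 2 * R := by simpa using hz
          apply mul_le_mul_of_nonneg_right
          · exact hcl z (by linarith)
          · exact hw0 z (by simp; linarith)
        · rw [indicator_of_notMem hz]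
          by_cases hz4 : ‖z‖ < 4 * R
          · exact mul_nonneg (hc0 z) (hw0 z (by simpa using hz4))
          · simp [hcz z (not_lt.1 hz4)]
    have h2 : ∫ z, Phi (4 * R) z * lap w z ≤ C₁ * (4 * R) ^ 2 / 2 := by
      have := hPhi' (4 * R) (by positivity) le_rfl 0
      simp only [sub_zero] at this
      exact (le_abs_self _).trans (this.trans (hPhi (4 * R) (by positivity) le_rfl))
    have h3 : 3 / (4 * R) ^ 2 * ∫ z in ball (0 : ℂ) (2 * R), w z ≤
        2 * Real.pi * w 0 + C₁ * (4 * R) ^ 2 / 2 := by linarith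
    have h4 : ∫ z in ball (0 : ℂ) (2 * R), w z ≤
        16 * R ^ 2 / 3 * (2 * Real.pi * w 0 + C₁ * (4 * R) ^ 2 / 2) := by
      have : ∫ z in ball (0 : ℂ) (2 * R), w z =
          16 * R ^ 2 / 3 * (3 / (4 * R) ^ 2 * ∫ z in ball (0 : ℂ) (2 * R), w z) := by
        field_simp
        norm_num
      rw [this]
      gcongr
    refine h4.trans ?_
    have h5 : 2 * Real.pi * w 0 + C₁ * (4 * R) ^ 2 / 2 ≤
        (2 * Real.pi + 8 * C₁ * R ^ 2) * (w 0 + 1) := by
      have : 0 ≤ C₁ * R ^ 2 * w 0 := by positivity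
      nlinarith [Real.pi_pos]
    calc 16 * R ^ 2 / 3 * (2 * Real.pi * w 0 + C₁ * (4 * R) ^ 2 / 2)
        ≤ 16 * R ^ 2 / 3 * ((2 * Real.pi + 8 * C₁ * R ^ 2) * (w 0 + 1)) := by gcongr
      _ = C₂ * (w 0 + 1) := by rw [hC₂]; ring
  -- choice of the radius
  have hmass4 : ∫⁻ z in ball (0 : ℂ) (4 * r₀), ENNReal.ofReal |lap w z| ≤
      ENNReal.ofReal (16 * C₁ * r₀ ^ 2) := by
    rw [← ofReal_integral_eq_lintegral_ofReal]
    · apply ENNReal.ofReal_le_ofReal
      have := hm (4 * r₀) ⟨by positivity, by linarith⟩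
      nlinarith
    · exact (hca.continuousOn.integrableOn_compact
        (isCompact_closedBall (0 : ℂ) (4 * r₀))).mono_set ball_subset_closedBall
    · exact Eventually.of_forall (fun z => abs_nonneg _)
  obtain ⟨r, hr, hrs⟩ := sel R r₀ (16 * C₁) hR hr₀0 (by linarith) (by positivity)
    (fun z => |lap w z|) hca hmass4
  refine ⟨r, hr, ?_⟩
  intro y hy
  have hr0 : 0 < r := lt_of_lt_of_le hr₀0 hr.1
  have hrT : r ≤ 2 * T := hr.2.trans (by linarith)
  -- the singular part
  have hsing : ∫ z in ball (0 : ℂ) (4 * r₀), Phi R (z - y) * |lap w z| ≤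
      16 * C₁ * T * K + 1 := by
    obtain ⟨-, -, -, -, -, -, -, -, hP0, hPz, hPl, -⟩ := hKER R hR
    have hI : Integrable (fun z => Phi R (z - y) * |lap w z|) :=
      (hINT (fun z => |lap w z|) y R hca hR).2
    rw [integral_eq_lintegral_of_nonneg_ae
      (Eventually.of_forall fun z => mul_nonneg (hP0 _) (abs_nonneg _)) hI.1.restrict]
    apply ENNReal.toReal_le_of_le_ofReal (by positivity)
    refine le_trans ?_ (hrs.trans ?_)
    · apply setLIntegral_mono_ae'
      · exact measurableSet_ball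
      · have hnull : volume (sphere (0 : ℂ) r) = 0 := Measure.addHaar_sphere volume 0 r
        have : ∀ᵐ z : ℂ, z ∉ sphere (0 : ℂ) r := measure_eq_zero_iff_ae_notMem.1 hnull
        filter_upwards [this] with z hz hzb
        have hzb' : ‖z‖ < 4 * r₀ := by simpa using hzb
        have hz1 : ‖z‖ - r ≠ 0 := by
          intro h; apply hz; simp; linarith
        rw [ENNReal.ofReal_mul (hP0 _)]
        gcongr
        have h1 : |‖z‖ - r| ≤ ‖z - y‖ := by
          rw [← hy]; exact abs_norm_sub_norm_le z y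
        have h2 : 0 < |‖z‖ - r| := abs_pos.2 hz1
        have h3 : ‖z - y‖ < R := by
          have := norm_sub_le z y
          have h5 := hr.2
          linarith
        refine (hPl _ (h2.trans_le h1) h3).trans ?_
        rw [Real.log_div hR.ne' (h2.trans_le h1).ne']
        have : Real.log (‖z‖ - r) ≤ Real.log ‖z - y‖ := by
          rw [← Real.log_abs]
          exact Real.log_le_log h2 h1
        linarith
    · apply ENNReal.ofReal_le_ofReal
      gcongr
  -- the whole second term
  have hsec : ∫ z, Phi R (z - y) * |lap w z| ≤ (16 * C₁ * T * K + 1) + 2 * C₁ * R ^ 2 := by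
    obtain ⟨-, -, -, -, -, -, -, -, hP0, hPz, hPl, -⟩ := hKER R hR
    have hI : Integrable (fun z => Phi R (z - y) * |lap w z|) :=
      (hINT (fun z => |lap w z|) y R hca hR).2
    obtain ⟨hi2, hb2⟩ := hlc (2 * R) (by positivity) (by linarith)
    have h1 : ∫ z, Phi R (z - y) * |lap w z| ≤
        ∫ z, ((ball (0 : ℂ) (4 * r₀)).indicator (fun z => Phi R (z - y) * |lap w z|) z +
          (ball (0 : ℂ) (2 * R)).indicator (fun z => Real.log (2 * R / ‖z‖) * |lap w z|) z) := by
      apply integral_mono hI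
      · exact (hI.indicator measurableSet_ball).add (hi2.integrable_indicator measurableSet_ball)
      · intro z
        simp only
        have hnn : 0 ≤ (ball (0 : ℂ) (2 * R)).indicator
            (fun z => Real.log (2 * R / ‖z‖) * |lap w z|) z := by
          apply indicator_nonneg
          intro z hz
          have hz' : ‖z‖ < 2 * R := by simpa using hz
          apply mul_nonneg _ (abs_nonneg _)
          by_cases hz0 : 0 < ‖z‖
          · apply Real.log_nonneg
            rw [one_le_div hz0]; exact hz'.le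
          · have : ‖z‖ = 0 := le_antisymm (not_lt.1 hz0) (norm_nonneg _)
            simp [this]
        by_cases hz : z ∈ ball (0 : ℂ) (4 * r₀)
        · rw [indicator_of_mem hz]
          linarith
        · rw [indicator_of_notMem hz, zero_add]
          have hz' : 4 * r₀ ≤ ‖z‖ := by simpa using hz
          have hz2 : ‖y‖ ≤ ‖z‖ / 2 := by rw [hy]; linarith [hr.2]
          have hz3 : ‖z‖ / 2 ≤ ‖z - y‖ := by
            have := norm_sub_norm_le z y
            linarith
          have hz4 : 0 < ‖z‖ := by linarith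
          by_cases h3 : ‖z - y‖ < R
          · have hz5 : z ∈ ball (0 : ℂ) (2 * R) := by simp; linarith
            rw [indicator_of_mem hz5]
            apply mul_le_mul_of_nonneg_right _ (abs_nonneg _)
            refine (hPl _ (by linarith) h3).trans ?_
            apply Real.log_le_log (div_pos hR (by linarith))
            rw [div_le_div_iff₀ (by linarith) hz4]
            nlinarith
          · rw [hPz _ (not_lt.1 h3), zero_mul]
            exact hnn
    rw [integral_add (hI.indicator measurableSet_ball)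
      (hi2.integrable_indicator measurableSet_ball), integral_indicator measurableSet_ball,
      integral_indicator measurableSet_ball] at h1
    have h2 : C₁ * (2 * R) ^ 2 / 2 = 2 * C₁ * R ^ 2 := by ring
    linarith
  -- the first term
  have hfirst : ∫ z, (chi R (z - y) - chi R z) * w z ≤ 40 * T * C₂ / R ^ 3 := by
    obtain ⟨hcc, hc0, -, hcz, -, hcd, -⟩ := hKER R hR
    have hIy := (hINT w y R hw.continuous hR).1
    have hI0 := (hINT w 0 R hw.continuous hR).1
    simp only [sub_zero] at hI0
    have h1 : ∫ z, (chi R (z - y) - chi R z) * w z ≤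
        ∫ z in ball (0 : ℂ) (2 * R), 40 * r₀ / R ^ 3 * w z := by
      rw [← integral_indicator measurableSet_ball]
      apply integral_mono
      · have : (fun z => (chi R (z - y) - chi R z) * w z) =
            fun z => chi R (z - y) * w z - chi R z * w z := by ext z; ring
        rw [this]
        exact hIy.sub hI0
      · exact IntegrableOn.integrable_indicator (hIw.const_mul _) measurableSet_ball
      · intro z
        simp only
        by_cases hz : z ∈ ball (0 : ℂ) (2 * R)
        · rw [indicator_of_mem hz]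
          have hz' : ‖z‖ < 2 * R := by simpa using hz
          apply mul_le_mul_of_nonneg_right _ (hw0 z (by simp; linarith))
          refine (le_abs_self _).trans ((hcd z y).trans ?_)
          have hyr : ‖y‖ ≤ 2 * r₀ := by rw [hy]; exact hr.2
          have h2 : 2 * ‖z‖ + ‖y‖ ≤ 5 * R := by linarith
          have h3 : ‖y‖ * (2 * ‖z‖ + ‖y‖) ≤ 2 * r₀ * (5 * R) := by
            apply mul_le_mul hyr h2 (by positivity) (by positivity)
          calc 4 / R ^ 4 * (‖y‖ * (2 * ‖z‖ + ‖y‖)) ≤ 4 / R ^ 4 * (2 * r₀ * (5 * R)) := by gcongr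
            _ = 40 * r₀ / R ^ 3 := by field_simp; ring
        · rw [indicator_of_notMem hz]
          have hz' : 2 * R ≤ ‖z‖ := by simpa using hz
          have h2 : chi R z = 0 := hcz z (by linarith)
          have h3 : chi R (z - y) = 0 := by
            apply hcz
            have := norm_sub_norm_le z y
            linarith
          rw [h2, h3]; simp
    rw [integral_const_mul] at h1
    refine h1.trans ?_
    calc 40 * r₀ / R ^ 3 * ∫ z in ball (0 : ℂ) (2 * R), w z
        ≤ 40 * r₀ / R ^ 3 * (C₂ * (w 0 + 1)) := by gcongr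
      _ = 40 * (r₀ * (w 0 + 1)) * C₂ / R ^ 3 := by ring
      _ ≤ 40 * T * C₂ / R ^ 3 := by gcongr
  -- conclusion
  have hJy := hJ w y R hw hR
  have hJ0 := hJ w 0 R hw hR
  have hIy := (hINT w y R hw.continuous hR).1
  have hI0 := (hINT w 0 R hw.continuous hR).1
  simp only [sub_zero] at hI0 hJ0
  have hd : ∫ z, (chi R (z - y) - chi R z) * w z =
      (∫ z, chi R (z - y) * w z) - ∫ z, chi R z * w z := by
    rw [← integral_sub hIy hI0]
    congr 1; ext z; ring
  have hA : |∫ z, Phi R (z - y) * lap w z| ≤ (16 * C₁ * T * K + 1) + 2 * C₁ * R ^ 2 :=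
    (hPhi' R hR (by linarith) y).trans hsec
  have hB : |∫ z, Phi R z * lap w z| ≤ C₁ * R ^ 2 / 2 := by
    have := hPhi' R hR (by linarith) 0
    simp only [sub_zero] at this
    exact this.trans (hPhi R hR (by linarith))
  have hA' := (abs_le.1 hA).1
  have hB' := (abs_le.1 hB).2
  have hfin : 2 * Real.pi * (w y - w 0) ≤ C₃ := by
    have : 2 * Real.pi * (w y - w 0) = (∫ z, (chi R (z - y) - chi R z) * w z)
      - (∫ z, Phi R (z - y) * lap w z) + ∫ z, Phi R z * lap w z := by
      rw [hd]; linarith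
    rw [this, hC₃]
    linarith
  have h2pi : 0 < 2 * Real.pi := by positivity
  have : w y - w 0 ≤ C₃ / (2 * Real.pi) := by
    rw [le_div_iff₀ h2pi]; linarith
  linarith

end Pool.Agent.Helper904_QS.PCIRC
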