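import Pool.Agent.Helper904_QS.StmtsM
import Pool.Agent.Helper904_QS.Calc

/-!
# CMP: comparability of the derivatives of a function in two isothermal discs.
-/

set_option autoImplicit false

open MeasureTheory Set Metric Filter Topology Bundle
open scoped ContDiff Manifold

namespace Pool.Agent.Helper904_QS.PCMP

theorem fderiv_formula (f : ℂ → ℝ) (y v : ℂ) :
    fderiv ℝ f y v = v.re * dx f y + v.im * dy f y := by
  have h : v = v.re • (1 : ℂ) + v.im • Complex.I := by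
    apply Complex.ext <;> simp
  conv_lhs => rw [h]
  rw [map_add, map_smul, map_smul]
  rfl

theorem normSq_split (v : ℂ) : ‖v‖ ^ 2 = v.re ^ 2 + v.im ^ 2 := by
  rw [← Complex.normSq_eq_norm_sq, Complex.normSq_apply]; ring

theorem gsq_nonneg (f : ℂ → ℝ) (y : ℂ) : 0 ≤ gsq f y := by unfold gsq; positivity

theorem hsq_nonneg (f : ℂ → ℝ) (y : ℂ) : 0 ≤ hsq f y := by unfold hsq; positivity

theorem abs_fderiv_le (f : ℂ → ℝ) (y v : ℂ) : |fderiv ℝ f y v| ≤ √(gsq f y) * ‖v‖ := by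
  apply abs_le_of_sq_le_sq _ (by positivity)
  rw [mul_pow, Real.sq_sqrt (gsq_nonneg f y), fderiv_formula, normSq_split]
  unfold gsq
  nlinarith [sq_nonneg (v.re * dy f y - v.im * dx f y)]

theorem fderiv2_formula (f : ℂ → ℝ) (hf : ContDiff ℝ 2 f) (y w v : ℂ) :
    fderiv ℝ (fderiv ℝ f) y w v = v.re * (w.re * dx (dx f) y + w.im * dy (dx f) y) +
      v.im * (w.re * dx (dy f) y + w.im * dy (dy f) y) := by
  have h1 : ContDiff ℝ 1 (fderiv ℝ f) := hf.fderiv_right (by norm_num)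
  have h2 : DifferentiableAt ℝ (fderiv ℝ f) y := h1.differentiable (by norm_num) y
  have e1 : fderiv ℝ (fun z => fderiv ℝ f z v) y = (fderiv ℝ (fderiv ℝ f) y).flip v := by
    rw [fderiv_clm_apply h2 (differentiableAt_const v)]
    simp
  have e2 : fderiv ℝ (fderiv ℝ f) y w v = fderiv ℝ (fun z => fderiv ℝ f z v) y w := by
    rw [e1]; simp
  have hx : DifferentiableAt ℝ (dx f) y := (contDiff_dx1 hf).differentiable (by norm_num) y
  have hy : DifferentiableAt ℝ (dy f) y := (contDiff_dy1 hf).differentiable (by norm_num) y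
  have e3 : (fun z => fderiv ℝ f z v) = fun z => v.re * dx f z + v.im * dy f z := by
    ext z; exact fderiv_formula f z v
  rw [e2, e3, fderiv_fun_add (hx.const_mul _) (hy.const_mul _), fderiv_const_mul hx,
    fderiv_const_mul hy]
  simp only [add_apply, smul_apply, smul_eq_mul]
  rw [fderiv_formula (dx f), fderiv_formula (dy f)]

theorem abs_fderiv2_le (f : ℂ → ℝ) (hf : ContDiff ℝ 2 f) (y w v : ℂ) :
    |fderiv ℝ (fderiv ℝ f) y w v| ≤ √(hsq f y) * (‖w‖ * ‖v‖) := by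
  apply abs_le_of_sq_le_sq _ (by positivity)
  rw [mul_pow, mul_pow, Real.sq_sqrt (hsq_nonneg f y), fderiv2_formula f hf, normSq_split,
    normSq_split, ← dx_dy hf]
  unfold hsq
  set a := dx (dx f) y
  set b := dx (dy f) y
  set c := dy (dy f) y
  set p := v.re
  set q := v.im
  set r := w.re
  set s := w.im
  have h1 : (p * (r * a + s * b) + q * (r * b + s * c)) ^ 2 ≤
      (p ^ 2 + q ^ 2) * ((r * a + s * b) ^ 2 + (r * b + s * c) ^ 2) := by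
    nlinarith [sq_nonneg (p * (r * b + s * c) - q * (r * a + s * b))]
  have h2 : (r * a + s * b) ^ 2 ≤ (r ^ 2 + s ^ 2) * (a ^ 2 + b ^ 2) := by
    nlinarith [sq_nonneg (r * b - s * a)]
  have h3 : (r * b + s * c) ^ 2 ≤ (r ^ 2 + s ^ 2) * (b ^ 2 + c ^ 2) := by
    nlinarith [sq_nonneg (r * c - s * b)]
  have h4 : 0 ≤ p ^ 2 + q ^ 2 := by positivity
  calc (p * (r * a + s * b) + q * (r * b + s * c)) ^ 2
      ≤ (p ^ 2 + q ^ 2) * ((r * a + s * b) ^ 2 + (r * b + s * c) ^ 2) := h1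
    _ ≤ (p ^ 2 + q ^ 2) * ((r ^ 2 + s ^ 2) * (a ^ 2 + b ^ 2) +
          (r ^ 2 + s ^ 2) * (b ^ 2 + c ^ 2)) := by
        apply mul_le_mul_of_nonneg_left (add_le_add h2 h3) h4
    _ = (a ^ 2 + 2 * b ^ 2 + c ^ 2) * ((r ^ 2 + s ^ 2) * (p ^ 2 + q ^ 2)) := by ring

/-- bounds for the derivatives of a composition -/
theorem comp_bounds (f : ℂ → ℝ) (τ : ℂ → ℂ) (V : Set ℂ) (hV : IsOpen V) (hf : ContDiff ℝ 2 f)
    (hτ : ∀ y ∈ V, ContDiffAt ℝ 2 τ y) (B : ℝ) (hB : 1 ≤ B)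
    (h1 : ∀ y ∈ V, ‖fderiv ℝ τ y‖ ≤ B) (h2 : ∀ y ∈ V, ‖fderiv ℝ (fderiv ℝ τ) y‖ ≤ B)
    (z : ℂ) (hz : z ∈ V) :
    gsq (fun y => f (τ y)) z ≤ 8 * B ^ 4 * gsq f (τ z) ∧
    hsq (fun y => f (τ y)) z ≤ 8 * B ^ 4 * (hsq f (τ z) + gsq f (τ z)) := by
  have hB0 : 0 ≤ B := by linarith
  have hd : Differentiable ℝ f := hf.differentiable (by norm_num)
  have hd1 : ContDiff ℝ 1 (fderiv ℝ f) := hf.fderiv_right (by norm_num)
  have hd2 : Differentiable ℝ (fderiv ℝ f) := hd1.differentiable (by norm_num)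
  have hτd : ∀ y ∈ V, DifferentiableAt ℝ τ y := fun y hy =>
    (hτ y hy).differentiableAt (by norm_num)
  have hτd2 : ∀ y ∈ V, DifferentiableAt ℝ (fderiv ℝ τ) y := fun y hy =>
    ((hτ y hy).fderiv_right (m := 1) (by norm_num)).differentiableAt (by norm_num)
  have e1 : ∀ v : ℂ, ∀ y ∈ V, fderiv ℝ (fun y => f (τ y)) y v =
      fderiv ℝ f (τ y) (fderiv ℝ τ y v) := by
    intro v y hy
    have h := (hd (τ y)).hasFDerivAt.comp y (hτd y hy).hasFDerivAt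
    have h' : fderiv ℝ (fun y => f (τ y)) y = (fderiv ℝ f (τ y)).comp (fderiv ℝ τ y) := h.fderiv
    rw [h']
    rfl
  have b1 : ∀ v : ℂ, ‖v‖ = 1 → |fderiv ℝ (fun y => f (τ y)) z v| ≤ √(gsq f (τ z)) * B := by
    intro v hv
    rw [e1 v z hz]
    refine (abs_fderiv_le f (τ z) _).trans ?_
    apply mul_le_mul_of_nonneg_left _ (Real.sqrt_nonneg _)
    have := (fderiv ℝ τ z).le_opNorm v
    rw [hv, mul_one] at this
    exact this.trans (h1 z hz)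
  have e2 : ∀ v w : ℂ, fderiv ℝ (fun y => fderiv ℝ (fun y => f (τ y)) y v) z w =
      fderiv ℝ (fderiv ℝ f) (τ z) (fderiv ℝ τ z w) (fderiv ℝ τ z v) +
      fderiv ℝ f (τ z) (fderiv ℝ (fderiv ℝ τ) z w v) := by
    intro v w
    have hc : (fun y => fderiv ℝ (fun y => f (τ y)) y v) =ᶠ[𝓝 z]
        fun y => fderiv ℝ f (τ y) (fderiv ℝ τ y v) := by
      filter_upwards [hV.mem_nhds hz] with y hy using e1 v y hy
    rw [hc.fderiv_eq]
    have ha : HasFDerivAt (fun y => fderiv ℝ f (τ y))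
        ((fderiv ℝ (fderiv ℝ f) (τ z)).comp (fderiv ℝ τ z)) z :=
      (hd2 (τ z)).hasFDerivAt.comp z (hτd z hz).hasFDerivAt
    have hb : HasFDerivAt (fun y => fderiv ℝ τ y v)
        ((fderiv ℝ (fderiv ℝ τ) z).flip v) z := by
      have h := (hτd2 z hz).hasFDerivAt.clm_apply (hasFDerivAt_const v z)
      convert! h using 1
      simp
    have h := ha.clm_apply hb
    rw [h.fderiv]
    simp
    ring
  have b2 : ∀ v w : ℂ, ‖v‖ = 1 → ‖w‖ = 1 →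
      |fderiv ℝ (fun y => fderiv ℝ (fun y => f (τ y)) y v) z w| ≤
      √(hsq f (τ z)) * (B * B) + √(gsq f (τ z)) * B := by
    intro v w hv hw
    rw [e2 v w]
    have n1 : ‖fderiv ℝ τ z v‖ ≤ B := by
      have := (fderiv ℝ τ z).le_opNorm v
      rw [hv, mul_one] at this
      exact this.trans (h1 z hz)
    have n2 : ‖fderiv ℝ τ z w‖ ≤ B := by
      have := (fderiv ℝ τ z).le_opNorm w
      rw [hw, mul_one] at this
      exact this.trans (h1 z hz)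
    have n3 : ‖fderiv ℝ (fderiv ℝ τ) z w v‖ ≤ B := by
      have := (fderiv ℝ (fderiv ℝ τ) z).le_opNorm₂ w v
      rw [hw, hv, mul_one, mul_one] at this
      exact this.trans (h2 z hz)
    refine (abs_add_le _ _).trans (add_le_add ?_ ?_)
    · refine (abs_fderiv2_le f hf (τ z) _ _).trans ?_
      apply mul_le_mul_of_nonneg_left _ (Real.sqrt_nonneg _)
      exact mul_le_mul n2 n1 (norm_nonneg _) hB0
    · refine (abs_fderiv_le f (τ z) _).trans ?_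
      exact mul_le_mul_of_nonneg_left n3 (Real.sqrt_nonneg _)
  have g0 := gsq_nonneg f (τ z)
  have h0 := hsq_nonneg f (τ z)
  have hB2 : B ^ 2 ≤ B ^ 4 := pow_le_pow_right₀ hB (by norm_num)
  have sg : √(gsq f (τ z)) ^ 2 = gsq f (τ z) := Real.sq_sqrt g0
  have sh : √(hsq f (τ z)) ^ 2 = hsq f (τ z) := Real.sq_sqrt h0
  have q1 : ∀ v : ℂ, ‖v‖ = 1 → (fderiv ℝ (fun y => f (τ y)) z v) ^ 2 ≤ B ^ 4 * gsq f (τ z) := by
    intro v hv
    have h := b1 v hv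
    have h' : (fderiv ℝ (fun y => f (τ y)) z v) ^ 2 ≤ (√(gsq f (τ z)) * B) ^ 2 :=
      sq_le_sq' (by linarith [(abs_le.mp h).1]) (abs_le.mp h).2
    rw [mul_pow, sg] at h'
    nlinarith
  have q2 : ∀ v w : ℂ, ‖v‖ = 1 → ‖w‖ = 1 →
      (fderiv ℝ (fun y => fderiv ℝ (fun y => f (τ y)) y v) z w) ^ 2 ≤
        2 * B ^ 4 * (hsq f (τ z) + gsq f (τ z)) := by
    intro v w hv hw
    have h := b2 v w hv hw
    have h' : (fderiv ℝ (fun y => fderiv ℝ (fun y => f (τ y)) y v) z w) ^ 2 ≤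
        (√(hsq f (τ z)) * (B * B) + √(gsq f (τ z)) * B) ^ 2 :=
      sq_le_sq' (by linarith [(abs_le.mp h).1]) (abs_le.mp h).2
    have h3 : (√(hsq f (τ z)) * (B * B) + √(gsq f (τ z)) * B) ^ 2 ≤
        2 * ((√(hsq f (τ z)) * (B * B)) ^ 2 + (√(gsq f (τ z)) * B) ^ 2) := by
      nlinarith [sq_nonneg (√(hsq f (τ z)) * (B * B) - √(gsq f (τ z)) * B)]
    have h4 : (√(hsq f (τ z)) * (B * B)) ^ 2 = hsq f (τ z) * B ^ 4 := by
      rw [mul_pow, sh]; ring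
    have h5 : (√(gsq f (τ z)) * B) ^ 2 = gsq f (τ z) * B ^ 2 := by
      rw [mul_pow, sg]
    rw [h4, h5] at h3
    nlinarith
  have n1 : ‖(1 : ℂ)‖ = 1 := by simp
  have nI : ‖Complex.I‖ = 1 := by simp
  have B4 : 1 ≤ B ^ 4 := one_le_pow₀ hB
  constructor
  · have a1 := q1 1 n1
    have a2 := q1 Complex.I nI
    unfold gsq at *
    unfold dx dy at *
    nlinarith
  · have a1 := q2 1 1 n1 n1
    have a2 := q2 Complex.I 1 nI n1
    have a3 := q2 Complex.I Complex.I nI nI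
    have : hsq (fun y => f (τ y)) z =
        (fderiv ℝ (fun y => fderiv ℝ (fun y => f (τ y)) y 1) z 1) ^ 2 +
        2 * (fderiv ℝ (fun y => fderiv ℝ (fun y => f (τ y)) y Complex.I) z 1) ^ 2 +
        (fderiv ℝ (fun y => fderiv ℝ (fun y => f (τ y)) y Complex.I) z Complex.I) ^ 2 := rfl
    rw [this]
    linarith

theorem ev_norm {E F : Type*} [NormedAddCommGroup F] [TopologicalSpace E] {g : E → F} {x : E}
    {B : ℝ} (h : ContinuousAt g x) (hB : ‖g x‖ < B) : ∀ᶠ z in 𝓝 x, ‖g z‖ < B :=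
  h.norm.eventually_lt_const hB

/-- bounds near one point -/
theorem local_bound (M : Type) [TopologicalSpace M] [T2Space M]
    [ChartedSpace E2 M] [IsManifold (𝓡 2) ∞ M]
    [RiemannianBundle (fun x : M => TangentSpace (𝓡 2) x)]
    (e e' : OpenPartialHomeomorph M E2) (ψ ψ' : ℂ → M) (σ σ' : ℂ → ℝ)
    (hI : IsoPar M e ψ σ) (hI' : IsoPar M e' ψ' σ') (z₀ z₀' : ℂ)
    (hz₀ : z₀ ∈ closedBall (0 : ℂ) (3 / 2)) (hz₀' : z₀' ∈ closedBall (0 : ℂ) (1 / 2)) :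
    ∃ N ∈ 𝓝 (z₀, z₀'), ∃ C : ℝ, 1 ≤ C ∧
    ∀ (u : M → ℝ) (f f' : ℂ → ℝ), ContDiff ℝ 4 f → ContDiff ℝ 4 f' →
    (∀ z ∈ ball (0 : ℂ) (7 / 4), f z = u (ψ z)) → (∀ z ∈ ball (0 : ℂ) (7 / 4), f' z = u (ψ' z)) →
    ∀ p ∈ N, ψ p.1 = ψ' p.2 →
    gsq f p.1 ≤ C * gsq f' p.2 ∧ hsq f p.1 ≤ C * (hsq f' p.2 + gsq f' p.2) := by
  have hb2 : z₀ ∈ ball (0 : ℂ) 2 := by
    rw [mem_closedBall] at hz₀; rw [mem_ball]; linarith
  have hb2' : z₀' ∈ ball (0 : ℂ) 2 := by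
    rw [mem_closedBall] at hz₀'; rw [mem_ball]; linarith
  have hb7 : z₀ ∈ ball (0 : ℂ) (7 / 4) := by
    rw [mem_closedBall] at hz₀; rw [mem_ball]; linarith
  have hb7' : z₀' ∈ ball (0 : ℂ) (7 / 4) := by
    rw [mem_closedBall] at hz₀'; rw [mem_ball]; linarith
  have n2 : ball (0 : ℂ) 2 ∈ 𝓝 z₀ := isOpen_ball.mem_nhds hb2
  have n2' : ball (0 : ℂ) 2 ∈ 𝓝 z₀' := isOpen_ball.mem_nhds hb2'
  have cψ : ContinuousAt ψ z₀ := hI.cont.continuousAt n2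
  have cψ' : ContinuousAt ψ' z₀' := hI'.cont.continuousAt n2'
  by_cases heq : ψ z₀ = ψ' z₀'
  swap
  · have c1 : ContinuousAt (fun p : ℂ × ℂ => ψ p.1) (z₀, z₀') :=
      ContinuousAt.comp (f := Prod.fst) (g := ψ) (x := (z₀, z₀')) cψ continuousAt_fst
    have c2 : ContinuousAt (fun p : ℂ × ℂ => ψ' p.2) (z₀, z₀') :=
      ContinuousAt.comp (f := Prod.snd) (g := ψ') (x := (z₀, z₀')) cψ' continuousAt_snd
    have hne := (ContinuousAt.ne_iff_eventually_ne c1 c2).mp heq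
    refine ⟨_, hne, 1, le_rfl, ?_⟩
    intro u f f' _ _ _ _ p hp hp2
    exact absurd hp2 hp
  -- the map `F' = e' ∘ ψ'` and its local inverse
  set F' : ℂ → E2 := fun z => e' (ψ' z) with hF'
  have sF' : ContDiffAt ℝ 5 F' z₀' := hI'.sm.contDiffAt n2'
  have dF' : DifferentiableAt ℝ F' z₀' := sF'.differentiableAt (by norm_num)
  have hinj : Function.Injective (fderiv ℝ F' z₀') := hI'.imm z₀' hb2'
  have hfr : Module.finrank ℝ ℂ = Module.finrank ℝ E2 := by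
    rw [Complex.finrank_real_complex]; simp
  let L : ℂ ≃L[ℝ] E2 := (LinearEquiv.ofInjectiveOfFinrankEq
    (fderiv ℝ F' z₀' : ℂ →ₗ[ℝ] E2) hinj hfr).toContinuousLinearEquiv
  have hL : HasFDerivAt F' (L : ℂ →L[ℝ] E2) z₀' := by
    convert! dF'.hasFDerivAt using 1
  set R := sF'.toOpenPartialHomeomorph F' hL (by norm_num) with hR
  have hRc : ∀ z, R z = F' z := fun z => rfl
  have hz₀R : z₀' ∈ R.source := sF'.mem_toOpenPartialHomeomorph_source hL (by norm_num)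
  have hF'T : F' z₀' ∈ R.target := sF'.image_mem_toOpenPartialHomeomorph_target hL (by norm_num)
  have sRs : ContDiffAt ℝ 5 R.symm (F' z₀') := sF'.to_localInverse hL (by norm_num)
  -- the map `T = e' ∘ ψ`
  have hx0 : ψ z₀ ∈ e'.source := by rw [heq]; exact hI'.src z₀' hb2'
  have hT0 : e' (ψ z₀) = F' z₀' := by rw [heq]
  have sT : ContDiffAt ℝ 5 (fun z => e' (ψ z)) z₀ := by
    have h1 : ContMDiffAt (𝓡 2) (𝓡 2) ∞ e.symm (e (ψ z₀)) :=
      contMDiffAt_symm_of_mem_maximalAtlas (IsManifold.subset_maximalAtlas hI.chart)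
        (e.map_source (hI.src z₀ hb2))
    have h2 : ContMDiffAt (𝓡 2) (𝓡 2) ∞ e' (e.symm (e (ψ z₀))) := by
      rw [e.left_inv (hI.src z₀ hb2)]
      exact contMDiffAt_of_mem_maximalAtlas (IsManifold.subset_maximalAtlas hI'.chart) hx0
    have h3 : ContMDiffAt (𝓡 2) (𝓡 2) ∞ (e' ∘ e.symm) (e (ψ z₀)) := h2.comp _ h1
    have h4 : ContDiffAt ℝ ∞ (e' ∘ e.symm) (e (ψ z₀)) := contMDiffAt_iff_contDiffAt.mp h3
    have h5 : ContDiffAt ℝ 5 (fun z => e (ψ z)) z₀ := hI.sm.contDiffAt n2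
    have h6 : ContDiffAt ℝ 5 ((e' ∘ e.symm) ∘ (fun z => e (ψ z))) z₀ :=
      (h4.of_le ENat.LEInfty.out).comp z₀ h5
    refine h6.congr_of_eventuallyEq ?_
    filter_upwards [n2] with z hz
    simp [e.left_inv (hI.src z hz)]
  set τ : ℂ → ℂ := fun z => R.symm (e' (ψ z)) with hτ
  have hτ0 : τ z₀ = z₀' := by
    rw [hτ]
    simp only
    rw [hT0, ← hRc z₀', R.left_inv hz₀R]
  have sτ : ContDiffAt ℝ 5 τ z₀ := by
    have h : ContDiffAt ℝ 5 R.symm (e' (ψ z₀)) := by rw [hT0]; exact sRs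
    exact h.comp z₀ sT
  have cτ : ContinuousAt τ z₀ := sτ.continuousAt
  have sτ1 : ContDiffAt ℝ 4 (fderiv ℝ τ) z₀ := sτ.fderiv_right (by norm_num)
  have sτ2 : ContDiffAt ℝ 3 (fderiv ℝ (fderiv ℝ τ)) z₀ := sτ1.fderiv_right (by norm_num)
  set B : ℝ := 1 + ‖fderiv ℝ τ z₀‖ + ‖fderiv ℝ (fderiv ℝ τ) z₀‖ with hB
  have hB1 : 1 ≤ B := by
    rw [hB]; linarith [norm_nonneg (fderiv ℝ τ z₀), norm_nonneg (fderiv ℝ (fderiv ℝ τ) z₀)]
  have ev1 : ∀ᶠ z in 𝓝 z₀, ‖fderiv ℝ τ z‖ < B :=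
    (sτ1.continuousAt.norm).eventually_lt_const (by
      rw [hB]; linarith [norm_nonneg (fderiv ℝ (fderiv ℝ τ) z₀)])
  have ev2 : ∀ᶠ z in 𝓝 z₀, ‖fderiv ℝ (fderiv ℝ τ) z‖ < B := by
    apply ev_norm sτ2.continuousAt
    rw [hB]; linarith [norm_nonneg (fderiv ℝ τ z₀)]
  have ev3 : ∀ᶠ z in 𝓝 z₀, ContDiffAt ℝ 2 τ z := by
    have := sτ.eventually (by simp)
    filter_upwards [this] with z hz
    exact hz.of_le (by norm_num)
  have ev4 : ∀ᶠ z in 𝓝 z₀, z ∈ ball (0 : ℂ) (7 / 4) := isOpen_ball.mem_nhds hb7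
  have ev5 : ∀ᶠ z in 𝓝 z₀, ψ z ∈ e'.source :=
    cψ.preimage_mem_nhds (e'.open_source.mem_nhds hx0)
  have ev6 : ∀ᶠ z in 𝓝 z₀, τ z ∈ ball (0 : ℂ) (7 / 4) := by
    apply cτ.preimage_mem_nhds
    rw [hτ0]
    exact isOpen_ball.mem_nhds hb7'
  have ev7 : ∀ᶠ z in 𝓝 z₀, e' (ψ z) ∈ R.target := by
    apply sT.continuousAt.preimage_mem_nhds
    apply R.open_target.mem_nhds
    rw [hT0]
    exact hF'T
  have hall := ev1.and (ev2.and (ev3.and (ev4.and (ev5.and (ev6.and ev7)))))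
  obtain ⟨V, hVs, hVo, hV0⟩ := _root_.mem_nhds_iff.mp hall
  refine ⟨V ×ˢ (R.source ∩ ball (0 : ℂ) (7 / 4)), ?_, 8 * B ^ 4, ?_, ?_⟩
  · exact prod_mem_nhds (hVo.mem_nhds hV0)
      (inter_mem (R.open_source.mem_nhds hz₀R) (isOpen_ball.mem_nhds hb7'))
  · have : 1 ≤ B ^ 4 := one_le_pow₀ hB1
    linarith
  rintro u f f' sf sf' hf hf' ⟨z, z'⟩ ⟨hz, hz'⟩ hzz
  simp only at hz hz' hzz ⊢
  have hτz : τ z = z' := by
    rw [hτ]
    simp only
    rw [hzz]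
    exact R.left_inv hz'.1
  have hcong : ∀ y ∈ V, f y = (fun y => f' (τ y)) y := by
    intro y hy
    obtain ⟨-, -, -, y4, y5, y6, y7⟩ := hVs hy
    have y6' : τ y ∈ ball (0 : ℂ) 2 := ball_subset_ball (by norm_num) y6
    simp only
    rw [hf y y4, hf' (τ y) y6]
    congr 1
    apply e'.injOn y5 (hI'.src _ y6')
    exact (R.right_inv y7).symm
  have hg : gsq f z = gsq (fun y => f' (τ y)) z := by
    unfold gsq
    rw [dx_congr hVo hcong z hz, dy_congr hVo hcong z hz]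
  have hh : hsq f z = hsq (fun y => f' (τ y)) z := by
    unfold hsq
    rw [dx_congr hVo (dx_congr hVo hcong) z hz, dy_congr hVo (dy_congr hVo hcong) z hz,
      dx_congr hVo (dy_congr hVo hcong) z hz]
  have hcb := comp_bounds f' τ V hVo (sf'.of_le (by norm_num)) (fun y hy => (hVs hy).2.2.1) B hB1
    (fun y hy => (hVs hy).1.le) (fun y hy => (hVs hy).2.1.le) z hz
  rw [hg, hh, ← hτz]
  exact hcb

theorem pair_bound (M : Type) [TopologicalSpace M] [T2Space M]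
    [ChartedSpace E2 M] [IsManifold (𝓡 2) ∞ M]
    [RiemannianBundle (fun x : M => TangentSpace (𝓡 2) x)]
    (e e' : OpenPartialHomeomorph M E2) (ψ ψ' : ℂ → M) (σ σ' : ℂ → ℝ)
    (hI : IsoPar M e ψ σ) (hI' : IsoPar M e' ψ' σ') :
    ∃ C : ℝ, 1 ≤ C ∧
    ∀ (u : M → ℝ) (f f' : ℂ → ℝ), ContDiff ℝ 4 f → ContDiff ℝ 4 f' →
    (∀ z ∈ ball (0 : ℂ) (7 / 4), f z = u (ψ z)) → (∀ z ∈ ball (0 : ℂ) (7 / 4), f' z = u (ψ' z)) →
    ∀ z ∈ closedBall (0 : ℂ) (3 / 2), ∀ z' ∈ closedBall (0 : ℂ) (1 / 2), ψ z = ψ' z' →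
    gsq f z ≤ C * gsq f' z' ∧ hsq f z ≤ C * (hsq f' z' + gsq f' z') := by
  have hS : IsCompact (closedBall (0 : ℂ) (3 / 2) ×ˢ closedBall (0 : ℂ) (1 / 2)) :=
    (isCompact_closedBall _ _).prod (isCompact_closedBall _ _)
  have h := hS.induction_on (p := fun T : Set (ℂ × ℂ) => ∃ C : ℝ, 1 ≤ C ∧
    ∀ (u : M → ℝ) (f f' : ℂ → ℝ), ContDiff ℝ 4 f → ContDiff ℝ 4 f' →
    (∀ z ∈ ball (0 : ℂ) (7 / 4), f z = u (ψ z)) → (∀ z ∈ ball (0 : ℂ) (7 / 4), f' z = u (ψ' z)) →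
    ∀ p ∈ T, ψ p.1 = ψ' p.2 →
    gsq f p.1 ≤ C * gsq f' p.2 ∧ hsq f p.1 ≤ C * (hsq f' p.2 + gsq f' p.2)) ?_ ?_ ?_ ?_
  · obtain ⟨C, hC, h⟩ := h
    refine ⟨C, hC, ?_⟩
    intro u f f' sf sf' hf hf' z hz z' hz' hzz
    exact h u f f' sf sf' hf hf' (z, z') ⟨hz, hz'⟩ hzz
  · refine ⟨1, le_rfl, ?_⟩
    intro u f f' _ _ _ _ p hp
    exact absurd hp (notMem_empty p)
  · rintro s t hst ⟨C, hC, h⟩
    exact ⟨C, hC, fun u f f' a b c d p hp => h u f f' a b c d p (hst hp)⟩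
  · rintro s t ⟨C, hC, h⟩ ⟨C', hC', h'⟩
    refine ⟨max C C', hC.trans (le_max_left _ _), ?_⟩
    intro u f f' a b c d p hp hpp
    have g0 := gsq_nonneg f' p.2
    have h0 := hsq_nonneg f' p.2
    rcases hp with hp | hp
    · obtain ⟨h1, h2⟩ := h u f f' a b c d p hp hpp
      exact ⟨h1.trans (mul_le_mul_of_nonneg_right (le_max_left _ _) g0),
        h2.trans (mul_le_mul_of_nonneg_right (le_max_left _ _) (by positivity))⟩
    · obtain ⟨h1, h2⟩ := h' u f f' a b c d p hp hpp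
      exact ⟨h1.trans (mul_le_mul_of_nonneg_right (le_max_right _ _) g0),
        h2.trans (mul_le_mul_of_nonneg_right (le_max_right _ _) (by positivity))⟩
  · rintro ⟨z₀, z₀'⟩ ⟨hz₀, hz₀'⟩
    obtain ⟨N, hN, C, hC, h⟩ := local_bound M e e' ψ ψ' σ σ' hI hI' z₀ z₀' hz₀ hz₀'
    exact ⟨N, mem_nhdsWithin_of_mem_nhds hN, C, hC, h⟩

theorem t_CMP : S_CMP := by
  intro M _ _ _ _ _ _ ι _ e ψ σ hI
  choose C hC h using fun i j => pair_bound M (e i) (e j) (ψ i) (ψ j) (σ i) (σ j) (hI i) (hI j)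
  refine ⟨1 + ∑ i, ∑ j, C i j, ?_, ?_⟩
  · have : 0 ≤ ∑ i, ∑ j, C i j :=
      Finset.sum_nonneg fun i _ => Finset.sum_nonneg fun j _ => by linarith [hC i j]
    linarith
  intro u f sf hf i j z hz z' hz' hzz
  have hle : C i j ≤ 1 + ∑ i, ∑ j, C i j := by
    have h1 : C i j ≤ ∑ j, C i j :=
      Finset.single_le_sum (f := fun j => C i j) (fun j _ => by linarith [hC i j])
        (Finset.mem_univ j)
    have h2 : ∑ j, C i j ≤ ∑ i, ∑ j, C i j :=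
      Finset.single_le_sum (f := fun i => ∑ j, C i j)
        (fun i _ => Finset.sum_nonneg fun j _ => by linarith [hC i j]) (Finset.mem_univ i)
    linarith
  obtain ⟨h1, h2⟩ := h i j u (f i) (f j) (sf i) (sf j) (hf i) (hf j) z hz z' hz' hzz
  have g0 := gsq_nonneg (f j) z'
  have h0 := hsq_nonneg (f j) z'
  exact ⟨h1.trans (mul_le_mul_of_nonneg_right hle g0),
    h2.trans (mul_le_mul_of_nonneg_right hle (by positivity))⟩

end Pool.Agent.Helper904_QS.PCMP
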