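import Pool.Agent.Helper904_QS.Stmts
import Pool.Agent.Helper904_QS.Calc

/-!
# G: Green's identity with a compactly supported `C²` function.
-/

set_option autoImplicit false

open MeasureTheory Set Metric Filter Topology
open scoped ContDiff

namespace Pool.Agent.Helper904_QS.PG

/-- integration by parts in the direction `v` -/
theorem ibp (f φ : ℂ → ℝ) (v : ℂ) (hf : ContDiff ℝ 1 f) (hφ : ContDiff ℝ 1 φ)
    (hc : HasCompactSupport φ) :
    ∫ z, φ z * fderiv ℝ f z v = -∫ z, fderiv ℝ φ z v * f z := by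
  have cf : Continuous (fun z => fderiv ℝ f z v) :=
    (contDiff_dv (n := 0) (by simpa using hf) v).continuous
  have cφ : Continuous (fun z => fderiv ℝ φ z v) :=
    (contDiff_dv (n := 0) (by simpa using hφ) v).continuous
  apply integral_mul_fderiv_eq_neg_fderiv_mul_of_integrable
  · exact (cφ.mul hf.continuous).integrable_of_hasCompactSupport
      ((hc.fderiv_apply (𝕜 := ℝ) v).mul_right)
  · exact (hφ.continuous.mul cf).integrable_of_hasCompactSupport hc.mul_right
  · exact (hφ.continuous.mul hf.continuous).integrable_of_hasCompactSupport hc.mul_right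
  · exact fun x _ => hφ.differentiable (by norm_num) x
  · exact fun x _ => hf.differentiable (by norm_num) x

/-- the second derivatives -/
theorem ibp2 (f φ : ℂ → ℝ) (v : ℂ) (hf : ContDiff ℝ 2 f) (hφ : ContDiff ℝ 2 φ)
    (hc : HasCompactSupport φ) :
    ∫ z, φ z * fderiv ℝ (fun z => fderiv ℝ f z v) z v =
      ∫ z, fderiv ℝ (fun z => fderiv ℝ φ z v) z v * f z := by
  have h1 : ContDiff ℝ 1 (fun z => fderiv ℝ f z v) := contDiff_dv (n := 1) hf v
  have h2 : ContDiff ℝ 1 (fun z => fderiv ℝ φ z v) := contDiff_dv (n := 1) hφ v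
  rw [ibp (fun z => fderiv ℝ f z v) φ v h1 (hφ.of_le (by norm_num)) hc]
  rw [ibp f (fun z => fderiv ℝ φ z v) v (hf.of_le (by norm_num)) h2 (hc.fderiv_apply (𝕜 := ℝ) v)]
  ring

theorem t_G : S_G := by
  intro f φ hf hφ hc
  have h1 : ContDiff ℝ 1 (dx f) := contDiff_dx1 hf
  have h2 : ContDiff ℝ 1 (dy f) := contDiff_dy1 hf
  have h3 : ContDiff ℝ 1 (dx φ) := contDiff_dx1 hφ
  have h4 : ContDiff ℝ 1 (dy φ) := contDiff_dy1 hφ
  have cx : HasCompactSupport (dx φ) := hc.fderiv_apply (𝕜 := ℝ) 1
  have cy : HasCompactSupport (dy φ) := hc.fderiv_apply (𝕜 := ℝ) Complex.I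
  have cxx : HasCompactSupport (dx (dx φ)) := cx.fderiv_apply (𝕜 := ℝ) 1
  have cyy : HasCompactSupport (dy (dy φ)) := cy.fderiv_apply (𝕜 := ℝ) Complex.I
  have e1 : ∫ z, φ z * dx (dx f) z = ∫ z, dx (dx φ) z * f z := ibp2 f φ 1 hf hφ hc
  have e2 : ∫ z, φ z * dy (dy f) z = ∫ z, dy (dy φ) z * f z := ibp2 f φ Complex.I hf hφ hc
  have i1 : Integrable (fun z => φ z * dx (dx f) z) :=
    (hφ.continuous.mul (continuous_dx h1)).integrable_of_hasCompactSupport hc.mul_right
  have i2 : Integrable (fun z => φ z * dy (dy f) z) :=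
    (hφ.continuous.mul (continuous_dy h2)).integrable_of_hasCompactSupport hc.mul_right
  have i3 : Integrable (fun z => dx (dx φ) z * f z) :=
    ((continuous_dx h3).mul hf.continuous).integrable_of_hasCompactSupport cxx.mul_right
  have i4 : Integrable (fun z => dy (dy φ) z * f z) :=
    ((continuous_dy h4).mul hf.continuous).integrable_of_hasCompactSupport cyy.mul_right
  calc ∫ z, φ z * lap f z = ∫ z, (φ z * dx (dx f) z + φ z * dy (dy f) z) := by
        congr 1; ext z; unfold lap; ring
    _ = ∫ z, (dx (dx φ) z * f z + dy (dy φ) z * f z) := by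
        rw [integral_add i1 i2, integral_add i3 i4, e1, e2]
    _ = ∫ z, lap φ z * f z := by
        congr 1; ext z; unfold lap; ring

end Pool.Agent.Helper904_QS.PG
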