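import Pool.Agent.Helper904_QS.Stmts
import Pool.Agent.Helper904_QS.Calc

/-!
MP_177f55_an, piece HK: large `k` on a compact surface covered by finitely many discs
(section 5 of PAPER.md).
-/

set_option autoImplicit false

open MeasureTheory Set Metric Filter Topology
open scoped ContDiff

namespace Pool.Agent.Helper904_QS.PHK

theorem bnd {ι : Type} [Fintype ι] (g : ι → ℂ → ℝ) {K : Set ℂ} (hK : IsCompact K)
    (hg : ∀ i, ContinuousOn (g i) K) : ∃ C : ℝ, 0 ≤ C ∧ ∀ i, ∀ z ∈ K, |g i z| ≤ C := by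
  have h : ∀ i, ∃ C : ℝ, ∀ z ∈ K, ‖g i z‖ ≤ C := fun i => hK.exists_bound_of_continuousOn (hg i)
  choose C hC using h
  refine ⟨∑ i, |C i|, Finset.sum_nonneg fun i _ => abs_nonneg _, ?_⟩
  intro i z hz
  calc |g i z| ≤ C i := hC i z hz
    _ ≤ |C i| := le_abs_self _
    _ ≤ ∑ i, |C i| := Finset.single_le_sum (f := fun i => |C i|) (fun i _ => abs_nonneg _)
        (Finset.mem_univ i)

theorem low {ι : Type} [Fintype ι] (g : ι → ℂ → ℝ) {K : Set ℂ} (hK : IsCompact K)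
    (hg : ∀ i, ContinuousOn (g i) K) (hpos : ∀ i, ∀ z ∈ K, 0 < g i z) :
    ∃ m : ℝ, 0 < m ∧ ∀ i, ∀ z ∈ K, m ≤ g i z := by
  obtain ⟨C, hC0, hC⟩ := bnd (fun i z => (g i z)⁻¹) hK
    (fun i => (hg i).inv₀ fun z hz => (hpos i z hz).ne')
  refine ⟨(C + 1)⁻¹, by positivity, ?_⟩
  intro i z hz
  have h1 := hC i z hz
  have h2 := hpos i z hz
  rw [abs_of_pos (inv_pos.2 h2)] at h1
  rw [inv_le_comm₀ (by positivity) h2]
  linarith

/-- pointwise comparison of the first order quantities -/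
theorem cmp1 {C r k ε g g' s s' v : ℝ} (hC : 1 ≤ C) (hr : 1 ≤ r)
    (hg' : 0 ≤ g') (hε : 0 ≤ ε) (hgg : g ≤ C * g') (hs : 0 ≤ s)
    (hss : s ≤ r * s') :
    g + (k * s * v) ^ 2 + ε ≤ C * r ^ 2 * (g' + (k * s' * v) ^ 2 + ε) := by
  have h1 : s ^ 2 ≤ (r * s') ^ 2 := pow_le_pow_left₀ hs hss 2
  have hr2 : 1 ≤ r ^ 2 := one_le_pow₀ hr
  have h2 : (k * s * v) ^ 2 ≤ r ^ 2 * (k * s' * v) ^ 2 := by
    have : (k * v) ^ 2 * s ^ 2 ≤ (k * v) ^ 2 * (r * s') ^ 2 := by gcongr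
    nlinarith
  have hCr : 1 ≤ C * r ^ 2 := by nlinarith
  have h3 : g ≤ C * r ^ 2 * g' := by
    refine hgg.trans ?_
    have : C * g' * 1 ≤ C * g' * r ^ 2 := by gcongr
    nlinarith
  have h4 : r ^ 2 * (k * s' * v) ^ 2 ≤ C * r ^ 2 * (k * s' * v) ^ 2 := by
    have : 0 ≤ r ^ 2 * (k * s' * v) ^ 2 := by positivity
    nlinarith
  have h5 : ε ≤ C * r ^ 2 * ε := by nlinarith
  nlinarith

/-- pointwise comparison of the second order quantities -/
theorem cmp2 {C r k m ε q q' h h' g g' s s' v : ℝ} (hC : 1 ≤ C) (hr : 1 ≤ r) (hm : 0 < m)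
    (hk : 1 ≤ k) (hg' : 0 ≤ g') (hq' : 0 ≤ q') (hε : 0 ≤ ε) (hgg : g ≤ C * g')
    (hqh : q ≤ 2 * h) (hhh : h ≤ C * (h' + g')) (hh' : 2 * h' = q' + ((k * s') ^ 2 * v) ^ 2)
    (hs : 0 ≤ s) (hms' : m ≤ s') (hss : s ≤ r * s') :
    q + (k * s) ^ 2 * g + ((k * s) ^ 2 * v) ^ 2 + (m * k) ^ 2 * ε ≤
      (C * (1 + 2 / m ^ 2) + C * r ^ 2 + r ^ 4 + 1) *
        (q' + (k * s') ^ 2 * g' + ((k * s') ^ 2 * v) ^ 2 + (m * k) ^ 2 * ε) := by
  have hs' : 0 < s' := by linarith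
  have h1 : s ^ 2 ≤ (r * s') ^ 2 := pow_le_pow_left₀ hs hss 2
  have h2 : (k * s) ^ 2 ≤ r ^ 2 * (k * s') ^ 2 := by
    have : k ^ 2 * s ^ 2 ≤ k ^ 2 * (r * s') ^ 2 := by gcongr
    nlinarith
  set V : ℝ := q' + (k * s') ^ 2 * g' + ((k * s') ^ 2 * v) ^ 2 + (m * k) ^ 2 * ε with hV
  have p1 : 0 ≤ (k * s') ^ 2 * g' := by positivity
  have p2 : 0 ≤ ((k * s') ^ 2 * v) ^ 2 := by positivity
  have p3 : 0 ≤ (m * k) ^ 2 * ε := by positivity
  have hV0 : 0 ≤ V := by positivity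
  -- first term
  have t0 : g' ≤ V / m ^ 2 := by
    rw [le_div_iff₀ (by positivity)]
    have h3 : m ^ 2 ≤ s' ^ 2 := pow_le_pow_left₀ hm.le hms' 2
    have h4 : s' ^ 2 ≤ (k * s') ^ 2 := by
      rw [mul_pow]
      have : 1 ≤ k ^ 2 := one_le_pow₀ hk
      nlinarith [sq_nonneg s']
    have h5 : g' * m ^ 2 ≤ g' * (k * s') ^ 2 := mul_le_mul_of_nonneg_left (h3.trans h4) hg'
    linarith
  have t1 : q ≤ C * (1 + 2 / m ^ 2) * V := by
    have h3 : q ≤ C * (2 * h' + 2 * g') := by linarith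
    have h4 : 2 * h' + 2 * g' ≤ V + 2 * (V / m ^ 2) := by
      rw [hh']
      linarith
    calc q ≤ C * (2 * h' + 2 * g') := h3
      _ ≤ C * (V + 2 * (V / m ^ 2)) := by gcongr
      _ = C * (1 + 2 / m ^ 2) * V := by ring
  have t2 : (k * s) ^ 2 * g ≤ C * r ^ 2 * V := by
    calc (k * s) ^ 2 * g ≤ (k * s) ^ 2 * (C * g') := by gcongr
      _ ≤ r ^ 2 * (k * s') ^ 2 * (C * g') := by gcongr
      _ = C * r ^ 2 * ((k * s') ^ 2 * g') := by ring
      _ ≤ C * r ^ 2 * V := by gcongr; linarith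
  have t3 : ((k * s) ^ 2 * v) ^ 2 ≤ r ^ 4 * V := by
    calc ((k * s) ^ 2 * v) ^ 2 = ((k * s) ^ 2) ^ 2 * v ^ 2 := by ring
      _ ≤ (r ^ 2 * (k * s') ^ 2) ^ 2 * v ^ 2 := by gcongr
      _ = r ^ 4 * ((k * s') ^ 2 * v) ^ 2 := by ring
      _ ≤ r ^ 4 * V := by gcongr; linarith
  have t4 : (m * k) ^ 2 * ε ≤ 1 * V := by linarith
  calc q + (k * s) ^ 2 * g + ((k * s) ^ 2 * v) ^ 2 + (m * k) ^ 2 * ε
      ≤ C * (1 + 2 / m ^ 2) * V + C * r ^ 2 * V + r ^ 4 * V + 1 * V := by linarith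
    _ = _ := by ring

theorem qsq_le (f : ℂ → ℝ) (z : ℂ) : qsq f z ≤ 2 * hsq f z := by
  unfold qsq hsq
  nlinarith [sq_nonneg (dx (dx f) z + dy (dy f) z)]

theorem hsq_eq (f : ℂ → ℝ) (z : ℂ) : 2 * hsq f z = qsq f z + lap f z ^ 2 := by
  unfold qsq hsq lap
  ring

theorem qsq_nonneg (f : ℂ → ℝ) (z : ℂ) : 0 ≤ qsq f z := by unfold qsq; positivity
theorem gsq_nonneg (f : ℂ → ℝ) (z : ℂ) : 0 ≤ gsq f z := by unfold gsq; positivity

theorem continuous_V2 {u σ : ℂ → ℝ} (hu : ContDiff ℝ 4 u) (hs : Continuous σ) (k : ℝ) :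
    Continuous (V2 u σ k) := by
  have hu2 : ContDiff ℝ 2 u := hu.of_le (by norm_num)
  have c0 := hu.continuous
  have c1 : Continuous (dx u) := continuous_dx (hu.of_le (by norm_num))
  have c2 : Continuous (dy u) := continuous_dy (hu.of_le (by norm_num))
  have c3 : Continuous (dx (dx u)) := continuous_dx (contDiff_dx1 hu2)
  have c4 : Continuous (dx (dy u)) := continuous_dx (contDiff_dy1 hu2)
  have c5 : Continuous (dy (dy u)) := continuous_dy (contDiff_dy1 hu2)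
  unfold V2 qsq gsq
  fun_prop

theorem t_HK (hREG : S_REG) (hLT : S_LT) : S_HK := by
  intro M ι _ _ _ _ ψ σ hAtl hComp
  obtain ⟨C, hC1, hcomp⟩ := hComp
  have hK : IsCompact (closedBall (0 : ℂ) (3 / 2)) := isCompact_closedBall _ _
  have hsub74 : closedBall (0 : ℂ) (3 / 2) ⊆ closedBall (0 : ℂ) (7 / 4) :=
    closedBall_subset_closedBall (by norm_num)
  have hsub74' : closedBall (0 : ℂ) (3 / 2) ⊆ ball (0 : ℂ) (7 / 4) :=
    closedBall_subset_ball (by norm_num)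
  have hs2 : ∀ i, ContDiff ℝ 2 (σ i) := fun i => (hAtl.sm i).of_le (by norm_num)
  have hs1 : ∀ i, ContDiff ℝ 1 (σ i) := fun i => (hAtl.sm i).of_le (by norm_num)
  obtain ⟨m, hm, hlow⟩ := low σ hK (fun i => (hAtl.sm i).continuous.continuousOn)
    (fun i z hz => hAtl.pos i z (hsub74 hz))
  obtain ⟨B0, hB0, hb0⟩ := bnd σ hK (fun i => (hAtl.sm i).continuous.continuousOn)
  obtain ⟨B1, hB1, hb1⟩ := bnd (fun i => dx (σ i)) hK
    (fun i => (continuous_dx (hs1 i)).continuousOn)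
  obtain ⟨B2, hB2, hb2⟩ := bnd (fun i => dy (σ i)) hK
    (fun i => (continuous_dy (hs1 i)).continuousOn)
  obtain ⟨B3, hB3, hb3⟩ := bnd (fun i => dx (dx (σ i))) hK
    (fun i => (continuous_dx (contDiff_dx1 (hs2 i))).continuousOn)
  obtain ⟨B4, hB4, hb4⟩ := bnd (fun i => dx (dy (σ i))) hK
    (fun i => (continuous_dx (contDiff_dy1 (hs2 i))).continuousOn)
  obtain ⟨B5, hB5, hb5⟩ := bnd (fun i => dy (dy (σ i))) hK
    (fun i => (continuous_dy (contDiff_dy1 (hs2 i))).continuousOn)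
  set Λ : ℝ := m + B0 + B1 + B2 + B3 + B4 + B5 with hΛ
  have hmΛ : m ≤ Λ := by linarith
  set r : ℝ := Λ / m with hr
  have hr1 : 1 ≤ r := (one_le_div hm).2 hmΛ
  set D1 : ℝ := C * r ^ 2 with hD1
  set D2 : ℝ := C * (1 + 2 / m ^ 2) + C * r ^ 2 + r ^ 4 + 1 with hD2
  have hD1' : 1 ≤ D1 := by
    have : 1 ≤ r ^ 2 := one_le_pow₀ hr1
    nlinarith
  have hD2' : 1 ≤ D2 := by
    have : 0 ≤ C * (1 + 2 / m ^ 2) + C * r ^ 2 + r ^ 4 := by positivity
    linarith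
  obtain ⟨k₀, A₀, c, hk₀, hA₀, hc, hlt⟩ := hLT m Λ (Real.log D1 + Real.log D2 + 1) hm hmΛ (by
    have := Real.log_nonneg hD1'
    have := Real.log_nonneg hD2'
    positivity)
  refine ⟨k₀, c, by linarith, hc, ?_⟩
  intro k u f hk hE
  have hk1 : 1 ≤ k := hk₀.trans hk
  have hk0 : 0 < k := by linarith
  -- `f i` is a solution near every centre
  have hsol : ∀ i, Sol m Λ k (ball 0 (3 / 2)) (f i) (σ i) := by
    intro i
    have hb : ∀ z ∈ ball (0 : ℂ) (3 / 2), z ∈ closedBall (0 : ℂ) (3 / 2) :=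
      fun z hz => ball_subset_closedBall hz
    refine ⟨hE.sm i, hAtl.sm i, fun z hz => hlow i z (hb z hz), fun z hz => ?_, fun z hz => ?_,
      fun z hz => ?_, fun z hz => ?_, fun z hz => ?_, fun z hz => ?_,
      fun z hz => hE.eq i z (hsub74' (hb z hz))⟩
    · have := (le_abs_self _).trans (hb0 i z (hb z hz)); linarith
    · have := hb1 i z (hb z hz); linarith
    · have := hb2 i z (hb z hz); linarith
    · have := hb3 i z (hb z hz); linarith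
    · have := hb4 i z (hb z hz); linarith
    · have := hb5 i z (hb z hz); linarith
  have hsolmono : ∀ i, ∀ z₀ ∈ closedBall (0 : ℂ) (1 / 2), Sol m Λ k (ball z₀ 1) (f i) (σ i) := by
    intro i z₀ hz₀
    have hsub : ball z₀ 1 ⊆ ball (0 : ℂ) (3 / 2) := by
      refine ball_subset_ball' ?_
      rw [mem_closedBall] at hz₀
      linarith
    have h := hsol i
    exact ⟨h.hu, h.hs, fun z hz => h.low z (hsub hz), fun z hz => h.up z (hsub hz),
      fun z hz => h.d1x z (hsub hz), fun z hz => h.d1y z (hsub hz),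
      fun z hz => h.d2xx z (hsub hz), fun z hz => h.d2xy z (hsub hz),
      fun z hz => h.d2yy z (hsub hz), fun z hz => h.eq z (hsub hz)⟩
  -- comparison
  have hcmp : ∀ ε : ℝ, 0 < ε → ∀ i j, ∀ z ∈ closedBall (0 : ℂ) (3 / 2),
      ∀ z' ∈ closedBall (0 : ℂ) (1 / 2), ψ i z = ψ j z' →
      N1 (f i) (σ i) k ε z ≤ D1 * N1 (f j) (σ j) k ε z' ∧
      N2 (f i) (σ i) k m ε z ≤ D2 * N2 (f j) (σ j) k m ε z' := by
    intro ε hε i j z hz z' hz' hψ
    have hz'2 : z' ∈ closedBall (0 : ℂ) (3 / 2) :=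
      closedBall_subset_closedBall (by norm_num) hz'
    have hff : f i z = f j z' := by
      rw [hE.rep i z (hsub74' hz), hE.rep j z' (hsub74' hz'2), hψ]
    obtain ⟨hg, hh⟩ := hcomp k u f hk1 hE i j z hz z' hz' hψ
    have hsi : 0 < σ i z := lt_of_lt_of_le hm (hlow i z hz)
    have hsj : m ≤ σ j z' := hlow j z' hz'2
    have hss : σ i z ≤ r * σ j z' := by
      have h1 : σ i z ≤ Λ := by
        have := (le_abs_self _).trans (hb0 i z hz); linarith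
      calc σ i z ≤ Λ := h1
        _ = r * m := by rw [hr]; field_simp
        _ ≤ r * σ j z' := by gcongr
    have heq : lap (f j) z' = -(k ^ 2 * σ j z' ^ 2 * f j z') := hE.eq j z' (hsub74' hz'2)
    constructor
    · unfold N1
      rw [hff]
      exact cmp1 hC1 hr1 (gsq_nonneg _ _) hε.le hg hsi.le hss
    · unfold N2 V2
      rw [hff]
      refine cmp2 hC1 hr1 hm hk1 (gsq_nonneg _ _) (qsq_nonneg _ _) hε.le hg (qsq_le _ _) hh ?_
        hsi.le hsj hss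
      rw [hsq_eq, heq]
      ring
  -- lower bound at a point where `u ≠ 0`
  obtain ⟨p, hp⟩ := hE.ne
  obtain ⟨j₀, z₁, hz₁, hψ₁⟩ := hAtl.cover p
  have hz₁' : z₁ ∈ closedBall (0 : ℂ) (1 / 2) := ball_subset_closedBall hz₁
  have hz₁3 : z₁ ∈ closedBall (0 : ℂ) (3 / 2) :=
    closedBall_subset_closedBall (by norm_num) hz₁'
  have hf1 : f j₀ z₁ ≠ 0 := by
    rw [hE.rep j₀ z₁ (hsub74' hz₁3), hψ₁]; exact hp
  have hσ1 : σ j₀ z₁ ≠ 0 := (lt_of_lt_of_le hm (hlow j₀ z₁ hz₁3)).ne'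
  set a : ℝ := (k * σ j₀ z₁ * f j₀ z₁) ^ 2 * ((k * σ j₀ z₁) ^ 2 * f j₀ z₁) ^ 2 with ha
  have ha0 : 0 < a := by positivity
  -- upper bound of `V₂`
  obtain ⟨Q, hQ0, hQ⟩ := bnd (fun i => V2 (f i) (σ i) k) hK
    (fun i => (continuous_V2 (hE.sm i) (hAtl.sm i).continuous k).continuousOn)
  set Q' : ℝ := Q + (m * k) ^ 2 with hQ'
  have hQ'0 : 0 < Q' := by positivity
  set ε : ℝ := min 1 (a / (2 * Real.exp (A₀ * k ^ 2) * Q')) with hεdef
  have hε : 0 < ε := lt_min one_pos (by positivity)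
  have hε1 : ε ≤ 1 := min_le_left _ _
  have hε2 : ε ≤ a / (2 * Real.exp (A₀ * k ^ 2) * Q') := min_le_right _ _
  have hregs : ∀ i, _ := fun i => hREG m Λ k ε (ball 0 (3 / 2)) (f i) (σ i) hm hk1 hε (hsol i)
  -- the maximum
  have hne : Nonempty ι := ⟨j₀⟩
  have hmax1 : ∀ i, ∃ z ∈ closedBall (0 : ℂ) (1 / 2), IsMaxOn
      (fun z => L1 (f i) (σ i) k ε z + L2 (f i) (σ i) k m ε z) (closedBall (0 : ℂ) (1 / 2)) z := by
    intro i
    refine (isCompact_closedBall _ _).exists_isMaxOn (nonempty_closedBall.2 (by norm_num)) ?_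
    exact ((hregs i).1.continuous.add (hregs i).2.1.continuous).continuousOn
  choose zm hzm hzmax using hmax1
  obtain ⟨i₀, hi₀⟩ := Finite.exists_max
    (fun i => L1 (f i) (σ i) k ε (zm i) + L2 (f i) (σ i) k m ε (zm i))
  have hmax : ∀ j, ∀ z ∈ closedBall (0 : ℂ) (1 / 2),
      L1 (f j) (σ j) k ε z + L2 (f j) (σ j) k m ε z ≤
        L1 (f i₀) (σ i₀) k ε (zm i₀) + L2 (f i₀) (σ i₀) k m ε (zm i₀) :=
    fun j z hz => (hzmax j hz).trans (hi₀ j)
  have hNpos : ∀ j z, 0 < N1 (f j) (σ j) k ε z ∧ 0 < N2 (f j) (σ j) k m ε z :=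
    fun j z => (hregs j).2.2.2.2.1 z
  have hmaxN : ∀ j, ∀ z ∈ closedBall (0 : ℂ) (1 / 2),
      N1 (f j) (σ j) k ε z * N2 (f j) (σ j) k m ε z ≤
        N1 (f i₀) (σ i₀) k ε (zm i₀) * N2 (f i₀) (σ i₀) k m ε (zm i₀) := by
    intro j z hz
    have h1 := Real.exp_le_exp.2 (hmax j z hz)
    rw [Real.exp_add, Real.exp_add] at h1
    unfold L1 L2 at h1
    rwa [Real.exp_log (hNpos _ _).1, Real.exp_log (hNpos _ _).2, Real.exp_log (hNpos _ _).1,
      Real.exp_log (hNpos _ _).2] at h1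
  have hzi := hzm i₀
  have hsubz : ball (zm i₀) 1 ⊆ ball (0 : ℂ) (3 / 2) := by
    refine ball_subset_ball' ?_
    rw [mem_closedBall] at hzi
    linarith
  obtain ⟨r1, r2⟩ := hlt k ε (zm i₀) (f i₀) (σ i₀) hk hε (hsolmono i₀ _ hzi) (by
    -- (H1)
    intro y hy
    have hy3 : y ∈ closedBall (0 : ℂ) (3 / 2) := ball_subset_closedBall (hsubz hy)
    obtain ⟨j, z', hz', hψ'⟩ := hAtl.cover (ψ i₀ y)
    have hz'' : z' ∈ closedBall (0 : ℂ) (1 / 2) := ball_subset_closedBall hz'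
    obtain ⟨c1, c2⟩ := hcmp ε hε i₀ j y hy3 z' hz'' hψ'.symm
    have h1 : L1 (f i₀) (σ i₀) k ε y ≤ Real.log D1 + L1 (f j) (σ j) k ε z' := by
      unfold L1
      rw [← Real.log_mul (by positivity) (hNpos _ _).1.ne']
      exact Real.log_le_log (hNpos _ _).1 c1
    have h2 : L2 (f i₀) (σ i₀) k m ε y ≤ Real.log D2 + L2 (f j) (σ j) k m ε z' := by
      unfold L2
      rw [← Real.log_mul (by positivity) (hNpos _ _).2.ne']
      exact Real.log_le_log (hNpos _ _).2 c2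
    have h3 := hmax j z' hz''
    linarith) (by
    -- (H2)
    intro y hy
    have hy3 : y ∈ closedBall (0 : ℂ) (3 / 2) := ball_subset_closedBall (hsubz hy)
    have h1 : N2 (f i₀) (σ i₀) k m ε y ≤ Q' := by
      unfold N2
      have h2 : V2 (f i₀) (σ i₀) k y ≤ Q := (le_abs_self _).trans (hQ i₀ y hy3)
      have h3 : (m * k) ^ 2 * ε ≤ (m * k) ^ 2 * 1 := by gcongr
      linarith
    have h4 : a ≤ N1 (f j₀) (σ j₀) k ε z₁ * N2 (f j₀) (σ j₀) k m ε z₁ := by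
      rw [ha]
      unfold N1 N2 V2
      have g0 := gsq_nonneg (f j₀) z₁
      have q0 := qsq_nonneg (f j₀) z₁
      gcongr
      · linarith
      · have : 0 ≤ (k * σ j₀ z₁) ^ 2 * gsq (f j₀) z₁ := by positivity
        have : 0 ≤ (m * k) ^ 2 * ε := by positivity
        linarith
    have h5 := hmaxN j₀ z₁ hz₁'
    calc 2 * ε * Real.exp (A₀ * k ^ 2) * N2 (f i₀) (σ i₀) k m ε y
        ≤ 2 * ε * Real.exp (A₀ * k ^ 2) * Q' := by gcongr
      _ = ε * (2 * Real.exp (A₀ * k ^ 2) * Q') := by ring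
      _ ≤ a / (2 * Real.exp (A₀ * k ^ 2) * Q') * (2 * Real.exp (A₀ * k ^ 2) * Q') := by gcongr
      _ = a := by field_simp
      _ ≤ _ := h4.trans h5)
  have hfin : ∀ P : Set ℂ, volume {z ∈ ball (0 : ℂ) (3 / 2) | z ∈ P} ≠ ⊤ := fun P =>
    ((measure_mono (fun x hx => hx.1)).trans_lt measure_ball_lt_top).ne
  refine ⟨⟨i₀, r1.trans ?_⟩, ⟨i₀, r2.trans ?_⟩⟩
  · exact measureReal_mono (fun z hz => ⟨hsubz hz.1, hz.2⟩) (hfin {z | 0 < f i₀ z})
  · exact measureReal_mono (fun z hz => ⟨hsubz hz.1, hz.2⟩) (hfin {z | f i₀ z < 0})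

end Pool.Agent.Helper904_QS.PHK
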