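import Pool.Agent.Helper904_QS.Stmts
import Pool.Agent.Helper904_QS.Calc

/-!
IE: the interior estimate (Lemma 5), from J, KER, INT, CURV, REG.
-/

set_option autoImplicit false

open MeasureTheory Set Metric Filter Topology
open scoped ContDiff

namespace Pool.Agent.Helper904_QS.PIE

variable {f g u σ : ℂ → ℝ} {r m Λ S : ℝ}

/-! ### integrals against the kernels -/

theorem int_chi (hI : S_INT) (hf : Continuous f) (hr : 0 < r) :
    Integrable (fun z => chi r z * f z) := by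
  have := (hI f 0 r hf hr).1
  simpa using this

theorem int_Phi (hI : S_INT) (hf : Continuous f) (hr : 0 < r) :
    Integrable (fun z => Phi r z * f z) := by
  have := (hI f 0 r hf hr).2
  simpa using this

theorem J0 (hJ : S_J) (hf : ContDiff ℝ 2 f) (hr : 0 < r) :
    ∫ z, Phi r z * lap f z = (∫ z, chi r z * f z) - 2 * Real.pi * f 0 := by
  have := hJ f 0 r hf hr
  simp only [sub_zero] at this
  linarith

theorem chi_mono (hK : S_KER) (hI : S_INT) (hf : Continuous f) (hg : Continuous g) (hr : 0 < r)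
    (h : ∀ z ∈ ball (0 : ℂ) r, f z ≤ g z) : ∫ z, chi r z * f z ≤ ∫ z, chi r z * g z := by
  obtain ⟨_, k2, _, k4, _⟩ := hK r hr
  apply integral_mono (int_chi hI hf hr) (int_chi hI hg hr)
  intro z
  by_cases hz : ‖z‖ < r
  · exact mul_le_mul_of_nonneg_left (h z (by simpa using hz)) (k2 z)
  · simp [k4 z (not_lt.1 hz)]

theorem Phi_mono (hK : S_KER) (hI : S_INT) (hf : Continuous f) (hg : Continuous g) (hr : 0 < r)
    (h : ∀ z ∈ ball (0 : ℂ) r, f z ≤ g z) : ∫ z, Phi r z * f z ≤ ∫ z, Phi r z * g z := by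
  obtain ⟨_, _, _, _, _, _, _, _, k9, k10, _⟩ := hK r hr
  apply integral_mono (int_Phi hI hf hr) (int_Phi hI hg hr)
  intro z
  by_cases hz : ‖z‖ < r
  · exact mul_le_mul_of_nonneg_left (h z (by simpa using hz)) (k9 z)
  · simp [k10 z (not_lt.1 hz)]

theorem chi_const (hK : S_KER) (hr : 0 < r) (c : ℝ) : ∫ z, chi r z * c = 2 * Real.pi * c := by
  obtain ⟨_, _, _, _, _, _, k7, _⟩ := hK r hr
  rw [integral_mul_const, k7]

theorem Phi_const (hK : S_KER) (hr : 0 < r) (c : ℝ) :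
    ∫ z, Phi r z * c = Real.pi * r ^ 2 / 6 * c := by
  obtain ⟨_, _, _, _, _, _, _, _, _, _, _, _, k13, _⟩ := hK r hr
  rw [integral_mul_const, k13]

theorem int_lin3 {K : ℂ → ℝ} (hf : Integrable (fun z => K z * f z))
    (hg : Integrable (fun z => K z * g z)) (a b c : ℝ) (hc : Integrable (fun z => K z * c)) :
    ∫ z, K z * (a * f z + b * g z + c) =
      a * (∫ z, K z * f z) + b * (∫ z, K z * g z) + ∫ z, K z * c := by
  have e : (fun z => K z * (a * f z + b * g z + c)) =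
      fun z => (a * (K z * f z) + b * (K z * g z)) + K z * c := by ext z; ring
  have h1 : Integrable (fun z => a * (K z * f z)) := hf.const_mul a
  have h2 : Integrable (fun z => b * (K z * g z)) := hg.const_mul b
  have h3 : Integrable (fun z => a * (K z * f z) + b * (K z * g z)) := h1.add h2
  rw [e, integral_add h3 hc, integral_add h1 h2, integral_const_mul, integral_const_mul]

/-- comparison of the two kernels -/
theorem chi_le_Phi (hK : S_KER) (hI : S_INT) (hf : Continuous f) (hr : 0 < r)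
    (h : ∀ z ∈ ball (0 : ℂ) (2 * r), 0 ≤ f z) :
    ∫ z, chi r z * f z ≤ 24 / r ^ 2 * ∫ z, Phi (2 * r) z * f z := by
  obtain ⟨_, k2, k3, k4, _⟩ := hK r hr
  obtain ⟨_, _, _, _, _, _, _, _, l9, l10, _, l12, _⟩ := hK (2 * r) (by linarith)
  rw [← integral_const_mul]
  apply integral_mono_ae (int_chi hI hf hr) ((int_Phi hI hf (by linarith)).const_mul _)
  have h0 : ∀ᵐ z : ℂ, z ≠ 0 := by
    have : (volume : Measure ℂ) {(0 : ℂ)} = 0 := by simp
    exact compl_mem_ae_iff.2 this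
  filter_upwards [h0] with z hz
  have hz' : 0 < ‖z‖ := norm_pos_iff.2 hz
  have h24 : 0 ≤ 24 / r ^ 2 := by positivity
  by_cases h1 : ‖z‖ < r
  · have f0 : 0 ≤ f z := h z (by simp; linarith)
    have p1 := l12 z hz' (by linarith)
    have c1 := k3 z
    have : chi r z ≤ 24 / r ^ 2 * Phi (2 * r) z := by
      calc chi r z ≤ 4 / r ^ 2 := c1
        _ = 24 / r ^ 2 * (1 / 6) := by ring
        _ ≤ _ := mul_le_mul_of_nonneg_left p1 h24
    calc chi r z * f z ≤ 24 / r ^ 2 * Phi (2 * r) z * f z := mul_le_mul_of_nonneg_right this f0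
      _ = _ := by ring
  · simp only [k4 z (not_lt.1 h1), zero_mul]
    by_cases h2 : ‖z‖ < 2 * r
    · exact mul_nonneg h24 (mul_nonneg (l9 z) (h z (by simpa using h2)))
    · simp [l10 z (not_lt.1 h2)]

/-! ### (a) the sup bound -/

theorem sup_bound (hJ : S_J) (hK : S_KER) (hI : S_INT) (hS : Sol m Λ 1 (ball 0 r) u σ)
    (hr : 0 < r) (hm : 0 < m) (hΛ : Λ * r ≤ 1) :
    ∀ y : ℂ, ‖y‖ ≤ r / 2 → |u y| ≤ 12 / r ^ 2 * ∫ z in ball (0 : ℂ) r, |u z| := by
  have hu2 : ContDiff ℝ 2 u := hS.hu.of_le (by norm_num)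
  have huc : Continuous u := hu2.continuous
  have hlc : Continuous (lap u) := continuous_lap hu2
  have hI0 : 0 ≤ ∫ z in ball (0 : ℂ) r, |u z| := integral_nonneg fun z => abs_nonneg _
  have hint : IntegrableOn (fun z => |u z|) (ball (0 : ℂ) r) :=
    (huc.abs.continuousOn.integrableOn_compact (isCompact_closedBall 0 r)).mono_set
      ball_subset_closedBall
  -- the maximum point
  obtain ⟨y0, hy0, hmax⟩ := (isCompact_closedBall (0 : ℂ) r).exists_isMaxOn
    ⟨0, by simp [hr.le]⟩ (f := fun y : ℂ => (r - ‖y‖) ^ 2 * |u y|)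
    (by fun_prop)
  have hy0' : ‖y0‖ ≤ r := by simpa using hy0
  have key : (r - ‖y0‖) ^ 2 * |u y0| ≤ 3 * ∫ z in ball (0 : ℂ) r, |u z| := by
    rcases hy0'.eq_or_lt with he | hlt
    · rw [he]; simp; exact hI0
    · set d := (r - ‖y0‖) / 2 with hd
      have hd0 : 0 < d := by rw [hd]; linarith
      have hdr : d ≤ r / 2 := by rw [hd]; have := norm_nonneg y0; linarith
      obtain ⟨_, k2, k3, k4, _, _, _, _, k9, k10, _, _, k13, _⟩ := hK d hd0
      have hsub : ∀ z : ℂ, ‖z - y0‖ < d → ‖z‖ < r ∧ |u z| ≤ 4 * |u y0| := by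
        intro z hz
        have h1 : ‖z‖ ≤ ‖z - y0‖ + ‖y0‖ := by
          calc ‖z‖ = ‖(z - y0) + y0‖ := by congr 1; ring
            _ ≤ _ := norm_add_le _ _
        have h2 : ‖z‖ < r := by linarith
        refine ⟨h2, ?_⟩
        have h3 := hmax (show z ∈ closedBall (0 : ℂ) r by simpa using h2.le)
        have h3' : (r - ‖z‖) ^ 2 * |u z| ≤ (r - ‖y0‖) ^ 2 * |u y0| := h3
        have h4 : d ^ 2 ≤ (r - ‖z‖) ^ 2 := by
          apply pow_le_pow_left₀ hd0.le; linarith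
        have h5 : (r - ‖y0‖) ^ 2 = 4 * d ^ 2 := by rw [hd]; ring
        have h6 : d ^ 2 * |u z| ≤ d ^ 2 * (4 * |u y0|) := by
          calc d ^ 2 * |u z| ≤ (r - ‖z‖) ^ 2 * |u z| :=
                mul_le_mul_of_nonneg_right h4 (abs_nonneg _)
            _ ≤ (r - ‖y0‖) ^ 2 * |u y0| := h3'
            _ = _ := by rw [h5]; ring
        exact le_of_mul_le_mul_left h6 (by positivity)
      have hj := hJ u y0 d hu2 hd0
      have b1 : |∫ z, chi d (z - y0) * u z| ≤ 4 / d ^ 2 * ∫ z in ball (0 : ℂ) r, |u z| := by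
        calc |∫ z, chi d (z - y0) * u z| ≤ ∫ z, |chi d (z - y0) * u z| :=
              abs_integral_le_integral_abs
          _ ≤ ∫ z, (ball (0 : ℂ) r).indicator (fun z => 4 / d ^ 2 * |u z|) z := by
              apply integral_mono (hI u y0 d huc hd0).1.abs
              · exact (integrable_indicator_iff measurableSet_ball).2 (hint.const_mul _)
              · intro z
                by_cases hz : ‖z - y0‖ < d
                · obtain ⟨h1, _⟩ := hsub z hz
                  have hm : z ∈ ball (0 : ℂ) r := by simpa using h1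
                  simp only [indicator_of_mem hm, abs_mul, abs_of_nonneg (k2 _)]
                  exact mul_le_mul_of_nonneg_right (k3 _) (abs_nonneg _)
                · simp only [k4 _ (not_lt.1 hz), zero_mul, abs_zero]
                  apply indicator_nonneg
                  intro z _
                  positivity
          _ = _ := by rw [integral_indicator measurableSet_ball, integral_const_mul]
      have b2 : |∫ z, Phi d (z - y0) * lap u z| ≤ Real.pi * d ^ 2 / 6 * (Λ ^ 2 * (4 * |u y0|)) := by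
        have hshift : ∫ z, Phi d (z - y0) * (Λ ^ 2 * (4 * |u y0|)) =
            Real.pi * d ^ 2 / 6 * (Λ ^ 2 * (4 * |u y0|)) := by
          rw [integral_mul_const, integral_sub_right_eq_self (fun z => Phi d z) y0, k13]
        rw [← hshift]
        calc |∫ z, Phi d (z - y0) * lap u z| ≤ ∫ z, |Phi d (z - y0) * lap u z| :=
              abs_integral_le_integral_abs
          _ ≤ _ := by
              apply integral_mono (hI (lap u) y0 d hlc hd0).2.abs
                (hI (fun _ => Λ ^ 2 * (4 * |u y0|)) y0 d continuous_const hd0).2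
              intro z
              simp only [abs_mul, abs_of_nonneg (k9 _)]
              by_cases hz : ‖z - y0‖ < d
              · obtain ⟨h1, h2⟩ := hsub z hz
                have hmm : z ∈ ball (0 : ℂ) r := by simpa using h1
                apply mul_le_mul_of_nonneg_left _ (k9 _)
                rw [hS.eq z hmm, abs_neg, abs_mul]
                have e1 : |1 ^ 2 * σ z ^ 2| ≤ Λ ^ 2 := by
                  rw [one_pow, one_mul, abs_of_nonneg (sq_nonneg _)]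
                  exact pow_le_pow_left₀ (hm.le.trans (hS.low z hmm)) (hS.up z hmm) 2
                exact mul_le_mul e1 h2 (abs_nonneg _) (sq_nonneg _)
              · simp [k10 _ (not_lt.1 hz)]
      have hΛ0 : 0 < Λ := by
        have := (hS.low 0 (by simp [hr])).trans (hS.up 0 (by simp [hr])); linarith
      have hΛd : Λ ^ 2 * d ^ 2 ≤ 1 / 4 := by
        have h1 : Λ * d ≤ 1 / 2 := by nlinarith
        have h2 : 0 ≤ Λ * d := by positivity
        have : (Λ * d) ^ 2 ≤ (1 / 2) ^ 2 := pow_le_pow_left₀ h2 h1 2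
        nlinarith
      have h2pi : 2 * Real.pi * |u y0| ≤ 4 / d ^ 2 * (∫ z in ball (0 : ℂ) r, |u z|) +
          Real.pi / 6 * |u y0| := by
        have e1 : |2 * Real.pi * u y0| = 2 * Real.pi * |u y0| := by
          rw [abs_mul, abs_of_pos (by positivity)]
        rw [← e1, hj]
        refine (abs_sub _ _).trans ?_
        apply add_le_add b1
        refine b2.trans ?_
        have hp := Real.pi_pos
        have ha := abs_nonneg (u y0)
        have : Real.pi * d ^ 2 / 6 * (Λ ^ 2 * (4 * |u y0|)) =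
            (Λ ^ 2 * d ^ 2) * (4 * (Real.pi / 6 * |u y0|)) := by ring
        rw [this]
        have hn : 0 ≤ 4 * (Real.pi / 6 * |u y0|) := by positivity
        calc _ ≤ 1 / 4 * (4 * (Real.pi / 6 * |u y0|)) := mul_le_mul_of_nonneg_right hΛd hn
          _ = _ := by ring
      have h5 : (r - ‖y0‖) ^ 2 = 4 * d ^ 2 := by rw [hd]; ring
      rw [h5]
      have hpi : (3 : ℝ) < Real.pi := Real.pi_gt_three
      have h6 : 11 * Real.pi / 6 * |u y0| ≤ 4 / d ^ 2 * (∫ z in ball (0 : ℂ) r, |u z|) := by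
        linarith
      have h7 : d ^ 2 * (11 * Real.pi / 6 * |u y0|) ≤ 4 * (∫ z in ball (0 : ℂ) r, |u z|) := by
        calc _ ≤ d ^ 2 * (4 / d ^ 2 * (∫ z in ball (0 : ℂ) r, |u z|)) :=
              mul_le_mul_of_nonneg_left h6 (by positivity)
          _ = _ := by field_simp
      have h8 : 0 ≤ d ^ 2 * |u y0| := by positivity
      nlinarith
  intro y hy
  have hyr : y ∈ closedBall (0 : ℂ) r := by simp; linarith
  have h1 : (r - ‖y‖) ^ 2 * |u y| ≤ (r - ‖y0‖) ^ 2 * |u y0| := hmax hyr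
  have h2 : (r / 2) ^ 2 ≤ (r - ‖y‖) ^ 2 := by
    apply pow_le_pow_left₀ (by positivity); linarith
  have h3 : (r / 2) ^ 2 * |u y| ≤ 3 * ∫ z in ball (0 : ℂ) r, |u z| :=
    (mul_le_mul_of_nonneg_right h2 (abs_nonneg _)).trans (h1.trans key)
  have hr2 : 0 < (r / 2) ^ 2 := by positivity
  calc |u y| = ((r / 2) ^ 2 * |u y|) / (r / 2) ^ 2 := by field_simp
    _ ≤ (3 * ∫ z in ball (0 : ℂ) r, |u z|) / (r / 2) ^ 2 := by gcongr
    _ = _ := by field_simp; ring

/-! ### (b) the gradient -/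

theorem gsq_nonneg (u : ℂ → ℝ) (z : ℂ) : 0 ≤ gsq u z := by unfold gsq; positivity
theorem hsq_nonneg (u : ℂ → ℝ) (z : ℂ) : 0 ≤ hsq u z := by unfold hsq; positivity
theorem qsq_nonneg (u : ℂ → ℝ) (z : ℂ) : 0 ≤ qsq u z := by unfold qsq; positivity

theorem contDiff_gsq (hu : ContDiff ℝ 4 u) : ContDiff ℝ 2 (gsq u) := by
  have h1 : ContDiff ℝ 2 (dx u) := (contDiff_dx3 hu).of_le (by norm_num)
  have h2 : ContDiff ℝ 2 (dy u) := (contDiff_dy3 hu).of_le (by norm_num)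
  exact (h1.pow 2).add (h2.pow 2)

theorem continuous_hsq (hu : ContDiff ℝ 4 u) : Continuous (hsq u) := by
  have h1 : ContDiff ℝ 1 (dx u) := (contDiff_dx3 hu).of_le (by norm_num)
  have h2 : ContDiff ℝ 1 (dy u) := (contDiff_dy3 hu).of_le (by norm_num)
  exact (((continuous_dx h1).pow 2).add (continuous_const.mul ((continuous_dx h2).pow 2))).add
    ((continuous_dy h2).pow 2)

theorem continuous_qsq (hu : ContDiff ℝ 4 u) : Continuous (qsq u) := by
  have h1 : ContDiff ℝ 1 (dx u) := (contDiff_dx3 hu).of_le (by norm_num)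
  have h2 : ContDiff ℝ 1 (dy u) := (contDiff_dy3 hu).of_le (by norm_num)
  exact (((continuous_dx h1).sub (continuous_dy h2)).pow 2).add
    (continuous_const.mul ((continuous_dx h2).pow 2))

theorem sol_mono {U V : Set ℂ} {k : ℝ} (h : Sol m Λ k U u σ) (hV : V ⊆ U) : Sol m Λ k V u σ :=
  ⟨h.hu, h.hs, fun z hz => h.low z (hV hz), fun z hz => h.up z (hV hz),
    fun z hz => h.d1x z (hV hz), fun z hz => h.d1y z (hV hz), fun z hz => h.d2xx z (hV hz),
    fun z hz => h.d2xy z (hV hz), fun z hz => h.d2yy z (hV hz), fun z hz => h.eq z (hV hz)⟩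

theorem grad_bound (hJ : S_J) (hK : S_KER) (hI : S_INT) (hS : Sol m Λ 1 (ball 0 r) u σ)
    (hr : 0 < r) (hm : 0 < m) (hΛ : Λ * r ≤ 1) (hS0 : 0 ≤ S)
    (hu : ∀ z ∈ ball (0 : ℂ) r, |u z| ≤ S) :
    ∫ z, Phi r z * gsq u z ≤ 7 * Real.pi / 6 * S ^ 2 := by
  have hu2 : ContDiff ℝ 2 u := hS.hu.of_le (by norm_num)
  have hsq2 : ContDiff ℝ 2 (fun z => u z ^ 2) := hu2.pow 2
  have hlc : Continuous (lap (fun z => u z ^ 2)) := continuous_lap hsq2
  have hgc : Continuous (gsq u) := (contDiff_gsq hS.hu).continuous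
  have hΛ0 : 0 < Λ := by
    have := (hS.low 0 (by simp [hr])).trans (hS.up 0 (by simp [hr])); linarith
  have usq : ∀ z ∈ ball (0 : ℂ) r, u z ^ 2 ≤ S ^ 2 := by
    intro z hz
    rw [← sq_abs (u z)]
    exact pow_le_pow_left₀ (abs_nonneg _) (hu z hz) 2
  have h1 : ∀ z ∈ ball (0 : ℂ) r,
      gsq u z ≤ 1 / 2 * lap (fun z => u z ^ 2) z + Λ ^ 2 * S ^ 2 := by
    intro z hz
    rw [lap_sq hu2, hS.eq z hz]
    have e1 : σ z ^ 2 ≤ Λ ^ 2 := pow_le_pow_left₀ (hm.le.trans (hS.low z hz)) (hS.up z hz) 2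
    have e2 : σ z ^ 2 * u z ^ 2 ≤ Λ ^ 2 * S ^ 2 :=
      mul_le_mul e1 (usq z hz) (sq_nonneg _) (sq_nonneg _)
    nlinarith
  have h2 := Phi_mono hK hI (g := fun z => 1 / 2 * lap (fun z => u z ^ 2) z + Λ ^ 2 * S ^ 2)
    hgc (by fun_prop) hr h1
  have h3 : ∫ z, Phi r z * (1 / 2 * lap (fun z => u z ^ 2) z + Λ ^ 2 * S ^ 2) =
      1 / 2 * (∫ z, Phi r z * lap (fun z => u z ^ 2) z) + ∫ z, Phi r z * (Λ ^ 2 * S ^ 2) := by
    rw [← integral_const_mul, ← integral_add ((int_Phi hI hlc hr).const_mul _)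
      (int_Phi hI continuous_const hr)]
    congr 1
    ext z
    ring
  rw [h3, J0 hJ hsq2 hr, Phi_const hK hr] at h2
  have h4 := chi_mono hK hI (g := fun _ => S ^ 2) hsq2.continuous continuous_const hr usq
  rw [chi_const hK hr] at h4
  have h5 : (Λ * r) ^ 2 ≤ 1 := by
    have : 0 ≤ Λ * r := by positivity
    nlinarith
  have hp := Real.pi_pos
  have h6 : Real.pi * r ^ 2 / 6 * (Λ ^ 2 * S ^ 2) ≤ Real.pi / 6 * S ^ 2 := by
    have : Real.pi * r ^ 2 / 6 * (Λ ^ 2 * S ^ 2) = (Λ * r) ^ 2 * (Real.pi / 6 * S ^ 2) := by ring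
    rw [this]
    have h7 : 0 ≤ Real.pi / 6 * S ^ 2 := by positivity
    nlinarith
  have h8 : 0 ≤ Real.pi * (u 0) ^ 2 := by positivity
  nlinarith

/-! ### (c) the Hessian -/

theorem lap_dx (hu : ContDiff ℝ 4 u) (z : ℂ) : lap (dx u) z = dx (lap u) z := by
  have h3 : ContDiff ℝ 2 (dx u) := (contDiff_dx3 hu).of_le (by norm_num)
  have h3' : ContDiff ℝ 2 (dy u) := (contDiff_dy3 hu).of_le (by norm_num)
  have hu2 : ContDiff ℝ 2 u := hu.of_le (by norm_num)
  have e1 : dy (dx u) = dx (dy u) := by ext y; exact (dx_dy hu2 y).symm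
  have e2 : lap u = fun z => dx (dx u) z + dy (dy u) z := rfl
  rw [e2, dx_add ((contDiff_dx1 h3).differentiable (by norm_num) z)
    ((contDiff_dy1 h3').differentiable (by norm_num) z)]
  unfold lap
  rw [e1, dx_dy h3' z]

theorem lap_dy (hu : ContDiff ℝ 4 u) (z : ℂ) : lap (dy u) z = dy (lap u) z := by
  have h3 : ContDiff ℝ 2 (dx u) := (contDiff_dx3 hu).of_le (by norm_num)
  have h3' : ContDiff ℝ 2 (dy u) := (contDiff_dy3 hu).of_le (by norm_num)
  have hu2 : ContDiff ℝ 2 u := hu.of_le (by norm_num)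
  have e1 : dx (dy u) = dy (dx u) := by ext y; exact dx_dy hu2 y
  have e2 : lap u = fun z => dx (dx u) z + dy (dy u) z := rfl
  rw [e2, dy_add ((contDiff_dx1 h3).differentiable (by norm_num) z)
    ((contDiff_dy1 h3').differentiable (by norm_num) z)]
  unfold lap
  rw [e1, dx_dy h3 z]

theorem lap_gsq (hu : ContDiff ℝ 4 u) (z : ℂ) :
    lap (gsq u) z = 2 * hsq u z + 2 * (dx u z * dx (lap u) z + dy u z * dy (lap u) z) := by
  have h3 : ContDiff ℝ 2 (dx u) := (contDiff_dx3 hu).of_le (by norm_num)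
  have h3' : ContDiff ℝ 2 (dy u) := (contDiff_dy3 hu).of_le (by norm_num)
  have hu2 : ContDiff ℝ 2 u := hu.of_le (by norm_num)
  have e2 : gsq u = fun z => dx u z ^ 2 + dy u z ^ 2 := rfl
  rw [e2, lap_add (h3.pow 2) (h3'.pow 2), lap_sq h3, lap_sq h3', lap_dx hu, lap_dy hu]
  unfold gsq hsq
  rw [← dx_dy hu2 z]
  ring

theorem hsq_le (hS : Sol m Λ 1 (ball 0 r) u σ) (hm : 0 < m) :
    ∀ z ∈ ball (0 : ℂ) r,
      hsq u z ≤ 1 / 2 * lap (gsq u) z + 2 * Λ ^ 2 * gsq u z + 2 * Λ ^ 2 * u z ^ 2 := by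
  intro z hz
  have hu2 : ContDiff ℝ 2 u := hS.hu.of_le (by norm_num)
  have du := hu2.differentiable (by norm_num) z
  have ds : DifferentiableAt ℝ σ z := hS.hs.differentiable (by norm_num) z
  have ds2 : DifferentiableAt ℝ (fun z => σ z ^ 2) z := ds.pow 2
  have hs0 : 0 ≤ σ z := hm.le.trans (hS.low z hz)
  have hs1 : σ z ≤ Λ := hS.up z hz
  have hΛ0 : 0 ≤ Λ := hs0.trans hs1
  have ex : dx (lap u) z = -(σ z ^ 2 * dx u z + 2 * σ z * dx σ z * u z) := by
    rw [dx_congr isOpen_ball (g := fun z => -(σ z ^ 2 * u z))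
      (fun y hy => by rw [hS.eq y hy]; ring) z hz, dx_neg, dx_mul ds2 du, dx_sq ds]
  have ey : dy (lap u) z = -(σ z ^ 2 * dy u z + 2 * σ z * dy σ z * u z) := by
    rw [dy_congr isOpen_ball (g := fun z => -(σ z ^ 2 * u z))
      (fun y hy => by rw [hS.eq y hy]; ring) z hz, dy_neg, dy_mul ds2 du, dy_sq ds]
  rw [lap_gsq hS.hu, ex, ey]
  have bx : |2 * σ z * dx σ z * u z * dx u z| ≤ Λ ^ 2 * (u z ^ 2 + dx u z ^ 2) := by
    have h1 : |σ z * dx σ z| ≤ Λ ^ 2 := by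
      rw [abs_mul, abs_of_nonneg hs0, sq]
      exact mul_le_mul hs1 (hS.d1x z hz) (abs_nonneg _) hΛ0
    have h2 : |2 * (u z * dx u z)| ≤ u z ^ 2 + dx u z ^ 2 := by
      rw [abs_le]; constructor <;> nlinarith [sq_nonneg (u z + dx u z), sq_nonneg (u z - dx u z)]
    have e : 2 * σ z * dx σ z * u z * dx u z = (σ z * dx σ z) * (2 * (u z * dx u z)) := by ring
    rw [e, abs_mul]
    exact mul_le_mul h1 h2 (abs_nonneg _) (sq_nonneg _)
  have b_y : |2 * σ z * dy σ z * u z * dy u z| ≤ Λ ^ 2 * (u z ^ 2 + dy u z ^ 2) := by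
    have h1 : |σ z * dy σ z| ≤ Λ ^ 2 := by
      rw [abs_mul, abs_of_nonneg hs0, sq]
      exact mul_le_mul hs1 (hS.d1y z hz) (abs_nonneg _) hΛ0
    have h2 : |2 * (u z * dy u z)| ≤ u z ^ 2 + dy u z ^ 2 := by
      rw [abs_le]; constructor <;> nlinarith [sq_nonneg (u z + dy u z), sq_nonneg (u z - dy u z)]
    have e : 2 * σ z * dy σ z * u z * dy u z = (σ z * dy σ z) * (2 * (u z * dy u z)) := by ring
    rw [e, abs_mul]
    exact mul_le_mul h1 h2 (abs_nonneg _) (sq_nonneg _)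
  have hsz : σ z ^ 2 ≤ Λ ^ 2 := pow_le_pow_left₀ hs0 hs1 2
  have b0 : σ z ^ 2 * (dx u z ^ 2 + dy u z ^ 2) ≤ Λ ^ 2 * (dx u z ^ 2 + dy u z ^ 2) :=
    mul_le_mul_of_nonneg_right hsz (by positivity)
  unfold gsq
  have c1 := (abs_le.1 bx).2
  have c2 := (abs_le.1 b_y).2
  nlinarith

theorem hess_bound (hJ : S_J) (hK : S_KER) (hI : S_INT) (hS : Sol m Λ 1 (ball 0 (2 * r)) u σ)
    (hr : 0 < r) (hm : 0 < m) (hΛ : Λ * (2 * r) ≤ 1) (hr1 : 2 * r ≤ 1) (hS0 : 0 ≤ S)
    (hu : ∀ z ∈ ball (0 : ℂ) (2 * r), |u z| ≤ S) :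
    ∫ z, Phi r z * hsq u z ≤ 15 * Real.pi * S ^ 2 / r ^ 2 := by
  have hu2 : ContDiff ℝ 2 u := hS.hu.of_le (by norm_num)
  have hg2 : ContDiff ℝ 2 (gsq u) := contDiff_gsq hS.hu
  have hlc : Continuous (lap (gsq u)) := continuous_lap hg2
  have hgc : Continuous (gsq u) := hg2.continuous
  have hΛ0 : 0 < Λ := by
    have := (hS.low 0 (by simp [hr])).trans (hS.up 0 (by simp [hr])); linarith
  have hsub : ball (0 : ℂ) r ⊆ ball 0 (2 * r) := ball_subset_ball (by linarith)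
  have hS' := sol_mono hS hsub
  have h1 : ∀ z ∈ ball (0 : ℂ) r,
      hsq u z ≤ 1 / 2 * lap (gsq u) z + 2 * Λ ^ 2 * gsq u z + 2 * Λ ^ 2 * S ^ 2 := by
    intro z hz
    refine (hsq_le hS' hm z hz).trans ?_
    have : u z ^ 2 ≤ S ^ 2 := by
      rw [← sq_abs (u z)]
      exact pow_le_pow_left₀ (abs_nonneg _) (hu z (hsub hz)) 2
    have h2 : 2 * Λ ^ 2 * u z ^ 2 ≤ 2 * Λ ^ 2 * S ^ 2 :=
      mul_le_mul_of_nonneg_left this (by positivity)
    linarith
  have h2 := Phi_mono hK hI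
    (g := fun z => 1 / 2 * lap (gsq u) z + 2 * Λ ^ 2 * gsq u z + 2 * Λ ^ 2 * S ^ 2)
    (continuous_hsq hS.hu) (by fun_prop) hr h1
  have h3 : ∫ z, Phi r z * (1 / 2 * lap (gsq u) z + 2 * Λ ^ 2 * gsq u z + 2 * Λ ^ 2 * S ^ 2) =
      1 / 2 * (∫ z, Phi r z * lap (gsq u) z) + 2 * Λ ^ 2 * (∫ z, Phi r z * gsq u z) +
        ∫ z, Phi r z * (2 * Λ ^ 2 * S ^ 2) :=
    int_lin3 (int_Phi hI hlc hr) (int_Phi hI hgc hr) _ _ _ (int_Phi hI continuous_const hr)
  rw [h3, J0 hJ hg2 hr, Phi_const hK hr] at h2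
  have h4 := chi_le_Phi hK hI hgc hr (fun z _ => gsq_nonneg u z)
  have h5 := grad_bound hJ hK hI hS (by linarith) hm hΛ hS0 hu
  have h6 := grad_bound hJ hK hI hS' hr hm (by nlinarith) hS0 (fun z hz => hu z (hsub hz))
  have hp := Real.pi_pos
  have hg0 := gsq_nonneg u 0
  have hr2 : 0 < r ^ 2 := by positivity
  have e1 : 24 / r ^ 2 * (∫ z, Phi (2 * r) z * gsq u z) ≤ 28 * Real.pi * S ^ 2 / r ^ 2 := by
    calc _ ≤ 24 / r ^ 2 * (7 * Real.pi / 6 * S ^ 2) :=
          mul_le_mul_of_nonneg_left h5 (by positivity)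
      _ = _ := by ring
  have hL : Λ ^ 2 * r ^ 2 ≤ 1 / 4 := by
    have h7 : 0 ≤ Λ * r := by positivity
    nlinarith
  have hL' : Λ ^ 2 ≤ 1 / 4 / r ^ 2 := by rw [le_div_iff₀ hr2]; exact hL
  have e2 : 2 * Λ ^ 2 * (∫ z, Phi r z * gsq u z) ≤ 7 / 12 * Real.pi * S ^ 2 / r ^ 2 := by
    calc _ ≤ 2 * Λ ^ 2 * (7 * Real.pi / 6 * S ^ 2) :=
          mul_le_mul_of_nonneg_left h6 (by positivity)
      _ ≤ 2 * (1 / 4 / r ^ 2) * (7 * Real.pi / 6 * S ^ 2) := by gcongr
      _ = _ := by ring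
  have e3 : Real.pi * r ^ 2 / 6 * (2 * Λ ^ 2 * S ^ 2) ≤ 1 / 12 * Real.pi * S ^ 2 / r ^ 2 := by
    have hr3 : r ^ 2 ≤ 1 := by nlinarith
    calc _ = 1 / 3 * Real.pi * (Λ ^ 2 * r ^ 2) * S ^ 2 := by ring
      _ ≤ 1 / 3 * Real.pi * (1 / 4) * S ^ 2 := by gcongr
      _ = 1 / 12 * Real.pi * S ^ 2 / 1 := by ring
      _ ≤ _ := by gcongr
  have e4 : 28 * Real.pi * S ^ 2 / r ^ 2 = 28 * (Real.pi * S ^ 2 / r ^ 2) := by ring
  have e5 : 7 / 12 * Real.pi * S ^ 2 / r ^ 2 = 7 / 12 * (Real.pi * S ^ 2 / r ^ 2) := by ring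
  have e6 : 1 / 12 * Real.pi * S ^ 2 / r ^ 2 = 1 / 12 * (Real.pi * S ^ 2 / r ^ 2) := by ring
  have e7 : 15 * Real.pi * S ^ 2 / r ^ 2 = 15 * (Real.pi * S ^ 2 / r ^ 2) := by ring
  have e8 : 0 ≤ Real.pi * S ^ 2 / r ^ 2 := by positivity
  have e9 : 0 ≤ Real.pi * gsq u 0 := by positivity
  rw [e4] at e1
  rw [e5] at e2
  rw [e6] at e3
  rw [e7]
  linarith

/-! ### (d) the value at the centre -/

theorem V2_nonneg (u σ : ℂ → ℝ) (k : ℝ) (z : ℂ) : 0 ≤ V2 u σ k z := by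
  have h1 := qsq_nonneg u z
  have h2 := gsq_nonneg u z
  unfold V2
  positivity

theorem continuous_V2 (hu : ContDiff ℝ 4 u) (hs : ContDiff ℝ 3 σ) (k : ℝ) :
    Continuous (V2 u σ k) := by
  have h1 := continuous_qsq hu
  have h2 := (contDiff_gsq hu).continuous
  have h3 := hu.continuous
  have h4 := hs.continuous
  unfold V2
  fun_prop

theorem qsq_le (u : ℂ → ℝ) (z : ℂ) : qsq u z ≤ 2 * hsq u z := by
  unfold qsq hsq
  nlinarith [sq_nonneg (dx (dx u) z + dy (dy u) z)]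

theorem centre (hJ : S_J) (hK : S_KER) (hI : S_INT) (hR : S_REG) {C : ℝ} {U : Set ℂ}
    (hC0 : 0 < C) (hm : 0 < m) (hr : 0 < r) (hr1 : r ≤ 1) (hU : ball (0 : ℂ) r ⊆ U)
    (hS : Sol m Λ 1 U u σ)
    (hC : ∀ ε : ℝ, 0 < ε → ∀ z ∈ U, -(C * 1 ^ 2) ≤ lap (L2 u σ 1 m ε) z) :
    V2 u σ 1 0 ≤ Real.exp C / (2 * Real.pi) * ∫ z, chi r z * V2 u σ 1 z := by
  have hp := Real.pi_pos
  have hVc := continuous_V2 hS.hu hS.hs 1
  have key : ∀ ε : ℝ, 0 < ε →
      V2 u σ 1 0 ≤ Real.exp C / (2 * Real.pi) * (∫ z, chi r z * V2 u σ 1 z) +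
        Real.exp C * m ^ 2 * ε := by
    intro ε hε
    obtain ⟨_, hL2, _, _, hpos, _, _⟩ := hR m Λ 1 ε U u σ hm le_rfl hε hS
    have hNc : Continuous (N2 u σ 1 m ε) := by
      unfold N2
      fun_prop
    have hN : ∀ z, 0 < N2 u σ 1 m ε z := fun z => (hpos z).2
    set A : ℝ := (∫ z, chi r z * N2 u σ 1 m ε z) / (2 * Real.pi) with hA
    have hNlow : ∀ z, m ^ 2 * ε ≤ N2 u σ 1 m ε z := by
      intro z
      unfold N2
      have := V2_nonneg u σ 1 z
      rw [mul_one]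
      linarith
    have hI1 : 2 * Real.pi * (m ^ 2 * ε) ≤ ∫ z, chi r z * N2 u σ 1 m ε z := by
      rw [← chi_const hK hr]
      exact chi_mono hK hI continuous_const hNc hr (fun z _ => hNlow z)
    have hA0 : 0 < A := by
      rw [hA]
      apply div_pos _ (by positivity)
      have : 0 < 2 * Real.pi * (m ^ 2 * ε) := by positivity
      linarith
    have hAeq : ∫ z, chi r z * N2 u σ 1 m ε z = 2 * Real.pi * A := by
      rw [hA]; field_simp
    -- Jensen
    have hjen : ∫ z, chi r z * L2 u σ 1 m ε z ≤ 2 * Real.pi * Real.log A := by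
      have h1 : ∀ z ∈ ball (0 : ℂ) r,
          L2 u σ 1 m ε z ≤ (Real.log A - 1) + A⁻¹ * N2 u σ 1 m ε z := by
        intro z _
        unfold L2
        have h2 := Real.log_le_sub_one_of_pos (div_pos (hN z) hA0)
        rw [Real.log_div (hN z).ne' hA0.ne'] at h2
        have : N2 u σ 1 m ε z / A = A⁻¹ * N2 u σ 1 m ε z := by ring
        linarith
      have h2 := chi_mono hK hI (g := fun z => (Real.log A - 1) + A⁻¹ * N2 u σ 1 m ε z)
        hL2.continuous (by fun_prop) hr h1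
      refine h2.trans ?_
      have h3 : ∫ z, chi r z * ((Real.log A - 1) + A⁻¹ * N2 u σ 1 m ε z) =
          (∫ z, chi r z * (Real.log A - 1)) + A⁻¹ * ∫ z, chi r z * N2 u σ 1 m ε z := by
        rw [← integral_const_mul, ← integral_add (int_chi hI continuous_const hr)
          ((int_chi hI hNc hr).const_mul _)]
        congr 1
        ext z
        ring
      rw [h3, chi_const hK hr, hAeq]
      have : A⁻¹ * (2 * Real.pi * A) = 2 * Real.pi := by field_simp
      rw [this]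
      linarith
    have hj := J0 hJ hL2 hr
    have hlapc : Continuous (lap (L2 u σ 1 m ε)) := continuous_lap hL2
    have hlow : -(C * (Real.pi * r ^ 2 / 6)) ≤ ∫ z, Phi r z * lap (L2 u σ 1 m ε) z := by
      have h1 := Phi_mono hK hI (f := fun _ => -C) continuous_const hlapc hr (fun z hz => by
        have := hC ε hε z (hU hz)
        simpa using this)
      rw [Phi_const hK hr] at h1
      linarith
    have hL0 : L2 u σ 1 m ε 0 ≤ Real.log A + C := by
      have h1 : 2 * Real.pi * L2 u σ 1 m ε 0 ≤ 2 * Real.pi * (Real.log A + C) := by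
        have h2 : C * (Real.pi * r ^ 2 / 6) ≤ 2 * Real.pi * C := by
          have h3 : r ^ 2 ≤ 1 := by nlinarith
          have h4 : Real.pi * r ^ 2 / 6 ≤ 2 * Real.pi := by nlinarith
          nlinarith
        linarith
      exact le_of_mul_le_mul_left h1 (by positivity)
    have hN0 : N2 u σ 1 m ε 0 ≤ A * Real.exp C := by
      have h1 : Real.exp (L2 u σ 1 m ε 0) ≤ Real.exp (Real.log A + C) := Real.exp_le_exp.2 hL0
      rw [Real.exp_add, Real.exp_log hA0] at h1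
      unfold L2 at h1
      rwa [Real.exp_log (hN 0)] at h1
    have hsplit : ∫ z, chi r z * N2 u σ 1 m ε z =
        (∫ z, chi r z * V2 u σ 1 z) + 2 * Real.pi * (m ^ 2 * ε) := by
      rw [← chi_const hK hr, ← integral_add (int_chi hI hVc hr)
        (int_chi hI continuous_const hr)]
      congr 1
      ext z
      unfold N2
      ring
    have hV0 : V2 u σ 1 0 ≤ N2 u σ 1 m ε 0 := by
      unfold N2
      have : 0 ≤ (m * 1) ^ 2 * ε := by positivity
      linarith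
    refine (hV0.trans hN0).trans (le_of_eq ?_)
    rw [hA, hsplit]
    field_simp
  by_contra hc
  push Not at hc
  set a := Real.exp C / (2 * Real.pi) * ∫ z, chi r z * V2 u σ 1 z with ha
  set b := Real.exp C * m ^ 2 with hb
  have hb0 : 0 < b := by rw [hb]; positivity
  have := key ((V2 u σ 1 0 - a) / (2 * b)) (div_pos (by linarith) (by positivity))
  have e : b * ((V2 u σ 1 0 - a) / (2 * b)) = (V2 u σ 1 0 - a) / 2 := by field_simp
  rw [e] at this
  linarith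

theorem small (hJ : S_J) (hK : S_KER) (hI : S_INT) (hR : S_REG) {C : ℝ}
    (hC0 : 0 < C) (hm : 0 < m) (hr : 0 < r) (hr1 : r ≤ 1) (hΛ : Λ * r ≤ 1)
    (hS : Sol m Λ 1 (ball 0 r) u σ)
    (hC : ∀ ε : ℝ, 0 < ε → ∀ z ∈ ball (0 : ℂ) r, -(C * 1 ^ 2) ≤ lap (L2 u σ 1 m ε) z) :
    √(V2 u σ 1 0) ≤ 768 * √(91 * Real.exp C) / r ^ 4 * ∫ z in ball (0 : ℂ) r, |u z| := by
  have hp := Real.pi_pos
  have hsup := sup_bound hJ hK hI hS hr hm hΛ
  set I : ℝ := ∫ z in ball (0 : ℂ) r, |u z| with hI'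
  have hI0 : 0 ≤ I := integral_nonneg fun z => abs_nonneg _
  set S : ℝ := 12 / r ^ 2 * I with hSdef
  have hS0 : 0 ≤ S := by rw [hSdef]; positivity
  have hΛ0 : 0 < Λ := by
    have := (hS.low 0 (by simp [hr])).trans (hS.up 0 (by simp [hr])); linarith
  obtain ⟨ρ, hρ⟩ : ∃ ρ : ℝ, ρ = r / 8 := ⟨_, rfl⟩
  have hρ0 : 0 < ρ := by rw [hρ]; positivity
  have hb4 : ball (0 : ℂ) (2 * (2 * ρ)) ⊆ ball 0 r := ball_subset_ball (by rw [hρ]; linarith)
  have hb2 : ball (0 : ℂ) (2 * ρ) ⊆ ball 0 r := ball_subset_ball (by rw [hρ]; linarith)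
  have hb1 : ball (0 : ℂ) ρ ⊆ ball 0 r := ball_subset_ball (by rw [hρ]; linarith)
  have hu4 : ∀ z ∈ ball (0 : ℂ) (2 * (2 * ρ)), |u z| ≤ S := by
    intro z hz
    apply hsup
    have : ‖z‖ < 2 * (2 * ρ) := by simpa using hz
    rw [hρ] at this
    linarith
  have hu2 : ∀ z ∈ ball (0 : ℂ) (2 * ρ), |u z| ≤ S := fun z hz =>
    hu4 z (ball_subset_ball (by linarith) hz)
  have hL1 : Λ * ρ ≤ 1 / 8 := by rw [hρ]; linarith
  have hh := hess_bound hJ hK hI (sol_mono hS hb4) (by linarith : (0 : ℝ) < 2 * ρ) hm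
    (by linarith) (by rw [hρ]; linarith) hS0 hu4
  have hg := grad_bound hJ hK hI (sol_mono hS hb2) (by linarith : (0 : ℝ) < 2 * ρ) hm
    (by linarith) hS0 hu2
  have hhc := continuous_hsq hS.hu
  have hgc := (contDiff_gsq hS.hu).continuous
  have h1 := chi_le_Phi hK hI hhc hρ0 (fun z _ => hsq_nonneg u z)
  have h2 := chi_le_Phi hK hI hgc hρ0 (fun z _ => gsq_nonneg u z)
  have hc := centre hJ hK hI hR hC0 hm hρ0 (by rw [hρ]; linarith) hb1 hS hC
  have h3 : ∀ z ∈ ball (0 : ℂ) ρ,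
      V2 u σ 1 z ≤ 2 * hsq u z + Λ ^ 2 * gsq u z + Λ ^ 4 * S ^ 2 := by
    intro z hz
    have hz' := hb1 hz
    have hs0 : 0 ≤ σ z := hm.le.trans (hS.low z hz')
    have hs2 : σ z ^ 2 ≤ Λ ^ 2 := pow_le_pow_left₀ hs0 (hS.up z hz') 2
    have hs4 : σ z ^ 4 ≤ Λ ^ 4 := pow_le_pow_left₀ hs0 (hS.up z hz') 4
    have hu' : u z ^ 2 ≤ S ^ 2 := by
      rw [← sq_abs (u z)]
      exact pow_le_pow_left₀ (abs_nonneg _) (hu2 z (ball_subset_ball (by linarith) hz)) 2
    have a1 := qsq_le u z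
    have a2 : σ z ^ 2 * gsq u z ≤ Λ ^ 2 * gsq u z :=
      mul_le_mul_of_nonneg_right hs2 (gsq_nonneg u z)
    have a3 : σ z ^ 4 * u z ^ 2 ≤ Λ ^ 4 * S ^ 2 :=
      mul_le_mul hs4 hu' (sq_nonneg _) (by positivity)
    unfold V2
    nlinarith
  have h4 := chi_mono hK hI
    (g := fun z => 2 * hsq u z + Λ ^ 2 * gsq u z + Λ ^ 4 * S ^ 2)
    (continuous_V2 hS.hu hS.hs 1) (by fun_prop) hρ0 h3
  have h5 : ∫ z, chi ρ z * (2 * hsq u z + Λ ^ 2 * gsq u z + Λ ^ 4 * S ^ 2) =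
      2 * (∫ z, chi ρ z * hsq u z) + Λ ^ 2 * (∫ z, chi ρ z * gsq u z) +
        ∫ z, chi ρ z * (Λ ^ 4 * S ^ 2) :=
    int_lin3 (int_chi hI hhc hρ0) (int_chi hI hgc hρ0) _ _ _ (int_chi hI continuous_const hρ0)
  rw [h5, chi_const hK hρ0] at h4
  have hρ2 : 0 < ρ ^ 2 := by positivity
  have hρ4 : 0 < ρ ^ 4 := by positivity
  have hLL : Λ ^ 2 * ρ ^ 2 ≤ 1 / 64 := by
    have h7 : 0 ≤ Λ * ρ := by positivity
    nlinarith
  have hLL' : Λ ^ 2 ≤ 1 / 64 / ρ ^ 2 := by rw [le_div_iff₀ hρ2]; exact hLL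
  have hLLs : Λ ^ 4 ≤ (1 / 64 / ρ ^ 2) ^ 2 := by
    have : Λ ^ 4 = (Λ ^ 2) ^ 2 := by ring
    rw [this]
    exact pow_le_pow_left₀ (by positivity) hLL' 2
  set W : ℝ := Real.pi * S ^ 2 / ρ ^ 4 with hW
  have hW0 : 0 ≤ W := by rw [hW]; positivity
  have c1 : 2 * (∫ z, chi ρ z * hsq u z) ≤ 180 * W := by
    calc _ ≤ 2 * (24 / ρ ^ 2 * (15 * Real.pi * S ^ 2 / (2 * ρ) ^ 2)) := by
          apply mul_le_mul_of_nonneg_left _ (by norm_num)
          exact h1.trans (mul_le_mul_of_nonneg_left hh (by positivity))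
      _ = _ := by rw [hW]; field_simp; ring
  have c2 : Λ ^ 2 * (∫ z, chi ρ z * gsq u z) ≤ 1 * W := by
    calc _ ≤ Λ ^ 2 * (24 / ρ ^ 2 * (7 * Real.pi / 6 * S ^ 2)) := by
          apply mul_le_mul_of_nonneg_left _ (by positivity)
          exact h2.trans (mul_le_mul_of_nonneg_left hg (by positivity))
      _ ≤ (1 / 64 / ρ ^ 2) * (24 / ρ ^ 2 * (7 * Real.pi / 6 * S ^ 2)) := by gcongr
      _ = 28 / 64 * W := by rw [hW]; field_simp; ring
      _ ≤ _ := by linarith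
  have c3 : 2 * Real.pi * (Λ ^ 4 * S ^ 2) ≤ 1 * W := by
    calc _ ≤ 2 * Real.pi * ((1 / 64 / ρ ^ 2) ^ 2 * S ^ 2) := by gcongr
      _ = 1 / 2048 * W := by rw [hW]; field_simp; ring
      _ ≤ _ := by linarith
  have c4 : ∫ z, chi ρ z * V2 u σ 1 z ≤ 182 * W := by linarith
  have c5 : V2 u σ 1 0 ≤ 91 * Real.exp C * (S / ρ ^ 2) ^ 2 := by
    refine hc.trans ?_
    calc _ ≤ Real.exp C / (2 * Real.pi) * (182 * W) :=
          mul_le_mul_of_nonneg_left c4 (by positivity)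
      _ = _ := by rw [hW]; field_simp; ring
  have c6 : √(V2 u σ 1 0) ≤ √(91 * Real.exp C * (S / ρ ^ 2) ^ 2) := Real.sqrt_le_sqrt c5
  rw [Real.sqrt_mul (by positivity), Real.sqrt_sq (by positivity)] at c6
  refine c6.trans (le_of_eq ?_)
  rw [hSdef, hρ]
  field_simp
  ring

/-- IE -/
theorem t_IE (hJ : S_J) (hK : S_KER) (hI : S_INT) (hC : S_CURV) (hR : S_REG) : S_IE := by
  intro m Λ hm hmΛ
  obtain ⟨C, hC0, hCC⟩ := hC m Λ hm hmΛ
  have hΛ0 : 0 < Λ := by linarith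
  set D : ℝ := 768 * √(91 * Real.exp C) with hD
  have hD0 : 0 < D := by rw [hD]; positivity
  set a : ℝ := 1 / (Λ + 1) with ha
  have ha0 : 0 < a := by rw [ha]; positivity
  have ha1 : a ≤ 1 := by rw [ha, div_le_one (by positivity)]; linarith
  have haΛ : Λ * a ≤ 1 := by
    rw [ha, mul_one_div, div_le_one (by positivity)]; linarith
  refine ⟨D * (1 + (√24 / m / a) ^ 4), by positivity, ?_⟩
  intro r u σ hr hrm hS
  have hI0 : 0 ≤ ∫ z in ball (0 : ℂ) r, |u z| := integral_nonneg fun z => abs_nonneg _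
  by_cases hra : r ≤ a
  · have h1 := small hJ hK hI hR hC0 hm hr (hra.trans ha1)
      ((mul_le_mul_of_nonneg_left hra hΛ0.le).trans haΛ) hS
      (fun ε hε z hz => (hCC 1 ε _ u σ le_rfl hε isOpen_ball hS z hz).2)
    refine h1.trans ?_
    apply mul_le_mul_of_nonneg_right _ hI0
    apply div_le_div_of_nonneg_right _ (by positivity)
    have : 0 ≤ (√24 / m / a) ^ 4 := by positivity
    nlinarith
  · push Not at hra
    have hsub : ball (0 : ℂ) a ⊆ ball 0 r := ball_subset_ball hra.le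
    have hS' := sol_mono hS hsub
    have h1 := small hJ hK hI hR hC0 hm ha0 ha1 haΛ hS'
      (fun ε hε z hz => (hCC 1 ε _ u σ le_rfl hε isOpen_ball hS' z hz).2)
    refine h1.trans ?_
    have hint : IntegrableOn (fun z => |u z|) (ball (0 : ℂ) r) :=
      (hS.hu.continuous.abs.continuousOn.integrableOn_compact
        (isCompact_closedBall 0 r)).mono_set ball_subset_closedBall
    have h2 : ∫ z in ball (0 : ℂ) a, |u z| ≤ ∫ z in ball (0 : ℂ) r, |u z| :=
      setIntegral_mono_set hint (Eventually.of_forall fun z => abs_nonneg _)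
        (Eventually.of_forall hsub)
    have h3 : 1 / a ^ 4 ≤ (1 + (√24 / m / a) ^ 4) / r ^ 4 := by
      have h4 : r ^ 4 ≤ (√24 / m) ^ 4 := pow_le_pow_left₀ hr.le hrm 4
      rw [div_le_div_iff₀ (by positivity) (by positivity)]
      have h5 : (√24 / m / a) ^ 4 * a ^ 4 = (√24 / m) ^ 4 := by
        rw [div_pow _ a, div_mul_cancel₀]; positivity
      have h6 : 0 < a ^ 4 := by positivity
      nlinarith
    calc D / a ^ 4 * ∫ z in ball (0 : ℂ) a, |u z|
        ≤ D / a ^ 4 * ∫ z in ball (0 : ℂ) r, |u z| :=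
          mul_le_mul_of_nonneg_left h2 (by positivity)
      _ = D * (1 / a ^ 4) * ∫ z in ball (0 : ℂ) r, |u z| := by ring
      _ ≤ D * ((1 + (√24 / m / a) ^ 4) / r ^ 4) * ∫ z in ball (0 : ℂ) r, |u z| := by
          apply mul_le_mul_of_nonneg_right _ hI0
          exact mul_le_mul_of_nonneg_left h3 hD0.le
      _ = _ := by ring

end Pool.Agent.Helper904_QS.PIE
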