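import Pool.Agent.Helper904_QS.IsoSOL2

/-!
# ISO, piece SOL: solution of the Beltrami equation in the Wiener algebra
-/

set_option autoImplicit false

open MeasureTheory Set Metric Filter Topology
open scoped ContDiff

namespace Pool.Agent.Helper904_QS.PISO

/-- the coefficients of the periodic part -/
noncomputable def gg (H : XX) (n : Fin 2 → ℤ) : ℂ := H n / (wt n * (Real.pi * Complex.I * nu n))

lemma gg_norm (H : XX) (n : Fin 2 → ℤ) : ‖gg H n‖ ≤ ‖H n‖ / wt n := by
  rcases eq_or_ne n 0 with h | h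
  · subst h
    have : nu 0 = 0 := by simp [nu]
    unfold gg
    rw [this]
    simp only [mul_zero, div_zero, norm_zero]
    exact div_nonneg (norm_nonneg _) (wt_pos _).le
  · unfold gg
    rw [norm_div, norm_mul, Complex.norm_real, Real.norm_of_nonneg (wt_pos n).le, norm_mul, norm_mul,
      Complex.norm_I, Complex.norm_real, Real.norm_of_nonneg Real.pi_pos.le, mul_one]
    apply div_le_div_of_nonneg_left (norm_nonneg _) (wt_pos n)
    have h1 := one_le_nu h
    have h2 : 1 ≤ Real.pi * ‖nu n‖ := by nlinarith [Real.pi_gt_three]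
    nlinarith [wt_pos n]

/-- the periodic part -/
noncomputable def ph (H : XX) (z : ℂ) : ℂ := ∑' n, gg H n * en n z

lemma term_contDiff (H : XX) (n : Fin 2 → ℤ) : ContDiff ℝ ∞ (fun z => gg H n * en n z) :=
  contDiff_const.mul (en_contDiff n)

lemma term_bound (H : XX) (k : ℕ) (hk : k ≤ 5) (n : Fin 2 → ℤ) (z : ℂ) :
    ‖iteratedFDeriv ℝ k (fun z => gg H n * en n z) z‖ ≤ (4 * Real.pi) ^ 5 * ‖H n‖ := by
  have h0 : (fun z => gg H n * en n z) = gg H n • en n := by ext z; simp
  rw [h0, iteratedFDeriv_const_smul_apply ((en_contDiff n).contDiffAt.of_le (by exact_mod_cast le_top)),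
    norm_smul]
  have h1 := en_iter n k z
  have hpi := Real.pi_gt_three
  have h2 : (4 * Real.pi * ‖n‖) ^ k ≤ (4 * Real.pi) ^ 5 * wt n := by
    unfold wt
    rw [← mul_pow]
    have h3 : 4 * Real.pi * ‖n‖ ≤ 4 * Real.pi * (1 + ‖n‖) := by nlinarith [norm_nonneg n]
    have h4 : 1 ≤ 4 * Real.pi * (1 + ‖n‖) := by nlinarith [norm_nonneg n]
    calc (4 * Real.pi * ‖n‖) ^ k ≤ (4 * Real.pi * (1 + ‖n‖)) ^ k :=
          pow_le_pow_left₀ (by positivity) h3 k
      _ ≤ (4 * Real.pi * (1 + ‖n‖)) ^ 5 := pow_le_pow_right₀ h4 hk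
  calc ‖gg H n‖ * ‖iteratedFDeriv ℝ k (en n) z‖
      ≤ (‖H n‖ / wt n) * ((4 * Real.pi) ^ 5 * wt n) :=
        mul_le_mul (gg_norm H n) (h1.trans h2) (norm_nonneg _)
          (div_nonneg (norm_nonneg _) (wt_pos n).le)
    _ = (4 * Real.pi) ^ 5 * ‖H n‖ := by
        have := (wt_pos n).ne'
        field_simp

lemma ph_contDiff (H : XX) : ContDiff ℝ 5 (ph H) := by
  unfold ph
  have := contDiff_tsum (𝕜 := ℝ) (N := 5) (f := fun n (z : ℂ) => gg H n * en n z)
    (v := fun _ n => (4 * Real.pi) ^ 5 * ‖H n‖)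
    (fun n => (term_contDiff H n).of_le (by exact_mod_cast le_top))
    (fun k _ => (xx_summable H).mul_left _)
    (fun k n z hk => term_bound H k (by exact_mod_cast hk) n z)
  exact_mod_cast this

lemma ph_fderiv (H : XX) (z ξ : ℂ) : fderiv ℝ (ph H) z ξ =
    ev z (MM sS sS_norm H) * ξ + (ev z H - H 0) * starRingEnd ℂ ξ := by
  have hb : ∀ n (x : ℂ), ‖fderiv ℝ (fun z => gg H n * en n z) x‖ ≤ (4 * Real.pi) ^ 5 * ‖H n‖ := by
    intro n x
    rw [← norm_iteratedFDeriv_one]
    exact term_bound H 1 (by norm_num) n x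
  have hd : ∀ n, Differentiable ℝ (fun z => gg H n * en n z) := fun n =>
    (term_contDiff H n).differentiable (by simp)
  have hs0 : Summable (fun n => gg H n * en n 0) := by
    apply Summable.of_norm
    refine Summable.of_nonneg_of_le (fun _ => norm_nonneg _) (fun n => ?_) (xx_summable H)
    rw [norm_mul, en_norm, mul_one]
    refine (gg_norm H n).trans ?_
    rw [div_le_iff₀ (wt_pos n)]
    nlinarith [one_le_wt n, norm_nonneg (H n)]
  have hsum := (xx_summable H).mul_left ((4 * Real.pi) ^ 5)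
  have h1 := fderiv_tsum hsum hd hb hs0
  have h2 : fderiv ℝ (ph H) z = ∑' n, fderiv ℝ (fun z => gg H n * en n z) z := by
    have := congrFun h1 z
    exact this
  have hs1 : Summable (fun n => fderiv ℝ (fun z => gg H n * en n z) z) :=
    Summable.of_norm (Summable.of_nonneg_of_le (fun _ => norm_nonneg _) (fun n => hb n z) hsum)
  rw [h2]
  have h3 : (∑' n, fderiv ℝ (fun z => gg H n * en n z) z) ξ =
      ∑' n, (fderiv ℝ (fun z => gg H n * en n z) z) ξ := by
    have := (ContinuousLinearMap.apply ℝ ℂ ξ).map_tsum hs1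
    simpa using this
  rw [h3]
  have h4 : ∀ n, (fderiv ℝ (fun z => gg H n * en n z) z) ξ =
      (sS n * H n) * (en n z / wt n) * ξ +
        ((H n) * (en n z / wt n) - (if n = 0 then H 0 else 0)) * starRingEnd ℂ ξ := by
    intro n
    have e1 : fderiv ℝ (fun z => gg H n * en n z) z = gg H n • fderiv ℝ (en n) z := by
      have := fderiv_const_mul (𝕜 := ℝ) (a := en n) (x := z)
        ((en_contDiff n).differentiable (by simp)).differentiableAt (gg H n)
      exact this
    rw [e1, _root_.smul_apply, en_fderiv, smul_eq_mul]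
    rcases eq_or_ne n 0 with h | h
    · subst h
      have hn : nu 0 = 0 := by simp [nu]
      simp only [hn, sS_zero, en_zero, wt_zero]
      simp
    · rw [if_neg h]
      have hn : nu n ≠ 0 := fun hh => h (nu_eq_zero hh)
      have hw : (wt n : ℂ) ≠ 0 := by exact_mod_cast (wt_pos n).ne'
      have hpi : (Real.pi : ℂ) ≠ 0 := by exact_mod_cast Real.pi_ne_zero
      unfold gg sS
      field_simp
      ring
  have hA : Summable (fun n => (sS n * H n) * (en n z / wt n)) := by
    have := ev_summable z (MM sS sS_norm H)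
    simpa [MM_apply] using this
  have hB := ev_summable z H
  have hC : Summable (fun n : Fin 2 → ℤ => if n = 0 then H 0 else (0:ℂ)) :=
    summable_of_ne_finset_zero (s := {0}) (by intro n hn; simp at hn; simp [hn])
  simp only [h4]
  rw [Summable.tsum_add (hA.mul_right ξ) ((hB.sub hC).mul_right _), tsum_mul_right, tsum_mul_right,
    hB.tsum_sub hC, tsum_ite_eq]
  rw [ev_apply, ev_apply]
  simp only [MM_apply]

theorem t_SOL : S_SOL := by
  intro c hc hκ hε
  set κ := ∑' n, wt n * ‖c n‖ with hκdef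
  have hκ0 : 0 ≤ κ := tsum_nonneg fun m => mul_nonneg (wt_pos m).le (norm_nonneg _)
  set T := TT c hc with hT
  set M := MM sS sS_norm with hM
  set y0 := yy c hc 0 with hy0
  have hMT : ‖M.comp T‖ < 1 := by
    refine (ContinuousLinearMap.opNorm_comp_le M T).trans_lt ?_
    have h1 : ‖M‖ ≤ 1 := MM_norm sS sS_norm
    have h2 : ‖T‖ ≤ κ := TT_norm c hc
    nlinarith [norm_nonneg M, norm_nonneg T]
  have hMTv : ∀ v : XX, ‖M (T v)‖ ≤ κ * ‖v‖ := by
    intro v
    have h1 : ‖M‖ ≤ 1 := MM_norm sS sS_norm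
    have h2 : ‖T‖ ≤ κ := TT_norm c hc
    calc ‖M (T v)‖ ≤ ‖M‖ * ‖T v‖ := M.le_opNorm _
      _ ≤ 1 * ‖T v‖ := by gcongr
      _ = ‖T v‖ := one_mul _
      _ ≤ ‖T‖ * ‖v‖ := T.le_opNorm v
      _ ≤ κ * ‖v‖ := by gcongr
  set u := Units.oneSub (M.comp T) hMT with hu
  set v : XX := (↑(u⁻¹) : XX →L[ℂ] XX) (M y0) with hv
  have hveq : v = M (T v + y0) := by
    have h1 : ((u : XX →L[ℂ] XX) * (↑(u⁻¹) : XX →L[ℂ] XX)) (M y0) = M y0 := by
      rw [Units.mul_inv]; rfl
    have h2 : (u : XX →L[ℂ] XX) v = M y0 := h1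
    have h3 : (u : XX →L[ℂ] XX) = 1 - M.comp T := Units.val_oneSub _ _
    rw [h3] at h2
    have h4 : v - M (T v) = M y0 := h2
    rw [map_add, ← h4]
    abel
  have hvnorm : ‖v‖ ≤ 1 / 2 := by
    have h1 : ‖v‖ ≤ κ * ‖v‖ + ‖M y0‖ := by
      calc ‖v‖ = ‖M (T v) + M y0‖ := by rw [← map_add, ← hveq]
        _ ≤ ‖M (T v)‖ + ‖M y0‖ := norm_add_le _ _
        _ ≤ κ * ‖v‖ + ‖M y0‖ := by gcongr; exact hMTv v
    have h2 : ‖M y0‖ ≤ ∑' n, (if n = 0 then 0 else wt n * ‖c n‖) := by
      rw [xx_norm]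
      refine Summable.tsum_le_tsum (fun n => ?_) (xx_summable _) ?_
      · rw [hM, MM_apply, norm_mul]
        split_ifs with h
        · rw [h, sS_zero]; simp
        · have e1 : ‖y0 n‖ = wt n * ‖c n‖ := by
            rw [hy0]
            simp only [yy, xmk_apply, sub_zero, wt_zero, div_one]
            rw [norm_mul, Complex.norm_real, Real.norm_of_nonneg (wt_pos n).le, mul_comm]
          rw [e1]
          have := sS_norm n
          have h5 : 0 ≤ wt n * ‖c n‖ := mul_nonneg (wt_pos n).le (norm_nonneg _)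
          nlinarith
      · refine Summable.of_nonneg_of_le (fun n => ?_) (fun n => ?_) hc
        · split_ifs
          · exact le_rfl
          · exact mul_nonneg (wt_pos n).le (norm_nonneg _)
        · split_ifs
          · exact mul_nonneg (wt_pos n).le (norm_nonneg _)
          · exact le_rfl
    have h3 : (1 - κ) * ‖v‖ ≤ (1 - κ) * (1 / 2) := by linarith
    exact le_of_mul_le_mul_left h3 (by linarith)
  set H : XX := T v + y0 with hH
  refine ⟨fun z => z + H 0 * starRingEnd ℂ z + ph H z, fun z => 1 + ev z v, ?_, ?_, ?_⟩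
  · apply ContDiff.add _ (ph_contDiff H)
    apply contDiff_id.add
    apply contDiff_const.mul
    exact Complex.conjCLE.contDiff
  · intro z
    simp only [add_sub_cancel_left]
    exact (ev_norm_le z v).trans hvnorm
  · intro z ξ
    have hd1 : HasFDerivAt (fun z : ℂ => z + H 0 * starRingEnd ℂ z)
        (ContinuousLinearMap.id ℝ ℂ + H 0 • (Complex.conjCLE : ℂ →L[ℝ] ℂ)) z := by
      apply (hasFDerivAt_id z).add
      exact (Complex.conjCLE.hasFDerivAt (x := z)).const_mul (H 0)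
    have hd2 : HasFDerivAt (ph H) (fderiv ℝ (ph H) z) z :=
      ((ph_contDiff H).differentiable (by norm_num) z).hasFDerivAt
    have hd3 : HasFDerivAt (fun z : ℂ => z + H 0 * starRingEnd ℂ z + ph H z)
        ((ContinuousLinearMap.id ℝ ℂ + H 0 • (Complex.conjCLE : ℂ →L[ℝ] ℂ)) + fderiv ℝ (ph H) z) z :=
      hd1.add hd2
    have hd4 : fderiv ℝ (fun z : ℂ => z + H 0 * starRingEnd ℂ z + ph H z) z ξ =
        ξ + H 0 * (Complex.conjCLE : ℂ →L[ℝ] ℂ) ξ + fderiv ℝ (ph H) z ξ := by
      rw [hd3.fderiv]; rfl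
    rw [hd4, ph_fderiv, ← hM, ← hveq]
    show ξ + H 0 * (Complex.conjCLE : ℂ →L[ℝ] ℂ) ξ + ((ev z) v * ξ + ((ev z) H - H 0) * (starRingEnd ℂ) ξ) =
      (1 + (ev z) v) * (ξ + (∑' (n : Fin 2 → ℤ), c n * en n z) * (starRingEnd ℂ) ξ)
    have hev : ev z H = mm c z * (1 + ev z v) := by
      rw [hH, map_add, hT, ev_TT, hy0, ev_yy, en_zero, wt_zero]
      push_cast
      ring
    have hm : (∑' n, c n * en n z) = mm c z := rfl
    rw [hev, hm]
    have hcj : (Complex.conjCLE : ℂ →L[ℝ] ℂ) ξ = starRingEnd ℂ ξ := rfl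
    rw [hcj]
    ring

end Pool.Agent.Helper904_QS.PISO
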