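import Pool.Agent.Helper904_QS.IsoFOU
import Pool.Agent.Helper904_QS.IsoSOL

/-!
# ISO: local isothermal coordinates of a smooth metric (seat 8, helper18)
-/

set_option autoImplicit false

open MeasureTheory Set Metric Filter Topology
open scoped ContDiff

namespace Pool.Agent.Helper904_QS.PISO

/-- the Beltrami coefficient of `a dx² + 2 b dx dy + c dy²` -/
noncomputable def bel (a b c : ℂ → ℝ) (z : ℂ) : ℂ :=
  (((a z - c z : ℝ) : ℂ) + 2 * Complex.I * b z) / ((a z + c z + 2 * √(a z * c z - b z ^ 2) : ℝ) : ℂ)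

lemma bel_den_pos {a b c : ℂ → ℝ} {z : ℂ} (ha : 0 < a z) (hD : 0 < a z * c z - b z ^ 2) :
    0 < a z + c z + 2 * √(a z * c z - b z ^ 2) := by
  have hc : 0 < c z := by
    by_contra h
    push Not at h
    nlinarith [sq_nonneg (b z)]
  have := Real.sqrt_pos.2 hD
  linarith

lemma bel_form {a b c : ℂ → ℝ} {z : ℂ} (ha : 0 < a z) (hD : 0 < a z * c z - b z ^ 2) (v w : ℂ) :
    qf a b c z v w = (a z + c z + 2 * √(a z * c z - b z ^ 2)) / 4 *
      ((v + bel a b c z * starRingEnd ℂ v) * starRingEnd ℂ (w + bel a b c z * starRingEnd ℂ w)).re := by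
  have hd := bel_den_pos ha hD
  set s := √(a z * c z - b z ^ 2) with hs
  have hs2 : s ^ 2 = a z * c z - b z ^ 2 := Real.sq_sqrt hD.le
  set d := a z + c z + 2 * s with hdd
  have e1 : (bel a b c z).re = (a z - c z) / d := by
    unfold bel
    rw [← hs, ← hdd, Complex.div_ofReal_re]
    simp
  have e2 : (bel a b c z).im = 2 * b z / d := by
    unfold bel
    rw [← hs, ← hdd, Complex.div_ofReal_im]
    simp
  have h1 : ((v + bel a b c z * starRingEnd ℂ v) *
      starRingEnd ℂ (w + bel a b c z * starRingEnd ℂ w)).re =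
      (1 + ((a z - c z) / d) ^ 2 + (2 * b z / d) ^ 2) * (v.re * w.re + v.im * w.im) +
        2 * ((a z - c z) / d * (v.re * w.re - v.im * w.im) +
          2 * b z / d * (v.re * w.im + v.im * w.re)) := by
    rw [← e1, ← e2]
    simp only [map_add, map_mul, Complex.mul_re, Complex.add_re, Complex.add_im, Complex.mul_im,
      Complex.conj_re, Complex.conj_im, Complex.conj_conj]
    ring
  have h2 : (1 + ((a z - c z) / d) ^ 2 + (2 * b z / d) ^ 2) = 2 * (a z + c z) / d := by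
    field_simp
    have : b z ^ 2 = a z * c z - s ^ 2 := by linarith
    rw [hdd]
    nlinarith [this]
  rw [h1, h2]
  unfold qf
  field_simp
  ring

lemma bel_norm_lt {a b c : ℂ → ℝ} {z : ℂ} (ha : 0 < a z) (hD : 0 < a z * c z - b z ^ 2) :
    ‖bel a b c z‖ < 1 := by
  have hd := bel_den_pos ha hD
  have hc : 0 < c z := by
    by_contra h
    push Not at h
    nlinarith [sq_nonneg (b z)]
  have hspos := Real.sqrt_pos.2 hD
  set s := √(a z * c z - b z ^ 2) with hs
  have hs2 : s ^ 2 = a z * c z - b z ^ 2 := Real.sq_sqrt hD.le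
  unfold bel
  rw [← hs, norm_div, Complex.norm_real, Real.norm_of_nonneg hd.le, div_lt_one hd]
  apply lt_of_pow_lt_pow_left₀ 2 hd.le
  rw [← Complex.normSq_eq_norm_sq, Complex.normSq_apply]
  simp
  nlinarith

lemma bel_contDiffAt {a b c : ℂ → ℝ} {p : ℂ} (ha : ContDiffAt ℝ 9 a p) (hb : ContDiffAt ℝ 9 b p)
    (hc : ContDiffAt ℝ 9 c p) (ha0 : 0 < a p) (hD : 0 < a p * c p - b p ^ 2) :
    ContDiffAt ℝ 9 (bel a b c) p := by
  unfold bel
  have hd := bel_den_pos ha0 hD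
  simp only [div_eq_mul_inv]
  apply ContDiffAt.mul
  · apply ContDiffAt.add
    · exact (Complex.ofRealCLM.contDiff.contDiffAt).comp p (ha.sub hc)
    · apply contDiffAt_const.mul
      exact (Complex.ofRealCLM.contDiff.contDiffAt).comp p hb
  · apply ContDiffAt.inv
    · apply (Complex.ofRealCLM.contDiff.contDiffAt).comp p
      apply (ha.add hc).add
      apply contDiffAt_const.mul
      exact ((ha.mul hc).sub (hb.pow 2)).sqrt hD.ne'
    · exact_mod_cast hd.ne'

/-- an injective real linear endomorphism of the plane is an equivalence -/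
lemma exists_equiv (L : ℂ →L[ℝ] ℂ) (hL : ∀ ξ, L ξ = 0 → ξ = 0) :
    ∃ e : ℂ ≃L[ℝ] ℂ, (e : ℂ →L[ℝ] ℂ) = L := by
  have hinj : Function.Injective (L : ℂ →ₗ[ℝ] ℂ) :=
    (injective_iff_map_eq_zero (L : ℂ →ₗ[ℝ] ℂ)).2 hL
  refine ⟨(LinearEquiv.ofInjectiveEndo (L : ℂ →ₗ[ℝ] ℂ) hinj).toContinuousLinearEquiv, ?_⟩
  rfl

theorem t_ISO : S_ISO := by
  intro a b c p W hW ha hb hc ha0 hD0
  have ha9 : ContDiffAt ℝ 9 a p := ha.of_le ENat.LEInfty.out
  have hb9 : ContDiffAt ℝ 9 b p := hb.of_le ENat.LEInfty.out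
  have hc9 : ContDiffAt ℝ 9 c p := hc.of_le ENat.LEInfty.out
  have hμ9 := bel_contDiffAt ha9 hb9 hc9 ha0 hD0
  set μ := bel a b c with hμ
  set q := ‖μ p‖ with hq
  have hq1 : q < 1 := bel_norm_lt ha0 hD0
  have hq0 : 0 ≤ q := norm_nonneg _
  obtain ⟨δ, r, cf, hδ, -, hr, hsm, hval, hc0, hrest⟩ := t_FOU μ p hμ9 ((1 - q) / 4) (by linarith)
  have hwn : ∀ n, 0 ≤ wt n * ‖cf n‖ := fun n => mul_nonneg (wt_pos n).le (norm_nonneg _)
  have hκ : ∑' n, wt n * ‖cf n‖ ≤ (1 + q) / 2 := by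
    rw [hsm.tsum_eq_add_tsum_ite 0, wt_zero, one_mul]
    have h1 : ‖cf 0‖ ≤ q + (1 - q) / 4 := by
      calc ‖cf 0‖ = ‖(cf 0 - μ p) + μ p‖ := by simp
        _ ≤ ‖cf 0 - μ p‖ + ‖μ p‖ := norm_add_le _ _
        _ ≤ _ := by linarith
    linarith
  have hκ1 : ∑' n, wt n * ‖cf n‖ < 1 := by linarith
  obtain ⟨f, F, hf5, hF, hfd⟩ := t_SOL cf hsm hκ1 (by linarith)
  have hmlt : ∀ z, ‖∑' n, cf n * en n z‖ < 1 := by
    intro z
    have hs1 : Summable (fun n => ‖cf n * en n z‖) := by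
      simp only [norm_mul, en_norm, mul_one]
      exact summable_c cf hsm
    calc ‖∑' n, cf n * en n z‖ ≤ ∑' n, ‖cf n * en n z‖ := norm_tsum_le_tsum_norm hs1
      _ ≤ ∑' n, wt n * ‖cf n‖ := by
          refine hs1.tsum_le_tsum (fun n => ?_) hsm
          rw [norm_mul, en_norm, mul_one]
          nlinarith [one_le_wt n, norm_nonneg (cf n)]
      _ < 1 := hκ1
  have hF0 : ∀ z, F z ≠ 0 := by
    intro z h
    have := hF z
    rw [h] at this
    norm_num at this
  have heq : ∀ z, ∃ e : ℂ ≃L[ℝ] ℂ, (e : ℂ →L[ℝ] ℂ) = fderiv ℝ f z := by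
    intro z
    apply exists_equiv
    intro ξ hξ
    rw [hfd] at hξ
    have h1 := (mul_eq_zero.1 hξ).resolve_left (hF0 z)
    by_contra hne
    have h2 : ξ = -((∑' n, cf n * en n z) * starRingEnd ℂ ξ) := eq_neg_of_add_eq_zero_left h1
    have h3 : ‖ξ‖ = ‖∑' n, cf n * en n z‖ * ‖ξ‖ := by
      conv_lhs => rw [h2]
      rw [norm_neg, norm_mul, Complex.norm_conj]
    have h4 : 0 < ‖ξ‖ := norm_pos_iff.2 hne
    nlinarith [hmlt z]
  choose ee hee using heq
  have hfAt : ∀ z, HasFDerivAt f (ee z : ℂ →L[ℝ] ℂ) z := by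
    intro z
    rw [hee z]
    exact (hf5.differentiable (by norm_num) z).hasFDerivAt
  -- the good neighbourhood
  have hO : ∀ᶠ z in 𝓝 p, z ∈ W ∧ ContDiffAt ℝ 5 a z ∧ ContDiffAt ℝ 5 b z ∧ ContDiffAt ℝ 5 c z ∧
      0 < a z ∧ 0 < a z * c z - b z ^ 2 := by
    have h1 := (ha.of_le (m := 5) ENat.LEInfty.out).eventually (by decide)
    have h2 := (hb.of_le (m := 5) ENat.LEInfty.out).eventually (by decide)
    have h3 := (hc.of_le (m := 5) ENat.LEInfty.out).eventually (by decide)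
    have h4 : ∀ᶠ z in 𝓝 p, 0 < a z := ha.continuousAt.eventually_const_lt ha0
    have h5 : ∀ᶠ z in 𝓝 p, 0 < a z * c z - b z ^ 2 :=
      ((ha.continuousAt.mul hc.continuousAt).sub (hb.continuousAt.pow 2)).eventually_const_lt hD0
    filter_upwards [hW, h1, h2, h3, h4, h5] with z w1 w2 w3 w4 w5 w6
    exact ⟨w1, w2, w3, w4, w5, w6⟩
  set E := (hf5.contDiffAt (x := (0 : ℂ))).toOpenPartialHomeomorph f (hfAt 0) (by norm_num) with hE
  have hEf : (E : ℂ → ℂ) = f := rfl
  have h0s : (0 : ℂ) ∈ E.source :=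
    ContDiffAt.mem_toOpenPartialHomeomorph_source _ (hfAt 0) (by norm_num)
  set y0 := f 0 with hy0
  have hy0t : y0 ∈ E.target := by
    have := E.map_source h0s
    rwa [hEf] at this
  have hsy0 : E.symm y0 = 0 := by
    have := E.left_inv h0s
    rwa [hEf] at this
  have hcont : ContinuousAt E.symm y0 := E.continuousAt_symm hy0t
  have hev : ∀ᶠ y in 𝓝 y0, y ∈ E.target ∧ E.symm y ∈ ball (0 : ℂ) r ∧
      (p + δ * E.symm y ∈ W ∧ ContDiffAt ℝ 5 a (p + δ * E.symm y) ∧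
        ContDiffAt ℝ 5 b (p + δ * E.symm y) ∧ ContDiffAt ℝ 5 c (p + δ * E.symm y) ∧
        0 < a (p + δ * E.symm y) ∧
        0 < a (p + δ * E.symm y) * c (p + δ * E.symm y) - b (p + δ * E.symm y) ^ 2) := by
    have h1 : ∀ᶠ y in 𝓝 y0, y ∈ E.target := E.open_target.mem_nhds hy0t
    have h2 : ∀ᶠ y in 𝓝 y0, E.symm y ∈ ball (0 : ℂ) r := by
      apply hcont.eventually_mem
      rw [hsy0]
      exact ball_mem_nhds _ hr
    have h3 : Tendsto (fun y => p + δ * E.symm y) (𝓝 y0) (𝓝 p) := by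
      have h4 : ContinuousAt (fun y => p + δ * E.symm y) y0 :=
        continuousAt_const.add (continuousAt_const.mul hcont)
      have h5 := h4.tendsto
      rw [hsy0, mul_zero, add_zero] at h5
      exact h5
    filter_upwards [h1, h2, h3.eventually hO] with y w1 w2 w3
    exact ⟨w1, w2, w3⟩
  obtain ⟨ρ, hρ, hball⟩ := Metric.eventually_nhds_iff_ball.1 hev
  set k : ℝ := ρ / 2 with hk
  have hkpos : 0 < k := by positivity
  have hmem : ∀ z ∈ ball (0 : ℂ) 2, y0 + k * z ∈ ball y0 ρ := by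
    intro z hz
    rw [mem_ball_zero_iff] at hz
    rw [mem_ball, dist_self_add_left, norm_mul, Complex.norm_real, Real.norm_of_nonneg hkpos.le]
    nlinarith
  set h : ℂ → ℂ := fun z => p + δ * E.symm (y0 + k * z) with hh
  -- regularity of `h`
  have hsymm5 : ∀ y ∈ ball y0 ρ, ContDiffAt ℝ 5 E.symm y := by
    intro y hy
    exact E.contDiffAt_symm (hball y hy).1 (hfAt _) hf5.contDiffAt
  have hlin : ContDiff ℝ 5 (fun z : ℂ => y0 + k * z) := contDiff_const.add (contDiff_const.mul contDiff_id)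
  have hh5 : ∀ z ∈ ball (0 : ℂ) 2, ContDiffAt ℝ 5 h z := by
    intro z hz
    apply contDiffAt_const.add
    apply contDiffAt_const.mul
    exact ContDiffAt.comp z (hsymm5 _ (hmem z hz)) hlin.contDiffAt
  have hhd : ∀ z ∈ ball (0 : ℂ) 2, ∀ v : ℂ,
      fderiv ℝ h z v = δ * ((ee (E.symm (y0 + k * z))).symm (k * v)) := by
    intro z hz v
    have h1 : HasFDerivAt E.symm ((ee (E.symm (y0 + k * z))).symm : ℂ →L[ℝ] ℂ) (y0 + k * z) :=
      E.hasFDerivAt_symm (hball _ (hmem z hz)).1 (hfAt _)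
    have h2 : HasFDerivAt (fun z : ℂ => y0 + k * z) ((k : ℂ) • ContinuousLinearMap.id ℝ ℂ) z := by
      have := ((hasFDerivAt_id (𝕜 := ℝ) z).const_mul (k : ℂ)).const_add y0
      exact this
    have h3 := ((h1.comp z h2).const_mul (δ : ℂ)).const_add p
    have h4 : HasFDerivAt h ((δ : ℂ) • (((ee (E.symm (y0 + k * z))).symm : ℂ →L[ℝ] ℂ).comp
        ((k : ℂ) • ContinuousLinearMap.id ℝ ℂ))) z := h3
    rw [h4.fderiv]
    rfl
  have hqf : ∀ z ∈ ball (0 : ℂ) 2, ∀ v w : ℂ,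
      qf a b c (h z) (fderiv ℝ h z v) (fderiv ℝ h z w) =
        (a (h z) + c (h z) + 2 * √(a (h z) * c (h z) - b (h z) ^ 2)) / 4 *
          ((δ * k) ^ 2 / ‖F (E.symm (y0 + k * z))‖ ^ 2) * (v * starRingEnd ℂ w).re := by
    intro z hz v w
    obtain ⟨-, hζr, -, -, -, -, hap, hDp⟩ := hball _ (hmem z hz)
    set ζ := E.symm (y0 + k * z) with hζ
    have hhz : h z = p + δ * ζ := rfl
    have hm : ∑' n, cf n * en n ζ = bel a b c (h z) := by
      rw [hval ζ hζr, hhz, hμ]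
    rw [← hhz] at hap hDp
    rw [bel_form hap hDp]
    have key : ∀ v : ℂ, fderiv ℝ h z v + bel a b c (h z) * starRingEnd ℂ (fderiv ℝ h z v) =
        δ * k * v / F ζ := by
      intro v
      rw [hhd z hz v, ← hζ, ← hm]
      set η := (ee ζ).symm (k * v) with hη
      have h1 : fderiv ℝ f ζ η = k * v := by
        rw [← hee ζ]
        exact (ee ζ).apply_symm_apply _
      rw [hfd] at h1
      rw [eq_div_iff (hF0 ζ), map_mul, Complex.conj_ofReal]
      linear_combination (δ : ℂ) * h1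
    rw [key, key]
    have h5 : (δ * k * v / F ζ) * starRingEnd ℂ (δ * k * w / F ζ) =
        (((δ * k) ^ 2 / ‖F ζ‖ ^ 2 : ℝ) : ℂ) * (v * starRingEnd ℂ w) := by
      have h6 : F ζ * starRingEnd ℂ (F ζ) = ((‖F ζ‖ ^ 2 : ℝ) : ℂ) := by
        rw [Complex.mul_conj, Complex.normSq_eq_norm_sq]
      have h7 : starRingEnd ℂ (F ζ) ≠ 0 := by
        rw [Ne, map_eq_zero]; exact hF0 ζ
      simp only [map_div₀, map_mul, Complex.conj_ofReal]
      push_cast
      push_cast at h6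
      rw [div_mul_div_comm, h6]
      ring
    rw [h5, Complex.re_ofReal_mul]
    ring
  have hpos : ∀ z ∈ ball (0 : ℂ) 2, 0 < qf a b c (h z) (fderiv ℝ h z 1) (fderiv ℝ h z 1) := by
    intro z hz
    rw [hqf z hz]
    obtain ⟨-, hζr, -, -, -, -, hap, hDp⟩ := hball _ (hmem z hz)
    have h1 := bel_den_pos (z := h z) hap hDp
    have h2 : 0 < ‖F (E.symm (y0 + k * z))‖ := norm_pos_iff.2 (hF0 _)
    simp only [map_one, mul_one, Complex.one_re]
    positivity
  refine ⟨h, fun z => √(qf a b c (h z) (fderiv ℝ h z 1) (fderiv ℝ h z 1)), ?_, ?_, ?_, ?_, ?_, ?_, ?_⟩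
  · intro z hz
    exact (hh5 z hz).contDiffWithinAt
  · intro z hz
    apply ContDiffAt.contDiffWithinAt
    refine ContDiffAt.sqrt (f := fun z => qf a b c (h z) (fderiv ℝ h z 1) (fderiv ℝ h z 1)) ?_
      (hpos z hz).ne'
    obtain ⟨-, hζr, -, hca, hcb, hcc, -, -⟩ := hball _ (hmem z hz)
    have hh4 : ContDiffAt ℝ 4 h z := (hh5 z hz).of_le (by norm_num)
    have hA : ContDiffAt ℝ 4 (fun z => a (h z)) z :=
      ContDiffAt.comp z (hca.of_le (by norm_num)) hh4
    have hB : ContDiffAt ℝ 4 (fun z => b (h z)) z :=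
      ContDiffAt.comp z (hcb.of_le (by norm_num)) hh4
    have hC : ContDiffAt ℝ 4 (fun z => c (h z)) z :=
      ContDiffAt.comp z (hcc.of_le (by norm_num)) hh4
    have hd : ContDiffAt ℝ 4 (fun z => fderiv ℝ h z 1) z :=
      ((hh5 z hz).fderiv_right (m := 4) (by norm_num)).clm_apply contDiffAt_const
    have hre : ContDiffAt ℝ 4 (fun z => (fderiv ℝ h z 1).re) z :=
      Complex.reCLM.contDiff.contDiffAt.comp z hd
    have him : ContDiffAt ℝ 4 (fun z => (fderiv ℝ h z 1).im) z :=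
      Complex.imCLM.contDiff.contDiffAt.comp z hd
    unfold qf
    exact ((hA.mul (hre.mul hre)).add (hB.mul ((hre.mul him).add (him.mul hre)))).add
      (hC.mul (him.mul him))
  · simp only [hh, mul_zero, add_zero, hsy0]
  · intro z hz
    exact (hball _ (hmem z hz)).2.2.1
  · intro z hz w hw hzw
    simp only [hh] at hzw
    have h1 := add_left_cancel hzw
    have h2 := mul_left_cancel₀ (by exact_mod_cast hδ.ne' : (δ : ℂ) ≠ 0) h1
    have h3 := E.symm.injOn (hball _ (hmem z hz)).1 (hball _ (hmem w hw)).1 h2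
    have h4 := add_left_cancel h3
    exact mul_left_cancel₀ (by exact_mod_cast hkpos.ne' : (k : ℂ) ≠ 0) h4
  · intro z hz
    exact Real.sqrt_pos.2 (hpos z hz)
  · intro z hz
    simp only
    rw [Real.sq_sqrt (hpos z hz).le]
    refine ⟨rfl, ?_, ?_⟩
    · rw [hqf z hz, hqf z hz]
      simp
    · rw [hqf z hz]
      simp

end Pool.Agent.Helper904_QS.PISO
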