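import Pool.Agent.Helper904_QS.Stmts
import Pool.Agent.Helper904_QS.Calc

/-!
# KER, INT: the kernels `chi` and `Phi`.
-/

set_option autoImplicit false

open MeasureTheory Set Metric Filter Topology
open scoped ContDiff

namespace Pool.Agent.Helper904_QS.PKER

/-- integration of a radial function supported in a disc -/
theorem radial_int (r : ℝ) (hr : 0 < r) (P G : ℝ → ℝ) (hc : ContinuousOn G (Icc 0 r))
    (hd : ∀ x ∈ Ioo 0 r, HasDerivAt G (x * P x) x) (h0 : ∀ x ∈ Ioo 0 r, 0 ≤ P x)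
    (hout : ∀ x, r ≤ x → P x = 0) :
    Integrable (fun z : ℂ => P ‖z‖) ∧ ∫ z : ℂ, P ‖z‖ = 2 * Real.pi * (G r - G 0) := by
  have h1 : IntegrableOn (fun x => x * P x) (Ioc 0 r) :=
    intervalIntegral.integrableOn_deriv_of_nonneg hc hd
      (fun x hx => mul_nonneg hx.1.le (h0 x hx))
  have h2 : IntegrableOn (fun x => x * P x) (Ioi r) := by
    apply (integrableOn_zero (μ := volume) (s := Ioi r) (ε' := ℝ)).congr_fun _ measurableSet_Ioi
    intro x hx
    simp [hout x (le_of_lt hx)]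
  have hu : Ioi (0 : ℝ) = Ioc 0 r ∪ Ioi r := (Ioc_union_Ioi_eq_Ioi hr.le).symm
  have h3 : IntegrableOn (fun x => x * P x) (Ioi 0) := by
    rw [hu]; exact h1.union h2
  have hdim : Module.finrank ℝ ℂ = 2 := Complex.finrank_real_complex
  refine ⟨?_, ?_⟩
  · rw [integrable_fun_norm_addHaar (volume : Measure ℂ) (f := P), hdim]
    simpa using h3
  · rw [integral_fun_norm_addHaar (volume : Measure ℂ) P, hdim]
    have hvol : (volume : Measure ℂ).real (ball 0 1) = Real.pi := by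
      simp [Measure.real, Complex.volume_ball]
    have e1 : ∫ y in Ioi (0 : ℝ), y ^ (2 - 1) • P y = G r - G 0 := by
      have e2 : ∫ y in Ioi (0 : ℝ), y ^ (2 - 1) • P y = ∫ y in Ioi (0 : ℝ), y * P y := by
        simp
      rw [e2, hu, setIntegral_union Ioc_disjoint_Ioi_same measurableSet_Ioi h1 h2]
      have e3 : ∫ y in Ioi r, y * P y = 0 := by
        apply setIntegral_eq_zero_of_forall_eq_zero
        intro x hx
        simp [hout x (le_of_lt hx)]
      rw [e3, add_zero, ← intervalIntegral.integral_of_le hr.le]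
      apply intervalIntegral.integral_eq_sub_of_hasDerivAt_of_le hr.le hc hd
      rw [intervalIntegrable_iff_integrableOn_Ioc_of_le hr.le]
      exact h1
    rw [e1, hvol]
    simp
    ring

/-- `-log s ≥ (1-s) + (1-s)²/2` -/
theorem neg_log_ge (s : ℝ) (h0 : 0 < s) (h1 : s ≤ 1) :
    (1 - s) + (1 - s) ^ 2 / 2 ≤ -Real.log s := by
  have hx : |1 - s| < 1 := by rw [abs_lt]; constructor <;> linarith
  have h := Real.hasSum_pow_div_log_of_abs_lt_one hx
  have h2 := sum_le_hasSum (Finset.range 2)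
    (fun i _ => by have : 0 ≤ 1 - s := by linarith
                   positivity) h
  simp [Finset.sum_range_succ] at h2
  norm_num at h2
  linarith

/-- profile of `Phi` in the variable `s = |z|²/r²` -/
noncomputable def pf (s : ℝ) : ℝ := (-Real.log s - (1 - s) - (1 - s) ^ 2 / 2) / 2

theorem pf_nonneg (s : ℝ) (h0 : 0 < s) (h1 : s ≤ 1) : 0 ≤ pf s := by
  have := neg_log_ge s h0 h1
  unfold pf
  linarith

theorem pf_le (s : ℝ) (h1 : s ≤ 1) : pf s ≤ -Real.log s / 2 := by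
  unfold pf
  nlinarith [sq_nonneg (1 - s)]

theorem pf_ge (s : ℝ) (h0 : 0 < s) (h1 : s ≤ 1 / 4) : 1 / 6 ≤ pf s := by
  have h4 : Real.log (4 * s) ≤ 4 * s - 1 := Real.log_le_sub_one_of_pos (by linarith)
  have h5 : Real.log (4 * s) = 2 * Real.log 2 + Real.log s := by
    rw [Real.log_mul (by norm_num) h0.ne']
    have : (4 : ℝ) = 2 ^ 2 := by norm_num
    rw [this, Real.log_pow]; push_cast; ring
  have h6 := Real.log_two_gt_d9
  unfold pf
  nlinarith

/-- the radial profile of `Phi r` -/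
noncomputable def PP (r t : ℝ) : ℝ := if 0 < t ∧ t < r then pf (t ^ 2 / r ^ 2) else 0

theorem Phi_eq (r : ℝ) (z : ℂ) : Phi r z = PP r ‖z‖ := by
  unfold Phi PP pf
  rfl

/-- antiderivative of `t * PP r t` -/
noncomputable def GG (r t : ℝ) : ℝ :=
  r ^ 2 / 4 * (-((t ^ 2 / r ^ 2) * Real.log (t ^ 2 / r ^ 2)) + (t ^ 2 / r ^ 2) ^ 2 / 2 +
    (1 - t ^ 2 / r ^ 2) ^ 3 / 6)

theorem GG_cont (r : ℝ) : Continuous (GG r) := by
  unfold GG
  have h1 : Continuous (fun t : ℝ => t ^ 2 / r ^ 2) := by fun_prop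
  have h2 : Continuous (fun t : ℝ => (t ^ 2 / r ^ 2) * Real.log (t ^ 2 / r ^ 2)) :=
    Real.continuous_mul_log.comp h1
  fun_prop

theorem GG_deriv (r : ℝ) (hr : 0 < r) (t : ℝ) (ht : t ∈ Ioo 0 r) :
    HasDerivAt (GG r) (t * PP r t) t := by
  obtain ⟨h0, h1⟩ := ht
  have hs : HasDerivAt (fun t : ℝ => t ^ 2 / r ^ 2) (2 * t / r ^ 2) t := by
    have := (hasDerivAt_pow 2 t).div_const (r ^ 2)
    simpa using this
  have hs0 : t ^ 2 / r ^ 2 ≠ 0 := by positivity
  have hl := hs.log hs0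
  have h := ((((hs.mul hl).neg).add ((hs.pow 2).div_const 2)).add
    (((hs.const_sub 1).pow 3).div_const 6)).const_mul (r ^ 2 / 4)
  unfold PP
  rw [if_pos ⟨h0, h1⟩]
  convert! h using 1
  unfold pf
  push_cast
  field_simp
  ring

/-- antiderivative of `t log²(t/r)` -/
noncomputable def HH (r t : ℝ) : ℝ :=
  r ^ 2 / 2 * (((t / r) * Real.log (t / r)) ^ 2 - (t / r) * ((t / r) * Real.log (t / r)) +
    (t / r) ^ 2 / 2)

theorem HH_cont (r : ℝ) : Continuous (HH r) := by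
  unfold HH
  have h1 : Continuous (fun t : ℝ => t / r) := by fun_prop
  have h2 : Continuous (fun t : ℝ => (t / r) * Real.log (t / r)) :=
    Real.continuous_mul_log.comp h1
  fun_prop

theorem HH_deriv (r : ℝ) (hr : 0 < r) (t : ℝ) (ht : t ∈ Ioo 0 r) :
    HasDerivAt (HH r) (t * (if t < r then Real.log (t / r) ^ 2 else 0)) t := by
  obtain ⟨h0, h1⟩ := ht
  have hs : HasDerivAt (fun t : ℝ => t / r) (1 / r) t := (hasDerivAt_id t).div_const r
  have hs0 : t / r ≠ 0 := by positivity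
  have hl := hs.log hs0
  have h := ((((hs.mul hl).pow 2).sub (hs.mul (hs.mul hl))).add
    ((hs.pow 2).div_const 2)).const_mul (r ^ 2 / 2)
  rw [if_pos h1]
  convert! h using 1
  simp only [Pi.mul_apply]
  push_cast
  field_simp
  ring

theorem chi_cont (r : ℝ) : Continuous (chi r) := by
  unfold chi
  fun_prop

theorem log_int (r : ℝ) (hr : 0 < r) :
    Integrable (fun z : ℂ => if ‖z‖ < r then Real.log (‖z‖ / r) ^ 2 else 0) ∧
    ∫ z : ℂ, (if ‖z‖ < r then Real.log (‖z‖ / r) ^ 2 else 0) = Real.pi * r ^ 2 / 2 := by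
  have h := radial_int r hr (fun t => if t < r then Real.log (t / r) ^ 2 else 0) (HH r)
    (HH_cont r).continuousOn (HH_deriv r hr) (by
      intro x hx
      rw [if_pos hx.2]; positivity) (by
      intro x hx
      rw [if_neg (not_lt.mpr hx)])
  refine ⟨h.1, ?_⟩
  rw [h.2]
  unfold HH
  have : r / r = 1 := by field_simp
  simp [this]
  ring

theorem Phi_int (r : ℝ) (hr : 0 < r) :
    Integrable (Phi r) ∧ ∫ z, Phi r z = Real.pi * r ^ 2 / 6 := by
  have h := radial_int r hr (PP r) (GG r)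
    (GG_cont r).continuousOn (GG_deriv r hr) (by
      intro x hx
      unfold PP
      rw [if_pos ⟨hx.1, hx.2⟩]
      have h0 := hx.1
      apply pf_nonneg _ (by positivity)
      rw [div_le_one (by positivity)]
      exact pow_le_pow_left₀ hx.1.le hx.2.le 2) (by
      intro x hx
      unfold PP
      rw [if_neg]
      rintro ⟨_, h⟩
      linarith)
  have e : Phi r = fun z => PP r ‖z‖ := by ext z; exact Phi_eq r z
  rw [e]
  refine ⟨h.1, ?_⟩
  rw [h.2]
  unfold GG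
  have : r ^ 2 / r ^ 2 = 1 := by field_simp
  simp [this]
  ring

theorem chi_int (r : ℝ) (hr : 0 < r) :
    Integrable (chi r) ∧ ∫ z, chi r z = 2 * Real.pi := by
  have h := radial_int r hr (fun t => 4 / r ^ 2 * max 0 (1 - t ^ 2 / r ^ 2))
    (fun t => 4 / r ^ 2 * (t ^ 2 / 2 - t ^ 4 / (4 * r ^ 2)))
    (by fun_prop) (by
      intro x hx
      have hx1 : 0 ≤ 1 - x ^ 2 / r ^ 2 := by
        rw [sub_nonneg, div_le_one (by positivity)]
        exact pow_le_pow_left₀ hx.1.le hx.2.le 2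
      rw [max_eq_right hx1]
      have h := (((hasDerivAt_pow 2 x).div_const 2).sub
        ((hasDerivAt_pow 4 x).div_const (4 * r ^ 2))).const_mul (4 / r ^ 2)
      convert! h using 1
      push_cast
      field_simp) (by
      intro x hx
      positivity) (by
      intro x hx
      have hx1 : 1 - x ^ 2 / r ^ 2 ≤ 0 := by
        rw [sub_nonpos, le_div_iff₀ (by positivity)]
        nlinarith
      rw [max_eq_left hx1]; simp)
  refine ⟨h.1, ?_⟩
  unfold chi
  rw [h.2]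
  field_simp
  ring

theorem Phi_nonneg (r : ℝ) (hr : 0 < r) (z : ℂ) : 0 ≤ Phi r z := by
  rw [Phi_eq]
  unfold PP
  split_ifs with h
  · have h0 := h.1
    apply pf_nonneg _ (by positivity)
    rw [div_le_one (by positivity)]
    exact pow_le_pow_left₀ h.1.le h.2.le 2
  · exact le_rfl

theorem Phi_out (r : ℝ) (z : ℂ) (hz : r ≤ ‖z‖) : Phi r z = 0 := by
  unfold Phi
  rw [if_neg]
  rintro ⟨_, h⟩
  linarith

theorem Phi_le_log (r : ℝ) (hr : 0 < r) (z : ℂ) (h0 : 0 < ‖z‖) (h1 : ‖z‖ < r) :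
    Phi r z ≤ Real.log (r / ‖z‖) := by
  rw [Phi_eq]
  unfold PP
  rw [if_pos ⟨h0, h1⟩]
  have h2 : ‖z‖ ^ 2 / r ^ 2 ≤ 1 := by
    rw [div_le_one (by positivity)]
    exact pow_le_pow_left₀ h0.le h1.le 2
  refine (pf_le _ h2).trans (le_of_eq ?_)
  rw [Real.log_div (by positivity) (by positivity), Real.log_div (by positivity) (by positivity),
    Real.log_pow, Real.log_pow]
  push_cast
  ring

theorem Phi_ge (r : ℝ) (hr : 0 < r) (z : ℂ) (h0 : 0 < ‖z‖) (h1 : ‖z‖ ≤ r / 2) :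
    1 / 6 ≤ Phi r z := by
  rw [Phi_eq]
  unfold PP
  rw [if_pos ⟨h0, by linarith⟩]
  apply pf_ge _ (by positivity)
  rw [div_le_iff₀ (by positivity)]
  nlinarith

theorem Phi_sq_le (r : ℝ) (hr : 0 < r) (z : ℂ) :
    Phi r z ^ 2 ≤ if ‖z‖ < r then Real.log (‖z‖ / r) ^ 2 else 0 := by
  split_ifs with h
  · rcases (norm_nonneg z).eq_or_lt with h0 | h0
    · have : Phi r z = 0 := by
        unfold Phi
        rw [if_neg]
        rintro ⟨h', _⟩
        linarith
      rw [this]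
      simpa using sq_nonneg (Real.log (‖z‖ / r))
    · have h1 := Phi_le_log r hr z h0 h
      have h2 := Phi_nonneg r hr z
      have h3 : Real.log (r / ‖z‖) = -Real.log (‖z‖ / r) := by
        rw [← Real.log_inv, inv_div]
      rw [h3] at h1
      nlinarith
  · rw [Phi_out r z (not_lt.mp h)]
    norm_num

theorem Phi_sq_int (r : ℝ) (hr : 0 < r) :
    Integrable (fun z => Phi r z ^ 2) ∧ (∫ z, Phi r z ^ 2) ≤ 10 * r ^ 2 := by
  have hL := log_int r hr
  have hI : Integrable (fun z => Phi r z ^ 2) := by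
    refine hL.1.mono ((Phi_int r hr).1.aestronglyMeasurable.pow 2) ?_
    filter_upwards with z
    have h1 := Phi_sq_le r hr z
    have h2 : (0 : ℝ) ≤ Phi r z ^ 2 := sq_nonneg _
    rw [Real.norm_of_nonneg h2]
    exact h1.trans (Real.le_norm_self _)
  refine ⟨hI, ?_⟩
  have h3 : (∫ z, Phi r z ^ 2) ≤ Real.pi * r ^ 2 / 2 := by
    rw [← hL.2]
    exact integral_mono hI hL.1 (fun z => Phi_sq_le r hr z)
  have h4 := Real.pi_lt_four
  nlinarith [sq_nonneg r]

theorem chi_nonneg (r : ℝ) (z : ℂ) : 0 ≤ chi r z := by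
  unfold chi
  positivity

theorem chi_le (r : ℝ) (z : ℂ) : chi r z ≤ 4 / r ^ 2 := by
  unfold chi
  have h : max 0 (1 - ‖z‖ ^ 2 / r ^ 2) ≤ 1 := by
    apply max_le (by norm_num)
    have : 0 ≤ ‖z‖ ^ 2 / r ^ 2 := by positivity
    linarith
  have h2 : 0 ≤ 4 / r ^ 2 := by positivity
  nlinarith

theorem chi_out (r : ℝ) (hr : 0 < r) (z : ℂ) (hz : r ≤ ‖z‖) : chi r z = 0 := by
  unfold chi
  have h : max 0 (1 - ‖z‖ ^ 2 / r ^ 2) = 0 := by
    apply max_eq_left
    rw [sub_nonpos, le_div_iff₀ (by positivity)]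
    nlinarith
  rw [h, mul_zero]

theorem chi_ge (r : ℝ) (hr : 0 < r) (z : ℂ) (hz : ‖z‖ ≤ r / 2) : 3 / r ^ 2 ≤ chi r z := by
  unfold chi
  have h : 3 / 4 ≤ 1 - ‖z‖ ^ 2 / r ^ 2 := by
    have : ‖z‖ ^ 2 / r ^ 2 ≤ 1 / 4 := by
      rw [div_le_iff₀ (by positivity)]
      nlinarith [norm_nonneg z]
    linarith
  have h2 : 3 / 4 ≤ max 0 (1 - ‖z‖ ^ 2 / r ^ 2) := h.trans (le_max_right _ _)
  have h3 : 3 / r ^ 2 = 4 / r ^ 2 * (3 / 4) := by ring
  rw [h3]
  exact mul_le_mul_of_nonneg_left h2 (by positivity)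

theorem chi_lip (r : ℝ) (hr : 0 < r) (z y : ℂ) :
    |chi r (z - y) - chi r z| ≤ 4 / r ^ 4 * (‖y‖ * (2 * ‖z‖ + ‖y‖)) := by
  unfold chi
  rw [← mul_sub, abs_mul, abs_of_nonneg (by positivity : (0 : ℝ) ≤ 4 / r ^ 2)]
  have h1 : |max 0 (1 - ‖z - y‖ ^ 2 / r ^ 2) - max 0 (1 - ‖z‖ ^ 2 / r ^ 2)| ≤
      |(1 - ‖z - y‖ ^ 2 / r ^ 2) - (1 - ‖z‖ ^ 2 / r ^ 2)| := by
    have h := abs_max_sub_max_le_abs (1 - ‖z - y‖ ^ 2 / r ^ 2) (1 - ‖z‖ ^ 2 / r ^ 2) 0
    rwa [max_comm, max_comm _ (0 : ℝ)] at h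
  have h2 : (1 - ‖z - y‖ ^ 2 / r ^ 2) - (1 - ‖z‖ ^ 2 / r ^ 2) =
      (‖z‖ - ‖z - y‖) * (‖z‖ + ‖z - y‖) / r ^ 2 := by ring
  have h3 : |‖z‖ - ‖z - y‖| ≤ ‖y‖ := by
    have := abs_norm_sub_norm_le z (z - y)
    simpa using this
  have h4 : ‖z - y‖ ≤ ‖z‖ + ‖y‖ := norm_sub_le z y
  have h5 : |(1 - ‖z - y‖ ^ 2 / r ^ 2) - (1 - ‖z‖ ^ 2 / r ^ 2)| ≤
      ‖y‖ * (2 * ‖z‖ + ‖y‖) / r ^ 2 := by
    rw [h2, abs_div, abs_mul, abs_of_nonneg (by positivity : (0 : ℝ) ≤ r ^ 2),
      abs_of_nonneg (by positivity : 0 ≤ ‖z‖ + ‖z - y‖)]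
    apply div_le_div_of_nonneg_right _ (by positivity)
    exact mul_le_mul h3 (by linarith) (by positivity) (by positivity)
  calc 4 / r ^ 2 * |max 0 (1 - ‖z - y‖ ^ 2 / r ^ 2) - max 0 (1 - ‖z‖ ^ 2 / r ^ 2)|
      ≤ 4 / r ^ 2 * (‖y‖ * (2 * ‖z‖ + ‖y‖) / r ^ 2) :=
        mul_le_mul_of_nonneg_left (h1.trans h5) (by positivity)
    _ = 4 / r ^ 4 * (‖y‖ * (2 * ‖z‖ + ‖y‖)) := by
        field_simp

theorem t_KER : S_KER := by
  intro r hr
  exact ⟨chi_cont r, chi_nonneg r, chi_le r, chi_out r hr, chi_ge r hr, chi_lip r hr,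
    (chi_int r hr).2, (Phi_int r hr).1, Phi_nonneg r hr, Phi_out r, Phi_le_log r hr,
    Phi_ge r hr, (Phi_int r hr).2, (Phi_sq_int r hr).2, (Phi_sq_int r hr).1⟩

/-- an integrable function supported in a disc times a continuous function -/
theorem int_mul (K f : ℂ → ℝ) (y : ℂ) (r : ℝ) (hK : Integrable K)
    (hs : ∀ z, r ≤ ‖z‖ → K z = 0) (hf : Continuous f) :
    Integrable (fun z => K (z - y) * f z) := by
  have h1 : Integrable (fun z => K (z - y)) := hK.comp_sub_right y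
  obtain ⟨M, hM⟩ := (isCompact_closedBall y r).exists_bound_of_continuousOn hf.continuousOn
  have hM0 : ∀ z, |K (z - y) * f z| ≤ |M| * |K (z - y)| := by
    intro z
    by_cases hz : r ≤ ‖z - y‖
    · rw [hs _ hz]; simp
    · have hz2 : z ∈ closedBall y r := by
        rw [mem_closedBall, dist_eq_norm]; exact (not_le.mp hz).le
      rw [abs_mul, mul_comm]
      have := hM z hz2
      rw [Real.norm_eq_abs] at this
      exact mul_le_mul_of_nonneg_right (this.trans (le_abs_self M)) (abs_nonneg _)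
  refine (h1.norm.const_mul |M|).mono (h1.aestronglyMeasurable.mul hf.aestronglyMeasurable) ?_
  filter_upwards with z
  have := hM0 z
  rw [Real.norm_eq_abs]
  refine this.trans ?_
  rw [Real.norm_eq_abs, Real.norm_eq_abs, abs_mul, abs_abs, abs_abs]

theorem t_INT : S_INT := by
  intro f y r hf hr
  exact ⟨int_mul (chi r) f y r (chi_int r hr).1 (chi_out r hr) hf,
    int_mul (Phi r) f y r (Phi_int r hr).1 (Phi_out r) hf⟩

end Pool.Agent.Helper904_QS.PKER
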