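import Pool.Agent.Helper904_QS.G
import Pool.Agent.Helper904_QS.KER

/-!
# J: the smoothed Jensen formula.
`Φ_r - Φ_ρ` is `C²` with compact support and `Δ(Φ_r - Φ_ρ) = χ_r - χ_ρ`; let `ρ → 0`.
-/

set_option autoImplicit false

open MeasureTheory Set Metric Filter Topology
open scoped ContDiff

namespace Pool.Agent.Helper904_QS.PJ

open Pool.Agent.Helper904_QS.PKER

theorem glue_at {p q : ℝ → ℝ} {a t d : ℝ} (hp : t ≤ a → HasDerivAt p d t)
    (hq : a ≤ t → HasDerivAt q d t) (h0 : p a = q a) :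
    HasDerivAt (fun t => if t < a then p t else q t) d t := by
  rcases lt_trichotomy t a with h | h | h
  · refine (hp h.le).congr_of_eventuallyEq ?_
    filter_upwards [Iio_mem_nhds h] with x hx
    exact if_pos hx
  · subst h
    have hA : HasDerivWithinAt (fun x => if x < t then p x else q x) d (Iic t) t := by
      refine (hp le_rfl).hasDerivWithinAt.congr ?_ ?_
      · intro x hx
        rcases (mem_Iic.mp hx).lt_or_eq with h | h
        · exact if_pos h
        · subst h; simp [h0]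
      · simp [h0]
    have hB : HasDerivWithinAt (fun x => if x < t then p x else q x) d (Ici t) t := by
      refine (hq le_rfl).hasDerivWithinAt.congr ?_ ?_
      · intro x hx
        exact if_neg (not_lt.mpr hx)
      · simp
    have hC := hA.union hB
    rw [Iic_union_Ici] at hC
    exact hasDerivWithinAt_univ.mp hC
  · refine (hq h.le).congr_of_eventuallyEq ?_
    filter_upwards [Ioi_mem_nhds h] with x hx
    exact if_neg (not_lt.mpr (le_of_lt hx))

/-- `Phi R` in the variable `t = |z|²` -/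
noncomputable def gg (R t : ℝ) : ℝ := if t < R ^ 2 then pf (t / R ^ 2) else 0

noncomputable def g1 (R t : ℝ) : ℝ :=
  if t < R ^ 2 then -(1 - t / R ^ 2) ^ 2 / (2 * t) else 0

noncomputable def g2 (R t : ℝ) : ℝ :=
  if t < R ^ 2 then (1 - t / R ^ 2) ^ 2 / (2 * t ^ 2) + (1 - t / R ^ 2) / (R ^ 2 * t) else 0

theorem gg_deriv (R : ℝ) (hR : 0 < R) (t : ℝ) (ht : 0 < t) : HasDerivAt (gg R) (g1 R t) t := by
  have hR2 : 0 < R ^ 2 := by positivity
  unfold gg
  refine glue_at (fun h => ?_) (fun h => ?_) ?_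
  · have hs : HasDerivAt (fun t : ℝ => t / R ^ 2) (1 / R ^ 2) t := (hasDerivAt_id t).div_const _
    have hs0 : t / R ^ 2 ≠ 0 := by positivity
    have h1 := ((((hs.log hs0).neg).sub (hs.const_sub 1)).sub
      (((hs.const_sub 1).pow 2).div_const 2)).div_const 2
    unfold pf
    convert! h1 using 1
    unfold g1
    split_ifs with h2
    · push_cast
      field_simp
      ring
    · have h3 : t = R ^ 2 := le_antisymm h (not_lt.mp h2)
      rw [h3]
      push_cast
      field_simp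
      ring
  · have : g1 R t = 0 := by
      unfold g1
      rw [if_neg (not_lt.mpr h)]
    rw [this]
    exact hasDerivAt_const _ _
  · have : R ^ 2 / R ^ 2 = 1 := by field_simp
    rw [this]
    unfold pf
    simp

theorem g1_deriv (R : ℝ) (hR : 0 < R) (t : ℝ) (ht : 0 < t) : HasDerivAt (g1 R) (g2 R t) t := by
  have hR2 : 0 < R ^ 2 := by positivity
  unfold g1
  refine glue_at (fun h => ?_) (fun h => ?_) ?_
  · have hs : HasDerivAt (fun t : ℝ => t / R ^ 2) (1 / R ^ 2) t := (hasDerivAt_id t).div_const _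
    have h2t : HasDerivAt (fun t : ℝ => 2 * t) 2 t := by
      simpa using (hasDerivAt_id t).const_mul (2 : ℝ)
    have h1 := (((hs.const_sub 1).pow 2).neg).div h2t (by positivity)
    convert! h1 using 1
    unfold g2
    split_ifs with h2
    · simp only [Pi.pow_apply, Pi.neg_apply]
      push_cast
      field_simp
      ring
    · have h3 : t = R ^ 2 := le_antisymm h (not_lt.mp h2)
      rw [h3]
      simp only [Pi.pow_apply, Pi.neg_apply]
      push_cast
      field_simp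
      ring
  · have : g2 R t = 0 := by
      unfold g2
      rw [if_neg (not_lt.mpr h)]
    rw [this]
    exact hasDerivAt_const _ _
  · have : R ^ 2 / R ^ 2 = 1 := by field_simp
    rw [this]
    simp

theorem g2_eq (R : ℝ) (hR : 0 < R) (t : ℝ) (_ : 0 < t) : g2 R t =
    (max 0 (1 - t / R ^ 2)) ^ 2 / (2 * t ^ 2) + (max 0 (1 - t / R ^ 2)) / (R ^ 2 * t) := by
  unfold g2
  split_ifs with h
  · rw [max_eq_right]
    rw [sub_nonneg, div_le_one (by positivity)]
    exact h.le
  · rw [max_eq_left]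
    · simp
    · rw [sub_nonpos, le_div_iff₀ (by positivity)]
      linarith [not_lt.mp h]

theorem g1_eq (R : ℝ) (hR : 0 < R) (t : ℝ) : g1 R t =
    -(max 0 (1 - t / R ^ 2)) ^ 2 / (2 * t) := by
  unfold g1
  split_ifs with h
  · rw [max_eq_right]
    rw [sub_nonneg, div_le_one (by positivity)]
    exact h.le
  · rw [max_eq_left]
    · simp
    · rw [sub_nonpos, le_div_iff₀ (by positivity)]
      linarith [not_lt.mp h]

theorem g2_cont (R : ℝ) (hR : 0 < R) : ContinuousOn (g2 R) (Ioi 0) := by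
  have h : ContinuousOn (fun t => (max 0 (1 - t / R ^ 2)) ^ 2 / (2 * t ^ 2) +
      (max 0 (1 - t / R ^ 2)) / (R ^ 2 * t)) (Ioi 0) := by
    intro t ht
    have ht' : 0 < t := ht
    apply ContinuousAt.continuousWithinAt
    apply ContinuousAt.add
    · apply ContinuousAt.div
      · fun_prop
      · fun_prop
      · positivity
    · apply ContinuousAt.div
      · fun_prop
      · fun_prop
      · positivity
  exact h.congr (fun t ht => g2_eq R hR t ht)

theorem gg_contDiffOn (R : ℝ) (hR : 0 < R) : ContDiffOn ℝ 2 (gg R) (Ioi 0) := by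
  have e : (2 : ℕ∞ω) = 1 + 1 := by norm_num
  rw [e, contDiffOn_succ_iff_deriv_of_isOpen isOpen_Ioi]
  refine ⟨fun t ht => (gg_deriv R hR t ht).differentiableAt.differentiableWithinAt,
    by simp, ?_⟩
  have h1 : ContDiffOn ℝ 1 (g1 R) (Ioi 0) := by
    have e : (1 : ℕ∞ω) = 0 + 1 := by norm_num
    rw [e, contDiffOn_succ_iff_deriv_of_isOpen isOpen_Ioi]
    refine ⟨fun t ht => (g1_deriv R hR t ht).differentiableAt.differentiableWithinAt,
      by simp, ?_⟩
    rw [contDiffOn_zero]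
    exact (g2_cont R hR).congr (fun t ht => (g1_deriv R hR t ht).deriv)
  exact h1.congr (fun t ht => (gg_deriv R hR t ht).deriv)

/-- `Φ_r - Φ_ρ` near `0` -/
noncomputable def pol (r ρ t : ℝ) : ℝ :=
  (Real.log (r ^ 2 / ρ ^ 2) - (1 - t / r ^ 2) - (1 - t / r ^ 2) ^ 2 / 2
    + (1 - t / ρ ^ 2) + (1 - t / ρ ^ 2) ^ 2 / 2) / 2

noncomputable def HH (r ρ t : ℝ) : ℝ := if t ≤ 0 then pol r ρ t else gg r t - gg ρ t

theorem pol_eq (r ρ t : ℝ) (hρ : 0 < ρ) (hr : ρ < r) (h0 : 0 < t) (h1 : t < ρ ^ 2) :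
    gg r t - gg ρ t = pol r ρ t := by
  have hr0 : 0 < r := hρ.trans hr
  have h2 : t < r ^ 2 := h1.trans (by nlinarith)
  unfold gg pol pf
  rw [if_pos h1, if_pos h2, Real.log_div h0.ne' (by positivity),
    Real.log_div h0.ne' (by positivity), Real.log_div (by positivity) (by positivity)]
  ring

theorem HH_contDiff (r ρ : ℝ) (hρ : 0 < ρ) (hr : ρ < r) : ContDiff ℝ 2 (HH r ρ) := by
  rw [contDiff_iff_contDiffAt]
  intro t
  by_cases ht : 0 < t
  · have h : HH r ρ =ᶠ[𝓝 t] fun t => gg r t - gg ρ t := by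
      filter_upwards [Ioi_mem_nhds ht] with x hx
      exact if_neg (not_le.mpr hx)
    refine ContDiffAt.congr_of_eventuallyEq ?_ h
    have h1 := (gg_contDiffOn r (hρ.trans hr)).contDiffAt (Ioi_mem_nhds ht)
    have h2 := (gg_contDiffOn ρ hρ).contDiffAt (Ioi_mem_nhds ht)
    exact h1.sub h2
  · have ht' : t < ρ ^ 2 := lt_of_le_of_lt (not_lt.mp ht) (by positivity)
    have h : HH r ρ =ᶠ[𝓝 t] pol r ρ := by
      filter_upwards [Iio_mem_nhds ht'] with x hx
      unfold HH
      split_ifs with h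
      · rfl
      · exact pol_eq r ρ x hρ hr (not_le.mp h) hx
    refine ContDiffAt.congr_of_eventuallyEq ?_ h
    unfold pol
    fun_prop

theorem HH_deriv (r ρ : ℝ) (hρ : 0 < ρ) (hr : ρ < r) (t : ℝ) (ht : 0 < t) :
    deriv (HH r ρ) t = g1 r t - g1 ρ t := by
  have h : HH r ρ =ᶠ[𝓝 t] fun t => gg r t - gg ρ t := by
    filter_upwards [Ioi_mem_nhds ht] with x hx
    exact if_neg (not_le.mpr hx)
  rw [h.deriv_eq]
  exact ((gg_deriv r (hρ.trans hr) t ht).sub (gg_deriv ρ hρ t ht)).deriv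

theorem HH_deriv2 (r ρ : ℝ) (hρ : 0 < ρ) (hr : ρ < r) (t : ℝ) (ht : 0 < t) :
    deriv (deriv (HH r ρ)) t = g2 r t - g2 ρ t := by
  have h : deriv (HH r ρ) =ᶠ[𝓝 t] fun t => g1 r t - g1 ρ t := by
    filter_upwards [Ioi_mem_nhds ht] with x hx
    exact HH_deriv r ρ hρ hr x hx
  rw [h.deriv_eq]
  exact ((g1_deriv r (hρ.trans hr) t ht).sub (g1_deriv ρ hρ t ht)).deriv

/-- `|z|²` -/
noncomputable def qq (z : ℂ) : ℝ := z.re ^ 2 + z.im ^ 2

theorem qq_eq (z : ℂ) : qq z = ‖z‖ ^ 2 := by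
  unfold qq
  rw [← Complex.normSq_eq_norm_sq, Complex.normSq_apply]; ring

theorem re_hasF (z : ℂ) : HasFDerivAt (fun z : ℂ => z.re) Complex.reCLM z :=
  Complex.reCLM.hasFDerivAt

theorem im_hasF (z : ℂ) : HasFDerivAt (fun z : ℂ => z.im) Complex.imCLM z :=
  Complex.imCLM.hasFDerivAt

theorem qq_hasF (z : ℂ) : HasFDerivAt qq
    ((2 * z.re) • Complex.reCLM + (2 * z.im) • Complex.imCLM) z := by
  have h := ((re_hasF z).pow 2).add ((im_hasF z).pow 2)
  convert! h using 1
  simp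

theorem qq_contDiff : ContDiff ℝ 2 qq := by
  unfold qq
  have h1 : ContDiff ℝ 2 (fun z : ℂ => z.re) := Complex.reCLM.contDiff
  have h2 : ContDiff ℝ 2 (fun z : ℂ => z.im) := Complex.imCLM.contDiff
  fun_prop

theorem lap_radial (H : ℝ → ℝ) (hH : ContDiff ℝ 2 H) (z : ℂ) :
    lap (fun z => H (qq z)) z =
      4 * (deriv H (qq z) + qq z * deriv (deriv H) (qq z)) := by
  have hd : Differentiable ℝ H := hH.differentiable (by norm_num)
  have hd1 : ContDiff ℝ 1 (deriv H) := by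
    have e : (2 : ℕ∞ω) = 1 + 1 := by norm_num
    rw [e, contDiff_succ_iff_deriv] at hH
    exact hH.2.2
  have hd2 : Differentiable ℝ (deriv H) := hd1.differentiable (by norm_num)
  have hF : ∀ z, HasFDerivAt (fun z => H (qq z))
      (deriv H (qq z) • ((2 * z.re) • Complex.reCLM + (2 * z.im) • Complex.imCLM)) z := fun z =>
    (hd (qq z)).hasDerivAt.comp_hasFDerivAt z (qq_hasF z)
  have hF1 : ∀ z, HasFDerivAt (fun z => deriv H (qq z))
      (deriv (deriv H) (qq z) • ((2 * z.re) • Complex.reCLM + (2 * z.im) • Complex.imCLM)) z :=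
    fun z => (hd2 (qq z)).hasDerivAt.comp_hasFDerivAt z (qq_hasF z)
  have e1 : dx (fun z => H (qq z)) = fun z => deriv H (qq z) * (2 * z.re) := by
    ext z
    unfold dx
    rw [(hF z).fderiv]
    simp
  have e2 : dy (fun z => H (qq z)) = fun z => deriv H (qq z) * (2 * z.im) := by
    ext z
    unfold dy
    rw [(hF z).fderiv]
    simp
  unfold lap
  rw [e1, e2]
  have h1 := (hF1 z).fun_mul ((re_hasF z).const_mul 2)
  have h2 := (hF1 z).fun_mul ((im_hasF z).const_mul 2)
  unfold dx dy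
  rw [h1.fderiv, h2.fderiv]
  simp
  unfold qq
  ring

/-- `Φ_r - Φ_ρ`, with the right value at `0` -/
noncomputable def FF (r ρ : ℝ) (z : ℂ) : ℝ := HH r ρ (qq z)

theorem FF_contDiff (r ρ : ℝ) (hρ : 0 < ρ) (hr : ρ < r) : ContDiff ℝ 2 (FF r ρ) :=
  (HH_contDiff r ρ hρ hr).comp qq_contDiff

theorem gg_Phi (R : ℝ) (hR : 0 < R) (z : ℂ) (hz : z ≠ 0) : gg R (qq z) = Phi R z := by
  have h0 : 0 < ‖z‖ := norm_pos_iff.mpr hz
  rw [Phi_eq, qq_eq]
  unfold gg PP
  by_cases h : ‖z‖ < R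
  · rw [if_pos (pow_lt_pow_left₀ h h0.le (by norm_num)), if_pos ⟨h0, h⟩]
  · rw [if_neg, if_neg]
    · rintro ⟨_, h'⟩; exact h h'
    · intro h'
      exact h (lt_of_pow_lt_pow_left₀ 2 hR.le h')

theorem FF_eq (r ρ : ℝ) (hρ : 0 < ρ) (hr : ρ < r) (z : ℂ) (hz : z ≠ 0) :
    FF r ρ z = Phi r z - Phi ρ z := by
  have h0 : 0 < ‖z‖ := norm_pos_iff.mpr hz
  have hq : 0 < qq z := by rw [qq_eq]; positivity
  unfold FF HH
  rw [if_neg (not_le.mpr hq), gg_Phi r (hρ.trans hr) z hz, gg_Phi ρ hρ z hz]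

theorem chi_g (R : ℝ) (hR : 0 < R) (z : ℂ) (hz : z ≠ 0) :
    4 * (g1 R (qq z) + qq z * g2 R (qq z)) = chi R z := by
  have h0 : 0 < ‖z‖ := norm_pos_iff.mpr hz
  have hq : 0 < qq z := by rw [qq_eq]; positivity
  rw [g1_eq R hR, g2_eq R hR _ hq]
  unfold chi
  rw [qq_eq]
  field_simp
  ring

theorem FF_lap (r ρ : ℝ) (hρ : 0 < ρ) (hr : ρ < r) (z : ℂ) (hz : z ≠ 0) :
    lap (FF r ρ) z = chi r z - chi ρ z := by
  have h0 : 0 < ‖z‖ := norm_pos_iff.mpr hz
  have hq : 0 < qq z := by rw [qq_eq]; positivity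
  unfold FF
  rw [lap_radial _ (HH_contDiff r ρ hρ hr), HH_deriv r ρ hρ hr _ hq, HH_deriv2 r ρ hρ hr _ hq,
    ← chi_g r (hρ.trans hr) z hz, ← chi_g ρ hρ z hz]
  ring

theorem FF_supp (r ρ : ℝ) (hρ : 0 < ρ) (hr : ρ < r) : HasCompactSupport (FF r ρ) := by
  apply HasCompactSupport.intro (isCompact_closedBall (0 : ℂ) r)
  intro z hz
  rw [mem_closedBall, dist_zero_right, not_le] at hz
  have hz0 : z ≠ 0 := by
    intro h
    rw [h, norm_zero] at hz
    linarith
  rw [FF_eq r ρ hρ hr z hz0, Phi_out r z hz.le, Phi_out ρ z (hr.le.trans hz.le), sub_zero]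

theorem ae_ne : ∀ᵐ z : ℂ, z ≠ 0 := by
  have : ({0} : Set ℂ)ᶜ ∈ ae (volume : Measure ℂ) := compl_mem_ae_iff.mpr (measure_singleton 0)
  filter_upwards [this] with z hz
  exact hz

theorem J_diff (f : ℂ → ℝ) (hf : ContDiff ℝ 2 f) (r ρ : ℝ) (hρ : 0 < ρ) (hr : ρ < r) :
    (∫ z, chi r z * f z) - ∫ z, Phi r z * lap f z =
      (∫ z, chi ρ z * f z) - ∫ z, Phi ρ z * lap f z := by
  have hr0 : 0 < r := hρ.trans hr
  have hG := PG.t_G f (FF r ρ) hf (FF_contDiff r ρ hρ hr) (FF_supp r ρ hρ hr)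
  have cl : Continuous (lap f) := continuous_lap hf
  have i1 := t_INT f 0 r hf.continuous hr0
  have i2 := t_INT (lap f) 0 r cl hr0
  have i3 := t_INT f 0 ρ hf.continuous hρ
  have i4 := t_INT (lap f) 0 ρ cl hρ
  simp only [sub_zero] at i1 i2 i3 i4
  have e1 : ∫ z, FF r ρ z * lap f z =
      (∫ z, Phi r z * lap f z) - ∫ z, Phi ρ z * lap f z := by
    rw [← integral_sub i2.2 i4.2]
    apply integral_congr_ae
    filter_upwards [ae_ne] with z hz
    rw [FF_eq r ρ hρ hr z hz]; ring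
  have e2 : ∫ z, lap (FF r ρ) z * f z =
      (∫ z, chi r z * f z) - ∫ z, chi ρ z * f z := by
    rw [← integral_sub i1.1 i3.1]
    apply integral_congr_ae
    filter_upwards [ae_ne] with z hz
    rw [FF_lap r ρ hρ hr z hz]; ring
  rw [e1, e2] at hG
  linarith

/-- the limit `ρ → 0` -/
theorem J_lim (f : ℂ → ℝ) (hf : ContDiff ℝ 2 f) (e : ℝ) (he : 0 < e) :
    ∃ d : ℝ, 0 < d ∧ ∀ ρ : ℝ, 0 < ρ → ρ < d →
      |((∫ z, chi ρ z * f z) - ∫ z, Phi ρ z * lap f z) - 2 * Real.pi * f 0| ≤ e := by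
  have cl : Continuous (lap f) := continuous_lap hf
  obtain ⟨M, hM⟩ := (isCompact_closedBall (0 : ℂ) 1).exists_bound_of_continuousOn cl.continuousOn
  have hM0 : 0 ≤ M := (norm_nonneg _).trans (hM 0 (by simp))
  have hpi := Real.pi_pos
  obtain ⟨d1, hd1, hd⟩ := Metric.continuousAt_iff.mp (hf.continuous.continuousAt (x := 0))
    (e / (4 * Real.pi)) (by positivity)
  set d2 := min 1 (e / (M * Real.pi + 1)) with hd2
  have hd2p : 0 < d2 := lt_min one_pos (by positivity)
  refine ⟨min d1 d2, lt_min hd1 hd2p, ?_⟩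
  intro ρ hρ hρd
  have hρ1 : ρ < d1 := hρd.trans_le (min_le_left _ _)
  have hρ2 : ρ < d2 := hρd.trans_le (min_le_right _ _)
  have hρ3 : ρ < 1 := hρ2.trans_le (min_le_left _ _)
  have hρ4 : ρ < e / (M * Real.pi + 1) := hρ2.trans_le (min_le_right _ _)
  have i3 := t_INT f 0 ρ hf.continuous hρ
  have i4 := t_INT (lap f) 0 ρ cl hρ
  simp only [sub_zero] at i3 i4
  have hK := t_KER ρ hρ
  have c1 := chi_int ρ hρ
  have p1 := Phi_int ρ hρ
  have e1 : (∫ z, chi ρ z * f z) - 2 * Real.pi * f 0 = ∫ z, chi ρ z * (f z - f 0) := by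
    rw [← c1.2, ← integral_mul_const, ← integral_sub i3.1 (c1.1.mul_const _)]
    congr 1; ext z; ring
  have e2 : |∫ z, chi ρ z * (f z - f 0)| ≤ e / 2 := by
    have h1 : ‖∫ z, chi ρ z * (f z - f 0)‖ ≤ ∫ z, chi ρ z * (e / (4 * Real.pi)) := by
      apply norm_integral_le_of_norm_le (c1.1.mul_const _)
      filter_upwards with z
      by_cases hz : ρ ≤ ‖z‖
      · rw [chi_out ρ hρ z hz]; simp
      · rw [norm_mul, Real.norm_of_nonneg (chi_nonneg ρ z)]
        apply mul_le_mul_of_nonneg_left _ (chi_nonneg ρ z)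
        have h2 : dist z 0 < d1 := by rw [dist_zero_right]; linarith [not_le.mp hz]
        have := hd h2
        rw [dist_eq_norm] at this
        exact this.le
    rw [integral_mul_const, c1.2] at h1
    rw [← Real.norm_eq_abs]
    refine h1.trans (le_of_eq ?_)
    field_simp
    ring
  have e3 : |∫ z, Phi ρ z * lap f z| ≤ e / 2 := by
    have h1 : ‖∫ z, Phi ρ z * lap f z‖ ≤ ∫ z, Phi ρ z * M := by
      apply norm_integral_le_of_norm_le (p1.1.mul_const _)
      filter_upwards with z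
      by_cases hz : ρ ≤ ‖z‖
      · rw [Phi_out ρ z hz]; simp
      · rw [norm_mul, Real.norm_of_nonneg (Phi_nonneg ρ hρ z)]
        apply mul_le_mul_of_nonneg_left _ (Phi_nonneg ρ hρ z)
        apply hM
        rw [mem_closedBall, dist_zero_right]
        linarith [not_le.mp hz]
    rw [integral_mul_const, p1.2] at h1
    rw [← Real.norm_eq_abs]
    refine h1.trans ?_
    rw [lt_div_iff₀ (by positivity)] at hρ4
    have h5 : ρ ^ 2 ≤ ρ := by nlinarith
    have h6 : 0 ≤ M * Real.pi := by positivity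
    nlinarith
  have e4 : ((∫ z, chi ρ z * f z) - ∫ z, Phi ρ z * lap f z) - 2 * Real.pi * f 0 =
      (∫ z, chi ρ z * (f z - f 0)) - ∫ z, Phi ρ z * lap f z := by
    rw [← e1]; ring
  rw [e4]
  have := abs_sub (∫ z, chi ρ z * (f z - f 0)) (∫ z, Phi ρ z * lap f z)
  linarith

theorem J_zero (f : ℂ → ℝ) (hf : ContDiff ℝ 2 f) (r : ℝ) (hr : 0 < r) :
    2 * Real.pi * f 0 = (∫ z, chi r z * f z) - ∫ z, Phi r z * lap f z := by
  have h : ∀ e : ℝ, 0 < e →
      |((∫ z, chi r z * f z) - ∫ z, Phi r z * lap f z) - 2 * Real.pi * f 0| ≤ e := by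
    intro e he
    obtain ⟨d, hd, h1⟩ := J_lim f hf e he
    have h2 : 0 < min (d / 2) (r / 2) := by positivity
    have h3 : min (d / 2) (r / 2) < d := (min_le_left _ _).trans_lt (by linarith)
    have h4 : min (d / 2) (r / 2) < r := (min_le_right _ _).trans_lt (by linarith)
    rw [J_diff f hf r _ h2 h4]
    exact h1 _ h2 h3
  have h5 : |((∫ z, chi r z * f z) - ∫ z, Phi r z * lap f z) - 2 * Real.pi * f 0| ≤ 0 :=
    le_of_forall_pos_le_add (fun e he => by simpa using h e he)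
  have h6 := abs_eq_zero.mp (le_antisymm h5 (abs_nonneg _))
  linarith

theorem lap_shift (f : ℂ → ℝ) (y z : ℂ) : lap (fun z => f (z + y)) z = lap f (z + y) := by
  have e1 : dx (fun z => f (z + y)) = fun z => dx f (z + y) := by
    ext z; unfold dx; rw [fderiv_comp_add_right]
  have e2 : dy (fun z => f (z + y)) = fun z => dy f (z + y) := by
    ext z; unfold dy; rw [fderiv_comp_add_right]
  unfold lap
  rw [e1, e2]
  unfold dx dy
  rw [fderiv_comp_add_right (f := fun z => fderiv ℝ f z 1),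
    fderiv_comp_add_right (f := fun z => fderiv ℝ f z Complex.I)]

theorem t_J : S_J := by
  intro f y r hf hr
  have hf' : ContDiff ℝ 2 (fun z => f (z + y)) := hf.comp (contDiff_id.add contDiff_const)
  have h := J_zero (fun z => f (z + y)) hf' r hr
  simp only [zero_add] at h
  rw [h]
  have e1 : ∫ z, chi r z * f (z + y) = ∫ z, chi r (z - y) * f z := by
    rw [← integral_add_right_eq_self (fun z => chi r (z - y) * f z) y]
    simp
  have e2 : ∫ z, Phi r z * lap (fun z => f (z + y)) z = ∫ z, Phi r (z - y) * lap f z := by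
    rw [← integral_add_right_eq_self (fun z => Phi r (z - y) * lap f z) y]
    congr 1; ext z
    rw [lap_shift]; simp
  rw [e1, e2]

end Pool.Agent.Helper904_QS.PJ
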