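import Pool.Agent.Helper904_QS.Stmts
import Pool.Agent.Helper904_QS.Calc

/-!
JC: Jensen's formula on circles.
-/

set_option autoImplicit false

open MeasureTheory Set Metric Filter Topology
open scoped ContDiff

namespace Pool.Agent.Helper904_QS.PJC

variable {f g : ℂ → ℝ} {r : ℝ}

/-- polar parametrisation around `y` -/
noncomputable def pp (y : ℂ) (ρ θ : ℝ) : ℂ :=
  y + ρ * (Real.cos θ + Real.sin θ * Complex.I)

theorem continuous_pp (y : ℂ) : Continuous (fun p : ℝ × ℝ => pp y p.1 p.2) := by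
  unfold pp
  fun_prop

theorem fderiv_eq (g : ℂ → ℝ) (z : ℂ) (a b : ℝ) :
    fderiv ℝ g z (a + b * Complex.I) = a * dx g z + b * dy g z := by
  have e : ((a : ℂ) + b * Complex.I) = a • (1 : ℂ) + b • Complex.I := by
    simp
  rw [e, map_add, map_smul, map_smul]
  rfl

theorem hasDerivAt_comp (hg : Differentiable ℝ g) {γ : ℝ → ℂ} {a b t : ℝ}
    (hγ : HasDerivAt γ ((a : ℂ) + b * Complex.I) t) :
    HasDerivAt (fun t => g (γ t)) (a * dx g (γ t) + b * dy g (γ t)) t := by
  have := (hg (γ t)).hasFDerivAt.comp_hasDerivAt t hγ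
  rwa [fderiv_eq] at this

theorem hasDerivAt_rho (y : ℂ) (ρ θ : ℝ) : HasDerivAt (fun ρ => pp y ρ θ)
    ((Real.cos θ : ℂ) + Real.sin θ * Complex.I) ρ := by
  unfold pp
  have h1 : HasDerivAt (fun ρ : ℝ => (ρ : ℂ)) 1 ρ := Complex.ofRealCLM.hasDerivAt
  have h2 := (h1.mul_const ((Real.cos θ : ℂ) + Real.sin θ * Complex.I)).const_add y
  simpa using h2

theorem hasDerivAt_theta (y : ℂ) (ρ θ : ℝ) : HasDerivAt (fun θ => pp y ρ θ)
    (((-(ρ * Real.sin θ) : ℝ) : ℂ) + ((ρ * Real.cos θ : ℝ) : ℂ) * Complex.I) θ := by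
  unfold pp
  have h1 : HasDerivAt (fun θ : ℝ => ((Real.cos θ : ℝ) : ℂ)) ((-Real.sin θ : ℝ) : ℂ) θ :=
    (Real.hasDerivAt_cos θ).ofReal_comp
  have h2 : HasDerivAt (fun θ : ℝ => ((Real.sin θ : ℝ) : ℂ)) ((Real.cos θ : ℝ) : ℂ) θ :=
    (Real.hasDerivAt_sin θ).ofReal_comp
  have h3 := ((h1.add (h2.mul_const Complex.I)).const_mul (ρ : ℂ)).const_add y
  exact h3.congr_deriv (by push_cast; ring)

/-- radial derivative -/
noncomputable def aa (f : ℂ → ℝ) (y : ℂ) (ρ θ : ℝ) : ℝ :=
  Real.cos θ * dx f (pp y ρ θ) + Real.sin θ * dy f (pp y ρ θ)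

/-- tangential derivative -/
noncomputable def tt (f : ℂ → ℝ) (y : ℂ) (ρ θ : ℝ) : ℝ :=
  -(Real.sin θ * dx f (pp y ρ θ)) + Real.cos θ * dy f (pp y ρ θ)

/-- second radial derivative -/
noncomputable def a2 (f : ℂ → ℝ) (y : ℂ) (ρ θ : ℝ) : ℝ :=
  Real.cos θ ^ 2 * dx (dx f) (pp y ρ θ) + 2 * Real.cos θ * Real.sin θ * dx (dy f) (pp y ρ θ) +
    Real.sin θ ^ 2 * dy (dy f) (pp y ρ θ)

/-- second tangential derivative -/
noncomputable def b2 (f : ℂ → ℝ) (y : ℂ) (ρ θ : ℝ) : ℝ :=
  Real.sin θ ^ 2 * dx (dx f) (pp y ρ θ) - 2 * Real.cos θ * Real.sin θ * dx (dy f) (pp y ρ θ) +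
    Real.cos θ ^ 2 * dy (dy f) (pp y ρ θ)

theorem a2_add_b2 (f : ℂ → ℝ) (y : ℂ) (ρ θ : ℝ) :
    a2 f y ρ θ + b2 f y ρ θ = lap f (pp y ρ θ) := by
  unfold a2 b2 lap
  have h := Real.sin_sq_add_cos_sq θ
  have : Real.sin θ ^ 2 = 1 - Real.cos θ ^ 2 := by linarith
  rw [this]
  ring

theorem deriv_F (hf : ContDiff ℝ 2 f) (y : ℂ) (ρ θ : ℝ) :
    HasDerivAt (fun ρ => f (pp y ρ θ)) (aa f y ρ θ) ρ :=
  hasDerivAt_comp (hf.differentiable (by norm_num)) (hasDerivAt_rho y ρ θ)

theorem deriv_aa (hf : ContDiff ℝ 2 f) (y : ℂ) (ρ θ : ℝ) :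
    HasDerivAt (fun ρ => aa f y ρ θ) (a2 f y ρ θ) ρ := by
  have h1 := hasDerivAt_comp ((contDiff_dx1 hf).differentiable (by norm_num))
    (hasDerivAt_rho y ρ θ)
  have h2 := hasDerivAt_comp ((contDiff_dy1 hf).differentiable (by norm_num))
    (hasDerivAt_rho y ρ θ)
  have h3 := (h1.const_mul (Real.cos θ)).add (h2.const_mul (Real.sin θ))
  refine h3.congr_deriv ?_
  unfold a2
  rw [← dx_dy hf]
  ring

theorem deriv_tt (hf : ContDiff ℝ 2 f) (y : ℂ) (ρ θ : ℝ) :
    HasDerivAt (fun θ => tt f y ρ θ) (ρ * b2 f y ρ θ - aa f y ρ θ) θ := by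
  have h1 := hasDerivAt_comp ((contDiff_dx1 hf).differentiable (by norm_num))
    (hasDerivAt_theta y ρ θ)
  have h2 := hasDerivAt_comp ((contDiff_dy1 hf).differentiable (by norm_num))
    (hasDerivAt_theta y ρ θ)
  have h3 := ((Real.hasDerivAt_sin θ).mul h1).neg.add ((Real.hasDerivAt_cos θ).mul h2)
  refine h3.congr_deriv ?_
  unfold b2 aa
  rw [← dx_dy hf]
  ring

theorem continuous_aa (hf : ContDiff ℝ 2 f) (y : ℂ) :
    Continuous (fun p : ℝ × ℝ => aa f y p.1 p.2) := by
  have hp := continuous_pp y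
  have h1 := (contDiff_dx1 hf).continuous
  have h2 := (contDiff_dy1 hf).continuous
  unfold aa
  exact ((Real.continuous_cos.comp continuous_snd).mul (h1.comp hp)).add
    ((Real.continuous_sin.comp continuous_snd).mul (h2.comp hp))

theorem continuous_a2 (hf : ContDiff ℝ 2 f) (y : ℂ) :
    Continuous (fun p : ℝ × ℝ => a2 f y p.1 p.2) := by
  have hp := continuous_pp y
  have h1 := (continuous_dx (contDiff_dx1 hf)).comp hp
  have h2 := (continuous_dx (contDiff_dy1 hf)).comp hp
  have h3 := (continuous_dy (contDiff_dy1 hf)).comp hp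
  have hc : Continuous fun p : ℝ × ℝ => Real.cos p.2 := Real.continuous_cos.comp continuous_snd
  have hs : Continuous fun p : ℝ × ℝ => Real.sin p.2 := Real.continuous_sin.comp continuous_snd
  unfold a2
  exact (((hc.pow 2).mul h1).add (((continuous_const.mul hc).mul hs).mul h2)).add
    ((hs.pow 2).mul h3)

theorem continuous_b2 (hf : ContDiff ℝ 2 f) (y : ℂ) :
    Continuous (fun p : ℝ × ℝ => b2 f y p.1 p.2) := by
  have hp := continuous_pp y
  have h1 := (continuous_dx (contDiff_dx1 hf)).comp hp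
  have h2 := (continuous_dx (contDiff_dy1 hf)).comp hp
  have h3 := (continuous_dy (contDiff_dy1 hf)).comp hp
  have hc : Continuous fun p : ℝ × ℝ => Real.cos p.2 := Real.continuous_cos.comp continuous_snd
  have hs : Continuous fun p : ℝ × ℝ => Real.sin p.2 := Real.continuous_sin.comp continuous_snd
  unfold b2
  exact (((hs.pow 2).mul h1).sub (((continuous_const.mul hc).mul hs).mul h2)).add
    ((hc.pow 2).mul h3)

/-- the angular integral vanishes -/
theorem int_theta (hf : ContDiff ℝ 2 f) (y : ℂ) (ρ : ℝ) :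
    ∫ θ in Ioo (-Real.pi) Real.pi, (ρ * b2 f y ρ θ - aa f y ρ θ) = 0 := by
  have hle : -Real.pi ≤ Real.pi := by have := Real.pi_pos; linarith
  rw [← integral_Ioc_eq_integral_Ioo, ← intervalIntegral.integral_of_le hle]
  have hc : Continuous (fun θ => ρ * b2 f y ρ θ - aa f y ρ θ) := by
    have h1 := (continuous_b2 hf y).comp (Continuous.prodMk_right ρ)
    have h2 := (continuous_aa hf y).comp (Continuous.prodMk_right ρ)
    exact (continuous_const.mul h1).sub h2
  rw [intervalIntegral.integral_eq_sub_of_hasDerivAt (f := fun θ => tt f y ρ θ)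
    (fun θ _ => deriv_tt hf y ρ θ) (hc.intervalIntegrable _ _)]
  unfold tt pp
  simp

/-- the radial integral -/
theorem int_rho (hf : ContDiff ℝ 2 f) (y : ℂ) (hr : 0 < r) (θ : ℝ) :
    ∫ ρ in Ioo 0 r, Real.log (r / ρ) * (ρ * a2 f y ρ θ + aa f y ρ θ) =
      f (pp y r θ) - f y := by
  have hl : Continuous (fun ρ : ℝ => ((ρ, θ) : ℝ × ℝ)) := Continuous.prodMk_left θ
  have hc1 : Continuous (fun ρ : ℝ => aa f y ρ θ) := by
    have h := (continuous_aa hf y).comp hl
    simpa only [Function.comp_def] using h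
  have hc2 : Continuous (fun ρ : ℝ => a2 f y ρ θ) := by
    have h := (continuous_a2 hf y).comp hl
    simpa only [Function.comp_def] using h
  have hcF : Continuous (fun ρ => f (pp y ρ θ)) := by
    have h1 : Continuous (fun ρ => pp y ρ θ) := (continuous_pp y).comp (Continuous.prodMk_left θ)
    exact hf.continuous.comp h1
  have hcong : ∀ ρ ∈ Ioo 0 r, Real.log (r / ρ) * (ρ * a2 f y ρ θ + aa f y ρ θ) =
      (Real.log r - Real.log ρ) * (ρ * a2 f y ρ θ + aa f y ρ θ) := by
    intro ρ hρ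
    rw [Real.log_div hr.ne' hρ.1.ne']
  rw [setIntegral_congr_fun measurableSet_Ioo hcong, ← integral_Ioc_eq_integral_Ioo,
    ← intervalIntegral.integral_of_le hr.le]
  have hG : Continuous (fun ρ => (ρ * Real.log r - ρ * Real.log ρ) * aa f y ρ θ +
      f (pp y ρ θ)) :=
    (((continuous_id.mul continuous_const).sub Real.continuous_mul_log).mul hc1).add hcF
  have hint : IntervalIntegrable (fun ρ => (Real.log r - Real.log ρ) *
      (ρ * a2 f y ρ θ + aa f y ρ θ)) volume 0 r := by
    apply IntervalIntegrable.mul_continuousOn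
    · exact (intervalIntegrable_const).sub intervalIntegral.intervalIntegrable_log'
    · exact ((continuous_id.mul hc2).add hc1).continuousOn
  rw [intervalIntegral.integral_eq_sub_of_hasDerivAt_of_le hr.le (f := fun ρ =>
    (ρ * Real.log r - ρ * Real.log ρ) * aa f y ρ θ + f (pp y ρ θ)) hG.continuousOn _ hint]
  · simp [pp]
  · intro ρ hρ
    have hρ0 : ρ ≠ 0 := hρ.1.ne'
    have h1 : HasDerivAt (fun ρ : ℝ => ρ * Real.log r - ρ * Real.log ρ)
        (1 * Real.log r - (Real.log ρ + 1)) ρ :=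
      ((hasDerivAt_id ρ).mul_const (Real.log r)).sub (Real.hasDerivAt_mul_log hρ0)
    have h2 := (h1.mul (deriv_aa hf y ρ θ)).add (deriv_F hf y ρ θ)
    exact h2.congr_deriv (by ring)

theorem bdd_prod {h : ℝ × ℝ → ℝ} (hh : Continuous h) (hr : 0 < r) :
    Integrable (fun p : ℝ × ℝ => Real.log (r / p.1) * h p)
      ((volume.restrict (Ioo 0 r)).prod (volume.restrict (Ioo (-Real.pi) Real.pi))) := by
  have h1 : Integrable (fun ρ : ℝ => Real.log (r / ρ)) (volume.restrict (Ioo 0 r)) := by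
    have h2 : IntervalIntegrable (fun ρ : ℝ => Real.log r - Real.log ρ) volume 0 r :=
      (intervalIntegrable_const).sub intervalIntegral.intervalIntegrable_log'
    have h3 : IntegrableOn (fun ρ : ℝ => Real.log r - Real.log ρ) (Ioo 0 r) :=
      ((intervalIntegrable_iff_integrableOn_Ioo_of_le hr.le).1 h2)
    apply h3.congr_fun _ measurableSet_Ioo
    intro ρ hρ
    simp only
    rw [Real.log_div hr.ne' hρ.1.ne']
  have h2 : Integrable (fun p : ℝ × ℝ => Real.log (r / p.1) * (1 : ℝ))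
      ((volume.restrict (Ioo 0 r)).prod (volume.restrict (Ioo (-Real.pi) Real.pi))) :=
    h1.mul_prod (g := fun _ : ℝ => (1 : ℝ)) (integrable_const _)
  simp only [mul_one] at h2
  obtain ⟨C, hC⟩ := (isCompact_Icc.prod isCompact_Icc :
    IsCompact (Icc (0 : ℝ) r ×ˢ Icc (-Real.pi) Real.pi)).exists_bound_of_continuousOn
    hh.continuousOn
  apply h2.mul_bdd (c := C) hh.aestronglyMeasurable
  rw [Measure.prod_restrict]
  filter_upwards [ae_restrict_mem (measurableSet_Ioo.prod measurableSet_Ioo)] with p hp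
  exact hC p ⟨Ioo_subset_Icc_self hp.1, Ioo_subset_Icc_self hp.2⟩

theorem to_polar (f : ℂ → ℝ) (y : ℂ) (r : ℝ) :
    ∫ z in ball y r, Real.log (r / ‖z - y‖) * lap f z =
      ∫ p in Ioo 0 r ×ˢ Ioo (-Real.pi) Real.pi,
        Real.log (r / p.1) * (p.1 * lap f (pp y p.1 p.2)) := by
  set H : ℂ → ℝ := (ball (0 : ℂ) r).indicator
    (fun w => Real.log (r / ‖w‖) * lap f (w + y)) with hH
  have e1 : ∫ z in ball y r, Real.log (r / ‖z - y‖) * lap f z = ∫ z, H (z - y) := by
    rw [← integral_indicator measurableSet_ball]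
    congr 1
    ext z
    rw [hH]
    by_cases hz : z ∈ ball y r
    · have hz' : z - y ∈ ball (0 : ℂ) r := by
        rw [mem_ball, dist_eq_norm] at hz; simpa using hz
      rw [indicator_of_mem hz, indicator_of_mem hz', sub_add_cancel]
    · have hz' : z - y ∉ ball (0 : ℂ) r := by
        rw [mem_ball, dist_eq_norm] at hz; simpa using hz
      rw [indicator_of_notMem hz, indicator_of_notMem hz']
  rw [e1, integral_sub_right_eq_self H y, ← Complex.integral_comp_polarCoord_symm]
  have hsub : Ioo 0 r ×ˢ Ioo (-Real.pi) Real.pi ⊆ polarCoord.target := by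
    intro p hp
    rw [polarCoord_target]
    exact ⟨hp.1.1, hp.2⟩
  rw [setIntegral_eq_of_subset_of_forall_sdiff_eq_zero
    (s := Ioo 0 r ×ˢ Ioo (-Real.pi) Real.pi) polarCoord.open_target.measurableSet hsub]
  · apply setIntegral_congr_fun (measurableSet_Ioo.prod measurableSet_Ioo)
    intro p hp
    have hp1 : 0 < p.1 := hp.1.1
    have hn : ‖Complex.polarCoord.symm p‖ = p.1 := by
      rw [Complex.norm_polarCoord_symm, abs_of_pos hp1]
    have hm : Complex.polarCoord.symm p ∈ ball (0 : ℂ) r := by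
      rw [mem_ball_zero_iff, hn]; exact hp.1.2
    simp only [hH, smul_eq_mul]
    rw [indicator_of_mem hm, hn]
    have : Complex.polarCoord.symm p + y = pp y p.1 p.2 := by
      rw [Complex.polarCoord_symm_apply]; unfold pp; ring
    rw [this]
    ring
  · intro p hp
    have hp0 : 0 < p.1 := by
      have := hp.1; rw [polarCoord_target] at this; exact this.1
    have hp1 : r ≤ p.1 := by
      by_contra hc
      push Not at hc
      apply hp.2
      have := hp.1; rw [polarCoord_target] at this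
      exact ⟨⟨hp0, hc⟩, this.2⟩
    have hm : Complex.polarCoord.symm p ∉ ball (0 : ℂ) r := by
      rw [mem_ball_zero_iff, Complex.norm_polarCoord_symm, abs_of_pos hp0]
      exact not_lt.2 hp1
    simp only [hH, smul_eq_mul]
    rw [indicator_of_notMem hm, mul_zero]

/-- JC -/
theorem t_JC : S_JC := by
  intro f y r hf hr
  have hpi := Real.pi_pos
  have hle : -Real.pi ≤ Real.pi := by linarith
  have hG1 := bdd_prod (r := r) (h := fun p => p.1 * a2 f y p.1 p.2 + aa f y p.1 p.2)
    ((continuous_fst.mul (continuous_a2 hf y)).add (continuous_aa hf y)) hr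
  have hG2 := bdd_prod (r := r) (h := fun p => p.1 * b2 f y p.1 p.2 - aa f y p.1 p.2)
    ((continuous_fst.mul (continuous_b2 hf y)).sub (continuous_aa hf y)) hr
  have hpol := to_polar f y r
  rw [Measure.volume_eq_prod, ← Measure.prod_restrict] at hpol
  have hsplit : ∀ p : ℝ × ℝ, Real.log (r / p.1) * (p.1 * lap f (pp y p.1 p.2)) =
      Real.log (r / p.1) * (p.1 * a2 f y p.1 p.2 + aa f y p.1 p.2) +
      Real.log (r / p.1) * (p.1 * b2 f y p.1 p.2 - aa f y p.1 p.2) := by
    intro p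
    rw [← a2_add_b2]
    ring
  simp_rw [hsplit] at hpol
  rw [integral_add hG1 hG2, integral_prod_symm _ hG1, integral_prod _ hG2] at hpol
  simp only [integral_const_mul] at hpol
  simp only [int_theta hf y, mul_zero, integral_zero, add_zero] at hpol
  simp only [int_rho hf y hr] at hpol
  rw [hpol, ← integral_Ioc_eq_integral_Ioo, ← intervalIntegral.integral_of_le hle]
  have hcF : Continuous (fun θ => f (pp y r θ)) :=
    hf.continuous.comp ((continuous_pp y).comp (Continuous.prodMk_right r))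
  rw [intervalIntegral.integral_sub (hcF.intervalIntegrable _ _) intervalIntegrable_const,
    intervalIntegral.integral_const]
  have hper : Function.Periodic (fun θ => f (pp y r θ)) (2 * Real.pi) := by
    intro θ
    simp [pp]
  have h1 := hper.intervalIntegral_add_eq (-Real.pi) 0
  have e3 : -Real.pi + 2 * Real.pi = Real.pi := by ring
  rw [e3, zero_add] at h1
  rw [h1, Real.circleAverage_def]
  have h2 : ∀ θ : ℝ, circleMap y r θ = pp y r θ := by
    intro θ
    unfold circleMap pp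
    rw [Complex.exp_mul_I]
    push_cast
    rfl
  simp_rw [h2]
  simp only [smul_eq_mul]
  field_simp
  ring

end Pool.Agent.Helper904_QS.PJC
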