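import Pool.Agent.Helper904_QS.Stmts
import Pool.Agent.Helper904_QS.Calc

/-!
# MP_177f55_an, piece LBI: the Laplace-Beltrami operator in isothermal coordinates.
-/

set_option autoImplicit false

open MeasureTheory Set Metric Filter Topology
open scoped ContDiff

namespace Pool.Agent.Helper904_QS.PLBI

open Pool.Agent.Helper904_QS

/-- the algebra of an oriented or anti-oriented conformal frame -/
theorem alg {A B C S s2 X1 X2 Y1 Y2 e : ℝ} (hS : S ^ 2 = A * C - B ^ 2) (hS0 : 0 < S)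
    (he : e ^ 2 = 1) (hD : 0 < e * (X1 * Y2 - X2 * Y1))
    (h1 : A * (X1 * X1) + B * (X1 * X2 + X2 * X1) + C * (X2 * X2) = s2)
    (h2 : A * (Y1 * Y1) + B * (Y1 * Y2 + Y2 * Y1) + C * (Y2 * Y2) = s2)
    (h3 : A * (X1 * Y1) + B * (X1 * Y2 + X2 * Y1) + C * (X2 * Y2) = 0) (hs2 : 0 < s2) :
    e * S * (X1 * Y2 - X2 * Y1) = s2 ∧ B * Y1 + C * Y2 = e * S * X1 ∧
      A * Y1 + B * Y2 = -(e * S * X2) ∧ A * X1 + B * X2 = e * S * Y2 ∧
      B * X1 + C * X2 = -(e * S * Y1) := by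
  have hsq : (S * (e * (X1 * Y2 - X2 * Y1))) ^ 2 = s2 ^ 2 := by
    have e1 : (S * (e * (X1 * Y2 - X2 * Y1))) ^ 2 =
        S ^ 2 * e ^ 2 * (X1 * Y2 - X2 * Y1) ^ 2 := by ring
    rw [e1, hS, he]
    have e2 : s2 ^ 2 = (A * (X1 * X1) + B * (X1 * X2 + X2 * X1) + C * (X2 * X2)) *
        (A * (Y1 * Y1) + B * (Y1 * Y2 + Y2 * Y1) + C * (Y2 * Y2)) -
        (A * (X1 * Y1) + B * (X1 * Y2 + X2 * Y1) + C * (X2 * Y2)) ^ 2 := by
      rw [h1, h2, h3]; ring
    rw [e2]; ring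
  have hmain : S * (e * (X1 * Y2 - X2 * Y1)) = s2 :=
    (pow_left_inj₀ (by positivity) hs2.le (by norm_num)).mp hsq
  have hD0 : X1 * Y2 - X2 * Y1 ≠ 0 := by
    intro h; rw [h, mul_zero] at hD; exact lt_irrefl 0 hD
  refine ⟨by linarith [hmain], ?_, ?_, ?_, ?_⟩
  · apply mul_right_cancel₀ hD0
    linear_combination (-Y1) * h3 + X1 * h2 - X1 * hmain
  · apply mul_right_cancel₀ hD0
    linear_combination Y2 * h3 - X2 * h2 + X2 * hmain
  · apply mul_right_cancel₀ hD0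
    linear_combination Y2 * h1 - X2 * h3 - Y2 * hmain
  · apply mul_right_cancel₀ hD0
    linear_combination X1 * h3 - Y1 * h1 + Y1 * hmain

theorem fderiv_apply_eq {F : Type} [NormedAddCommGroup F] [NormedSpace ℝ F] (L : ℂ →L[ℝ] F)
    (v : ℂ) : L v = v.re • L 1 + v.im • L Complex.I := by
  conv_lhs => rw [← Complex.re_add_im v]
  rw [map_add]
  congr 1
  · rw [← mul_one (v.re : ℂ), ← Complex.real_smul, map_smul]
  · rw [← Complex.real_smul, map_smul]

theorem t_LBI : S_LBI := by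
  intro a b c f h σ Ω hΩ ha hb hc hf hpos hh hmaps hσ hiso z₀ hz₀
  set V1 : ℂ → ℝ := fun z => (√(a z * c z - b z ^ 2))⁻¹ * (c z * dx f z - b z * dy f z) with hV1
  set V2 : ℂ → ℝ := fun z => (√(a z * c z - b z ^ 2))⁻¹ * (-(b z * dx f z) + a z * dy f z)
    with hV2
  have hfa : ∀ p ∈ Ω, ContDiffAt ℝ 2 f p := fun p hp => hf.contDiffAt (hΩ.mem_nhds hp)
  have haa : ∀ p ∈ Ω, ContDiffAt ℝ 1 a p := fun p hp => ha.contDiffAt (hΩ.mem_nhds hp)
  have hba : ∀ p ∈ Ω, ContDiffAt ℝ 1 b p := fun p hp => hb.contDiffAt (hΩ.mem_nhds hp)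
  have hca : ∀ p ∈ Ω, ContDiffAt ℝ 1 c p := fun p hp => hc.contDiffAt (hΩ.mem_nhds hp)
  have hdf : ∀ p ∈ Ω, ∀ v : ℂ, ContDiffAt ℝ 1 (fun z => fderiv ℝ f z v) p := by
    intro p hp v
    have h1 : ContDiffAt ℝ 1 (fderiv ℝ f) p := (hfa p hp).fderiv_right (by norm_num)
    exact h1.clm_apply contDiffAt_const
  have hsa : ∀ p ∈ Ω, ContDiffAt ℝ 1 (fun z => (√(a z * c z - b z ^ 2))⁻¹) p := by
    intro p hp
    have h1 : ContDiffAt ℝ 1 (fun z => a z * c z - b z ^ 2) p :=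
      ((haa p hp).mul (hca p hp)).sub ((hba p hp).pow 2)
    refine (h1.sqrt (hpos p hp).2.ne').inv ?_
    exact (Real.sqrt_pos.mpr (hpos p hp).2).ne'
  have hV1d : ∀ p ∈ Ω, DifferentiableAt ℝ V1 p := fun p hp =>
    ((hsa p hp).mul (((hca p hp).mul (hdf p hp 1)).sub
      ((hba p hp).mul (hdf p hp Complex.I)))).differentiableAt (by norm_num)
  have hV2d : ∀ p ∈ Ω, DifferentiableAt ℝ V2 p := fun p hp =>
    ((hsa p hp).mul (((hba p hp).mul (hdf p hp 1)).neg.add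
      ((haa p hp).mul (hdf p hp Complex.I)))).differentiableAt (by norm_num)
  have hnb : ∀ z ∈ ball (0 : ℂ) 2, ball (0 : ℂ) 2 ∈ 𝓝 z := fun z hz => isOpen_ball.mem_nhds hz
  have hha : ∀ z ∈ ball (0 : ℂ) 2, ContDiffAt ℝ 2 h z := fun z hz => hh.contDiffAt (hnb z hz)
  have hhd : ∀ z ∈ ball (0 : ℂ) 2, DifferentiableAt ℝ h z := fun z hz =>
    (hha z hz).differentiableAt (by norm_num)
  have hp₀ : h z₀ ∈ Ω := hmaps hz₀
  -- second derivatives of `h`
  have hfd1 : ContDiffAt ℝ 1 (fderiv ℝ h) z₀ := (hha z₀ hz₀).fderiv_right (by norm_num)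
  have hfd : DifferentiableAt ℝ (fderiv ℝ h) z₀ := hfd1.differentiableAt (by norm_num)
  set H := fderiv ℝ (fderiv ℝ h) z₀ with hH
  have hsym : ∀ v w, H v w = H w v := by
    intro v w
    exact (hha z₀ hz₀).isSymmSndFDerivAt (by simp) v w
  have hxd : ∀ v : ℂ, HasFDerivAt (fun z => fderiv ℝ h z v) (H.flip v) z₀ := by
    intro v
    have h1 := hfd.hasFDerivAt.clm_apply (hasFDerivAt_const v z₀)
    have e1 : (fderiv ℝ h z₀).comp (0 : ℂ →L[ℝ] ℂ) + (fderiv ℝ (fderiv ℝ h) z₀).flip v =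
        H.flip v := by
      rw [ContinuousLinearMap.comp_zero, zero_add]
    rw [e1] at h1
    exact h1
  -- the sign
  set D : ℂ → ℝ := fun z => (fderiv ℝ h z 1).re * (fderiv ℝ h z Complex.I).im -
    (fderiv ℝ h z 1).im * (fderiv ℝ h z Complex.I).re with hDdef
  have hDc : ContinuousAt D z₀ := by
    have hX : ContinuousAt (fun z => fderiv ℝ h z 1) z₀ := (hxd 1).continuousAt
    have hY : ContinuousAt (fun z => fderiv ℝ h z Complex.I) z₀ := (hxd Complex.I).continuousAt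
    have h1 := Complex.continuous_re.continuousAt.comp hX
    have h2 := Complex.continuous_im.continuousAt.comp hX
    have h3 := Complex.continuous_re.continuousAt.comp hY
    have h4 := Complex.continuous_im.continuousAt.comp hY
    exact (h1.mul h4).sub (h2.mul h3)
  have hD0 : D z₀ ≠ 0 := by
    intro h0
    obtain ⟨h1, h2, h3⟩ := hiso z₀ hz₀
    have hs := hσ z₀ hz₀
    unfold qf at h1 h2 h3
    have e2 : (σ z₀ ^ 2) * (σ z₀ ^ 2) - 0 ^ 2 =
        (a (h z₀) * c (h z₀) - b (h z₀) ^ 2) * D z₀ ^ 2 := by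
      rw [← h3]
      nth_rewrite 1 [← h1]
      rw [← h2]
      simp only [hDdef]; ring
    rw [h0] at e2
    have : 0 < σ z₀ ^ 2 * σ z₀ ^ 2 := by positivity
    nlinarith
  obtain ⟨e, he, heD⟩ : ∃ e : ℝ, e ^ 2 = 1 ∧ 0 < e * D z₀ := by
    rcases lt_or_gt_of_ne hD0 with h0 | h0
    · exact ⟨-1, by norm_num, by linarith⟩
    · exact ⟨1, by norm_num, by linarith⟩
  have hev : ∀ᶠ z in 𝓝 z₀, z ∈ ball (0 : ℂ) 2 ∧ 0 < e * D z := by
    have h1 : ContinuousAt (fun z => e * D z) z₀ := continuousAt_const.mul hDc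
    exact (isOpen_ball.eventually_mem hz₀).and (h1.eventually (lt_mem_nhds heD))
  -- the algebra at the points near `z₀`
  have halg : ∀ z, z ∈ ball (0 : ℂ) 2 ∧ 0 < e * D z →
      e * √(a (h z) * c (h z) - b (h z) ^ 2) * D z = σ z ^ 2 ∧
      dx (fun y => f (h y)) z = e * (V1 (h z) * (fderiv ℝ h z Complex.I).im -
        V2 (h z) * (fderiv ℝ h z Complex.I).re) ∧
      dy (fun y => f (h y)) z = e * (V2 (h z) * (fderiv ℝ h z 1).re -
        V1 (h z) * (fderiv ℝ h z 1).im) := by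
    rintro z ⟨hz, hzD⟩
    have hp := hmaps hz
    obtain ⟨h1, h2, h3⟩ := hiso z hz
    unfold qf at h1 h2 h3
    have hdet := (hpos (h z) hp).2
    have hS0 : 0 < √(a (h z) * c (h z) - b (h z) ^ 2) := Real.sqrt_pos.mpr hdet
    have hS : √(a (h z) * c (h z) - b (h z) ^ 2) ^ 2 = a (h z) * c (h z) - b (h z) ^ 2 :=
      Real.sq_sqrt hdet.le
    obtain ⟨r1, r2, r3, r4, r5⟩ := alg hS hS0 he hzD h1 h2 h3 (by have := hσ z hz; positivity)
    have hcomp : ∀ v, fderiv ℝ (fun y => f (h y)) z v =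
        (fderiv ℝ h z v).re * dx f (h z) + (fderiv ℝ h z v).im * dy f (h z) := by
      intro v
      have h4 : fderiv ℝ (fun y => f (h y)) z = (fderiv ℝ f (h z)).comp (fderiv ℝ h z) :=
        fderiv_comp z ((hfa _ hp).differentiableAt (by norm_num)) (hhd z hz)
      rw [h4, ContinuousLinearMap.comp_apply, fderiv_apply_eq (fderiv ℝ f (h z))]
      simp only [smul_eq_mul]
      rfl
    refine ⟨r1, ?_, ?_⟩
    · unfold dx at hcomp ⊢
      rw [hcomp 1]
      simp only [hV1, hV2, dx]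
      set S := √(a (h z) * c (h z) - b (h z) ^ 2) with hSdef
      field_simp
      have q1 : (fderiv ℝ h z 1).re * S = e * (b (h z) * (fderiv ℝ h z Complex.I).re +
          c (h z) * (fderiv ℝ h z Complex.I).im) := by
        rw [r2]; linear_combination (-(S * (fderiv ℝ h z 1).re)) * he
      have q2 : (fderiv ℝ h z 1).im * S = -(e * (a (h z) * (fderiv ℝ h z Complex.I).re +
          b (h z) * (fderiv ℝ h z Complex.I).im)) := by
        rw [r3]; linear_combination (-(S * (fderiv ℝ h z 1).im)) * he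
      linear_combination (fderiv ℝ f (h z) 1) * q1 + (dy f (h z)) * q2
    · unfold dy at hcomp ⊢
      rw [hcomp Complex.I]
      simp only [hV1, hV2, dy]
      set S := √(a (h z) * c (h z) - b (h z) ^ 2) with hSdef
      field_simp
      have q1 : (fderiv ℝ h z Complex.I).im * S = e * (a (h z) * (fderiv ℝ h z 1).re +
          b (h z) * (fderiv ℝ h z 1).im) := by
        rw [r4]; linear_combination (-(S * (fderiv ℝ h z Complex.I).im)) * he
      have q2 : (fderiv ℝ h z Complex.I).re * S = -(e * (b (h z) * (fderiv ℝ h z 1).re +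
          c (h z) * (fderiv ℝ h z 1).im)) := by
        rw [r5]; linear_combination (-(S * (fderiv ℝ h z Complex.I).re)) * he
      linear_combination (fderiv ℝ f (h z) Complex.I) * q1 + (dx f (h z)) * q2
  -- the derivatives of the first derivatives
  have hV1h : HasFDerivAt (fun z => V1 (h z)) ((fderiv ℝ V1 (h z₀)).comp (fderiv ℝ h z₀)) z₀ :=
    (hV1d _ hp₀).hasFDerivAt.comp z₀ (hhd z₀ hz₀).hasFDerivAt
  have hV2h : HasFDerivAt (fun z => V2 (h z)) ((fderiv ℝ V2 (h z₀)).comp (fderiv ℝ h z₀)) z₀ :=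
    (hV2d _ hp₀).hasFDerivAt.comp z₀ (hhd z₀ hz₀).hasFDerivAt
  have hre : ∀ v : ℂ, HasFDerivAt (fun z => (fderiv ℝ h z v).re)
      (Complex.reCLM.comp (H.flip v)) z₀ := fun v =>
    Complex.reCLM.hasFDerivAt.comp z₀ (hxd v)
  have him : ∀ v : ℂ, HasFDerivAt (fun z => (fderiv ℝ h z v).im)
      (Complex.imCLM.comp (H.flip v)) z₀ := fun v =>
    Complex.imCLM.hasFDerivAt.comp z₀ (hxd v)
  have hdxx : dx (dx (fun y => f (h y))) z₀ =
      e * (V1 (h z₀) * (H 1 Complex.I).im +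
        (fderiv ℝ V1 (h z₀) (fderiv ℝ h z₀ 1)) * (fderiv ℝ h z₀ Complex.I).im -
        (V2 (h z₀) * (H 1 Complex.I).re +
        (fderiv ℝ V2 (h z₀) (fderiv ℝ h z₀ 1)) * (fderiv ℝ h z₀ Complex.I).re)) := by
    have h1 : dx (fun y => f (h y)) =ᶠ[𝓝 z₀] fun z => e * (V1 (h z) *
        (fderiv ℝ h z Complex.I).im - V2 (h z) * (fderiv ℝ h z Complex.I).re) := by
      filter_upwards [hev] with z hz using (halg z hz).2.1
    have h2 : HasFDerivAt (fun z => e * (V1 (h z) *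
        (fderiv ℝ h z Complex.I).im - V2 (h z) * (fderiv ℝ h z Complex.I).re)) _ z₀ :=
      (((hV1h.mul (him Complex.I)).sub (hV2h.mul (hre Complex.I))).const_mul e)
    show fderiv ℝ (dx (fun y => f (h y))) z₀ 1 = _
    rw [h1.fderiv_eq, h2.fderiv]
    simp [-mul_eq_mul_left_iff]
    ring
  have hdyy : dy (dy (fun y => f (h y))) z₀ =
      e * (V2 (h z₀) * (H Complex.I 1).re +
        (fderiv ℝ V2 (h z₀) (fderiv ℝ h z₀ Complex.I)) * (fderiv ℝ h z₀ 1).re -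
        (V1 (h z₀) * (H Complex.I 1).im +
        (fderiv ℝ V1 (h z₀) (fderiv ℝ h z₀ Complex.I)) * (fderiv ℝ h z₀ 1).im)) := by
    have h1 : dy (fun y => f (h y)) =ᶠ[𝓝 z₀] fun z => e * (V2 (h z) *
        (fderiv ℝ h z 1).re - V1 (h z) * (fderiv ℝ h z 1).im) := by
      filter_upwards [hev] with z hz using (halg z hz).2.2
    have h2 : HasFDerivAt (fun z => e * (V2 (h z) *
        (fderiv ℝ h z 1).re - V1 (h z) * (fderiv ℝ h z 1).im)) _ z₀ :=
      (((hV2h.mul (hre 1)).sub (hV1h.mul (him 1))).const_mul e)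
    show fderiv ℝ (dy (fun y => f (h y))) z₀ Complex.I = _
    rw [h1.fderiv_eq, h2.fderiv]
    simp [-mul_eq_mul_left_iff]
    ring
  have hLB : LB a b c f (h z₀) = (√(a (h z₀) * c (h z₀) - b (h z₀) ^ 2))⁻¹ *
      (dx V1 (h z₀) + dy V2 (h z₀)) := rfl
  have hD1 := (halg z₀ ⟨hz₀, heD⟩).1
  have hS0 : 0 < √(a (h z₀) * c (h z₀) - b (h z₀) ^ 2) := Real.sqrt_pos.mpr (hpos _ hp₀).2
  unfold lap
  rw [hdxx, hdyy, hLB, ← hD1, hsym Complex.I 1]
  rw [fderiv_apply_eq (fderiv ℝ V1 (h z₀)) (fderiv ℝ h z₀ 1),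
    fderiv_apply_eq (fderiv ℝ V1 (h z₀)) (fderiv ℝ h z₀ Complex.I),
    fderiv_apply_eq (fderiv ℝ V2 (h z₀)) (fderiv ℝ h z₀ 1),
    fderiv_apply_eq (fderiv ℝ V2 (h z₀)) (fderiv ℝ h z₀ Complex.I)]
  simp only [smul_eq_mul, hDdef, dx, dy]
  field_simp
  ring

end Pool.Agent.Helper904_QS.PLBI
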