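import Pool.Agent.Helper904_QS.Stmts
import Pool.Agent.Helper904_QS.Calc

/-!
LC: the logarithmic potential at a point where the masses of discs are at most `C₁ t²`.
-/

set_option autoImplicit false

open MeasureTheory Set Metric Filter Topology
open scoped ContDiff

namespace Pool.Agent.Helper904_QS.PLC

theorem lt_log_imp {ρ t x : ℝ} (hρ : 0 < ρ) (ht : 0 < t) (hx : 0 ≤ x)
    (h : t < Real.log (ρ / x)) : x < ρ * Real.exp (-t) := by
  rcases hx.eq_or_lt with h0 | h0
  · rw [← h0, div_zero, Real.log_zero] at h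
    linarith
  · rw [Real.lt_log_iff_exp_lt (by positivity), lt_div_iff₀ h0] at h
    rw [Real.exp_neg, ← div_eq_mul_inv, lt_div_iff₀ (Real.exp_pos t)]
    linarith

theorem t_LC : S_LC := by
  intro h y ρ C₁ hc h0 hρ hmass
  set g : ℂ → ℝ := fun z => Real.log (ρ / ‖z - y‖) with hg
  have hgm : Measurable g := by
    have h1 : Measurable (fun z : ℂ => ‖z - y‖) := (by fun_prop : Continuous _).measurable
    exact Real.measurable_log.comp (measurable_const.div h1)
  have hg0 : ∀ z ∈ ball y ρ, 0 ≤ g z := by
    intro z hz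
    rw [mem_ball, dist_eq_norm] at hz
    rcases (norm_nonneg (z - y)).eq_or_lt with h1 | h1
    · simp only [hg]; rw [← h1]; simp
    · apply Real.log_nonneg
      rw [le_div_iff₀ h1]; linarith
  have hint : ∀ t : ℝ, IntegrableOn h (ball y t) := fun t =>
    (hc.continuousOn.integrableOn_compact (isCompact_closedBall y t)).mono_set
      ball_subset_closedBall
  have hC : 0 ≤ C₁ := by
    have h1 := hmass ρ ⟨hρ, le_rfl⟩
    have h2 : 0 ≤ ∫ z in ball y ρ, h z := integral_nonneg h0
    by_contra hn
    push Not at hn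
    have : C₁ * ρ ^ 2 < 0 := mul_neg_of_neg_of_pos hn (by positivity)
    linarith
  have hhm : Measurable (fun z => ENNReal.ofReal (h z)) := hc.measurable.ennreal_ofReal
  set μ : Measure ℂ := (volume.restrict (ball y ρ)).withDensity
    (fun z => ENNReal.ofReal (h z)) with hμ
  have hexp : ∫⁻ t in Ioi (0 : ℝ), ENNReal.ofReal (C₁ * ρ ^ 2 * Real.exp (-2 * t)) =
      ENNReal.ofReal (C₁ * ρ ^ 2 / 2) := by
    have hi : IntegrableOn (fun t : ℝ => C₁ * ρ ^ 2 * Real.exp (-2 * t)) (Ioi 0) :=
      (integrableOn_exp_mul_Ioi (by norm_num) 0).const_mul _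
    rw [← ofReal_integral_eq_lintegral_ofReal hi (Eventually.of_forall fun t => by positivity),
      integral_const_mul, integral_exp_mul_Ioi (by norm_num)]
    congr 1
    simp
    ring
  have key : ∫⁻ z in ball y ρ, ENNReal.ofReal (g z * h z) ≤ ENNReal.ofReal (C₁ * ρ ^ 2 / 2) := by
    have e1 : ∫⁻ z in ball y ρ, ENNReal.ofReal (g z * h z) = ∫⁻ z, ENNReal.ofReal (g z) ∂μ := by
      rw [hμ, lintegral_withDensity_eq_lintegral_mul _ hhm hgm.ennreal_ofReal]
      apply setLIntegral_congr_fun measurableSet_ball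
      intro z hz
      simp only [Pi.mul_apply]
      rw [mul_comm (g z), ENNReal.ofReal_mul (h0 z)]
    have hnn : 0 ≤ᵐ[μ] g := by
      have h1 : ∀ᵐ z ∂(volume.restrict (ball y ρ)), 0 ≤ g z := by
        filter_upwards [ae_restrict_mem measurableSet_ball] with z hz using hg0 z hz
      exact (withDensity_absolutelyContinuous _ _).ae_le h1
    rw [e1, lintegral_eq_lintegral_meas_lt μ hnn hgm.aemeasurable, ← hexp]
    apply setLIntegral_mono' measurableSet_Ioi
    intro t ht
    have ht0 : 0 < t := ht
    have hR : 0 < ρ * Real.exp (-t) := by positivity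
    have hRle : ρ * Real.exp (-t) ≤ ρ := by
      have : Real.exp (-t) ≤ 1 := Real.exp_le_one_iff.2 (by linarith)
      nlinarith
    calc μ {a | t < g a} ≤ μ (ball y (ρ * Real.exp (-t))) := by
          apply measure_mono
          intro a ha
          rw [mem_ball, dist_eq_norm]
          exact lt_log_imp hρ ht0 (norm_nonneg _) ha
      _ = ∫⁻ a in ball y (ρ * Real.exp (-t)), ENNReal.ofReal (h a)
            ∂(volume.restrict (ball y ρ)) := withDensity_apply _ measurableSet_ball
      _ ≤ ∫⁻ a in ball y (ρ * Real.exp (-t)), ENNReal.ofReal (h a) := by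
          apply lintegral_mono'
          · exact Measure.restrict_mono_measure Measure.restrict_le_self _
          · exact le_rfl
      _ = ENNReal.ofReal (∫ a in ball y (ρ * Real.exp (-t)), h a) :=
          (ofReal_integral_eq_lintegral_ofReal (hint _) (Eventually.of_forall h0)).symm
      _ ≤ ENNReal.ofReal (C₁ * (ρ * Real.exp (-t)) ^ 2) :=
          ENNReal.ofReal_le_ofReal (hmass _ ⟨hR, hRle⟩)
      _ = _ := by
          congr 1
          rw [mul_pow, ← Real.exp_nat_mul]
          have : ((2 : ℕ) : ℝ) * -t = -2 * t := by push_cast; ring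
          rw [this]; ring
  have hnn2 : 0 ≤ᵐ[volume.restrict (ball y ρ)] fun z => g z * h z := by
    filter_upwards [ae_restrict_mem measurableSet_ball] with z hz using
      mul_nonneg (hg0 z hz) (h0 z)
  have hm2 : AEStronglyMeasurable (fun z => g z * h z) (volume.restrict (ball y ρ)) :=
    (hgm.mul hc.measurable).aestronglyMeasurable
  constructor
  · refine ⟨hm2, ?_⟩
    rw [hasFiniteIntegral_iff_ofReal hnn2]
    exact key.trans_lt ENNReal.ofReal_lt_top
  · have h1 : ∫ z in ball y ρ, g z * h z =
        (∫⁻ z in ball y ρ, ENNReal.ofReal (g z * h z)).toReal :=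
      integral_eq_lintegral_of_nonneg_ae hnn2 hm2
    change ∫ z in ball y ρ, g z * h z ≤ _
    rw [h1]
    exact ENNReal.toReal_le_of_le_ofReal (by positivity) key

end Pool.Agent.Helper904_QS.PLC
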