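import Pool.Agent.Helper904_QS.StmtsM
import Pool.Agent.Helper904_QS.Calc

/-!
# LCH: the coordinate Laplacian as an operator on `ℂ`.
-/

set_option autoImplicit false

open MeasureTheory Set Metric Filter Topology Bundle
open scoped ContDiff Manifold

namespace Pool.Agent.Helper904_QS.PLCH

theorem JJ_one : JJ 1 = EuclideanSpace.single 0 1 := by
  ext i
  unfold JJ
  rw [Complex.orthonormalBasisOneI_repr_apply]
  fin_cases i <;> simp

theorem JJ_I : JJ Complex.I = EuclideanSpace.single 1 1 := by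
  ext i
  unfold JJ
  rw [Complex.orthonormalBasisOneI_repr_apply]
  fin_cases i <;> simp

theorem fd (g : E2 → ℝ) (z v : ℂ) :
    fderiv ℝ (fun z => g (JJ z)) z v = fderiv ℝ g (JJ z) (JJ v) := by
  have h := (JJ.toContinuousLinearEquiv).comp_right_fderiv (f := g) (x := z)
  have h' : fderiv ℝ (fun z => g (JJ z)) z =
    (fderiv ℝ g (JJ z)).comp (JJ.toContinuousLinearEquiv : ℂ →L[ℝ] E2) := h
  rw [h']
  rfl

theorem pd0 (g : E2 → ℝ) (z : ℂ) : pd 0 g (JJ z) = dx (fun z => g (JJ z)) z := by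
  unfold pd dx
  rw [fd, JJ_one]

theorem pd1 (g : E2 → ℝ) (z : ℂ) : pd 1 g (JJ z) = dy (fun z => g (JJ z)) z := by
  unfold pd dy
  rw [fd, JJ_I]

theorem sqrt_mul_inv (d : ℝ) (hd : 0 < d) : √d * d⁻¹ = (√d)⁻¹ := by
  have h : 0 < √d := Real.sqrt_pos.mpr hd
  have h2 : √d * √d = d := Real.mul_self_sqrt hd.le
  field_simp
  nlinarith

theorem t_LCH : S_LCH := by
  intro M _ _ _ e f p hp hsym hpos
  set a : ℂ → ℝ := fun z => gram e (JJ z) 0 0 with ha
  set b : ℂ → ℝ := fun z => gram e (JJ z) 0 1 with hb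
  set c : ℂ → ℝ := fun z => gram e (JJ z) 1 1 with hc
  set F : ℂ → ℝ := fun z => f (JJ z) with hF
  have hU : ∀ᶠ z in 𝓝 p, JJ z ∈ e.target :=
    JJ.continuous.continuousAt.preimage_mem_nhds (e.open_target.mem_nhds hp)
  have hdet : ∀ z, JJ z ∈ e.target → (gram e (JJ z)).det = a z * c z - b z ^ 2 := by
    intro z hz
    rw [Matrix.det_fin_two, ← hsym _ hz]
    simp only [ha, hb, hc]
    ring
  have hposz : ∀ z, JJ z ∈ e.target → 0 < a z * c z - b z ^ 2 := fun z hz => hpos _ hz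
  have hinv : ∀ z, JJ z ∈ e.target → (gram e (JJ z))⁻¹ =
      (a z * c z - b z ^ 2)⁻¹ • !![c z, -b z; -b z, a z] := by
    intro z hz
    rw [Matrix.inv_def, hdet z hz, Matrix.adjugate_fin_two, ← hsym _ hz, Ring.inverse_eq_inv']
  have e0 : ∀ z, JJ z ∈ e.target →
      √(gram e (JJ z)).det * ∑ j, (gram e (JJ z))⁻¹ 0 j * pd j f (JJ z) =
      (√(a z * c z - b z ^ 2))⁻¹ * (c z * dx F z - b z * dy F z) := by
    intro z hz
    rw [hinv z hz, hdet z hz, Fin.sum_univ_two, pd0, pd1, ← sqrt_mul_inv _ (hposz z hz)]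
    simp
    ring
  have e1 : ∀ z, JJ z ∈ e.target →
      √(gram e (JJ z)).det * ∑ j, (gram e (JJ z))⁻¹ 1 j * pd j f (JJ z) =
      (√(a z * c z - b z ^ 2))⁻¹ * (-(b z * dx F z) + a z * dy F z) := by
    intro z hz
    rw [hinv z hz, hdet z hz, Fin.sum_univ_two, pd0, pd1, ← sqrt_mul_inv _ (hposz z hz)]
    simp
    ring
  unfold lapChart LB
  rw [Fin.sum_univ_two, hdet p hp, pd0, pd1]
  congr 1
  congr 1
  · unfold dx
    have : (fun z => √(gram e (JJ z)).det * ∑ j, (gram e (JJ z))⁻¹ 0 j * pd j f (JJ z)) =ᶠ[𝓝 p]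
        fun z => (√(a z * c z - b z ^ 2))⁻¹ * (c z * dx F z - b z * dy F z) := by
      filter_upwards [hU] with z hz using e0 z hz
    rw [this.fderiv_eq]
    rfl
  · unfold dy
    have : (fun z => √(gram e (JJ z)).det * ∑ j, (gram e (JJ z))⁻¹ 1 j * pd j f (JJ z)) =ᶠ[𝓝 p]
        fun z => (√(a z * c z - b z ^ 2))⁻¹ * (-(b z * dx F z) + a z * dy F z) := by
      filter_upwards [hU] with z hz using e1 z hz
    rw [this.fderiv_eq]
    rfl

end Pool.Agent.Helper904_QS.PLCH
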