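import Pool.Agent.Helper904_QS.Stmts
import Pool.Agent.Helper904_QS.Calc

/-!
# MP_177f55_an, piece LK: bounded `k`.
-/

set_option autoImplicit false

open MeasureTheory Set Metric Filter Topology
open scoped ContDiff

namespace Pool.Agent.Helper904_QS.PLK

open Pool.Agent.Helper904_QS

section

variable {M ι : Type} [TopologicalSpace M] {ψ : ι → ℂ → M} {σ : ι → ℂ → ℝ}

/-- upper bound of the densities -/
theorem exists_Lam [Fintype ι] (hA : Atl M ι ψ σ) : ∃ Λ : ℝ, 0 < Λ ∧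
    ∀ i, ∀ z ∈ ball (0 : ℂ) (7 / 4), |σ i z| ≤ Λ := by
  have h : ∀ i, ∃ L : ℝ, ∀ z ∈ closedBall (0 : ℂ) (7 / 4), |σ i z| ≤ L := by
    intro i
    obtain ⟨L, hL⟩ := (isCompact_closedBall (0 : ℂ) (7 / 4)).exists_bound_of_continuousOn
      (f := σ i) (hA.sm i).continuous.continuousOn
    exact ⟨L, fun z hz => by simpa using hL z hz⟩
  choose L hL using h
  refine ⟨1 + ∑ i, |L i|, by positivity, ?_⟩
  intro i z hz
  have h1 := hL i z (ball_subset_closedBall hz)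
  have h2 : |L i| ≤ ∑ i, |L i| :=
    Finset.single_le_sum (f := fun i => |L i|) (fun _ _ => abs_nonneg _) (Finset.mem_univ i)
  have h3 := le_abs_self (L i)
  linarith

/-- two discs are joined if they meet -/
def R (ψ : ι → ℂ → M) (i j : ι) : Prop :=
  (ψ i '' ball (0 : ℂ) (1 / 2) ∩ ψ j '' ball (0 : ℂ) (1 / 2)).Nonempty

theorem chain [ConnectedSpace M] (hA : Atl M ι ψ σ) (i j : ι) : Relation.ReflTransGen (R ψ) i j := by
  classical
  by_contra hcon
  set S : Set ι := {l | Relation.ReflTransGen (R ψ) i l} with hS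
  have hop : ∀ l, IsOpen (ψ l '' ball (0 : ℂ) (1 / 2)) := fun l =>
    hA.opn l _ (ball_subset_ball (by norm_num)) isOpen_ball
  have hU : IsOpen (⋃ l ∈ S, ψ l '' ball (0 : ℂ) (1 / 2)) :=
    isOpen_biUnion fun l _ => hop l
  have hV : IsOpen (⋃ l ∈ Sᶜ, ψ l '' ball (0 : ℂ) (1 / 2)) :=
    isOpen_biUnion fun l _ => hop l
  have hcov : (univ : Set M) ⊆ (⋃ l ∈ S, ψ l '' ball (0 : ℂ) (1 / 2)) ∪
      (⋃ l ∈ Sᶜ, ψ l '' ball (0 : ℂ) (1 / 2)) := by
    intro x _
    obtain ⟨l, z, hz, rfl⟩ := hA.cover x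
    by_cases hl : l ∈ S
    · left; exact mem_biUnion hl (mem_image_of_mem _ hz)
    · right; exact mem_biUnion (show l ∈ Sᶜ from hl) (mem_image_of_mem _ hz)
  have h0 : (0 : ℂ) ∈ ball (0 : ℂ) (1 / 2) := by simp
  obtain ⟨x, -, hx1, hx2⟩ := isPreconnected_univ (α := M) _ _ hU hV hcov
    ⟨ψ i 0, mem_univ _, mem_biUnion (show i ∈ S from Relation.ReflTransGen.refl)
      (mem_image_of_mem _ h0)⟩
    ⟨ψ j 0, mem_univ _, mem_biUnion (show j ∈ Sᶜ from hcon) (mem_image_of_mem _ h0)⟩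
  simp only [mem_iUnion] at hx1 hx2
  obtain ⟨l, hl, hxl⟩ := hx1
  obtain ⟨l', hl', hxl'⟩ := hx2
  exact hl' (Relation.ReflTransGen.tail hl ⟨x, hxl, hxl'⟩)

/-- the maximum of `g` over the surface, `g` continuous in the discs -/
theorem exists_max [Fintype ι] [Nonempty M] (hA : Atl M ι ψ σ) (g : M → ℝ) (F : ι → ℂ → ℝ) (hF : ∀ i, Continuous (F i))
    (hrep : ∀ i, ∀ z ∈ ball (0 : ℂ) (7 / 4), F i z = g (ψ i z)) :
    ∃ i, ∃ z ∈ ball (0 : ℂ) (1 / 2), ∀ x, g x ≤ F i z := by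
  classical
  obtain ⟨x₀⟩ := (inferInstance : Nonempty M)
  obtain ⟨i₀, -, -, -⟩ := hA.cover x₀
  have h1 : ∀ i, ∃ z ∈ closedBall (0 : ℂ) (1 / 2), ∀ z' ∈ closedBall (0 : ℂ) (1 / 2),
      F i z' ≤ F i z := by
    intro i
    obtain ⟨z, hz, hmax⟩ := (isCompact_closedBall (0 : ℂ) (1 / 2)).exists_isMaxOn
      ⟨0, by simp⟩ (hF i).continuousOn
    exact ⟨z, hz, fun z' hz' => hmax hz'⟩
  choose zz hzz hmax using h1
  obtain ⟨i, -, hi⟩ := Finset.exists_max_image (Finset.univ : Finset ι) (fun i => F i (zz i))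
    ⟨i₀, Finset.mem_univ _⟩
  have hsub : closedBall (0 : ℂ) (1 / 2) ⊆ ball (0 : ℂ) (7 / 4) :=
    closedBall_subset_ball (by norm_num)
  have hub : ∀ x, g x ≤ F i (zz i) := by
    intro x
    obtain ⟨l, z, hz, rfl⟩ := hA.cover x
    rw [← hrep l z (hsub (ball_subset_closedBall hz))]
    exact (hmax l z (ball_subset_closedBall hz)).trans (hi l (Finset.mem_univ l))
  obtain ⟨l, z, hz, hzx⟩ := hA.cover (ψ i (zz i))
  refine ⟨l, z, hz, fun x => (hub x).trans (le_of_eq ?_)⟩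
  rw [hrep i _ (hsub (hzz i)), hrep l z (hsub (ball_subset_closedBall hz)), hzx]

end

/-- the value at a minimum is `≤ 0` -/
theorem min_nonpos (hJ : S_J) (hK : S_KER) (hI : S_INT) {k : ℝ} {f σ : ℂ → ℝ} {y : ℂ} (hk : 0 < k)
    (hf : ContDiff ℝ 2 f) (hσ : Continuous σ)
    (hy : y ∈ ball (0 : ℂ) (1 / 2)) (hpos : ∀ z ∈ closedBall (0 : ℂ) (7 / 4), 0 < σ z)
    (hlap : ∀ z ∈ ball (0 : ℂ) (7 / 4), lap f z = -(k ^ 2 * σ z ^ 2 * f z))
    (hmin : ∀ z ∈ ball (0 : ℂ) (7 / 4), f y ≤ f z) : f y ≤ 0 := by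
  by_contra hcon
  push Not at hcon
  have hyn : ‖y‖ < 1 / 2 := by simpa using hy
  obtain ⟨z₀, hz₀, hσmin⟩ := (isCompact_closedBall (0 : ℂ) (7 / 4)).exists_isMinOn
    ⟨0, mem_closedBall_self (by norm_num)⟩ hσ.continuousOn
  set s := σ z₀ with hs
  have hs0 : 0 < s := hpos z₀ hz₀
  have hr : (0 : ℝ) < 1 := one_pos
  have sub1 : ball y 1 ⊆ ball (0 : ℂ) (7 / 4) := by
    intro z hz
    rw [mem_ball, dist_eq_norm] at hz
    rw [mem_ball, dist_zero_right]
    have := norm_le_norm_add_norm_sub' z y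
    linarith
  have hlb : ∀ z ∈ ball y 1, lap f z ≤ -(k ^ 2 * s ^ 2 * f y) := by
    intro z hz
    have hz' := sub1 hz
    rw [hlap z hz']
    have h1 : s ≤ σ z := hσmin (ball_subset_closedBall hz')
    have h2 := hmin z hz'
    have h3 : s ^ 2 ≤ σ z ^ 2 := by nlinarith
    have h4 : k ^ 2 * s ^ 2 * f y ≤ k ^ 2 * σ z ^ 2 * f z := by
      apply mul_le_mul (mul_le_mul_of_nonneg_left h3 (by positivity)) h2 hcon.le (by positivity)
    linarith
  have j := hJ f y 1 hf hr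
  obtain ⟨-, hc0, -, hcz, -, -, hcint, hP1, hP0, hPz, -, -, hPint, -, -⟩ := hK 1 hr
  -- the chi part
  have hci : Integrable (fun z => chi 1 (z - y)) := by
    have := (hI (fun _ => 1) y 1 continuous_const hr).1
    simpa using this
  have e1 : 2 * Real.pi * f y ≤ ∫ z, chi 1 (z - y) * f z := by
    have e2 : (∫ z, chi 1 (z - y) * f y) = 2 * Real.pi * f y := by
      rw [integral_mul_const, integral_sub_right_eq_self (fun z => chi 1 z) y, hcint]
    rw [← e2]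
    refine integral_mono (hci.mul_const _) (hI f y 1 hf.continuous hr).1 ?_
    intro z
    show chi 1 (z - y) * f y ≤ chi 1 (z - y) * f z
    by_cases hzb : z ∈ ball y 1
    · exact mul_le_mul_of_nonneg_left (hmin z (sub1 hzb)) (hc0 _)
    · have : 1 ≤ ‖z - y‖ := by
        rw [mem_ball, dist_eq_norm, not_lt] at hzb; exact hzb
      rw [hcz _ this]; simp
  have e3 : ∫ z, Phi 1 (z - y) * lap f z ≤ -(k ^ 2 * s ^ 2 * f y) * (Real.pi * 1 ^ 2 / 6) := by
    have e4 : (∫ z, Phi 1 (z - y)) = Real.pi * 1 ^ 2 / 6 := by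
      rw [integral_sub_right_eq_self (fun z => Phi 1 z) y, hPint]
    rw [← e4, ← integral_const_mul]
    refine integral_mono (hI (lap f) y 1 (continuous_lap hf) hr).2
      ((hP1.comp_sub_right y).const_mul _) ?_
    intro z
    show Phi 1 (z - y) * lap f z ≤ -(k ^ 2 * s ^ 2 * f y) * Phi 1 (z - y)
    by_cases hzb : z ∈ ball y 1
    · have := hlb z hzb
      nlinarith [hP0 (z - y)]
    · have : 1 ≤ ‖z - y‖ := by
        rw [mem_ball, dist_eq_norm, not_lt] at hzb; exact hzb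
      rw [hPz _ this]; simp
  have e5 : 0 < k ^ 2 * s ^ 2 * f y * (Real.pi * 1 ^ 2 / 6) := by positivity
  linarith

/-- the mass of `f i + δ` -/
noncomputable def II {ι : Type} (f : ι → ℂ → ℝ) (δ : ℝ) (i : ι) : ℝ :=
  ∫ z in ball (0 : ℂ) (5 / 8), (f i z + δ)

/-- transport of smallness from the disc `j` to the disc `i` -/
def Q (M ι : Type) (ψ : ι → ℂ → M) (σ : ι → ℂ → ℝ) (k₀ : ℝ) (j i : ι) : Prop :=
  ∃ K : ℝ, 0 < K ∧ ∀ (k δ : ℝ) (u : M → ℝ) (f : ι → ℂ → ℝ), 0 < k → k ≤ k₀ →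
    Eig M ι ψ σ k u f → 0 ≤ δ → (∀ x, -δ ≤ u x) → II f δ i ≤ K * (II f δ j + δ)

section

variable {M ι : Type} [TopologicalSpace M] {ψ : ι → ℂ → M} {σ : ι → ℂ → ℝ}

omit [TopologicalSpace M] in
theorem II_nonneg {k δ : ℝ} {u : M → ℝ} {f : ι → ℂ → ℝ} (hE : Eig M ι ψ σ k u f)
    (hlow : ∀ x, -δ ≤ u x) (i : ι) : 0 ≤ II f δ i := by
  unfold II
  refine setIntegral_nonneg measurableSet_ball ?_
  intro z hz
  rw [hE.rep i z (ball_subset_ball (by norm_num) hz)]
  linarith [hlow (ψ i z)]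

omit [TopologicalSpace M] in
theorem integrableOn_f {k : ℝ} (δ : ℝ) {u : M → ℝ} {f : ι → ℂ → ℝ} (hE : Eig M ι ψ σ k u f)
    (i : ι) : IntegrableOn (fun z => f i z + δ) (ball (0 : ℂ) (5 / 8)) :=
  (((hE.sm i).continuous.add continuous_const).continuousOn.integrableOn_compact
    (isCompact_closedBall (0 : ℂ) (5 / 8))).mono_set ball_subset_closedBall

theorem Q_step [Fintype ι] (hWH : S_WH) (hA : Atl M ι ψ σ) {k₀ : ℝ} (hk₀ : 0 < k₀) {j i : ι}
    (hR : R ψ j i) : Q M ι ψ σ k₀ j i := by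
  obtain ⟨Λ, hΛ, hσb⟩ := exists_Lam hA
  obtain ⟨C, hC, hW⟩ := hWH Λ k₀ hΛ hk₀
  -- the overlap seen in the disc `j`
  set O : Set ℂ := {z | z ∈ ball (0 : ℂ) (1 / 2) ∧ ψ j z ∈ ψ i '' ball (0 : ℂ) (1 / 2)} with hO
  have hOo : IsOpen O := by
    have h1 : ContinuousOn (ψ j) (ball (0 : ℂ) (1 / 2)) :=
      (hA.cont j).mono (ball_subset_ball (by norm_num))
    exact h1.isOpen_inter_preimage isOpen_ball
      (hA.opn i _ (ball_subset_ball (by norm_num)) isOpen_ball)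
  have hOne : O.Nonempty := by
    obtain ⟨x, ⟨z, hz, hzx⟩, hx2⟩ := hR
    exact ⟨z, hz, by rw [hzx]; exact hx2⟩
  have hOsub : O ⊆ ball (0 : ℂ) (5 / 8) := fun z hz => ball_subset_ball (by norm_num) hz.1
  have hOfin : volume O ≠ ⊤ := ((measure_mono hOsub).trans_lt measure_ball_lt_top).ne
  have hOpos : 0 < volume.real O := by
    rw [measureReal_def]
    exact ENNReal.toReal_pos (hOo.measure_pos volume hOne).ne' hOfin
  set m := volume.real O with hm
  refine ⟨C * (1 / m + 1), by positivity, ?_⟩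
  intro k δ u f hk hkk hE hδ hlow
  have hIj := II_nonneg hE hlow j
  -- a point where `f j + δ` is at most the mean
  have hex : ∃ z ∈ O, f j z + δ ≤ II f δ j / m := by
    by_contra hcon
    push Not at hcon
    have hint := integrableOn_f δ hE j
    have h1 : ∫ z in O, (f j z + δ) ≤ II f δ j := by
      unfold II
      refine setIntegral_mono_set hint ?_ (Eventually.of_forall hOsub)
      filter_upwards [ae_restrict_mem measurableSet_ball] with z hz
      show 0 ≤ f j z + δ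
      rw [hE.rep j z (ball_subset_ball (by norm_num) hz)]
      linarith [hlow (ψ j z)]
    have h2 : II f δ j / m * m < ∫ z in O, (f j z + δ) := by
      have h3 : (∫ z in O, (II f δ j / m)) = II f δ j / m * m := by
        rw [setIntegral_const, smul_eq_mul, mul_comm]
      rw [← h3]
      have hintO := hint.mono_set hOsub
      have hdiff : 0 < ∫ z in O, ((f j z + δ) - II f δ j / m) := by
        rw [setIntegral_pos_iff_support_of_nonneg_ae]
        · have : O ⊆ Function.support (fun z => (f j z + δ) - II f δ j / m) ∩ O := by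
            intro z hz
            exact ⟨(sub_pos.mpr (hcon z hz)).ne', hz⟩
          exact (hOo.measure_pos volume hOne).trans_le (measure_mono this)
        · filter_upwards [ae_restrict_mem hOo.measurableSet] with z hz
          exact (sub_pos.mpr (hcon z hz)).le
        · exact hintO.sub (integrableOn_const hOfin)
      rw [integral_sub hintO (integrableOn_const hOfin)] at hdiff
      linarith
    rw [div_mul_cancel₀ _ hOpos.ne'] at h2
    linarith
  obtain ⟨z, hz, hzle⟩ := hex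
  obtain ⟨hz1, z', hz', hzz⟩ := hz
  have hsub : ball (0 : ℂ) (1 / 2) ⊆ ball (0 : ℂ) (7 / 4) := ball_subset_ball (by norm_num)
  have hval : f i z' = f j z := by
    rw [hE.rep i z' (hsub hz'), hE.rep j z (hsub hz1), hzz]
  have hw := hW k δ (f i) (σ i) hk hkk hδ ((hE.sm i).of_le (by norm_num)) (hA.sm i).continuous
    (hσb i) (hE.eq i) (fun w hw => by rw [hE.rep i w hw]; exact hlow _) z' hz'
  rw [hval] at hw
  calc II f δ i ≤ C * (f j z + δ + δ) := hw
    _ ≤ C * (II f δ j / m + δ) := mul_le_mul_of_nonneg_left (by linarith) hC.le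
    _ ≤ C * ((1 / m + 1) * (II f δ j + δ)) := by
        apply mul_le_mul_of_nonneg_left _ hC.le
        have e : (1 / m + 1) * (II f δ j + δ) = II f δ j / m + δ + (II f δ j + δ / m) := by ring
        rw [e]
        have : 0 ≤ δ / m := by positivity
        linarith
    _ = C * (1 / m + 1) * (II f δ j + δ) := by ring

omit [TopologicalSpace M] in
theorem Q_refl (k₀ : ℝ) (i : ι) : Q M ι ψ σ k₀ i i :=
  ⟨1, one_pos, fun k δ u f _ _ _ hδ _ => by linarith⟩

omit [TopologicalSpace M] in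
theorem Q_trans {k₀ : ℝ} {a b c : ι} (h1 : Q M ι ψ σ k₀ a b) (h2 : Q M ι ψ σ k₀ b c) :
    Q M ι ψ σ k₀ a c := by
  obtain ⟨K, hK, h1⟩ := h1
  obtain ⟨K', hK', h2⟩ := h2
  refine ⟨K' * (K + 1), by positivity, ?_⟩
  intro k δ u f hk hkk hE hδ hlow
  have e1 := h1 k δ u f hk hkk hE hδ hlow
  have e2 := h2 k δ u f hk hkk hE hδ hlow
  have hIa := II_nonneg hE hlow a
  calc II f δ c ≤ K' * (II f δ b + δ) := e2
    _ ≤ K' * (K * (II f δ a + δ) + (II f δ a + δ)) :=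
        mul_le_mul_of_nonneg_left (by linarith) hK'.le
    _ = K' * (K + 1) * (II f δ a + δ) := by ring

theorem Q_all [Fintype ι] [ConnectedSpace M] (hWH : S_WH) (hA : Atl M ι ψ σ) {k₀ : ℝ}
    (hk₀ : 0 < k₀) : ∃ K : ℝ, 0 < K ∧ ∀ (i j : ι) (k δ : ℝ) (u : M → ℝ) (f : ι → ℂ → ℝ), 0 < k →
    k ≤ k₀ → Eig M ι ψ σ k u f → 0 ≤ δ → (∀ x, -δ ≤ u x) →
    II f δ i ≤ K * (II f δ j + δ) := by
  have h : ∀ p : ι × ι, Q M ι ψ σ k₀ p.1 p.2 := by
    rintro ⟨a, b⟩
    have hab := chain hA a b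
    show Q M ι ψ σ k₀ a b
    induction hab with
    | refl => exact Q_refl k₀ a
    | tail _ hbc ih => exact Q_trans ih (Q_step hWH hA hk₀ hbc)
  choose K hK hQ using h
  refine ⟨1 + ∑ p, K p, by
    have : 0 ≤ ∑ p, K p := Finset.sum_nonneg fun p _ => (hK p).le
    linarith, ?_⟩
  intro i j k δ u f hk hkk hE hδ hlow
  have h1 := hQ (j, i) k δ u f hk hkk hE hδ hlow
  have h2 : K (j, i) ≤ ∑ p, K p :=
    Finset.single_le_sum (f := K) (fun p _ => (hK p).le) (Finset.mem_univ (j, i))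
  have h3 := II_nonneg hE hlow j
  refine h1.trans (mul_le_mul_of_nonneg_right (by linarith) (by linarith))

/-- the statement for a solution whose maximum dominates -/
theorem main_pos [Fintype ι] [ConnectedSpace M] (hMC : S_MC) (hWH : S_WH) (hJ : S_J) (hK : S_KER)
    (hI : S_INT) (hA : Atl M ι ψ σ) {k₀ : ℝ} (hk₀ : 0 < k₀) :
    ∃ c : ℝ, 0 < c ∧ ∀ (k A : ℝ) (u : M → ℝ) (f : ι → ℂ → ℝ), 0 < k → k ≤ k₀ →
    Eig M ι ψ σ k u f → 0 < A → (∀ x, |u x| ≤ A) → (∃ x, u x = A) →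
    (∃ i, c ≤ volume.real {z ∈ ball (0 : ℂ) (3 / 2) | 0 < f i z}) ∧
      ∃ i, c ≤ volume.real {z ∈ ball (0 : ℂ) (3 / 2) | f i z < 0} := by
  obtain ⟨Λ, hΛ, hσb⟩ := exists_Lam hA
  obtain ⟨d, hd, hd8, hM⟩ := hMC Λ k₀ (1 / 2) hΛ hk₀ (by norm_num)
  obtain ⟨C, hC, hW⟩ := hWH Λ k₀ hΛ hk₀
  obtain ⟨K, hKpos, hQ⟩ := Q_all hWH hA hk₀
  set c₁ : ℝ := Real.pi * d ^ 2 / 2 / (K * (C + 1)) with hc₁
  have hc₁pos : 0 < c₁ := by positivity
  obtain ⟨d', hd', hd'8, hM'⟩ := hMC Λ k₀ (c₁ / 2) hΛ hk₀ (by positivity)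
  have hvol : ∀ (z : ℂ) (s : ℝ), 0 ≤ s → volume.real (ball z s) = Real.pi * s ^ 2 := by
    intro z s hs
    rw [measureReal_def, Complex.volume_ball]
    simp only [ENNReal.toReal_mul, ENNReal.toReal_pow]
    rw [ENNReal.toReal_ofReal hs]
    have : (NNReal.pi : ℝ) = Real.pi := rfl
    simp only [ENNReal.coe_toReal, this]
    ring
  refine ⟨min (Real.pi * d ^ 2) (Real.pi * d' ^ 2), by positivity, ?_⟩
  intro k A u f hk hkk hE hA0 hub hatt
  obtain ⟨x₀, hx₀⟩ := hatt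
  obtain ⟨i₀, z₀, hz₀, hzx₀⟩ := hA.cover x₀
  have hsub : ball (0 : ℂ) (1 / 2) ⊆ ball (0 : ℂ) (7 / 4) := ball_subset_ball (by norm_num)
  have hf2 : ∀ i, ContDiff ℝ 2 (f i) := fun i => (hE.sm i).of_le (by norm_num)
  have hfA : ∀ i, ∀ z ∈ ball (0 : ℂ) (7 / 4), |f i z| ≤ A := by
    intro i z hz
    rw [hE.rep i z hz]; exact hub _
  have hfz₀ : f i₀ z₀ = A := by rw [hE.rep i₀ z₀ (hsub hz₀), hzx₀, hx₀]
  have hbig : ∀ z ∈ ball z₀ d, A / 2 ≤ f i₀ z := by
    intro z hz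
    have h1 := hM k A (f i₀) (σ i₀) hk hkk (hf2 i₀) (hA.sm i₀).continuous (hσb i₀) (hE.eq i₀)
      (hfA i₀) z₀ (ball_subset_closedBall hz₀) z (ball_subset_closedBall hz)
    rw [hfz₀, abs_le] at h1
    linarith [h1.2]
  have hballsub : ∀ (w : ℂ) (s : ℝ), w ∈ ball (0 : ℂ) (1 / 2) → s ≤ 1 / 8 →
      ball w s ⊆ ball (0 : ℂ) (5 / 8) := by
    intro w s hw hs z hz
    rw [mem_ball, dist_zero_right] at hw
    rw [mem_ball, dist_eq_norm] at hz
    rw [mem_ball, dist_zero_right]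
    have := norm_le_norm_add_norm_sub' z w
    linarith
  have h58 : ball (0 : ℂ) (5 / 8) ⊆ ball (0 : ℂ) (3 / 2) := ball_subset_ball (by norm_num)
  have hfin : ∀ P : ℂ → Prop, volume {z ∈ ball (0 : ℂ) (3 / 2) | P z} ≠ ⊤ := by
    intro P
    have h1 : {z ∈ ball (0 : ℂ) (3 / 2) | P z} ⊆ ball (0 : ℂ) (3 / 2) := fun z hz => hz.1
    exact ((measure_mono h1).trans_lt measure_ball_lt_top).ne
  refine ⟨⟨i₀, ?_⟩, ?_⟩
  · refine (min_le_left _ _).trans ?_
    rw [← hvol z₀ d hd.le]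
    refine measureReal_mono ?_ (hfin _)
    intro z hz
    refine ⟨h58 (hballsub z₀ d hz₀ hd8 hz), ?_⟩
    have := hbig z hz
    linarith
  · -- the minimum
    obtain ⟨i₁, z₁, hz₁, hmin⟩ := exists_max hA (fun x => -u x) (fun i z => -f i z)
      (fun i => (hE.sm i).continuous.neg) (fun i z hz => by rw [hE.rep i z hz])
    have hmin' : ∀ x, f i₁ z₁ ≤ u x := fun x => by
      have := hmin x
      linarith
    set δ : ℝ := -f i₁ z₁ with hδ
    have hδ0 : 0 ≤ δ := by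
      have := min_nonpos hJ hK hI hk (hf2 i₁) (hA.sm i₁).continuous hz₁ (hA.pos i₁) (hE.eq i₁)
        (fun z hz => by rw [hE.rep i₁ z hz]; exact hmin' _)
      linarith
    have hlow : ∀ x, -δ ≤ u x := fun x => by
      have := hmin' x
      linarith
    have hI1 : II f δ i₁ ≤ C * δ := by
      have h1 := hW k δ (f i₁) (σ i₁) hk hkk hδ0 (hf2 i₁) (hA.sm i₁).continuous
        (hσb i₁) (hE.eq i₁) (fun w hw => by rw [hE.rep i₁ w hw]; exact hlow _) z₁ hz₁
      have e : f i₁ z₁ + δ + δ = δ := by rw [hδ]; ring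
      rw [e] at h1
      exact h1
    have hI0 : II f δ i₀ ≤ K * (C + 1) * δ := by
      have h1 := hQ i₀ i₁ k δ u f hk hkk hE hδ0 hlow
      calc II f δ i₀ ≤ K * (II f δ i₁ + δ) := h1
        _ ≤ K * (C * δ + δ) := mul_le_mul_of_nonneg_left (by linarith) hKpos.le
        _ = K * (C + 1) * δ := by ring
    have hI0' : Real.pi * d ^ 2 * (A / 2) ≤ II f δ i₀ := by
      have h1 : ∫ z in ball z₀ d, (f i₀ z + δ) ≤ II f δ i₀ := by
        unfold II
        refine setIntegral_mono_set (integrableOn_f δ hE i₀) ?_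
          (Eventually.of_forall (hballsub z₀ d hz₀ hd8))
        filter_upwards [ae_restrict_mem measurableSet_ball] with z hz
        show 0 ≤ f i₀ z + δ
        rw [hE.rep i₀ z (ball_subset_ball (by norm_num) hz)]
        linarith [hlow (ψ i₀ z)]
      have h2 : (∫ z in ball z₀ d, (A / 2 : ℝ)) ≤ ∫ z in ball z₀ d, (f i₀ z + δ) := by
        refine setIntegral_mono_on (integrableOn_const measure_ball_lt_top.ne)
          ((integrableOn_f δ hE i₀).mono_set (hballsub z₀ d hz₀ hd8)) measurableSet_ball ?_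
        intro z hz
        linarith [hbig z hz]
      rw [setIntegral_const, smul_eq_mul, hvol z₀ d hd.le] at h2
      linarith
    have hδA : c₁ * A ≤ δ := by
      rw [hc₁, div_mul_eq_mul_div, div_le_iff₀ (by positivity)]
      calc Real.pi * d ^ 2 / 2 * A = Real.pi * d ^ 2 * (A / 2) := by ring
        _ ≤ K * (C + 1) * δ := hI0'.trans hI0
        _ = δ * (K * (C + 1)) := by ring
    have hδpos : 0 < δ := lt_of_lt_of_le (by positivity) hδA
    refine ⟨i₁, (min_le_right _ _).trans ?_⟩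
    rw [← hvol z₁ d' hd'.le]
    refine measureReal_mono ?_ (hfin _)
    intro z hz
    refine ⟨h58 (hballsub z₁ d' hz₁ hd'8 hz), ?_⟩
    have h1 := hM' k A (f i₁) (σ i₁) hk hkk (hf2 i₁) (hA.sm i₁).continuous (hσb i₁) (hE.eq i₁)
      (hfA i₁) z₁ (ball_subset_closedBall hz₁) z (ball_subset_closedBall hz)
    rw [abs_le] at h1
    have h2 : f i₁ z₁ = -δ := by rw [hδ]; ring
    rw [h2] at h1
    have h3 : c₁ / 2 * A ≤ δ / 2 := by linarith
    linarith [h1.1]

omit [TopologicalSpace M] in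
theorem Eig_neg {k : ℝ} {u : M → ℝ} {f : ι → ℂ → ℝ} (hE : Eig M ι ψ σ k u f) :
    Eig M ι ψ σ k (fun x => -u x) (fun i z => -f i z) where
  sm i := (hE.sm i).neg
  rep i z hz := by rw [hE.rep i z hz]
  eq i z hz := by
    rw [lap_neg, hE.eq i z hz]; ring
  ne := by
    obtain ⟨x, hx⟩ := hE.ne
    exact ⟨x, neg_ne_zero.mpr hx⟩

end

theorem t_LK (hMC : S_MC) (hWH : S_WH) (hJ : S_J) (hK : S_KER) (hI : S_INT) : S_LK := by
  intro M ι _ _ _ _ ψ σ hA k₀ hk₀
  obtain ⟨c, hc, h⟩ := main_pos hMC hWH hJ hK hI hA hk₀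
  refine ⟨c, hc, ?_⟩
  intro k u f hk hkk hE
  -- the maximum of `|u|`
  obtain ⟨i, z, hz, hmax⟩ := exists_max hA (fun x => |u x|) (fun i z => |f i z|)
    (fun i => (hE.sm i).continuous.abs) (fun i z hz => by rw [hE.rep i z hz])
  have hsub : ball (0 : ℂ) (1 / 2) ⊆ ball (0 : ℂ) (7 / 4) := ball_subset_ball (by norm_num)
  have hA0 : 0 < |f i z| := by
    obtain ⟨x, hx⟩ := hE.ne
    exact (abs_pos.mpr hx).trans_le (hmax x)
  rcases le_or_gt 0 (f i z) with hs | hs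
  · refine h k |f i z| u f hk hkk hE hA0 hmax ⟨ψ i z, ?_⟩
    rw [abs_of_nonneg hs, hE.rep i z (hsub hz)]
  · have hE' := Eig_neg hE
    obtain ⟨⟨i1, h1⟩, ⟨i2, h2⟩⟩ := h k |f i z| (fun x => -u x) (fun i z => -f i z) hk hkk hE' hA0
      (fun x => by rw [abs_neg]; exact hmax x)
      ⟨ψ i z, by rw [abs_of_neg hs, hE.rep i z (hsub hz)]⟩
    refine ⟨⟨i2, ?_⟩, ⟨i1, ?_⟩⟩
    · simpa using h2
    · simpa using h1

end Pool.Agent.Helper904_QS.PLK
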