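import Pool.Agent.Helper904_QS.Stmts
import Pool.Agent.Helper904_QS.Calc

/-!
MP_177f55_an, piece LT: the local theorem for large `k` (section 4 of PAPER.md).
-/

set_option autoImplicit false

open MeasureTheory Set Metric Filter Topology
open scoped ContDiff Pointwise

namespace Pool.Agent.Helper904_QS.PLT

/-! ## Rescaling -/

section resc
variable {f : ℂ → ℝ}

theorem dx_rs (a : ℝ) (x : ℂ) (hf : Differentiable ℝ f) :
    dx (fun y => f (x + a • y)) = fun y => a * dx f (x + a • y) := by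
  ext y
  have h1 : HasFDerivAt (fun y : ℂ => x + a • y) (a • ContinuousLinearMap.id ℝ ℂ) y :=
    ((hasFDerivAt_id y).const_smul a).const_add x
  have h2 := (hf (x + a • y)).hasFDerivAt.comp y h1
  have h3 : fderiv ℝ (fun y => f (x + a • y)) y =
    (fderiv ℝ f (x + a • y)).comp (a • ContinuousLinearMap.id ℝ ℂ) := h2.fderiv
  unfold dx
  rw [h3]
  simp

theorem dy_rs (a : ℝ) (x : ℂ) (hf : Differentiable ℝ f) :
    dy (fun y => f (x + a • y)) = fun y => a * dy f (x + a • y) := by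
  ext y
  have h1 : HasFDerivAt (fun y : ℂ => x + a • y) (a • ContinuousLinearMap.id ℝ ℂ) y :=
    ((hasFDerivAt_id y).const_smul a).const_add x
  have h2 := (hf (x + a • y)).hasFDerivAt.comp y h1
  have h3 : fderiv ℝ (fun y => f (x + a • y)) y =
    (fderiv ℝ f (x + a • y)).comp (a • ContinuousLinearMap.id ℝ ℂ) := h2.fderiv
  unfold dy
  rw [h3]
  simp

theorem contDiff_rs {n : ℕ∞ω} (a : ℝ) (x : ℂ) (hf : ContDiff ℝ n f) :
    ContDiff ℝ n (fun y => f (x + a • y)) :=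
  hf.comp (contDiff_const.add (contDiff_const_smul a))

theorem dxx_rs (a : ℝ) (x : ℂ) (hf : ContDiff ℝ 2 f) :
    dx (dx (fun y => f (x + a • y))) = fun y => a ^ 2 * dx (dx f) (x + a • y) := by
  have h0 : Differentiable ℝ (dx f) := (contDiff_dx1 hf).differentiable (by norm_num)
  rw [dx_rs a x (hf.differentiable (by norm_num))]
  ext y
  rw [dx_const_mul a ((contDiff_rs a x (contDiff_dx1 hf)).differentiable (by norm_num) y),
    dx_rs a x h0]
  ring

theorem dxy_rs (a : ℝ) (x : ℂ) (hf : ContDiff ℝ 2 f) :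
    dx (dy (fun y => f (x + a • y))) = fun y => a ^ 2 * dx (dy f) (x + a • y) := by
  have h0 : Differentiable ℝ (dy f) := (contDiff_dy1 hf).differentiable (by norm_num)
  rw [dy_rs a x (hf.differentiable (by norm_num))]
  ext y
  rw [dx_const_mul a ((contDiff_rs a x (contDiff_dy1 hf)).differentiable (by norm_num) y),
    dx_rs a x h0]
  ring

theorem dyy_rs (a : ℝ) (x : ℂ) (hf : ContDiff ℝ 2 f) :
    dy (dy (fun y => f (x + a • y))) = fun y => a ^ 2 * dy (dy f) (x + a • y) := by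
  have h0 : Differentiable ℝ (dy f) := (contDiff_dy1 hf).differentiable (by norm_num)
  rw [dy_rs a x (hf.differentiable (by norm_num))]
  ext y
  rw [dy_const_mul a ((contDiff_rs a x (contDiff_dy1 hf)).differentiable (by norm_num) y),
    dy_rs a x h0]
  ring

theorem lap_rs (a : ℝ) (x : ℂ) (hf : ContDiff ℝ 2 f) (y : ℂ) :
    lap (fun y => f (x + a • y)) y = a ^ 2 * lap f (x + a • y) := by
  unfold lap
  rw [dxx_rs a x hf, dyy_rs a x hf]
  ring

theorem gsq_rs (a : ℝ) (x : ℂ) (hf : Differentiable ℝ f) (y : ℂ) :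
    gsq (fun y => f (x + a • y)) y = a ^ 2 * gsq f (x + a • y) := by
  unfold gsq
  rw [dx_rs a x hf, dy_rs a x hf]
  ring

theorem qsq_rs (a : ℝ) (x : ℂ) (hf : ContDiff ℝ 2 f) (y : ℂ) :
    qsq (fun y => f (x + a • y)) y = a ^ 4 * qsq f (x + a • y) := by
  unfold qsq
  rw [dxx_rs a x hf, dyy_rs a x hf, dxy_rs a x hf]
  ring

/-- change of variables in an integral over a disc -/
theorem setIntegral_rs (F : ℂ → ℝ) (a : ℝ) (ha : 0 < a) (x : ℂ) (t : ℝ) :
    ∫ y in ball (0 : ℂ) t, a ^ 2 * F (x + a • y) = ∫ z in ball x (a * t), F z := by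
  have e1 : ∫ z in ball x (a * t), F z = ∫ z in ball (0 : ℂ) (a * t), F (x + z) := by
    rw [← integral_indicator measurableSet_ball, ← integral_indicator measurableSet_ball,
      ← integral_add_left_eq_self _ x]
    congr 1
    ext z
    have : (x + z ∈ ball x (a * t)) ↔ z ∈ ball (0 : ℂ) (a * t) := by
      simp [mem_ball, dist_eq_norm]
    by_cases h : z ∈ ball (0 : ℂ) (a * t)
    · rw [indicator_of_mem (this.2 h), indicator_of_mem h]
    · rw [indicator_of_notMem (fun h' => h (this.1 h')), indicator_of_notMem h]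
  have e2 := Measure.setIntegral_comp_smul_of_pos (volume : Measure ℂ) (fun z => F (x + z))
    (ball (0 : ℂ) t) ha
  have e3 : a • ball (0 : ℂ) t = ball (0 : ℂ) (a * t) := by
    rw [_root_.smul_ball ha.ne', smul_zero, Real.norm_eq_abs, abs_of_pos ha]
  rw [e3, Complex.finrank_real_complex] at e2
  rw [e1, integral_const_mul, e2, smul_eq_mul]
  field_simp

/-- change of variables in the area of a set -/
theorem volume_rs (a : ℝ) (ha : 0 < a) (x : ℂ) (T : Set ℂ) :
    volume.real ((fun y : ℂ => x + a • y) ⁻¹' T) = (a ^ 2)⁻¹ * volume.real T := by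
  have h1 : (fun y : ℂ => x + a • y) ⁻¹' T = (fun y : ℂ => a • y) ⁻¹' ((fun z => x + z) ⁻¹' T) :=
    rfl
  unfold Measure.real
  rw [h1, Measure.addHaar_preimage_smul _ ha.ne', measure_preimage_add,
    Complex.finrank_real_complex, ENNReal.toReal_mul, ENNReal.toReal_ofReal (by positivity),
    abs_of_pos (by positivity)]

end resc

theorem sol_rs {m Λ k : ℝ} {u σ : ℂ → ℝ} {x : ℂ} {U V : Set ℂ} (hk : 1 ≤ k)
    (hsub : ∀ y ∈ V, x + k⁻¹ • y ∈ U) (h : Sol m Λ k U u σ) :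
    Sol m Λ 1 V (fun y => u (x + k⁻¹ • y)) (fun y => σ (x + k⁻¹ • y)) := by
  have hk0 : 0 < k := by linarith
  have hi0 : 0 < k⁻¹ := inv_pos.2 hk0
  have hi1 : k⁻¹ ≤ 1 := inv_le_one_of_one_le₀ hk
  have hs2 : ContDiff ℝ 2 σ := h.hs.of_le (by norm_num)
  have hu2 : ContDiff ℝ 2 u := h.hu.of_le (by norm_num)
  have b1 : ∀ t : ℝ, |t| ≤ Λ → |k⁻¹ * t| ≤ Λ := by
    intro t ht
    rw [abs_mul, abs_of_pos hi0]
    calc k⁻¹ * |t| ≤ 1 * Λ := mul_le_mul hi1 ht (abs_nonneg _) (by norm_num)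
      _ = Λ := one_mul _
  have b2 : ∀ t : ℝ, |t| ≤ Λ → |k⁻¹ ^ 2 * t| ≤ Λ := by
    intro t ht
    have := b1 _ (b1 t ht)
    rwa [← mul_assoc, ← sq] at this
  refine ⟨contDiff_rs _ _ h.hu, contDiff_rs _ _ h.hs, fun z hz => h.low _ (hsub z hz),
    fun z hz => h.up _ (hsub z hz), ?_, ?_, ?_, ?_, ?_, ?_⟩
  · intro z hz
    rw [dx_rs _ _ (h.hs.differentiable (by norm_num))]
    exact b1 _ (h.d1x _ (hsub z hz))
  · intro z hz
    rw [dy_rs _ _ (h.hs.differentiable (by norm_num))]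
    exact b1 _ (h.d1y _ (hsub z hz))
  · intro z hz
    rw [dxx_rs _ _ hs2]
    exact b2 _ (h.d2xx _ (hsub z hz))
  · intro z hz
    rw [dxy_rs _ _ hs2]
    exact b2 _ (h.d2xy _ (hsub z hz))
  · intro z hz
    rw [dyy_rs _ _ hs2]
    exact b2 _ (h.d2yy _ (hsub z hz))
  · intro z hz
    rw [lap_rs _ _ hu2, h.eq _ (hsub z hz)]
    field_simp

theorem N1_rs {k : ℝ} (hk : 0 < k) {u σ : ℂ → ℝ} (hu : ContDiff ℝ 4 u) (ε : ℝ) (x y : ℂ) :
    N1 (fun y => u (x + k⁻¹ • y)) (fun y => σ (x + k⁻¹ • y)) 1 (ε / k ^ 2) y =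
      k⁻¹ ^ 2 * N1 u σ k ε (x + k⁻¹ • y) := by
  unfold N1
  rw [gsq_rs _ _ (hu.differentiable (by norm_num))]
  field_simp

theorem N2_rs {k : ℝ} (hk : 0 < k) {u σ : ℂ → ℝ} (hu : ContDiff ℝ 4 u) (m ε : ℝ) (x y : ℂ) :
    N2 (fun y => u (x + k⁻¹ • y)) (fun y => σ (x + k⁻¹ • y)) 1 m (ε / k ^ 2) y =
      k⁻¹ ^ 4 * N2 u σ k m ε (x + k⁻¹ • y) := by
  unfold N2 V2
  rw [gsq_rs _ _ (hu.differentiable (by norm_num)), qsq_rs _ _ (hu.of_le (by norm_num))]
  field_simp

theorem lapL1_rs {k : ℝ} (hk : 0 < k) {u σ : ℂ → ℝ} (hu : ContDiff ℝ 4 u) (ε : ℝ)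
    (hL : ContDiff ℝ 2 (L1 u σ k ε)) (hN : ∀ z, 0 < N1 u σ k ε z) (x y : ℂ) :
    lap (L1 (fun y => u (x + k⁻¹ • y)) (fun y => σ (x + k⁻¹ • y)) 1 (ε / k ^ 2)) y =
      k⁻¹ ^ 2 * lap (L1 u σ k ε) (x + k⁻¹ • y) := by
  have e : L1 (fun y => u (x + k⁻¹ • y)) (fun y => σ (x + k⁻¹ • y)) 1 (ε / k ^ 2) =
      fun y => Real.log (k⁻¹ ^ 2) + L1 u σ k ε (x + k⁻¹ • y) := by
    ext y
    unfold L1
    rw [N1_rs hk hu, Real.log_mul (by positivity) (hN _).ne']
  rw [e, lap_add contDiff_const (contDiff_rs _ _ hL), lap_const, lap_rs _ _ hL, zero_add]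

theorem lapL2_rs {k : ℝ} (hk : 0 < k) {u σ : ℂ → ℝ} (hu : ContDiff ℝ 4 u) (m ε : ℝ)
    (hL : ContDiff ℝ 2 (L2 u σ k m ε)) (hN : ∀ z, 0 < N2 u σ k m ε z) (x y : ℂ) :
    lap (L2 (fun y => u (x + k⁻¹ • y)) (fun y => σ (x + k⁻¹ • y)) 1 m (ε / k ^ 2)) y =
      k⁻¹ ^ 2 * lap (L2 u σ k m ε) (x + k⁻¹ • y) := by
  have e : L2 (fun y => u (x + k⁻¹ • y)) (fun y => σ (x + k⁻¹ • y)) 1 m (ε / k ^ 2) =
      fun y => Real.log (k⁻¹ ^ 4) + L2 u σ k m ε (x + k⁻¹ • y) := by
    ext y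
    unfold L2
    rw [N2_rs hk hu, Real.log_mul (by positivity) (hN _).ne']
  rw [e, lap_add contDiff_const (contDiff_rs _ _ hL), lap_const, lap_rs _ _ hL, zero_add]

/-! ## The rescaled typical point theorem -/

theorem tp_rs {m Λ C₁ R₁ c₀ : ℝ}
    (hTP : ∀ (ε : ℝ) (u σ : ℂ → ℝ), 0 < ε → Sol m Λ 1 (ball 0 R₁) u σ →
      ε ≤ gsq u 0 + (σ 0 * u 0) ^ 2 →
      (∀ t ∈ Ioc 0 R₁, ∫ z in ball (0 : ℂ) t, (|lap (L1 u σ 1 ε) z| + |lap (L2 u σ 1 m ε) z|)
        ≤ C₁ * t ^ 2) →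
      ∃ s ∈ Ioc 0 R₁, c₀ * s ^ 2 ≤ volume.real {z ∈ ball (0 : ℂ) s | 0 < u z} ∧
        c₀ * s ^ 2 ≤ volume.real {z ∈ ball (0 : ℂ) s | u z < 0})
    {k ε : ℝ} {x : ℂ} {u σ : ℂ → ℝ} {U : Set ℂ} (hk : 1 ≤ k) (hε : 0 < ε)
    (hkR : R₁ ≤ k * (1 / 4)) (hU : ball x (1 / 4) ⊆ U)
    (h : Sol m Λ k U u σ)
    (hL1 : ContDiff ℝ 2 (L1 u σ k ε)) (hL2 : ContDiff ℝ 2 (L2 u σ k m ε))
    (hN1 : ∀ z, 0 < N1 u σ k ε z) (hN2 : ∀ z, 0 < N2 u σ k m ε z)
    (hx : 2 * ε ≤ N1 u σ k ε x)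
    (hm : ∀ t ∈ Ioc (0 : ℝ) (1 / 4),
      ∫ z in ball x t, (|lap (L1 u σ k ε) z| + |lap (L2 u σ k m ε) z|) ≤ C₁ * k ^ 2 * t ^ 2) :
    ∃ s ∈ Ioc (0 : ℝ) (1 / 4), c₀ * s ^ 2 ≤ volume.real {z ∈ ball x s | 0 < u z} ∧
        c₀ * s ^ 2 ≤ volume.real {z ∈ ball x s | u z < 0} := by
  have hk0 : 0 < k := by linarith
  have hi0 : 0 < k⁻¹ := inv_pos.2 hk0
  have hsub : ∀ y ∈ ball (0 : ℂ) R₁, x + k⁻¹ • y ∈ U := by
    intro y hy
    apply hU
    rw [mem_ball, dist_eq_norm, add_sub_cancel_left, norm_smul, Real.norm_eq_abs,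
      abs_of_pos hi0]
    rw [mem_ball_zero_iff] at hy
    calc k⁻¹ * ‖y‖ < k⁻¹ * R₁ := by gcongr
      _ ≤ k⁻¹ * (k * (1 / 4)) := by gcongr
      _ = 1 / 4 := by field_simp
  have hpre : ∀ s : ℝ, (fun y : ℂ => x + k⁻¹ • y) ⁻¹' (ball x (k⁻¹ * s)) = ball 0 s := by
    intro s
    ext y
    rw [mem_preimage, mem_ball, dist_eq_norm, add_sub_cancel_left, norm_smul,
      Real.norm_eq_abs, abs_of_pos hi0, mem_ball_zero_iff]
    exact mul_lt_mul_iff_right₀ hi0
  obtain ⟨s, hs, h1, h2⟩ := hTP (ε / k ^ 2) _ _ (by positivity) (sol_rs hk hsub h) (by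
    have e := N1_rs hk0 h.hu (σ := σ) ε x 0
    unfold N1 at e hx
    rw [gsq_rs _ _ (h.hu.differentiable (by norm_num))] at e ⊢
    simp only [smul_zero, add_zero] at e ⊢
    have h3 : k⁻¹ ^ 2 * (2 * ε) ≤ k⁻¹ ^ 2 * (gsq u x + (k * σ x * u x) ^ 2 + ε) := by gcongr
    have h4 : k⁻¹ ^ 2 * (k * σ x * u x) ^ 2 = (σ x * u x) ^ 2 := by field_simp
    have h5 : ε / k ^ 2 = k⁻¹ ^ 2 * ε := by field_simp
    rw [h5]
    nlinarith [h3, h4]) (by
    intro t ht
    have e1 : ∀ y, |lap (L1 (fun y => u (x + k⁻¹ • y)) (fun y => σ (x + k⁻¹ • y)) 1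
          (ε / k ^ 2)) y| + |lap (L2 (fun y => u (x + k⁻¹ • y)) (fun y => σ (x + k⁻¹ • y)) 1 m
          (ε / k ^ 2)) y| = k⁻¹ ^ 2 * (fun z => |lap (L1 u σ k ε) z| + |lap (L2 u σ k m ε) z|)
          (x + k⁻¹ • y) := by
      intro y
      rw [lapL1_rs hk0 h.hu ε hL1 hN1, lapL2_rs hk0 h.hu m ε hL2 hN2, abs_mul, abs_mul,
        abs_of_pos (show 0 < k⁻¹ ^ 2 by positivity)]
      ring
    simp_rw [e1]
    rw [setIntegral_rs (fun z => |lap (L1 u σ k ε) z| + |lap (L2 u σ k m ε) z|) k⁻¹ hi0 x t]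
    have h3 := hm (k⁻¹ * t) ⟨by have := ht.1; positivity, by
      calc k⁻¹ * t ≤ k⁻¹ * R₁ := by gcongr; exact ht.2
        _ ≤ k⁻¹ * (k * (1 / 4)) := by gcongr
        _ = 1 / 4 := by field_simp⟩
    refine h3.trans (le_of_eq ?_)
    field_simp)
  refine ⟨k⁻¹ * s, ⟨by have := hs.1; positivity, ?_⟩, ?_, ?_⟩
  · calc k⁻¹ * s ≤ k⁻¹ * R₁ := by gcongr; exact hs.2
      _ ≤ k⁻¹ * (k * (1 / 4)) := by gcongr
      _ = 1 / 4 := by field_simp
  · have e : {z ∈ ball (0 : ℂ) s | 0 < u (x + k⁻¹ • z)} =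
        (fun y : ℂ => x + k⁻¹ • y) ⁻¹' {z ∈ ball x (k⁻¹ * s) | 0 < u z} := by
      ext y
      simp only [mem_ofPred_eq, mem_preimage, ← hpre s]
    rw [e, volume_rs _ hi0] at h1
    have : k⁻¹ ^ 2 * (c₀ * s ^ 2) ≤
        k⁻¹ ^ 2 * ((k⁻¹ ^ 2)⁻¹ * volume.real {z ∈ ball x (k⁻¹ * s) | 0 < u z}) := by gcongr
    rw [← mul_assoc (k⁻¹ ^ 2) ((k⁻¹ ^ 2)⁻¹), mul_inv_cancel₀ (by positivity), one_mul] at this
    calc c₀ * (k⁻¹ * s) ^ 2 = k⁻¹ ^ 2 * (c₀ * s ^ 2) := by ring
      _ ≤ _ := this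
  · have e : {z ∈ ball (0 : ℂ) s | u (x + k⁻¹ • z) < 0} =
        (fun y : ℂ => x + k⁻¹ • y) ⁻¹' {z ∈ ball x (k⁻¹ * s) | u z < 0} := by
      ext y
      simp only [mem_ofPred_eq, mem_preimage, ← hpre s]
    rw [e, volume_rs _ hi0] at h2
    have : k⁻¹ ^ 2 * (c₀ * s ^ 2) ≤
        k⁻¹ ^ 2 * ((k⁻¹ ^ 2)⁻¹ * volume.real {z ∈ ball x (k⁻¹ * s) | u z < 0}) := by gcongr
    rw [← mul_assoc (k⁻¹ ^ 2) ((k⁻¹ ^ 2)⁻¹), mul_inv_cancel₀ (by positivity), one_mul] at this
    calc c₀ * (k⁻¹ * s) ^ 2 = k⁻¹ ^ 2 * (c₀ * s ^ 2) := by ring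
      _ ≤ _ := this

/-! ## Jensen's formula at unit scale -/

theorem massA (hJ : S_J) (hKER : S_KER) (hINT : S_INT) {La Lb : ℂ → ℝ} {z₀ : ℂ} {B C₅ : ℝ}
    (hB : 0 ≤ B) (hC : 0 ≤ C₅) (ha : ContDiff ℝ 2 La) (hb : ContDiff ℝ 2 Lb)
    (hca : ∀ z ∈ ball z₀ 1, -B ≤ lap La z) (hcb : ∀ z ∈ ball z₀ 1, -B ≤ lap Lb z)
    (hup : ∀ y ∈ ball z₀ 1, La y + Lb y ≤ La z₀ + Lb z₀ + C₅) :
    (∫ z in ball z₀ (1 / 2), (|lap La z| + |lap Lb z|) ≤ 12 * Real.pi * C₅ + 4 * Real.pi * B) ∧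
    ∀ A : ℝ, 0 < A → 3 * A * volume.real {y ∈ ball z₀ (1 / 2) | La y + Lb y < La z₀ + Lb z₀ - A} ≤
      2 * Real.pi * C₅ + Real.pi * B / 3 := by
  obtain ⟨-, chi0, -, chiz, chil, -, chii, Phiint, Phi0, Phiz, -, Phil, Phii, -, -⟩ :=
    hKER 1 one_pos
  set f : ℂ → ℝ := fun z => La z + Lb z with hf
  have hf2 : ContDiff ℝ 2 f := ha.add hb
  have hlf : ∀ z, lap f z = lap La z + lap Lb z := fun z => lap_add ha hb z
  have hlfc : Continuous (lap f) := continuous_lap hf2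
  have hfc : Continuous f := hf2.continuous
  have hJ1 := hJ f z₀ 1 hf2 one_pos
  -- integrals of the kernels
  have ichi : ∫ z, chi 1 (z - z₀) = 2 * Real.pi := by
    rw [integral_sub_right_eq_self (fun z => chi 1 z) z₀]; exact chii
  have iPhi : ∫ z, Phi 1 (z - z₀) = Real.pi / 6 := by
    rw [integral_sub_right_eq_self (fun z => Phi 1 z) z₀, Phii]; ring
  have intchi : ∀ c : ℝ, Integrable (fun z => chi 1 (z - z₀) * c) := fun c =>
    (hINT (fun _ => c) z₀ 1 continuous_const one_pos).1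
  have intPhi : ∀ c : ℝ, Integrable (fun z => Phi 1 (z - z₀) * c) := fun c =>
    (hINT (fun _ => c) z₀ 1 continuous_const one_pos).2
  have intchif := (hINT f z₀ 1 hfc one_pos).1
  have intPhif := (hINT (lap f) z₀ 1 hlfc one_pos).2
  have out : ∀ z, z ∉ ball z₀ 1 → (1 : ℝ) ≤ ‖z - z₀‖ := by
    intro z hz
    rw [mem_ball, dist_eq_norm, not_lt] at hz
    exact hz
  -- upper bound
  have up1 : ∫ z, chi 1 (z - z₀) * f z ≤ 2 * Real.pi * (f z₀ + C₅) := by
    rw [← ichi, ← integral_mul_const]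
    refine integral_mono intchif (intchi _) ?_
    intro z
    by_cases hz : z ∈ ball z₀ 1
    · exact mul_le_mul_of_nonneg_left (hup z hz) (chi0 _)
    · simp only [chiz _ (out z hz), zero_mul, le_refl]
  have up2 : ∫ z, Phi 1 (z - z₀) * lap f z ≤ 2 * Real.pi * C₅ := by linarith
  have low1 : -(Real.pi * B / 3) ≤ ∫ z, Phi 1 (z - z₀) * lap f z := by
    have e : -(Real.pi * B / 3) = ∫ z, Phi 1 (z - z₀) * (-(2 * B)) := by
      rw [integral_mul_const, iPhi]; ring
    rw [e]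
    refine integral_mono (intPhi _) intPhif ?_
    intro z
    by_cases hz : z ∈ ball z₀ 1
    · refine mul_le_mul_of_nonneg_left ?_ (Phi0 _)
      rw [hlf]
      linarith [hca z hz, hcb z hz]
    · simp only [Phiz _ (out z hz), zero_mul, le_refl]
  constructor
  · have e : ∫ z, 6 * (Phi 1 (z - z₀) * lap f z + Phi 1 (z - z₀) * (4 * B)) =
        6 * (∫ z, Phi 1 (z - z₀) * lap f z) + 4 * Real.pi * B := by
      rw [integral_const_mul, integral_add intPhif (intPhi _), integral_mul_const, iPhi]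
      ring
    rw [← integral_indicator measurableSet_ball]
    have hle : ∫ z, (ball z₀ (1 / 2)).indicator (fun z => |lap La z| + |lap Lb z|) z ≤
        ∫ z, 6 * (Phi 1 (z - z₀) * lap f z + Phi 1 (z - z₀) * (4 * B)) := by
      refine integral_mono_ae ?_ ((intPhif.add (intPhi _)).const_mul 6) ?_
      · have hc : Continuous (fun z => |lap La z| + |lap Lb z|) :=
          (continuous_lap ha).abs.add (continuous_lap hb).abs
        exact (integrable_indicator_iff measurableSet_ball).2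
          ((hc.continuousOn.integrableOn_compact (isCompact_closedBall z₀ (1 / 2))).mono_set
            ball_subset_closedBall)
      · have hne : ∀ᵐ z : ℂ, z ≠ z₀ := by
          rw [ae_iff]
          simp only [ne_eq, not_not, ofPred_eq_eq_singleton]
          exact measure_singleton z₀
        filter_upwards [hne] with z hz0
        by_cases hz : z ∈ ball z₀ 1
        · have h1 := hca z hz
          have h2 := hcb z hz
          have h3 : |lap La z| ≤ lap La z + 2 * B := by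
            rw [abs_le]; constructor <;> linarith
          have h4 : |lap Lb z| ≤ lap Lb z + 2 * B := by
            rw [abs_le]; constructor <;> linarith
          have h5 : |lap La z| + |lap Lb z| ≤ lap f z + 4 * B := by rw [hlf]; linarith
          have h6 : 0 ≤ lap f z + 4 * B := le_trans (by positivity) h5
          by_cases hz2 : z ∈ ball z₀ (1 / 2)
          · rw [indicator_of_mem hz2]
            have h7 : (1 : ℝ) / 6 ≤ Phi 1 (z - z₀) := by
              refine Phil _ (norm_pos_iff.2 (sub_ne_zero.2 hz0)) ?_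
              rw [mem_ball, dist_eq_norm] at hz2
              exact hz2.le
            nlinarith
          · rw [indicator_of_notMem hz2]
            have := Phi0 (z - z₀)
            nlinarith [mul_nonneg this h6]
        · have hz2 : z ∉ ball z₀ (1 / 2) := fun h => hz (ball_subset_ball (by norm_num) h)
          rw [indicator_of_notMem hz2]
          simp only [Phiz _ (out z hz), zero_mul, add_zero, mul_zero, le_refl]
    rw [e] at hle
    linarith
  · intro A hA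
    set E : Set ℂ := {y ∈ ball z₀ (1 / 2) | La y + Lb y < La z₀ + Lb z₀ - A} with hE
    have hEm : MeasurableSet E := by
      refine measurableSet_ball.inter ?_
      exact (isOpen_lt hfc continuous_const).measurableSet
    have hEfin : volume E ≠ ⊤ :=
      ((measure_mono (fun x hx => hx.1)).trans_lt measure_ball_lt_top).ne
    have e1 : ∫ z, E.indicator (fun _ => 3 * A) z = 3 * A * volume.real E := by
      rw [integral_indicator_const _ hEm, smul_eq_mul, mul_comm]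
    have e2 : ∫ z, (chi 1 (z - z₀) * (f z₀ + C₅) - chi 1 (z - z₀) * f z) =
        2 * Real.pi * (f z₀ + C₅) - ∫ z, chi 1 (z - z₀) * f z := by
      rw [integral_sub (intchi _) intchif, integral_mul_const, ichi]
    have hle : ∫ z, E.indicator (fun _ => 3 * A) z ≤
        ∫ z, (chi 1 (z - z₀) * (f z₀ + C₅) - chi 1 (z - z₀) * f z) := by
      refine integral_mono ?_ ((intchi _).sub intchif) ?_
      · rw [integrable_indicator_iff hEm]
        exact integrableOn_const hEfin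
      · intro z
        show E.indicator (fun _ => 3 * A) z ≤ chi 1 (z - z₀) * (f z₀ + C₅) - chi 1 (z - z₀) * f z
        rw [← mul_sub]
        by_cases hz : z ∈ E
        · rw [indicator_of_mem hz]
          have h1 : (3 : ℝ) ≤ chi 1 (z - z₀) := by
            have h2 := hz.1
            rw [mem_ball, dist_eq_norm] at h2
            have := chil (z - z₀) h2.le
            norm_num at this
            exact this
          have h2 : A ≤ f z₀ + C₅ - f z := by
            have := hz.2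
            simp only [hf]
            linarith
          calc 3 * A ≤ chi 1 (z - z₀) * A := by gcongr
            _ ≤ chi 1 (z - z₀) * (f z₀ + C₅ - f z) := by gcongr
        · rw [indicator_of_notMem hz]
          by_cases hz1 : z ∈ ball z₀ 1
          · refine mul_nonneg (chi0 _) ?_
            have := hup z hz1
            simp only [hf]
            linarith
          · rw [chiz _ (out z hz1), zero_mul]
    rw [e1, e2] at hle
    linarith

/-! ## Covering arguments -/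

theorem badset (hVC : S_VC) {F : ℂ → ℝ} (hF : Continuous F) (h0 : ∀ z, 0 ≤ F z) {z₀ : ℂ}
    {M c : ℝ} (hM : ∫ z in ball z₀ (1 / 2), F z ≤ M) (hc : 0 < c) :
    ENNReal.ofReal c * volume {x ∈ ball z₀ (1 / 4) | ∃ t ∈ Ioc (0 : ℝ) (1 / 4),
      c * t ^ 2 < ∫ z in ball x t, F z} ≤ ENNReal.ofReal (25 * Real.pi) * ENNReal.ofReal M := by
  classical
  have hint : ∀ (x : ℂ) (t : ℝ), IntegrableOn F (ball x t) := fun x t =>
    (hF.continuousOn.integrableOn_compact (isCompact_closedBall x t)).mono_set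
      ball_subset_closedBall
  have hof : ∀ (x : ℂ) (t : ℝ), ENNReal.ofReal (∫ z in ball x t, F z) =
      ∫⁻ z in ball x t, ENNReal.ofReal (F z) := fun x t =>
    ofReal_integral_eq_lintegral_ofReal (hint x t) (Eventually.of_forall h0)
  set S : Set ℂ := {x ∈ ball z₀ (1 / 4) | ∃ t ∈ Ioc (0 : ℝ) (1 / 4),
      c * t ^ 2 < ∫ z in ball x t, F z} with hS
  let s : ℂ → ℝ := fun x => if h : x ∈ S then h.2.choose else 0
  have hs : ∀ x ∈ S, s x ∈ Ioc (0 : ℝ) (1 / 4) ∧ c * s x ^ 2 < ∫ z in ball x (s x), F z := by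
    intro x hx
    have e : s x = hx.2.choose := dif_pos hx
    rw [e]
    exact hx.2.choose_spec
  let μ : Measure ℂ := (volume.restrict (ball z₀ (1 / 2))).withDensity
    (fun z => ENNReal.ofReal (F z))
  have h1 := hVC μ c (1 / 4) S s hc (by
    intro x hx
    obtain ⟨h1, h2⟩ := hs x hx
    refine ⟨h1.1, h1.2, ?_⟩
    have hsub : ball x (s x) ⊆ ball z₀ (1 / 2) := by
      refine ball_subset_ball' ?_
      have := hx.1
      rw [mem_ball] at this
      linarith [h1.2]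
    calc ENNReal.ofReal (c * s x ^ 2) ≤ ENNReal.ofReal (∫ z in ball x (s x), F z) :=
          ENNReal.ofReal_le_ofReal h2.le
      _ = ∫⁻ z in ball x (s x), ENNReal.ofReal (F z) := hof _ _
      _ = μ (ball x (s x)) := by
          rw [withDensity_apply _ measurableSet_ball, Measure.restrict_restrict measurableSet_ball,
            inter_eq_self_of_subset_left hsub]
      _ ≤ μ (closedBall x (s x)) := measure_mono ball_subset_closedBall)
  refine h1.trans ?_
  gcongr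
  rw [withDensity_apply _ MeasurableSet.univ, Measure.restrict_univ, ← hof]
  exact ENNReal.ofReal_le_ofReal hM

theorem finalV (hVC : S_VC) {c₀ : ℝ} (hc : 0 < c₀) {G P : Set ℂ} {z₀ : ℂ}
    (hG : G ⊆ ball z₀ (1 / 4))
    (h : ∀ x ∈ G, ∃ s ∈ Ioc (0 : ℝ) (1 / 4), c₀ * s ^ 2 ≤ volume.real {z ∈ ball x s | z ∈ P}) :
    ENNReal.ofReal c₀ * volume G ≤
      ENNReal.ofReal (25 * Real.pi) * volume {z ∈ ball z₀ 1 | z ∈ P} := by
  classical
  let s : ℂ → ℝ := fun x => if h' : x ∈ G then (h x h').choose else 0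
  have hs : ∀ x ∈ G, s x ∈ Ioc (0 : ℝ) (1 / 4) ∧
      c₀ * s x ^ 2 ≤ volume.real {z ∈ ball x (s x) | z ∈ P} := by
    intro x hx
    have e : s x = (h x hx).choose := dif_pos hx
    rw [e]
    exact (h x hx).choose_spec
  have h1 := hVC (volume.restrict {z ∈ ball z₀ 1 | z ∈ P}) c₀ (1 / 4) G s hc (by
    intro x hx
    obtain ⟨h1, h2⟩ := hs x hx
    refine ⟨h1.1, h1.2, ?_⟩
    have hsub : ball x (s x) ⊆ ball z₀ 1 := by
      refine ball_subset_ball' ?_
      have := hG hx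
      rw [mem_ball] at this
      linarith [h1.2]
    rw [Measure.restrict_apply isClosed_closedBall.measurableSet]
    calc ENNReal.ofReal (c₀ * s x ^ 2)
        ≤ ENNReal.ofReal (volume.real {z ∈ ball x (s x) | z ∈ P}) :=
          ENNReal.ofReal_le_ofReal h2
      _ ≤ volume {z ∈ ball x (s x) | z ∈ P} := ENNReal.ofReal_toReal_le
      _ ≤ volume (closedBall x (s x) ∩ {z ∈ ball z₀ 1 | z ∈ P}) := by
          refine measure_mono ?_
          intro z hz
          exact ⟨ball_subset_closedBall hz.1, hsub hz.1, hz.2⟩)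
  rwa [Measure.restrict_apply_univ] at h1

theorem vol_real_of {c₀ : ℝ} (hc : 0 < c₀) {G P : Set ℂ} {z₀ : ℂ}
    (hG : ENNReal.ofReal (Real.pi / 32) ≤ volume G)
    (h : ENNReal.ofReal c₀ * volume G ≤
      ENNReal.ofReal (25 * Real.pi) * volume {z ∈ ball z₀ 1 | z ∈ P}) :
    c₀ / 800 ≤ volume.real {z ∈ ball z₀ 1 | z ∈ P} := by
  have hfin : volume {z ∈ ball z₀ 1 | z ∈ P} ≠ ⊤ :=
    ((measure_mono (fun x hx => hx.1)).trans_lt measure_ball_lt_top).ne
  have hpi := Real.pi_pos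
  have h1 : ENNReal.ofReal (c₀ * (Real.pi / 32)) ≤
      ENNReal.ofReal (25 * Real.pi * volume.real {z ∈ ball z₀ 1 | z ∈ P}) := by
    rw [ENNReal.ofReal_mul hc.le, ENNReal.ofReal_mul (by positivity)]
    have e : ENNReal.ofReal (volume.real {z ∈ ball z₀ 1 | z ∈ P}) =
        volume {z ∈ ball z₀ 1 | z ∈ P} := ENNReal.ofReal_toReal hfin
    rw [e]
    exact le_trans (by gcongr) h
  have h2 := (ENNReal.ofReal_le_ofReal_iff (by positivity)).1 h1
  have h3 : Real.pi * (c₀ / 32) ≤ Real.pi * (25 * volume.real {z ∈ ball z₀ 1 | z ∈ P}) := by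
    linarith
  have h4 := le_of_mul_le_mul_left h3 hpi
  linarith

/-! ## The local theorem -/

theorem t_LT (hJ : S_J) (hKER : S_KER) (hINT : S_INT) (hREG : S_REG) (hCURV : S_CURV)
    (hVC : S_VC) (hTP : S_TP) : S_LT := by
  intro m Λ C₅ hm hmΛ hC5
  obtain ⟨CA, hCA, hcurv⟩ := hCURV m Λ hm hmΛ
  have hpi := Real.pi_pos
  set CM : ℝ := 12 * Real.pi * C₅ + 4 * Real.pi * CA with hCM
  have hCM0 : 0 < CM := by positivity
  obtain ⟨R₁, c₀, hR1, hc0, htp⟩ := hTP m Λ (1600 * CM) hm hmΛ (by positivity)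
  set A : ℝ := 64 * (2 * C₅ + CA) with hA
  have hA0 : 0 < A := by positivity
  refine ⟨max 1 (4 * R₁), A, c₀ / 800, le_max_left _ _, hA0, by positivity, ?_⟩
  intro k ε z₀ u σ hk hε hsol hH1 hH2
  have hk1 : 1 ≤ k := (le_max_left _ _).trans hk
  have hkR : R₁ ≤ k * (1 / 4) := by
    have : 4 * R₁ ≤ k := (le_max_right _ _).trans hk
    linarith
  have hk0 : 0 < k := by linarith
  have hk2 : 1 ≤ k ^ 2 := one_le_pow₀ hk1
  obtain ⟨hL1, hL2, -, -, hN, -, -⟩ := hREG m Λ k ε (ball z₀ 1) u σ hm hk1 hε hsol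
  have hcv := hcurv k ε (ball z₀ 1) u σ hk1 hε isOpen_ball hsol
  obtain ⟨mass, level⟩ := massA hJ hKER hINT (B := CA * k ^ 2) (C₅ := C₅) (by positivity) hC5.le
    hL1 hL2 (fun z hz => (hcv z hz).1) (fun z hz => (hcv z hz).2) hH1
  have mass' : ∫ z in ball z₀ (1 / 2), (|lap (L1 u σ k ε) z| + |lap (L2 u σ k m ε) z|) ≤
      CM * k ^ 2 := by
    refine mass.trans ?_
    have : 12 * Real.pi * C₅ * 1 ≤ 12 * Real.pi * C₅ * k ^ 2 := by gcongr
    rw [hCM]
    linarith
  have hFc : Continuous (fun z => |lap (L1 u σ k ε) z| + |lap (L2 u σ k m ε) z|) :=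
    (continuous_lap hL1).abs.add (continuous_lap hL2).abs
  have hbad := badset hVC hFc (fun z => by positivity) mass'
    (c := 1600 * CM * k ^ 2) (by positivity)
  set S : Set ℂ := {x ∈ ball z₀ (1 / 4) | ∃ t ∈ Ioc (0 : ℝ) (1 / 4), 1600 * CM * k ^ 2 * t ^ 2 <
    ∫ z in ball x t, (|lap (L1 u σ k ε) z| + |lap (L2 u σ k m ε) z|)} with hS
  have hSv : volume S ≤ ENNReal.ofReal (Real.pi / 64) := by
    have e : ENNReal.ofReal (25 * Real.pi) * ENNReal.ofReal (CM * k ^ 2) =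
        ENNReal.ofReal (1600 * CM * k ^ 2) * ENNReal.ofReal (Real.pi / 64) := by
      rw [← ENNReal.ofReal_mul (by positivity), ← ENNReal.ofReal_mul (by positivity)]
      congr 1
      ring
    rw [e] at hbad
    refine (ENNReal.mul_le_mul_iff_right ?_ ENNReal.ofReal_ne_top).1 hbad
    rw [ne_eq, ENNReal.ofReal_eq_zero, not_le]
    positivity
  have hlev := level (A * k ^ 2) (by positivity)
  set E : Set ℂ := {y ∈ ball z₀ (1 / 2) | L1 u σ k ε y + L2 u σ k m ε y <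
    L1 u σ k ε z₀ + L2 u σ k m ε z₀ - A * k ^ 2} with hE
  have hEfin : volume E ≠ ⊤ :=
    ((measure_mono (fun x hx => hx.1)).trans_lt measure_ball_lt_top).ne
  have hEv : volume E ≤ ENNReal.ofReal (Real.pi / 64) := by
    rw [← ENNReal.ofReal_toReal hEfin]
    refine ENNReal.ofReal_le_ofReal ?_
    change volume.real E ≤ Real.pi / 64
    have h1 : 2 * Real.pi * C₅ * 1 ≤ 2 * Real.pi * C₅ * k ^ 2 := by gcongr
    have h2 : 3 * (A * k ^ 2) * volume.real E ≤ 3 * (A * k ^ 2) * (Real.pi / 64) := by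
      refine hlev.trans ?_
      have h3 : 3 * (A * k ^ 2) * (Real.pi / 64) =
          2 * Real.pi * C₅ * k ^ 2 + Real.pi * (CA * k ^ 2) / 3 +
            (4 * Real.pi * C₅ * k ^ 2 + 8 / 3 * Real.pi * CA * k ^ 2) := by
        rw [hA]; ring
      rw [h3]
      have h4 : 0 ≤ 4 * Real.pi * C₅ * k ^ 2 + 8 / 3 * Real.pi * CA * k ^ 2 := by positivity
      linarith
    exact le_of_mul_le_mul_left h2 (by positivity)
  set G : Set ℂ := ball z₀ (1 / 4) \ (E ∪ S) with hG
  have hGv : ENNReal.ofReal (Real.pi / 32) ≤ volume G := by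
    have h1 : ENNReal.ofReal (Real.pi / 32) + ENNReal.ofReal (Real.pi / 32) ≤
        volume G + ENNReal.ofReal (Real.pi / 32) := by
      have e1 : ENNReal.ofReal (Real.pi / 32) + ENNReal.ofReal (Real.pi / 32) =
          volume (ball z₀ (1 / 4)) := by
        rw [Complex.volume_ball, ← ENNReal.ofReal_add (by positivity) (by positivity)]
        have hpi' : (NNReal.pi : ENNReal) = ENNReal.ofReal Real.pi := by
          rw [← NNReal.coe_real_pi, ENNReal.ofReal_coe_nnreal]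
        rw [hpi', ← ENNReal.ofReal_pow (by positivity), ← ENNReal.ofReal_mul (by positivity)]
        congr 1
        ring
      have e2 : ENNReal.ofReal (Real.pi / 32) =
          ENNReal.ofReal (Real.pi / 64) + ENNReal.ofReal (Real.pi / 64) := by
        rw [← ENNReal.ofReal_add (by positivity) (by positivity)]
        congr 1
        ring
      calc ENNReal.ofReal (Real.pi / 32) + ENNReal.ofReal (Real.pi / 32)
          = volume (ball z₀ (1 / 4)) := e1
        _ ≤ volume (G ∪ (E ∪ S)) := by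
            refine measure_mono ?_
            intro x hx
            by_cases h : x ∈ E ∪ S
            · exact Or.inr h
            · exact Or.inl ⟨hx, h⟩
        _ ≤ volume G + volume (E ∪ S) := measure_union_le _ _
        _ ≤ volume G + (volume E + volume S) := by gcongr; exact measure_union_le _ _
        _ ≤ volume G + (ENNReal.ofReal (Real.pi / 64) + ENNReal.ofReal (Real.pi / 64)) := by
            gcongr
        _ = volume G + ENNReal.ofReal (Real.pi / 32) := by rw [← e2]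
    exact (ENNReal.add_le_add_iff_right ENNReal.ofReal_ne_top).1 h1
  have key : ∀ x ∈ G, ∃ s ∈ Ioc (0 : ℝ) (1 / 4),
      c₀ * s ^ 2 ≤ volume.real {z ∈ ball x s | 0 < u z} ∧
        c₀ * s ^ 2 ≤ volume.real {z ∈ ball x s | u z < 0} := by
    intro x hx
    have hxb : x ∈ ball z₀ (1 / 4) := hx.1
    have hxE : x ∉ E := fun h => hx.2 (Or.inl h)
    have hxS : x ∉ S := fun h => hx.2 (Or.inr h)
    have hU : ball x (1 / 4) ⊆ ball z₀ 1 := by
      refine ball_subset_ball' ?_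
      rw [mem_ball] at hxb
      linarith
    have hx1 : x ∈ ball z₀ 1 := ball_subset_ball (by norm_num) hxb
    refine tp_rs htp hk1 hε hkR hU hsol hL1 hL2 (fun z => (hN z).1) (fun z => (hN z).2) ?_ ?_
    · -- the level
      have hl : L1 u σ k ε z₀ + L2 u σ k m ε z₀ - A * k ^ 2 ≤
          L1 u σ k ε x + L2 u σ k m ε x := by
        by_contra hcon
        exact hxE ⟨ball_subset_ball (by norm_num) hxb, not_le.1 hcon⟩
      have h2 := Real.exp_le_exp.2 hl
      rw [sub_eq_add_neg, Real.exp_add, Real.exp_add, Real.exp_add] at h2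
      unfold L1 L2 at h2
      rw [Real.exp_log (hN z₀).1, Real.exp_log (hN z₀).2, Real.exp_log (hN x).1,
        Real.exp_log (hN x).2] at h2
      have h3 := hH2 x hx1
      have h4 : 2 * ε * N2 u σ k m ε x ≤ N1 u σ k ε x * N2 u σ k m ε x := by
        calc 2 * ε * N2 u σ k m ε x
            = 2 * ε * Real.exp (A * k ^ 2) * N2 u σ k m ε x * Real.exp (-(A * k ^ 2)) := by
              have : Real.exp (A * k ^ 2) * Real.exp (-(A * k ^ 2)) = 1 := by
                rw [← Real.exp_add, add_neg_cancel, Real.exp_zero]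
              calc 2 * ε * N2 u σ k m ε x = 2 * ε * N2 u σ k m ε x * 1 := by ring
                _ = 2 * ε * N2 u σ k m ε x * (Real.exp (A * k ^ 2) * Real.exp (-(A * k ^ 2))) := by
                    rw [this]
                _ = _ := by ring
          _ ≤ N1 u σ k ε z₀ * N2 u σ k m ε z₀ * Real.exp (-(A * k ^ 2)) := by gcongr
          _ ≤ _ := h2
      exact le_of_mul_le_mul_right h4 (hN x).2
    · intro t ht
      by_contra hcon
      exact hxS ⟨hxb, t, ht, not_le.1 hcon⟩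
  constructor
  · have h1 := finalV hVC hc0 (G := G) (P := {z | 0 < u z}) (z₀ := z₀) (fun x hx => hx.1)
      (fun x hx => by
        obtain ⟨s, hs, h1, -⟩ := key x hx
        exact ⟨s, hs, h1⟩)
    exact vol_real_of hc0 hGv h1
  · have h1 := finalV hVC hc0 (G := G) (P := {z | u z < 0}) (z₀ := z₀) (fun x hx => hx.1)
      (fun x hx => by
        obtain ⟨s, hs, -, h1⟩ := key x hx
        exact ⟨s, hs, h1⟩)
    exact vol_real_of hc0 hGv h1

end Pool.Agent.Helper904_QS.PLT
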