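import Pool.Agent.Helper904_QS.Calc

/-!
The bump `(1 - |z|²/R²)₊³`: it is `C²`, has compact support, and its Laplacian is
`12 R⁻² (1 - s)₊ (3 s - 1)`, `s = |z|²/R²`.
-/

set_option autoImplicit false

open MeasureTheory Set Metric Filter Topology
open scoped ContDiff

namespace Pool.Agent.Helper904_QS

/-- powers of the positive part -/
noncomputable def pp (n : ℕ) (t : ℝ) : ℝ := max 0 t ^ n

theorem continuous_pp (n : ℕ) : Continuous (pp n) := by
  unfold pp; fun_prop

theorem hasDerivAt_pp (n : ℕ) (t : ℝ) :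
    HasDerivAt (pp (n + 2)) ((n + 2) * pp (n + 1) t) t := by
  rcases lt_trichotomy t 0 with ht | ht | ht
  · have h1 : pp (n + 2) =ᶠ[𝓝 t] fun _ => 0 := by
      filter_upwards [gt_mem_nhds ht] with s hs
      unfold pp
      rw [max_eq_left hs.le]; simp
    have h2 : ((n : ℝ) + 2) * pp (n + 1) t = 0 := by
      unfold pp
      rw [max_eq_left ht.le]; simp
    rw [h2]
    exact (hasDerivAt_const t (0 : ℝ)).congr_of_eventuallyEq h1
  · subst ht
    have h2 : ((n : ℝ) + 2) * pp (n + 1) 0 = 0 := by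
      unfold pp
      simp
    rw [h2, hasDerivAt_iff_isLittleO_nhds_zero]
    have h3 : (fun h : ℝ => pp (n + 2) (0 + h) - pp (n + 2) 0 - h • (0 : ℝ)) =
        fun h => pp (n + 2) h := by
      ext h
      unfold pp
      simp
    rw [h3]
    have h4 : (fun h : ℝ => pp (n + 2) h) =O[𝓝 0] fun h : ℝ => h ^ (n + 2) := by
      refine Asymptotics.IsBigO.of_bound 1 (Filter.Eventually.of_forall fun h => ?_)
      unfold pp
      rw [norm_pow, norm_pow, one_mul]
      refine pow_le_pow_left₀ (norm_nonneg _) ?_ _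
      rw [Real.norm_eq_abs, Real.norm_eq_abs, abs_of_nonneg (le_max_left 0 h)]
      exact max_le (abs_nonneg h) (le_abs_self h)
    refine h4.trans_isLittleO ?_
    have := Asymptotics.isLittleO_pow_pow (𝕜 := ℝ) (m := 1) (n := n + 2) (by omega)
    simpa using this
  · have h1 : pp (n + 2) =ᶠ[𝓝 t] fun s => s ^ (n + 2) := by
      filter_upwards [lt_mem_nhds ht] with s hs
      unfold pp
      rw [max_eq_right hs.le]
    have h2 : ((n : ℝ) + 2) * pp (n + 1) t = ((n + 2 : ℕ) : ℝ) * t ^ (n + 2 - 1) := by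
      unfold pp
      rw [max_eq_right ht.le]; push_cast; simp
    rw [h2]
    exact (hasDerivAt_pow (n + 2) t).congr_of_eventuallyEq h1

theorem contDiff_pp2 : ContDiff ℝ 1 (pp 2) := by
  rw [contDiff_one_iff_deriv]
  refine ⟨fun t => (hasDerivAt_pp 0 t).differentiableAt, ?_⟩
  have : deriv (pp 2) = fun t => 2 * pp 1 t := by
    ext t
    have := (hasDerivAt_pp 0 t).deriv
    simpa using this
  rw [this]
  exact continuous_const.mul (continuous_pp 1)

theorem contDiff_pp3 : ContDiff ℝ 2 (pp 3) := by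
  have h2 : (2 : ℕ∞ω) = 1 + 1 := by norm_num
  rw [h2, contDiff_succ_iff_deriv]
  refine ⟨fun t => (hasDerivAt_pp 1 t).differentiableAt, ?_, ?_⟩
  · intro h; exact absurd h (by simp)
  have : deriv (pp 3) = fun t => 3 * pp 2 t := by
    ext t
    have := (hasDerivAt_pp 1 t).deriv
    rw [this]; push_cast; norm_num
  rw [this]
  exact contDiff_const.mul contDiff_pp2

/-- the function `1 - |z|²/R²` -/
noncomputable def sR (R : ℝ) (z : ℂ) : ℝ := 1 - ‖z‖ ^ 2 / R ^ 2

/-- the bump `(1 - |z|²/R²)₊³` -/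
noncomputable def bump (R : ℝ) (z : ℂ) : ℝ := pp 3 (sR R z)

theorem contDiff_sR {n : ℕ∞ω} (R : ℝ) : ContDiff ℝ n (sR R) := by
  unfold sR
  exact contDiff_const.sub ((contDiff_norm_sq ℝ).div_const _)

theorem contDiff_bump (R : ℝ) : ContDiff ℝ 2 (bump R) :=
  contDiff_pp3.comp (contDiff_sR R)

theorem bump_eq_zero {R : ℝ} (hR : 0 < R) {z : ℂ} (hz : R ≤ ‖z‖) : bump R z = 0 := by
  have h : sR R z ≤ 0 := by
    unfold sR
    have : 1 ≤ ‖z‖ ^ 2 / R ^ 2 := by
      rw [le_div_iff₀ (by positivity), one_mul]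
      gcongr
    linarith
  unfold bump pp
  rw [max_eq_left h]; simp

theorem bump_nonneg (R : ℝ) (z : ℂ) : 0 ≤ bump R z := by
  unfold bump pp; positivity

theorem sR_le_one (R : ℝ) (z : ℂ) : sR R z ≤ 1 := by
  unfold sR
  have : 0 ≤ ‖z‖ ^ 2 / R ^ 2 := by positivity
  linarith

theorem bump_le_one (R : ℝ) (z : ℂ) : bump R z ≤ 1 := by
  unfold bump pp
  exact pow_le_one₀ (le_max_left _ _) (max_le zero_le_one (sR_le_one R z))

theorem hasCompactSupport_bump {R : ℝ} (hR : 0 < R) : HasCompactSupport (bump R) := by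
  refine HasCompactSupport.intro (isCompact_closedBall (0 : ℂ) R) fun z hz => ?_
  refine bump_eq_zero hR ?_
  rw [mem_closedBall, dist_zero_right, not_le] at hz
  exact hz.le

theorem dx_comp {g : ℝ → ℝ} {f : ℂ → ℝ} {z : ℂ} {g' : ℝ} (hg : HasDerivAt g g' (f z))
    (hf : DifferentiableAt ℝ f z) : dx (fun z => g (f z)) z = g' * dx f z := by
  unfold dx
  have := (hg.comp_hasFDerivAt z hf.hasFDerivAt).fderiv
  have h2 : (g ∘ f) = fun z => g (f z) := rfl
  rw [← h2, this]; simp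

theorem dy_comp {g : ℝ → ℝ} {f : ℂ → ℝ} {z : ℂ} {g' : ℝ} (hg : HasDerivAt g g' (f z))
    (hf : DifferentiableAt ℝ f z) : dy (fun z => g (f z)) z = g' * dy f z := by
  unfold dy
  have := (hg.comp_hasFDerivAt z hf.hasFDerivAt).fderiv
  have h2 : (g ∘ f) = fun z => g (f z) := rfl
  rw [← h2, this]; simp

theorem dx_re (z : ℂ) : dx Complex.re z = 1 := by
  unfold dx
  have : HasFDerivAt Complex.re Complex.reCLM z := Complex.reCLM.hasFDerivAt
  rw [this.fderiv]; simp
theorem dy_re (z : ℂ) : dy Complex.re z = 0 := by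
  unfold dy
  have : HasFDerivAt Complex.re Complex.reCLM z := Complex.reCLM.hasFDerivAt
  rw [this.fderiv]; simp
theorem dx_im (z : ℂ) : dx Complex.im z = 0 := by
  unfold dx
  have : HasFDerivAt Complex.im Complex.imCLM z := Complex.imCLM.hasFDerivAt
  rw [this.fderiv]; simp
theorem dy_im (z : ℂ) : dy Complex.im z = 1 := by
  unfold dy
  have : HasFDerivAt Complex.im Complex.imCLM z := Complex.imCLM.hasFDerivAt
  rw [this.fderiv]; simp

theorem sR_eq (R : ℝ) : sR R = fun z => 1 - (R ^ 2)⁻¹ * (z.re ^ 2 + z.im ^ 2) := by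
  ext z
  unfold sR
  rw [← Complex.normSq_eq_norm_sq, Complex.normSq_apply]
  ring

theorem dre (z : ℂ) : DifferentiableAt ℝ Complex.re z := Complex.reCLM.differentiableAt
theorem dim (z : ℂ) : DifferentiableAt ℝ Complex.im z := Complex.imCLM.differentiableAt

theorem dx_sR (R : ℝ) (z : ℂ) : dx (sR R) z = -(2 * (R ^ 2)⁻¹) * z.re := by
  rw [sR_eq]
  have d1 : DifferentiableAt ℝ (fun z : ℂ => z.re ^ 2) z := (dre z).fun_pow 2
  have d2 : DifferentiableAt ℝ (fun z : ℂ => z.im ^ 2) z := (dim z).fun_pow 2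
  rw [dx_sub (differentiableAt_const _) ((d1.fun_add d2).const_mul _), dx_const,
    dx_const_mul _ (d1.fun_add d2), dx_add d1 d2, dx_sq (dre z), dx_sq (dim z), dx_re, dx_im]
  ring
theorem dy_sR (R : ℝ) (z : ℂ) : dy (sR R) z = -(2 * (R ^ 2)⁻¹) * z.im := by
  rw [sR_eq]
  have d1 : DifferentiableAt ℝ (fun z : ℂ => z.re ^ 2) z := (dre z).fun_pow 2
  have d2 : DifferentiableAt ℝ (fun z : ℂ => z.im ^ 2) z := (dim z).fun_pow 2
  rw [dy_sub (differentiableAt_const _) ((d1.fun_add d2).const_mul _), dy_const,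
    dy_const_mul _ (d1.fun_add d2), dy_add d1 d2, dy_sq (dre z), dy_sq (dim z), dy_re, dy_im]
  ring

theorem dx_bump (R : ℝ) : dx (bump R) = fun z => 3 * pp 2 (sR R z) * (-(2 * (R ^ 2)⁻¹) * z.re) := by
  ext z
  have h := dx_comp (hasDerivAt_pp 1 (sR R z)) ((contDiff_sR (n := 1) R).differentiable (by norm_num) z)
  have e : (fun z => pp (1 + 2) (sR R z)) = bump R := rfl
  rw [e, dx_sR] at h
  rw [h]; push_cast; norm_num

theorem dy_bump (R : ℝ) : dy (bump R) = fun z => 3 * pp 2 (sR R z) * (-(2 * (R ^ 2)⁻¹) * z.im) := by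
  ext z
  have h := dy_comp (hasDerivAt_pp 1 (sR R z)) ((contDiff_sR (n := 1) R).differentiable (by norm_num) z)
  have e : (fun z => pp (1 + 2) (sR R z)) = bump R := rfl
  rw [e, dy_sR] at h
  rw [h]; push_cast; norm_num

/-- the Laplacian of the bump -/
theorem lap_bump {R : ℝ} (hR : 0 < R) (z : ℂ) :
    lap (bump R) z = 12 / R ^ 2 * (pp 1 (sR R z) * (3 * (‖z‖ ^ 2 / R ^ 2) - 1)) := by
  have dsR := (contDiff_sR (n := 1) R).differentiable (by norm_num) z
  have h0 := hasDerivAt_pp 0 (sR R z)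
  have d2 : DifferentiableAt ℝ (fun z => pp 2 (sR R z)) z :=
    h0.differentiableAt.comp z dsR
  have hx := dx_comp h0 dsR
  have hy := dy_comp h0 dsR
  rw [dx_sR] at hx
  rw [dy_sR] at hy
  unfold lap
  rw [dx_bump, dy_bump, dx_mul (d2.const_mul 3) ((dre z).const_mul _),
    dy_mul (d2.const_mul 3) ((dim z).const_mul _), dx_const_mul _ (dre z), dy_const_mul _ (dim z),
    dx_const_mul _ d2, dy_const_mul _ d2, dx_re, dy_im]
  have e2 : (fun z => pp (0 + 2) (sR R z)) = fun z => pp 2 (sR R z) := rfl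
  rw [e2] at hx hy
  rw [hx, hy]
  have e3 : pp 2 (sR R z) = pp 1 (sR R z) * (1 - ‖z‖ ^ 2 / R ^ 2) := by
    unfold pp
    rcases le_total (sR R z) 0 with h | h
    · rw [max_eq_left h]; simp
    · rw [max_eq_right h, ← sR]; ring
  have e4 : ‖z‖ ^ 2 = z.re ^ 2 + z.im ^ 2 := by
    rw [← Complex.normSq_eq_norm_sq, Complex.normSq_apply]; ring
  rw [e3, e4]
  push_cast
  have := hR.ne'
  simp only [zero_add]
  field_simp
  ring

end Pool.Agent.Helper904_QS
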