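import Pool.Agent.Helper904_QS.Stmts
import Pool.Agent.Helper904_QS.Bump

/-!
SB: step 5 of section 3 of PAPER.md, the sign balance.
-/

set_option autoImplicit false

open MeasureTheory Set Metric Filter Topology
open scoped ContDiff

namespace Pool.Agent.Helper904_QS.PSB

theorem sol_mono {m Λ k : ℝ} {U V : Set ℂ} {u σ : ℂ → ℝ} (h : Sol m Λ k U u σ) (hVU : V ⊆ U) :
    Sol m Λ k V u σ where
  hu := h.hu
  hs := h.hs
  low z hz := h.low z (hVU hz)
  up z hz := h.up z (hVU hz)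
  d1x z hz := h.d1x z (hVU hz)
  d1y z hz := h.d1y z (hVU hz)
  d2xx z hz := h.d2xx z (hVU hz)
  d2xy z hz := h.d2xy z (hVU hz)
  d2yy z hz := h.d2yy z (hVU hz)
  eq z hz := h.eq z (hVU hz)

theorem abs_eq_two_max_sub (a : ℝ) : |a| = 2 * max 0 a - a := by
  rcases le_total a 0 with h | h
  · rw [abs_of_nonpos h, max_eq_left h]; ring
  · rw [abs_of_nonneg h, max_eq_right h]; ring

/-- the positivity set in the ball -/
def P (u : ℂ → ℝ) (r : ℝ) : Set ℂ := {z ∈ ball (0 : ℂ) r | 0 < u z}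

theorem measurable_P {u : ℂ → ℝ} (hu : Continuous u) (r : ℝ) : MeasurableSet (P u r) :=
  (isOpen_ball.inter (isOpen_lt continuous_const hu)).measurableSet

theorem P_fin {u : ℂ → ℝ} (r : ℝ) : volume (P u r) ≠ ⊤ :=
  ((measure_mono (fun _ hz => hz.1)).trans_lt (measure_ball_lt_top (x := (0 : ℂ)) (r := r))).ne

/-- The small ball case. -/
theorem case1 (hKER : S_KER) (hINT : S_INT) (hJ : S_J) {m Λ r X CG CF θ : ℝ} {u σ : ℂ → ℝ}
    (hm : 0 < m) (hr : 0 < r) (hθ : 0 < θ) (hX : 0 < X) (hCG : 0 < CG)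
    (hS : Sol m Λ 1 (ball 0 r) u σ)
    (hub : ∀ z ∈ ball (0 : ℂ) r, |u z| ≤ CG * X) (hu0 : |u 0| ≤ CF * X)
    (hP : volume.real (P u r) ≤ θ ^ 2 * r ^ 2) :
    ∫ z in ball (0 : ℂ) (r / 2), |u z| ≤
      r ^ 2 / 3 * (2 * (4 * θ ^ 2 * (CG * X) + Λ ^ 2 * (CG * X) * (11 / 2 * θ * r ^ 2)) +
        2 * Real.pi * (CF * X)) := by
  obtain ⟨_, k2, k3, k4, k5, _, _, _, k9, k10, _, _, _, k14, k15⟩ := hKER r hr
  have hu : Continuous u := hS.hu.continuous
  have hs : Continuous σ := hS.hs.continuous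
  have I1 : ∀ f : ℂ → ℝ, Continuous f → Integrable (fun z => chi r z * f z) := fun f hf => by
    simpa using (hINT f 0 r hf hr).1
  have I2 : ∀ f : ℂ → ℝ, Continuous f → Integrable (fun z => Phi r z * f z) := fun f hf => by
    simpa using (hINT f 0 r hf hr).2
  have hJ0 : 2 * Real.pi * u 0 = (∫ z, chi r z * u z) - ∫ z, Phi r z * lap u z := by
    simpa using hJ u 0 r (hS.hu.of_le (by norm_num)) hr
  have e1 : ∫ z, Phi r z * lap u z = -∫ z, Phi r z * (σ z ^ 2 * u z) := by
    rw [← integral_neg]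
    congr 1
    ext z
    by_cases hz : ‖z‖ < r
    · rw [hS.eq z (mem_ball_zero_iff.2 hz)]; ring
    · rw [k10 z (not_lt.1 hz)]; ring
  rw [e1] at hJ0
  have cpos : Continuous fun z => max 0 (u z) := continuous_const.max hu
  have cs1 : Continuous fun z => σ z ^ 2 * u z := (hs.pow 2).mul hu
  have cs2 : Continuous fun z => σ z ^ 2 * max 0 (u z) := (hs.pow 2).mul cpos
  have hmain : ∫ z, chi r z * |u z| ≤ 2 * (∫ z, chi r z * max 0 (u z)) - (∫ z, chi r z * u z) +
      2 * (∫ z, Phi r z * (σ z ^ 2 * max 0 (u z))) - ∫ z, Phi r z * (σ z ^ 2 * u z) := by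
    have j1 : Integrable (fun z => 2 * (chi r z * max 0 (u z))) := (I1 _ cpos).const_mul 2
    have j2 : Integrable (fun z => 2 * (chi r z * max 0 (u z)) - chi r z * u z) := j1.sub (I1 _ hu)
    have j3 : Integrable (fun z => 2 * (Phi r z * (σ z ^ 2 * max 0 (u z)))) :=
      (I2 _ cs2).const_mul 2
    have j4 : Integrable (fun z => 2 * (chi r z * max 0 (u z)) - chi r z * u z +
      2 * (Phi r z * (σ z ^ 2 * max 0 (u z)))) := j2.add j3
    have j5 : Integrable (fun z => 2 * (chi r z * max 0 (u z)) - chi r z * u z +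
      2 * (Phi r z * (σ z ^ 2 * max 0 (u z))) - Phi r z * (σ z ^ 2 * u z)) := j4.sub (I2 _ cs1)
    rw [← integral_const_mul, ← integral_const_mul, ← integral_sub j1 (I1 _ hu),
      ← integral_add j2 j3, ← integral_sub j4 (I2 _ cs1)]
    refine integral_mono (I1 _ hu.abs) j5 fun z => ?_
    show chi r z * |u z| ≤ 2 * (chi r z * max 0 (u z)) - chi r z * u z +
      2 * (Phi r z * (σ z ^ 2 * max 0 (u z))) - Phi r z * (σ z ^ 2 * u z)
    have h1 : 0 ≤ Phi r z * (σ z ^ 2 * |u z|) := mul_nonneg (k9 z) (by positivity)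
    rw [abs_eq_two_max_sub] at h1 ⊢
    nlinarith
  have hCGX : 0 < CG * X := mul_pos hCG hX
  -- first bound
  have b1 : ∫ z, chi r z * max 0 (u z) ≤ 4 * θ ^ 2 * (CG * X) := by
    have h1 : ∫ z, chi r z * max 0 (u z) ≤
        ∫ z, (P u r).indicator (fun _ => 4 / r ^ 2 * (CG * X)) z := by
      refine integral_mono (I1 _ cpos) ((integrable_indicator_iff (measurable_P hu r)).2
        (integrableOn_const (P_fin r))) fun z => ?_
      by_cases hz : z ∈ P u r
      · rw [indicator_of_mem hz]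
        have h2 := (le_abs_self _).trans (hub z hz.1)
        have h3 : max 0 (u z) ≤ CG * X := max_le hCGX.le h2
        exact mul_le_mul (k3 z) h3 (le_max_left _ _) (by positivity)
      · rw [indicator_of_notMem hz]
        show chi r z * max 0 (u z) ≤ 0
        by_cases hz2 : ‖z‖ < r
        · have h3 : u z ≤ 0 := by
            by_contra h4
            exact hz ⟨mem_ball_zero_iff.2 hz2, not_le.1 h4⟩
          rw [max_eq_left h3]; simp
        · rw [k4 z (not_lt.1 hz2)]; simp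
    refine h1.trans ?_
    rw [integral_indicator_const _ (measurable_P hu r), smul_eq_mul]
    calc volume.real (P u r) * (4 / r ^ 2 * (CG * X)) ≤
        (θ ^ 2 * r ^ 2) * (4 / r ^ 2 * (CG * X)) := by gcongr
      _ = 4 * θ ^ 2 * (CG * X) := by field_simp
  -- second bound
  have b2 : ∫ z, Phi r z * (σ z ^ 2 * max 0 (u z)) ≤ Λ ^ 2 * (CG * X) * (11 / 2 * θ * r ^ 2) := by
    have iP : Integrable (fun z => (P u r).indicator (fun _ => 1 / (2 * θ)) z) :=
      (integrable_indicator_iff (measurable_P hu r)).2 (integrableOn_const (P_fin r))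
    have h1 : ∫ z, Phi r z * (σ z ^ 2 * max 0 (u z)) ≤
        ∫ z, Λ ^ 2 * (CG * X) *
          (θ / 2 * Phi r z ^ 2 + (P u r).indicator (fun _ => 1 / (2 * θ)) z) := by
      refine integral_mono (I2 _ cs2) (((k15.const_mul (θ / 2)).add iP).const_mul _) fun z => ?_
      show Phi r z * (σ z ^ 2 * max 0 (u z)) ≤ Λ ^ 2 * (CG * X) *
          (θ / 2 * Phi r z ^ 2 + (P u r).indicator (fun _ => 1 / (2 * θ)) z)
      by_cases hz : z ∈ P u r
      · rw [indicator_of_mem hz]
        have h2 := (le_abs_self _).trans (hub z hz.1)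
        have h3 : max 0 (u z) ≤ CG * X := max_le hCGX.le h2
        have h4 : σ z ^ 2 ≤ Λ ^ 2 := by
          have h5 := hS.up z hz.1
          have h6 := hS.low z hz.1
          exact pow_le_pow_left₀ (hm.le.trans h6) h5 2
        have h5 : Phi r z ≤ θ / 2 * Phi r z ^ 2 + 1 / (2 * θ) := by
          have h7 : 0 ≤ (θ * Phi r z - 1) ^ 2 / (2 * θ) := by positivity
          have h8 : (θ * Phi r z - 1) ^ 2 / (2 * θ) =
              θ / 2 * Phi r z ^ 2 + 1 / (2 * θ) - Phi r z := by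
            field_simp
            ring
          linarith
        have h9 : σ z ^ 2 * max 0 (u z) ≤ Λ ^ 2 * (CG * X) :=
          mul_le_mul h4 h3 (le_max_left _ _) (by positivity)
        calc Phi r z * (σ z ^ 2 * max 0 (u z)) ≤ Phi r z * (Λ ^ 2 * (CG * X)) := by
              exact mul_le_mul_of_nonneg_left h9 (k9 z)
          _ = Λ ^ 2 * (CG * X) * Phi r z := by ring
          _ ≤ _ := by
              exact mul_le_mul_of_nonneg_left h5 (by positivity)
      · rw [indicator_of_notMem hz]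
        have h0 : 0 ≤ Λ ^ 2 * (CG * X) * (θ / 2 * Phi r z ^ 2 + 0) := by positivity
        refine le_trans (le_of_eq ?_) h0
        by_cases hz2 : ‖z‖ < r
        · have h3 : u z ≤ 0 := by
            by_contra h4
            exact hz ⟨mem_ball_zero_iff.2 hz2, not_le.1 h4⟩
          rw [max_eq_left h3]; simp
        · rw [k10 z (not_lt.1 hz2)]; simp
    refine h1.trans ?_
    rw [integral_const_mul, integral_add (k15.const_mul (θ / 2)) iP, integral_const_mul,
      integral_indicator_const _ (measurable_P hu r), smul_eq_mul]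
    refine mul_le_mul_of_nonneg_left ?_ (by positivity)
    calc θ / 2 * (∫ z, Phi r z ^ 2) + volume.real (P u r) * (1 / (2 * θ)) ≤
        θ / 2 * (10 * r ^ 2) + (θ ^ 2 * r ^ 2) * (1 / (2 * θ)) := by gcongr
      _ = 11 / 2 * θ * r ^ 2 := by field_simp; ring
  -- lower bound
  have b3 : 3 / r ^ 2 * ∫ z in ball (0 : ℂ) (r / 2), |u z| ≤ ∫ z, chi r z * |u z| := by
    rw [← integral_const_mul]
    have hi : IntegrableOn (fun z => |u z|) (ball (0 : ℂ) (r / 2)) :=
      (hu.abs.continuousOn.integrableOn_compact (isCompact_closedBall (0 : ℂ) (r / 2))).mono_set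
        ball_subset_closedBall
    calc ∫ z in ball (0 : ℂ) (r / 2), 3 / r ^ 2 * |u z| ≤
        ∫ z in ball (0 : ℂ) (r / 2), chi r z * |u z| := by
          refine setIntegral_mono_on (hi.const_mul _) (I1 _ hu.abs).integrableOn
            measurableSet_ball fun z hz => ?_
          exact mul_le_mul_of_nonneg_right (k5 z (mem_ball_zero_iff.1 hz).le) (abs_nonneg _)
      _ ≤ ∫ z, chi r z * |u z| :=
          setIntegral_le_integral (I1 _ hu.abs)
            (Filter.Eventually.of_forall fun z => mul_nonneg (k2 z) (abs_nonneg _))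
  have b4 : -(2 * Real.pi * u 0) ≤ 2 * Real.pi * (CF * X) := by
    have h1 : -(u 0) ≤ CF * X := (neg_le_abs _).trans hu0
    nlinarith [Real.pi_pos]
  have b5 : 3 / r ^ 2 * ∫ z in ball (0 : ℂ) (r / 2), |u z| ≤
      2 * (4 * θ ^ 2 * (CG * X) + Λ ^ 2 * (CG * X) * (11 / 2 * θ * r ^ 2)) +
        2 * Real.pi * (CF * X) := by linarith
  have hr2 : 0 < r ^ 2 / 3 := by positivity
  calc ∫ z in ball (0 : ℂ) (r / 2), |u z| =
      r ^ 2 / 3 * (3 / r ^ 2 * ∫ z in ball (0 : ℂ) (r / 2), |u z|) := by field_simp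
    _ ≤ _ := mul_le_mul_of_nonneg_left b5 hr2.le

/-- The large ball case. -/
theorem case2 (hG : S_G) {m Λ r R X CG η : ℝ} {u σ : ℂ → ℝ}
    (hm : 0 < m) (hmΛ : m ≤ Λ) (hR : 0 < R) (hRm : m ^ 2 * R ^ 2 = 24) (hr : R < r)
    (hX : 0 < X) (hCG : 0 < CG)
    (hS : Sol m Λ 1 (ball 0 r) u σ)
    (hub : ∀ z ∈ ball (0 : ℂ) r, |u z| ≤ CG * X)
    (hP : volume.real (P u r) ≤ η * r ^ 2) :
    ∫ z in ball (0 : ℂ) (R / 2), |u z| ≤ R ^ 2 / 7 * (4 * Λ ^ 2 * (CG * X) * (η * r ^ 2)) := by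
  have hu : Continuous u := hS.hu.continuous
  have hs : Continuous σ := hS.hs.continuous
  have hu2 : ContDiff ℝ 2 u := hS.hu.of_le (by norm_num)
  have hCGX : 0 < CG * X := mul_pos hCG hX
  have hm2 : m ^ 2 = 24 / R ^ 2 := by field_simp; linarith
  set ψ : ℂ → ℝ := fun z => lap (bump R) z + σ z ^ 2 * bump R z with hψ
  have ψout : ∀ z, R ≤ ‖z‖ → ψ z = 0 := by
    intro z hz
    have h : sR R z ≤ 0 := by
      unfold sR
      have : 1 ≤ ‖z‖ ^ 2 / R ^ 2 := by
        rw [le_div_iff₀ (by positivity), one_mul]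
        gcongr
      linarith
    have h2 : pp 1 (sR R z) = 0 := by unfold pp; rw [max_eq_left h]; simp
    rw [hψ]
    simp only
    rw [lap_bump hR, bump_eq_zero hR hz, h2]; ring
  have ψc : Continuous ψ :=
    (continuous_lap (contDiff_bump R)).add ((hs.pow 2).mul (contDiff_bump R).continuous)
  have ψi : ∀ f : ℂ → ℝ, Continuous f → Integrable (fun z => ψ z * f z) := by
    intro f hf
    refine (ψc.mul hf).integrable_of_hasCompactSupport ?_
    refine HasCompactSupport.intro (isCompact_closedBall (0 : ℂ) R) fun z hz => ?_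
    rw [mem_closedBall, dist_zero_right, not_le] at hz
    show ψ z * f z = 0
    rw [ψout z hz.le]; ring
  have hin : ∀ z : ℂ, ‖z‖ < R → z ∈ ball (0 : ℂ) r := fun z hz =>
    mem_ball_zero_iff.2 (hz.trans hr)
  -- inside the ball
  have ψin : ∀ z, ‖z‖ < R → 21 / 2 / R ^ 2 * (1 - ‖z‖ ^ 2 / R ^ 2) ≤ ψ z ∧ ψ z ≤ 2 * Λ ^ 2 := by
    intro z hz
    set s := ‖z‖ ^ 2 / R ^ 2 with hs'
    have s0 : 0 ≤ s := by positivity
    have s1 : s < 1 := by
      rw [hs', div_lt_one (by positivity)]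
      gcongr
    have h1 : sR R z = 1 - s := rfl
    have h2 : pp 1 (sR R z) = 1 - s := by
      unfold pp; rw [h1, max_eq_right (by linarith)]; ring
    have h3 : bump R z = (1 - s) ^ 3 := by
      unfold bump pp; rw [h1, max_eq_right (by linarith)]
    have e : ψ z = 12 / R ^ 2 * ((1 - s) * (3 * s - 1)) + σ z ^ 2 * (1 - s) ^ 3 := by
      rw [hψ]; simp only; rw [lap_bump hR, h2, h3]
    have hz' := hin z hz
    have l1 : m ^ 2 ≤ σ z ^ 2 := pow_le_pow_left₀ hm.le (hS.low z hz') 2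
    have l2 : σ z ^ 2 ≤ Λ ^ 2 := pow_le_pow_left₀ (hm.le.trans (hS.low z hz')) (hS.up z hz') 2
    have l3 : 0 ≤ (1 - s) ^ 3 := by have : 0 ≤ 1 - s := by linarith
                                    positivity
    have l4 : 0 ≤ 1 - s := by linarith
    have iR : 0 < 1 / R ^ 2 := by positivity
    rw [e]
    constructor
    · have h5 : m ^ 2 * (1 - s) ^ 3 ≤ σ z ^ 2 * (1 - s) ^ 3 := by gcongr
      have h6 : 0 ≤ 12 * (1 / R ^ 2) * (1 - s) * (2 * s ^ 2 - s + 1 - 7 / 8) := by
        have : 2 * s ^ 2 - s + 1 - 7 / 8 = 2 * (s - 1 / 4) ^ 2 := by ring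
        rw [this]; positivity
      have h7 : 12 / R ^ 2 * ((1 - s) * (3 * s - 1)) + m ^ 2 * (1 - s) ^ 3 -
          21 / 2 / R ^ 2 * (1 - s) = 12 * (1 / R ^ 2) * (1 - s) * (2 * s ^ 2 - s + 1 - 7 / 8) := by
        rw [hm2]; ring
      linarith
    · have h5 : (1 - s) ^ 3 ≤ 1 := pow_le_one₀ l4 (by linarith)
      have h6 : σ z ^ 2 * (1 - s) ^ 3 ≤ Λ ^ 2 * 1 := by gcongr
      have h7 : (1 - s) * (3 * s - 1) ≤ 1 * 2 := by
        rcases le_or_gt 0 (3 * s - 1) with h | h
        · gcongr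
          · linarith
          · linarith
        · nlinarith
      have h8 : 12 / R ^ 2 * ((1 - s) * (3 * s - 1)) ≤ 12 / R ^ 2 * (1 * 2) := by gcongr
      have h9 : 12 / R ^ 2 * (1 * 2) = m ^ 2 := by rw [hm2]; ring
      have h10 : m ^ 2 ≤ Λ ^ 2 := pow_le_pow_left₀ hm.le hmΛ 2
      linarith
  have ψ0 : ∀ z, 0 ≤ ψ z := by
    intro z
    by_cases hz : ‖z‖ < R
    · refine le_trans ?_ (ψin z hz).1
      have : ‖z‖ ^ 2 / R ^ 2 ≤ 1 := by
        rw [div_le_one (by positivity)]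
        gcongr
      have h2 : 0 ≤ 1 - ‖z‖ ^ 2 / R ^ 2 := by linarith
      positivity
    · rw [ψout z (not_lt.1 hz)]
  have ψle : ∀ z, ψ z ≤ 2 * Λ ^ 2 := by
    intro z
    by_cases hz : ‖z‖ < R
    · exact (ψin z hz).2
    · rw [ψout z (not_lt.1 hz)]; positivity
  -- orthogonality
  have orth : ∫ z, ψ z * u z = 0 := by
    have h1 := hG u (bump R) hu2 (contDiff_bump R) (hasCompactSupport_bump hR)
    have h2 : ∫ z, bump R z * lap u z = -∫ z, σ z ^ 2 * bump R z * u z := by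
      rw [← integral_neg]
      congr 1
      ext z
      by_cases hz : ‖z‖ < R
      · rw [hS.eq z (hin z hz)]; ring
      · rw [bump_eq_zero hR (not_lt.1 hz)]; ring
    have c1 : Integrable fun z => lap (bump R) z * u z := by
      refine ((continuous_lap (contDiff_bump R)).mul hu).integrable_of_hasCompactSupport ?_
      refine HasCompactSupport.intro (isCompact_closedBall (0 : ℂ) R) fun z hz => ?_
      rw [mem_closedBall, dist_zero_right, not_le] at hz
      have h4 := ψout z hz.le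
      rw [hψ] at h4
      simp only at h4
      rw [bump_eq_zero hR hz.le, mul_zero, add_zero] at h4
      show lap (bump R) z * u z = 0
      rw [h4, zero_mul]
    have c2 : Integrable fun z => σ z ^ 2 * bump R z * u z := by
      refine (((hs.pow 2).mul (contDiff_bump R).continuous).mul hu).integrable_of_hasCompactSupport
        ?_
      refine HasCompactSupport.intro (isCompact_closedBall (0 : ℂ) R) fun z hz => ?_
      rw [mem_closedBall, dist_zero_right, not_le] at hz
      show σ z ^ 2 * bump R z * u z = 0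
      rw [bump_eq_zero hR hz.le]; ring
    have h3 : ∫ z, ψ z * u z = (∫ z, lap (bump R) z * u z) + ∫ z, σ z ^ 2 * bump R z * u z := by
      rw [← integral_add c1 c2]
      congr 1
      ext z
      rw [hψ]; ring
    rw [h3, ← h1, h2]; ring
  have cpos : Continuous fun z => max 0 (u z) := continuous_const.max hu
  have hmain : ∫ z, ψ z * |u z| = 2 * ∫ z, ψ z * max 0 (u z) := by
    have j1 : Integrable (fun z => 2 * (ψ z * max 0 (u z))) := (ψi _ cpos).const_mul 2
    have h1 : ∫ z, ψ z * |u z| = (∫ z, 2 * (ψ z * max 0 (u z))) - ∫ z, ψ z * u z := by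
      rw [← integral_sub j1 (ψi _ hu)]
      congr 1
      ext z
      rw [abs_eq_two_max_sub]; ring
    rw [h1, orth, integral_const_mul]; ring
  have b1 : ∫ z, ψ z * max 0 (u z) ≤ 2 * Λ ^ 2 * (CG * X) * (η * r ^ 2) := by
    have h1 : ∫ z, ψ z * max 0 (u z) ≤
        ∫ z, (P u r).indicator (fun _ => 2 * Λ ^ 2 * (CG * X)) z := by
      refine integral_mono (ψi _ cpos) ((integrable_indicator_iff (measurable_P hu r)).2
        (integrableOn_const (P_fin r))) fun z => ?_
      by_cases hz : z ∈ P u r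
      · rw [indicator_of_mem hz]
        have h2 := (le_abs_self _).trans (hub z hz.1)
        have h3 : max 0 (u z) ≤ CG * X := max_le hCGX.le h2
        exact mul_le_mul (ψle z) h3 (le_max_left _ _) (by positivity)
      · rw [indicator_of_notMem hz]
        show ψ z * max 0 (u z) ≤ 0
        by_cases hz2 : ‖z‖ < R
        · have h3 : u z ≤ 0 := by
            by_contra h4
            exact hz ⟨hin z hz2, not_le.1 h4⟩
          rw [max_eq_left h3]; simp
        · rw [ψout z (not_lt.1 hz2)]; simp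
    refine h1.trans ?_
    rw [integral_indicator_const _ (measurable_P hu r), smul_eq_mul, mul_comm]
    gcongr
  have b3 : 7 / R ^ 2 * ∫ z in ball (0 : ℂ) (R / 2), |u z| ≤ ∫ z, ψ z * |u z| := by
    rw [← integral_const_mul]
    have hi : IntegrableOn (fun z => |u z|) (ball (0 : ℂ) (R / 2)) :=
      (hu.abs.continuousOn.integrableOn_compact (isCompact_closedBall (0 : ℂ) (R / 2))).mono_set
        ball_subset_closedBall
    calc ∫ z in ball (0 : ℂ) (R / 2), 7 / R ^ 2 * |u z| ≤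
        ∫ z in ball (0 : ℂ) (R / 2), ψ z * |u z| := by
          refine setIntegral_mono_on (hi.const_mul _) (ψi _ hu.abs).integrableOn
            measurableSet_ball fun z hz => ?_
          have hz1 := mem_ball_zero_iff.1 hz
          refine mul_le_mul_of_nonneg_right ?_ (abs_nonneg _)
          refine le_trans ?_ (ψin z (by linarith)).1
          have h5 : ‖z‖ ^ 2 / R ^ 2 ≤ 1 / 4 := by
            rw [div_le_iff₀ (by positivity)]
            have : ‖z‖ ^ 2 ≤ (R / 2) ^ 2 := by gcongr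
            linarith
          have h6 : 7 / R ^ 2 = 21 / 2 / R ^ 2 * (2 / 3) := by ring
          rw [h6]
          gcongr
          linarith
      _ ≤ ∫ z, ψ z * |u z| :=
          setIntegral_le_integral (ψi _ hu.abs)
            (Filter.Eventually.of_forall fun z => mul_nonneg (ψ0 z) (abs_nonneg _))
  have b5 : 7 / R ^ 2 * ∫ z in ball (0 : ℂ) (R / 2), |u z| ≤
      4 * Λ ^ 2 * (CG * X) * (η * r ^ 2) := by linarith
  have hr2 : 0 < R ^ 2 / 7 := by positivity
  calc ∫ z in ball (0 : ℂ) (R / 2), |u z| =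
      R ^ 2 / 7 * (7 / R ^ 2 * ∫ z in ball (0 : ℂ) (R / 2), |u z|) := by field_simp
    _ ≤ _ := mul_le_mul_of_nonneg_left b5 hr2.le

theorem t_SB (hG : S_G) (hKER : S_KER) (hINT : S_INT) (hJ : S_J) (hIE : S_IE) : S_SB := by
  intro m Λ CF hm hmΛ hCF
  obtain ⟨CI, hCI, IE⟩ := hIE m Λ hm hmΛ
  have hΛ : 0 < Λ := hm.trans_le hmΛ
  set R : ℝ := √24 / m with hRdef
  have hs24 : (0 : ℝ) < √24 := Real.sqrt_pos.2 (by norm_num)
  have hR : 0 < R := by positivity
  have hRm : m ^ 2 * R ^ 2 = 24 := by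
    rw [hRdef, div_pow, Real.sq_sqrt (by norm_num)]; field_simp
  set CH : ℝ := 16 / 3 * CI * (2 * Real.pi * CF + 1) with hCH
  have hCHp : 0 < CH := by positivity
  have hs2 : (0 : ℝ) < √2 := Real.sqrt_pos.2 (by norm_num)
  set T : ℝ := √(√2 * CH / m) + 1 with hT
  have hTp : 0 < T := by positivity
  have hTb : CH < m / √2 * T ^ 2 := by
    have h1 : √2 * CH / m < T ^ 2 := by
      have h2 : 0 ≤ √(√2 * CH / m) := Real.sqrt_nonneg _
      have h3 : √(√2 * CH / m) ^ 2 = √2 * CH / m := Real.sq_sqrt (by positivity)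
      rw [hT]; nlinarith
    have h4 : m / √2 * (√2 * CH / m) = CH := by field_simp
    have h5 : m / √2 * (√2 * CH / m) < m / √2 * T ^ 2 := by gcongr
    linarith
  refine ⟨T, hTp, fun CG hCG => ?_⟩
  set D1 : ℝ := CG * (8 + 11 * Λ ^ 2 * R ^ 2) with hD1
  set D2 : ℝ := (CI * 16 / R ^ 4) * (R ^ 2 / 7 * (4 * Λ ^ 2 * CG * T ^ 2)) * (√2 / m) with hD2
  have hD1p : 0 < D1 := by positivity
  have hD2p : 0 < D2 := by positivity
  set θ : ℝ := (1 + D1 + D2)⁻¹ with hθ
  have hθp : 0 < θ := by positivity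
  have hθ1 : θ ≤ 1 := inv_le_one_of_one_le₀ (by linarith)
  have hθm : θ * (1 + D1 + D2) = 1 := inv_mul_cancel₀ (by positivity)
  refine ⟨θ ^ 2, by positivity, ?_⟩
  intro r X u σ hr hrT hX hS hub hu0 hV
  by_contra hcon
  rw [not_le] at hcon
  have hP : volume.real (P u r) ≤ θ ^ 2 * r ^ 2 := hcon.le
  have hθθ : θ ^ 2 ≤ θ := by
    calc θ ^ 2 = θ * θ := by ring
      _ ≤ θ * 1 := by gcongr
      _ = θ := mul_one _
  have q1 : 0 < θ * D1 := by positivity
  have q2 : 0 < θ * D2 := by positivity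
  have q3 : θ + θ * D1 + θ * D2 = 1 := by rw [← hθm]; ring
  rcases le_or_gt r R with hrR | hrR
  · have h1 := case1 hKER hINT hJ hm hr hθp hX hCG hS hub hu0 hP
    have h2 := IE (r / 2) u σ (by positivity) (by linarith)
      (sol_mono hS (ball_subset_ball (by linarith)))
    have h3 : 2 * (4 * θ ^ 2 * (CG * X) + Λ ^ 2 * (CG * X) * (11 / 2 * θ * r ^ 2)) +
        2 * Real.pi * (CF * X) ≤ (2 * Real.pi * CF + 1) * X := by
      have h4 : 2 * (4 * θ ^ 2 * (CG * X) + Λ ^ 2 * (CG * X) * (11 / 2 * θ * r ^ 2)) ≤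
          θ * D1 * X := by
        calc 2 * (4 * θ ^ 2 * (CG * X) + Λ ^ 2 * (CG * X) * (11 / 2 * θ * r ^ 2)) ≤
            2 * (4 * θ * (CG * X) + Λ ^ 2 * (CG * X) * (11 / 2 * θ * R ^ 2)) := by gcongr
          _ = θ * D1 * X := by rw [hD1]; ring
      have h5 : θ * D1 ≤ 1 := by linarith
      have h6 : θ * D1 * X ≤ 1 * X := by gcongr
      linarith
    have h4 : ∫ z in ball (0 : ℂ) (r / 2), |u z| ≤ r ^ 2 / 3 * ((2 * Real.pi * CF + 1) * X) :=
      h1.trans (by gcongr)
    have h5 : √(V2 u σ 1 0) * r ^ 2 ≤ CH * X := by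
      calc √(V2 u σ 1 0) * r ^ 2 ≤
          (CI / (r / 2) ^ 4 * ∫ z in ball (0 : ℂ) (r / 2), |u z|) * r ^ 2 := by gcongr
        _ ≤ (CI / (r / 2) ^ 4 * (r ^ 2 / 3 * ((2 * Real.pi * CF + 1) * X))) * r ^ 2 := by gcongr
        _ = CH * X := by rw [hCH]; field_simp; ring
    have h6 : CH * X < m / √2 * T ^ 2 * X := by gcongr
    linarith
  · have h1 := case2 hG hm hmΛ hR hRm hrR hX hCG hS hub hP
    have h2 := IE (R / 2) u σ (by positivity) (by linarith)
      (sol_mono hS (ball_subset_ball (by linarith)))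
    have h3 : √(V2 u σ 1 0) ≤ (CI * 16 / R ^ 4) * (R ^ 2 / 7 * (4 * Λ ^ 2 * CG * T ^ 2)) * θ * X := by
      calc √(V2 u σ 1 0) ≤ CI / (R / 2) ^ 4 * ∫ z in ball (0 : ℂ) (R / 2), |u z| := h2
        _ ≤ CI / (R / 2) ^ 4 * (R ^ 2 / 7 * (4 * Λ ^ 2 * (CG * X) * (θ ^ 2 * r ^ 2))) := by gcongr
        _ ≤ CI / (R / 2) ^ 4 * (R ^ 2 / 7 * (4 * Λ ^ 2 * (CG * X) * (θ * T ^ 2))) := by gcongr
        _ = _ := by field_simp; ring
    have h4 : m / √2 * X ≤ √(V2 u σ 1 0) := by
      have h5 : m / √2 * T ^ 2 * X ≤ √(V2 u σ 1 0) * T ^ 2 := hV.trans (by gcongr)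
      have h6 : m / √2 * T ^ 2 * X = (m / √2 * X) * T ^ 2 := by ring
      rw [h6] at h5
      exact le_of_mul_le_mul_right h5 (by positivity)
    have h5 : θ * D2 < 1 := by linarith
    have h6 : (CI * 16 / R ^ 4) * (R ^ 2 / 7 * (4 * Λ ^ 2 * CG * T ^ 2)) * θ * X =
        (m / √2) * (θ * D2) * X := by
      rw [hD2]; field_simp
    have h7 : (m / √2) * (θ * D2) * X < (m / √2) * 1 * X := by gcongr
    linarith

end Pool.Agent.Helper904_QS.PSB
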