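import Pool.Agent.Helper904_QS.Stmts
import Pool.Agent.Helper904_QS.Calc

/-!
TP: the typical point theorem, assembled from REG, CURV, GRAD, WEDGE, UP, SB.
-/

set_option autoImplicit false

open MeasureTheory Set Metric Filter Topology
open scoped ContDiff

namespace Pool.Agent.Helper904_QS.PTP

/-- a pointwise bound from mean bounds -/
theorem point_bound {f : ℂ → ℝ} (hf : Continuous f) {C R : ℝ} (hR : 0 < R)
    (h : ∀ t ∈ Ioc 0 R, ∫ z in ball (0 : ℂ) t, f z ≤ C * t ^ 2) : f 0 ≤ C / Real.pi := by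
  by_contra hcon
  rw [not_le] at hcon
  obtain ⟨c, hc1, hc2⟩ := exists_between hcon
  have h1 : ∀ᶠ z in 𝓝 (0 : ℂ), c < f z := hf.continuousAt.eventually (lt_mem_nhds hc2)
  obtain ⟨δ, hδ, hball⟩ := Metric.eventually_nhds_iff_ball.1 h1
  set t := min δ R with ht
  have ht0 : 0 < t := lt_min hδ hR
  have h2 := h t ⟨ht0, min_le_right _ _⟩
  have h3 : volume.real (ball (0 : ℂ) t) * c ≤ ∫ z in ball (0 : ℂ) t, f z := by
    rw [← smul_eq_mul, ← setIntegral_const]
    refine setIntegral_mono_on (integrableOn_const measure_ball_lt_top.ne) ?_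
      measurableSet_ball fun z hz => ?_
    · exact (hf.continuousOn.integrableOn_compact (isCompact_closedBall (0 : ℂ) t)).mono_set
        ball_subset_closedBall
    · exact (hball z (ball_subset_ball (min_le_left _ _) hz)).le
  have h4 : volume.real (ball (0 : ℂ) t) = Real.pi * t ^ 2 := by
    rw [Measure.real, Complex.volume_ball]
    simp [ht0.le]
    ring
  rw [h4] at h3
  have h5 : C < Real.pi * c := by
    rw [div_lt_iff₀ Real.pi_pos] at hc1
    linarith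
  have h6 : C * t ^ 2 < Real.pi * c * t ^ 2 := by gcongr
  linarith

/-- the operator norm of the derivative -/
theorem norm_fderiv_le (f : ℂ → ℝ) (z : ℂ) : ‖fderiv ℝ f z‖ ≤ √(gsq f z) := by
  refine ContinuousLinearMap.opNorm_le_bound _ (Real.sqrt_nonneg _) fun v => ?_
  have h1 : fderiv ℝ f z v = v.re * dx f z + v.im * dy f z := by
    have : v = v.re • (1 : ℂ) + v.im • Complex.I := by
      apply Complex.ext <;> simp
    conv_lhs => rw [this]
    rw [map_add, map_smul, map_smul]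
    rfl
  rw [h1, Real.norm_eq_abs]
  have h2 : ‖v‖ = √(v.re ^ 2 + v.im ^ 2) := by
    rw [Complex.norm_def, Complex.normSq_apply]; congr 1; ring
  rw [h2, ← Real.sqrt_mul (by unfold gsq; positivity)]
  refine Real.abs_le_sqrt ?_
  unfold gsq
  nlinarith [sq_nonneg (v.re * dy f z - v.im * dx f z)]

theorem sol_neg {m Λ k : ℝ} {U : Set ℂ} {u σ : ℂ → ℝ} (h : Sol m Λ k U u σ) :
    Sol m Λ k U (fun z => -u z) σ where
  hu := h.hu.neg
  hs := h.hs
  low := h.low
  up := h.up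
  d1x := h.d1x
  d1y := h.d1y
  d2xx := h.d2xx
  d2xy := h.d2xy
  d2yy := h.d2yy
  eq z hz := by rw [lap_neg, h.eq z hz]; ring

theorem sol_mono {m Λ k : ℝ} {U V : Set ℂ} {u σ : ℂ → ℝ} (h : Sol m Λ k U u σ) (hVU : V ⊆ U) :
    Sol m Λ k V u σ where
  hu := h.hu
  hs := h.hs
  low z hz := h.low z (hVU hz)
  up z hz := h.up z (hVU hz)
  d1x z hz := h.d1x z (hVU hz)
  d1y z hz := h.d1y z (hVU hz)
  d2xx z hz := h.d2xx z (hVU hz)
  d2xy z hz := h.d2xy z (hVU hz)
  d2yy z hz := h.d2yy z (hVU hz)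
  eq z hz := h.eq z (hVU hz)

theorem V2_neg (u σ : ℂ → ℝ) (k : ℝ) (z : ℂ) : V2 (fun z => -u z) σ k z = V2 u σ k z := by
  have h1 : dx (fun z => -u z) = fun z => -dx u z := by ext y; exact dx_neg
  have h2 : dy (fun z => -u z) = fun z => -dy u z := by ext y; exact dy_neg
  unfold V2 qsq gsq
  rw [h1, h2, dx_neg, dy_neg, dx_neg]
  ring

theorem t_TP (hREG : S_REG) (hCURV : S_CURV) (hGRAD : S_GRAD) (hWEDGE : S_WEDGE) (hUP : S_UP)
    (hSB : S_SB) : S_TP := by
  intro m Λ C₁ hm hmΛ hC₁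
  obtain ⟨CA, hCA, CURV⟩ := hCURV m Λ hm hmΛ
  obtain ⟨CB, hCB, GRAD⟩ := hGRAD m Λ hm hmΛ
  obtain ⟨CF, hCF, WEDGE⟩ := hWEDGE m Λ (C₁ / Real.pi) hm hmΛ (by positivity)
  obtain ⟨T, hT, SB⟩ := hSB m Λ CF hm hmΛ hCF
  obtain ⟨C, hC, UP⟩ := hUP C₁ CA CB T hC₁ hCA hCB hT
  set CG : ℝ := CF + Real.exp (C / 2) * T with hCG
  have hCGp : 0 < CG := by positivity
  obtain ⟨η, hη, SB⟩ := SB CG hCGp
  refine ⟨32 * T, η, by positivity, hη, ?_⟩
  intro ε u σ hε hS hεN hmass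
  obtain ⟨r1, r2, r3, r4, r5, r6, r7⟩ := hREG m Λ 1 ε _ u σ hm le_rfl hε hS
  set w := ww u σ 1 m ε with hw
  set L := L1 u σ 1 ε with hL
  have h0 : (0 : ℂ) ∈ ball (0 : ℂ) (32 * T) := mem_ball_self (by positivity)
  have cL1 : Continuous fun z => |lap (L1 u σ 1 ε) z| := (continuous_lap r1).abs
  have cL2 : Continuous fun z => |lap (L2 u σ 1 m ε) z| := (continuous_lap r2).abs
  have ci : ∀ (f : ℂ → ℝ) (t : ℝ), Continuous f → IntegrableOn f (ball (0 : ℂ) t) :=
    fun f t hf => (hf.continuousOn.integrableOn_compact (isCompact_closedBall (0 : ℂ) t)).mono_set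
      ball_subset_closedBall
  have mL : ∀ t ∈ Ioc 0 (32 * T), ∫ z in ball (0 : ℂ) t, |lap L z| ≤ C₁ * t ^ 2 := by
    intro t ht
    refine le_trans ?_ (hmass t ht)
    refine setIntegral_mono_on (ci _ _ cL1) (ci _ _ (cL1.add cL2)) measurableSet_ball
      fun z _ => ?_
    have := abs_nonneg (lap (L2 u σ 1 m ε) z)
    show |lap (L1 u σ 1 ε) z| ≤ |lap (L1 u σ 1 ε) z| + |lap (L2 u σ 1 m ε) z|
    linarith
  have mw : ∀ t ∈ Ioc 0 (32 * T), ∫ z in ball (0 : ℂ) t, |lap w z| ≤ C₁ * t ^ 2 := by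
    intro t ht
    refine le_trans ?_ (hmass t ht)
    refine setIntegral_mono_on (ci _ _ (continuous_lap r3).abs) (ci _ _ (cL1.add cL2))
      measurableSet_ball fun z _ => ?_
    show |lap w z| ≤ |lap (L1 u σ 1 ε) z| + |lap (L2 u σ 1 m ε) z|
    rw [r4 z, abs_le]
    have a1 := neg_abs_le (lap (L1 u σ 1 ε) z)
    have a2 := le_abs_self (lap (L1 u σ 1 ε) z)
    have a3 := neg_abs_le (lap (L2 u σ 1 m ε) z)
    have a4 := le_abs_self (lap (L2 u σ 1 m ε) z)
    have a5 := abs_nonneg (lap (L1 u σ 1 ε) z)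
    have a6 := abs_nonneg (lap (L2 u σ 1 m ε) z)
    constructor <;> linarith
  have hUPc := UP w L r3 r1 r6 mw mL
    (fun z hz => by
      have := (CURV 1 ε _ u σ le_rfl hε isOpen_ball hS z hz).1
      simpa using this)
    (fun z hz => GRAD ε _ u σ hε isOpen_ball hS z hz)
  -- the radius and the size
  set r : ℝ := T * Real.exp (-w 0) with hr
  have hw0 : 0 ≤ w 0 := r6 0 h0
  have hK : Real.exp (-w 0) ≤ 1 := Real.exp_le_one_iff.2 (by linarith)
  have hrp : 0 < r := by positivity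
  have hrT : r ≤ T := by
    calc r = T * Real.exp (-w 0) := rfl
      _ ≤ T * 1 := by gcongr
      _ = T := mul_one _
  have hN1 : 0 < N1 u σ 1 ε 0 := (r5 0).1
  set X : ℝ := Real.exp (-w 0) * √(N1 u σ 1 ε 0) with hXdef
  have hsN : 0 < √(N1 u σ 1 ε 0) := Real.sqrt_pos.2 hN1
  have hX : 0 < X := by positivity
  -- value at the centre
  have hu0 : |u 0| ≤ CF * X := by
    have h1 : lap L 0 ≤ C₁ / Real.pi :=
      (le_abs_self _).trans (point_bound (f := fun z => |lap L z|) cL1 (R := 32 * T)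
        (by positivity) mL)
    have h2 := WEDGE ε _ u σ hε isOpen_ball hS 0 h0 h1
    rw [mul_assoc] at h2
    exact h2
  have hsub : ball (0 : ℂ) r ⊆ ball 0 (32 * T) := ball_subset_ball (by linarith)
  -- gradient bound
  have hgrad : ∀ z ∈ ball (0 : ℂ) r, ‖fderiv ℝ u z‖ ≤ Real.exp (C / 2) * √(N1 u σ 1 ε 0) := by
    intro z hz
    have h1 : L z ≤ L 0 + C := hUPc z (ball_subset_closedBall hz)
    have h2 : N1 u σ 1 ε z ≤ Real.exp C * N1 u σ 1 ε 0 := by
      have e1 : N1 u σ 1 ε z = Real.exp (L z) := (Real.exp_log (r5 z).1).symm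
      have e2 : N1 u σ 1 ε 0 = Real.exp (L 0) := (Real.exp_log (r5 0).1).symm
      rw [e1, e2, ← Real.exp_add]
      exact Real.exp_le_exp.2 (by linarith)
    have h3 : gsq u z ≤ N1 u σ 1 ε z := by
      unfold N1
      have : 0 ≤ (1 * σ z * u z) ^ 2 := sq_nonneg _
      linarith
    calc ‖fderiv ℝ u z‖ ≤ √(gsq u z) := norm_fderiv_le u z
      _ ≤ √(Real.exp C * N1 u σ 1 ε 0) := Real.sqrt_le_sqrt (h3.trans h2)
      _ = Real.exp (C / 2) * √(N1 u σ 1 ε 0) := by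
          rw [Real.sqrt_mul (Real.exp_pos C).le, ← Real.exp_half]
  have hub : ∀ z ∈ ball (0 : ℂ) r, |u z| ≤ CG * X := by
    intro z hz
    have h1 := (convex_ball (0 : ℂ) r).norm_image_sub_le_of_norm_fderiv_le (𝕜 := ℝ)
      (fun y _ => (hS.hu.differentiable (by norm_num)) y) hgrad (mem_ball_self hrp) hz
    rw [sub_zero, Real.norm_eq_abs] at h1
    have hzr : ‖z‖ ≤ r := (mem_ball_zero_iff.1 hz).le
    have h2 : |u z| ≤ |u 0| + |u z - u 0| := by
      have := abs_add_le (u 0) (u z - u 0)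
      simpa using this
    have h3 : Real.exp (C / 2) * √(N1 u σ 1 ε 0) * ‖z‖ ≤
        Real.exp (C / 2) * √(N1 u σ 1 ε 0) * r := by gcongr
    have h4 : Real.exp (C / 2) * √(N1 u σ 1 ε 0) * r = Real.exp (C / 2) * T * X := by
      rw [hXdef, hr]; ring
    have h5 : CG * X = CF * X + Real.exp (C / 2) * T * X := by rw [hCG]; ring
    linarith
  -- lower bound of V2 at the centre
  have hεN' : ε ≤ N1 u σ 1 ε 0 / 2 := by
    have : N1 u σ 1 ε 0 = gsq u 0 + (σ 0 * u 0) ^ 2 + ε := by unfold N1; ring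
    linarith
  have hV : m / √2 * T ^ 2 * X ≤ √(V2 u σ 1 0) * r ^ 2 := by
    have h1 : V2 u σ 1 0 = m ^ 2 * Real.exp (2 * w 0) * N1 u σ 1 ε 0 - m ^ 2 * ε := by
      have h2 := r7 0
      unfold N2 at h2
      rw [mul_one] at h2
      linarith
    have h2 : 1 ≤ Real.exp (2 * w 0) := Real.one_le_exp (by linarith)
    have h3 : (m / √2 * (Real.exp (w 0) * √(N1 u σ 1 ε 0))) ^ 2 ≤ V2 u σ 1 0 := by
      have e1 : (m / √2 * (Real.exp (w 0) * √(N1 u σ 1 ε 0))) ^ 2 =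
          m ^ 2 / 2 * Real.exp (2 * w 0) * N1 u σ 1 ε 0 := by
        have e2 : Real.exp (2 * w 0) = Real.exp (w 0) ^ 2 := by
          rw [← Real.exp_nat_mul]; norm_num
        rw [mul_pow, mul_pow, div_pow, Real.sq_sqrt (by norm_num), Real.sq_sqrt hN1.le, e2]
        ring
      rw [e1, h1]
      have h4 : m ^ 2 * ε ≤ m ^ 2 * (N1 u σ 1 ε 0 / 2) := by gcongr
      have h5 : m ^ 2 * (N1 u σ 1 ε 0 / 2) * 1 ≤
          m ^ 2 * (N1 u σ 1 ε 0 / 2) * Real.exp (2 * w 0) := by gcongr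
      linarith
    have h4 : m / √2 * (Real.exp (w 0) * √(N1 u σ 1 ε 0)) ≤ √(V2 u σ 1 0) :=
      Real.le_sqrt_of_sq_le h3
    calc m / √2 * T ^ 2 * X = m / √2 * (Real.exp (w 0) * √(N1 u σ 1 ε 0)) * r ^ 2 := by
          have e3 : Real.exp (w 0) * Real.exp (-w 0) = 1 := by
            rw [← Real.exp_add]; simp
          rw [hXdef, hr]
          calc m / √2 * T ^ 2 * (Real.exp (-w 0) * √(N1 u σ 1 ε 0)) =
              m / √2 * T ^ 2 * (Real.exp (-w 0) * √(N1 u σ 1 ε 0)) *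
                (Real.exp (w 0) * Real.exp (-w 0)) := by rw [e3, mul_one]
            _ = _ := by ring
      _ ≤ √(V2 u σ 1 0) * r ^ 2 := by gcongr
  have hSr := sol_mono hS hsub
  refine ⟨r, ⟨hrp, by linarith⟩, SB r X u σ hrp hrT hX hSr hub hu0 hV, ?_⟩
  have h1 := SB r X (fun z => -u z) σ hrp hrT hX (sol_neg hSr)
    (fun z hz => by rw [abs_neg]; exact hub z hz) (by rw [abs_neg]; exact hu0)
    (by rw [V2_neg]; exact hV)
  simpa only [neg_pos] using h1

end Pool.Agent.Helper904_QS.PTP
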