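import Pool.Agent.Helper904_QS.Stmts
import Pool.Agent.Helper904_QS.Calc

/-!
# UP: Step 2 of the typical point theorem (PAPER.md, section 3)
-/

set_option autoImplicit false

open MeasureTheory Set Metric Filter Topology
open scoped ContDiff

namespace Pool.Agent.Helper904_QS.PUP

theorem fderiv_bound (L : ℂ → ℝ) (z v : ℂ) (M : ℝ) (hx : |dx L z| ≤ M) (hy : |dy L z| ≤ M) :
    |fderiv ℝ L z v| ≤ 2 * ‖v‖ * M := by
  have hv : v = v.re • (1 : ℂ) + v.im • Complex.I := by
    apply Complex.ext <;> simp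
  have h1 : fderiv ℝ L z v = v.re * dx L z + v.im * dy L z := by
    conv_lhs => rw [hv]
    rw [map_add, map_smul, map_smul]
    rfl
  have hM : 0 ≤ M := (abs_nonneg _).trans hx
  rw [h1]
  calc |v.re * dx L z + v.im * dy L z| ≤ |v.re * dx L z| + |v.im * dy L z| := abs_add_le _ _
    _ = |v.re| * |dx L z| + |v.im| * |dy L z| := by rw [abs_mul, abs_mul]
    _ ≤ ‖v‖ * M + ‖v‖ * M := by
        gcongr
        · exact Complex.abs_re_le_norm v
        · exact Complex.abs_im_le_norm v
    _ = 2 * ‖v‖ * M := by ring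

theorem osc (L : ℂ → ℝ) (hL : ContDiff ℝ 2 L) (r M : ℝ) (hr : 0 < r)
    (hM : ∀ z : ℂ, ‖z‖ = r → |dx L z| ≤ M ∧ |dy L z| ≤ M) (a b : ℝ) :
    |L (circleMap 0 r a) - L (circleMap 0 r b)| ≤ 2 * r * M * |a - b| := by
  have hd : ∀ θ : ℝ, HasDerivAt (fun θ => L (circleMap 0 r θ))
      (fderiv ℝ L (circleMap 0 r θ) (circleMap 0 r θ * Complex.I)) θ := by
    intro θ
    have h1 : HasFDerivAt L (fderiv ℝ L (circleMap 0 r θ)) (circleMap 0 r θ) :=
      (hL.differentiable (by norm_num) _).hasFDerivAt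
    exact h1.comp_hasDerivAt θ (hasDerivAt_circleMap 0 r θ)
  have hb : ∀ θ : ℝ, ‖fderiv ℝ L (circleMap 0 r θ) (circleMap 0 r θ * Complex.I)‖ ≤ 2 * r * M := by
    intro θ
    have hn : ‖circleMap 0 r θ‖ = r := by simp [norm_circleMap_zero, abs_of_pos hr]
    have := fderiv_bound L (circleMap 0 r θ) (circleMap 0 r θ * Complex.I) M (hM _ hn).1 (hM _ hn).2
    rw [Real.norm_eq_abs]
    refine this.trans ?_
    rw [norm_mul, hn, Complex.norm_I, mul_one]
  have := Convex.norm_image_sub_le_of_norm_hasDerivWithin_le (s := univ) (x := b) (y := a)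
    (fun θ _ => (hd θ).hasDerivWithinAt) (fun θ _ => hb θ) convex_univ (mem_univ _) (mem_univ _)
  simpa [Real.norm_eq_abs] using this

theorem t_UP (hC : S_CIRC) (hJC : S_JC) (hWMP : S_WMP) (hLC : S_LC) : S_UP := by
  intro C₁ CA CB T hC₁ hCA hCB hT
  obtain ⟨C, hC0, hcirc⟩ := hC C₁ T hC₁ hT
  set D₁ : ℝ := (2 * Real.pi)⁻¹ * (C₁ * (2 * T) ^ 2 / 2) with hD₁
  set D₂ : ℝ := 8 * Real.pi * T * CB * Real.exp C with hD₂
  refine ⟨D₁ + D₂ + CA * (2 * T) ^ 2 / 4, by positivity, ?_⟩
  intro w L hw hL hw0 hmw hmL hlap hgrad y hy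
  obtain ⟨r, ⟨hr1, hr2⟩, hwr⟩ := hcirc w hw hw0 hmw
  have hw00 : 0 ≤ w 0 := hw0 0 (by simp; positivity)
  set r₀ : ℝ := T * Real.exp (-w 0) with hr₀
  have hr₀0 : 0 < r₀ := by positivity
  have hr₀T : r₀ ≤ T := by
    have : Real.exp (-w 0) ≤ 1 := by rw [Real.exp_le_one_iff]; linarith
    nlinarith
  have hr0 : 0 < r := lt_of_lt_of_le hr₀0 hr1
  have hrT : r ≤ 2 * T := by linarith
  -- gradient on the circle
  set M : ℝ := CB * Real.exp (w 0 + C) with hM
  have hgr : ∀ z : ℂ, ‖z‖ = r → |dx L z| ≤ M ∧ |dy L z| ≤ M := by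
    intro z hz
    have hzb : z ∈ ball (0 : ℂ) (32 * T) := by simp; linarith
    have h1 : CB * Real.exp (w z) ≤ M := by
      rw [hM]; gcongr; exact hwr z hz
    exact ⟨(hgrad z hzb).1.trans h1, (hgrad z hzb).2.trans h1⟩
  have hrM : 2 * r * M * (2 * Real.pi) ≤ D₂ := by
    have h1 : r * M ≤ 2 * T * CB * Real.exp C := by
      calc r * M ≤ 2 * r₀ * M := by gcongr
        _ = 2 * T * CB * Real.exp C * (Real.exp (-w 0) * Real.exp (w 0)) := by
            rw [hr₀, hM, Real.exp_add]; ring
        _ = 2 * T * CB * Real.exp C := by rw [← Real.exp_add]; simp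
    rw [hD₂]
    nlinarith [Real.pi_pos]
  -- the average over the circle
  have havg : Real.circleAverage L 0 r ≤ L 0 + D₁ := by
    rw [hJC L 0 r hL hr0]
    have hca : Continuous (fun z => |lap L z|) := (continuous_lap hL).abs
    obtain ⟨hi, hb⟩ := hLC (fun z => |lap L z|) 0 r C₁ hca (fun z => abs_nonneg _) hr0
      (fun t ht => hmL t ⟨ht.1, ht.2.trans (by linarith)⟩)
    have h1 : ∫ z in ball (0 : ℂ) r, Real.log (r / ‖z - 0‖) * lap L z ≤
        ∫ z in ball (0 : ℂ) r, Real.log (r / ‖z - 0‖) * |lap L z| := by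
      apply setIntegral_mono_on _ hi measurableSet_ball
      · intro z hz
        have hz' : ‖z‖ < r := by simpa using hz
        apply mul_le_mul_of_nonneg_left (le_abs_self _)
        by_cases hz0 : 0 < ‖z‖
        · apply Real.log_nonneg
          rw [sub_zero, one_le_div hz0]; exact hz'.le
        · have : ‖z‖ = 0 := le_antisymm (not_lt.1 hz0) (norm_nonneg _)
          simp [this]
      · apply Integrable.mono hi
        · apply Measurable.aestronglyMeasurable
          have m1 : Measurable (fun z : ℂ => Real.log (r / ‖z - 0‖)) := by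
            apply Real.measurable_log.comp
            exact measurable_const.div ((measurable_id.sub measurable_const).norm)
          exact m1.mul (continuous_lap hL).measurable
        · apply Eventually.of_forall
          intro z
          simp
    have h2 : ∫ z in ball (0 : ℂ) r, Real.log (r / ‖z - 0‖) * lap L z ≤
        C₁ * (2 * T) ^ 2 / 2 := by
      refine h1.trans (hb.trans ?_)
      gcongr
    rw [hD₁]
    gcongr
  -- bound on the circle
  have hsph : ∀ z ∈ sphere (0 : ℂ) r, L z ≤ L 0 + D₁ + D₂ := by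
    intro z hz
    have hz' : z ∈ circleMap 0 r '' Ioc 0 (2 * Real.pi) := by
      rw [image_circleMap_Ioc]
      rwa [abs_of_pos hr0]
    obtain ⟨a, ha, rfl⟩ := hz'
    have hlow : L (circleMap 0 r a) - D₂ ≤ Real.circleAverage L 0 r := by
      have hconst : Real.circleAverage (fun _ : ℂ => L (circleMap 0 r a) - D₂) 0 r =
          L (circleMap 0 r a) - D₂ := Real.circleAverage_const _ _ _
      rw [← hconst]
      apply Real.circleAverage_mono (circleIntegrable_const _ _ _)
        (hL.continuous.continuousOn.circleIntegrable' )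
      intro x hx
      have hx' : x ∈ circleMap 0 r '' Ioc 0 (2 * Real.pi) := by
        rwa [image_circleMap_Ioc]
      obtain ⟨b, hb, rfl⟩ := hx'
      have h1 := osc L hL r M hr0 hgr a b
      have h2 : |a - b| ≤ 2 * Real.pi := by
        rw [abs_le]; constructor <;> linarith [ha.1, ha.2, hb.1, hb.2]
      have hM0 : 0 ≤ 2 * r * M := by positivity
      have h3 : |L (circleMap 0 r a) - L (circleMap 0 r b)| ≤ D₂ :=
        h1.trans ((mul_le_mul_of_nonneg_left h2 hM0).trans hrM)
      have := (abs_le.1 h3).2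
      linarith
    linarith
  have := hWMP L 0 r CA (L 0 + D₁ + D₂) hL hr0 hCA.le
    (fun z hz => hlap z (ball_subset_ball (by linarith) hz)) hsph y
    (closedBall_subset_closedBall hr1 hy)
  have h3 : CA * r ^ 2 / 4 ≤ CA * (2 * T) ^ 2 / 4 := by gcongr
  linarith

end Pool.Agent.Helper904_QS.PUP
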