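import Pool.Agent.Helper904_QS.Stmts

/-!
MP_177f55_an, piece VC: Vitali covering.
-/

set_option autoImplicit false

open MeasureTheory Set Metric Filter Topology

namespace Pool.Agent.Helper904_QS.PVC

theorem t_VC : S_VC := by
  intro μ c τ S s hc hS
  obtain ⟨u, huS, hdisj, hcov⟩ := Vitali.exists_disjoint_subfamily_covering_enlargement_closedBall
    S (fun x : ℂ => x) s τ (fun x hx => (hS x hx).2.1) 5 (by norm_num)
  have hcount : u.Countable := by
    refine hdisj.countable_of_nonempty_interior ?_
    intro x hx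
    refine ⟨x, ?_⟩
    have hpos := (hS x (huS hx)).1
    exact ball_subset_interior_closedBall (mem_ball_self hpos)
  have hsub : S ⊆ ⋃ b ∈ u, closedBall b (5 * s b) := by
    intro x hx
    obtain ⟨b, hb, hsub⟩ := hcov x hx
    have : x ∈ closedBall x (s x) := mem_closedBall_self (hS x hx).1.le
    exact mem_iUnion₂.2 ⟨b, hb, hsub this⟩
  have hcu : Countable u := hcount.to_subtype
  have h1 : volume S ≤ ∑' b : u, volume (closedBall (b : ℂ) (5 * s b)) := by
    calc volume S ≤ volume (⋃ b ∈ u, closedBall b (5 * s b)) := measure_mono hsub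
      _ ≤ ∑' b : u, volume (closedBall (b : ℂ) (5 * s b)) := measure_biUnion_le _ hcount _
  have h2 : ∑' b : u, μ (closedBall (b : ℂ) (s b)) ≤ μ univ := by
    rw [← measure_biUnion hcount hdisj (fun b _ => isClosed_closedBall.measurableSet)]
    exact measure_mono (subset_univ _)
  have h3 : ∀ b : u, ENNReal.ofReal c * volume (closedBall (b : ℂ) (5 * s b)) ≤
      ENNReal.ofReal (25 * Real.pi) * μ (closedBall (b : ℂ) (s b)) := by
    intro b
    obtain ⟨hb0, -, hb⟩ := hS b (huS b.2)
    rw [Complex.volume_closedBall]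
    have e : ENNReal.ofReal c * (ENNReal.ofReal (5 * s b) ^ 2 * NNReal.pi) =
        ENNReal.ofReal (25 * Real.pi) * ENNReal.ofReal (c * s b ^ 2) := by
      have hpi : (NNReal.pi : ENNReal) = ENNReal.ofReal Real.pi := by
        rw [← NNReal.coe_real_pi, ENNReal.ofReal_coe_nnreal]
      rw [hpi, ← ENNReal.ofReal_pow (by positivity), ← ENNReal.ofReal_mul (by positivity),
        ← ENNReal.ofReal_mul (by positivity), ← ENNReal.ofReal_mul (by positivity)]
      congr 1
      ring
    rw [e]
    gcongr
  calc ENNReal.ofReal c * volume S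
      ≤ ENNReal.ofReal c * ∑' b : u, volume (closedBall (b : ℂ) (5 * s b)) := by gcongr
    _ = ∑' b : u, ENNReal.ofReal c * volume (closedBall (b : ℂ) (5 * s b)) :=
        ENNReal.tsum_mul_left.symm
    _ ≤ ∑' b : u, ENNReal.ofReal (25 * Real.pi) * μ (closedBall (b : ℂ) (s b)) :=
        ENNReal.tsum_le_tsum h3
    _ = ENNReal.ofReal (25 * Real.pi) * ∑' b : u, μ (closedBall (b : ℂ) (s b)) :=
        ENNReal.tsum_mul_left
    _ ≤ ENNReal.ofReal (25 * Real.pi) * μ univ := by gcongr

end Pool.Agent.Helper904_QS.PVC
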