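import Pool.Agent.Helper904_QS.MC

/-!
# MP_177f55_an, piece WH: the weak Harnack step, `k` bounded.
-/

set_option autoImplicit false

open MeasureTheory Set Metric Filter Topology
open scoped ContDiff

namespace Pool.Agent.Helper904_QS.PWH

open Pool.Agent.Helper904_QS

theorem t_WH (hJ : S_J) (hK : S_KER) (hI : S_INT) : S_WH := by
  intro Λ k₀ hΛ hk₀
  refine ⟨(2 * Real.pi + k₀ ^ 2 * Λ ^ 2 * Real.pi) / (12 / 25), by positivity, ?_⟩
  intro k δ u σ hk hkk hδ hu hσ hσb hlap hlow y hy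
  have hr : (0 : ℝ) < 5 / 4 := by norm_num
  have hyn : ‖y‖ < 1 / 2 := by simpa using hy
  set h : ℂ → ℝ := fun z => u z + δ with hh
  have hhC : ContDiff ℝ 2 h := hu.add contDiff_const
  have hlaph : ∀ z, lap h z = lap u z := by
    intro z
    have := lap_add hu (contDiff_const (c := δ)) z
    rw [hh, this, lap_const, add_zero]
  have hcl : Continuous (lap h) := continuous_lap hhC
  have sub1 : ball y (5 / 4) ⊆ ball (0 : ℂ) (7 / 4) := by
    intro z hz
    rw [mem_ball, dist_eq_norm] at hz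
    rw [mem_ball, dist_zero_right]
    have := norm_le_norm_add_norm_sub' z y
    linarith
  have hlapb : ∀ z ∈ ball y (5 / 4), lap h z ≤ k₀ ^ 2 * Λ ^ 2 * δ := by
    intro z hz
    have hz' := sub1 hz
    rw [hlaph, hlap z hz']
    have h1 : k ^ 2 ≤ k₀ ^ 2 := by nlinarith
    have h2 : σ z ^ 2 ≤ Λ ^ 2 := by
      have := hσb z hz'
      rw [← sq_abs (σ z)]
      have h0 := abs_nonneg (σ z)
      nlinarith
    have h3 : k ^ 2 * σ z ^ 2 ≤ k₀ ^ 2 * Λ ^ 2 := mul_le_mul h1 h2 (by positivity) (by positivity)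
    have h4 := hlow z hz'
    have h5 : 0 ≤ k ^ 2 * σ z ^ 2 := by positivity
    nlinarith
  have j := hJ h y (5 / 4) hhC hr
  have b1 := PMC.int_Phi_le hK hI hcl hr hlapb
  obtain ⟨-, hc0, -, hz, -⟩ := hK (5 / 4) hr
  have hnn : ∀ z, 0 ≤ chi (5 / 4) (z - y) * h z := by
    intro z
    by_cases hzb : z ∈ ball y (5 / 4)
    · have := hlow z (sub1 hzb)
      exact mul_nonneg (hc0 _) (by simp only [hh]; linarith)
    · have : 5 / 4 ≤ ‖z - y‖ := by
        rw [mem_ball, dist_eq_norm, not_lt] at hzb; exact hzb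
      rw [hz _ this]; simp
  have hint := (hI h y (5 / 4) hhC.continuous hr).1
  have b2 : ∫ z in ball (0 : ℂ) (5 / 8), chi (5 / 4) (z - y) * h z ≤
      ∫ z, chi (5 / 4) (z - y) * h z :=
    setIntegral_le_integral hint (Eventually.of_forall hnn)
  have hchi : ∀ z ∈ ball (0 : ℂ) (5 / 8), 12 / 25 ≤ chi (5 / 4) (z - y) := by
    intro z hz'
    have hz5 : ‖z‖ < 5 / 8 := by simpa using hz'
    have hzy : ‖z - y‖ ≤ 9 / 8 := by
      have := norm_sub_le z y; linarith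
    have h0 := norm_nonneg (z - y)
    have h2 : ‖z - y‖ ^ 2 ≤ 81 / 64 := by nlinarith
    unfold chi
    have h3 : 1 - ‖z - y‖ ^ 2 / (5 / 4) ^ 2 ≤ max 0 (1 - ‖z - y‖ ^ 2 / (5 / 4) ^ 2) :=
      le_max_right _ _
    have h4 : (19 : ℝ) / 100 ≤ 1 - ‖z - y‖ ^ 2 / (5 / 4) ^ 2 := by
      have : ‖z - y‖ ^ 2 / (5 / 4) ^ 2 = ‖z - y‖ ^ 2 * (16 / 25) := by ring
      rw [this]; linarith
    have h5 := h4.trans h3
    calc (12 : ℝ) / 25 ≤ 4 / (5 / 4) ^ 2 * (19 / 100) := by norm_num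
      _ ≤ _ := mul_le_mul_of_nonneg_left h5 (by norm_num)
  have hinth : IntegrableOn h (ball (0 : ℂ) (5 / 8)) :=
    (hhC.continuous.continuousOn.integrableOn_compact (isCompact_closedBall (0 : ℂ) (5 / 8))).mono_set
      ball_subset_closedBall
  have b3 : 12 / 25 * ∫ z in ball (0 : ℂ) (5 / 8), h z ≤
      ∫ z in ball (0 : ℂ) (5 / 8), chi (5 / 4) (z - y) * h z := by
    rw [← integral_const_mul]
    refine setIntegral_mono_on (hinth.const_mul _) hint.integrableOn measurableSet_ball ?_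
    intro z hz'
    have h1 := hchi z hz'
    have h2 := hlow z (ball_subset_ball (by norm_num) hz')
    have h3 : 0 ≤ h z := by simp only [hh]; linarith
    exact mul_le_mul_of_nonneg_right h1 h3
  have hhy : 0 ≤ h y := by
    have := hlow y (ball_subset_ball (by norm_num) hy)
    simp only [hh]; linarith
  have e : h y = u y + δ := rfl
  have key : 12 / 25 * ∫ z in ball (0 : ℂ) (5 / 8), h z ≤
      2 * Real.pi * h y + k₀ ^ 2 * Λ ^ 2 * δ * (Real.pi * (5 / 4) ^ 2 / 6) := by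
    linarith
  show ∫ z in ball (0 : ℂ) (5 / 8), h z ≤ _
  have hpi := Real.pi_pos
  have e3 : (2 * Real.pi + k₀ ^ 2 * Λ ^ 2 * Real.pi) / (12 / 25) * (u y + δ + δ) =
      ((2 * Real.pi + k₀ ^ 2 * Λ ^ 2 * Real.pi) * (h y + δ)) / (12 / 25) := by
    rw [e]; ring
  rw [e3, le_div_iff₀ (by norm_num)]
  have e4 : k₀ ^ 2 * Λ ^ 2 * δ * (Real.pi * (5 / 4) ^ 2 / 6) ≤ k₀ ^ 2 * Λ ^ 2 * Real.pi * δ := by
    have : 0 ≤ k₀ ^ 2 * Λ ^ 2 * Real.pi * δ := by positivity
    nlinarith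
  have e5 : 0 ≤ k₀ ^ 2 * Λ ^ 2 * Real.pi * h y := by positivity
  have e6 : 0 ≤ 2 * Real.pi * δ := by positivity
  nlinarith

end Pool.Agent.Helper904_QS.PWH
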