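import Pool.Agent.Helper904_QS.JC

/-!
WMP: weak maximum principle on a disc, from JC.
-/

set_option autoImplicit false

open MeasureTheory Set Metric Filter Topology
open scoped ContDiff

namespace Pool.Agent.Helper904_QS.PWMP

variable {f g : ℂ → ℝ} {r : ℝ}

/-- the square of the distance to `y` -/
noncomputable def dq (y z : ℂ) : ℝ := (z.re - y.re) ^ 2 + (z.im - y.im) ^ 2

theorem dq_eq (y z : ℂ) : dq y z = ‖z - y‖ ^ 2 := by
  rw [← Complex.normSq_eq_norm_sq, Complex.normSq_apply]
  unfold dq
  simp only [Complex.sub_re, Complex.sub_im]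
  ring

theorem contDiff_re {n : ℕ∞ω} (a : ℝ) : ContDiff ℝ n (fun z : ℂ => z.re - a) :=
  Complex.reCLM.contDiff.sub contDiff_const

theorem contDiff_im {n : ℕ∞ω} (a : ℝ) : ContDiff ℝ n (fun z : ℂ => z.im - a) :=
  Complex.imCLM.contDiff.sub contDiff_const

theorem contDiff_dq {n : ℕ∞ω} (y : ℂ) : ContDiff ℝ n (dq y) :=
  ((contDiff_re y.re).pow 2).add ((contDiff_im y.im).pow 2)

theorem fderiv_re (a : ℝ) (z : ℂ) : fderiv ℝ (fun z : ℂ => z.re - a) z = Complex.reCLM :=
  (Complex.reCLM.hasFDerivAt.sub_const a).fderiv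

theorem fderiv_im (a : ℝ) (z : ℂ) : fderiv ℝ (fun z : ℂ => z.im - a) z = Complex.imCLM :=
  (Complex.imCLM.hasFDerivAt.sub_const a).fderiv

theorem lap_re (a : ℝ) (z : ℂ) : lap (fun z : ℂ => z.re - a) z = 0 := by
  have h1 : dx (fun z : ℂ => z.re - a) = fun _ => 1 := by
    ext w; unfold dx; rw [fderiv_re]; simp
  have h2 : dy (fun z : ℂ => z.re - a) = fun _ => 0 := by
    ext w; unfold dy; rw [fderiv_re]; simp
  unfold lap
  rw [h1, h2, dx_const, dy_const, add_zero]

theorem lap_im (a : ℝ) (z : ℂ) : lap (fun z : ℂ => z.im - a) z = 0 := by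
  have h1 : dx (fun z : ℂ => z.im - a) = fun _ => 0 := by
    ext w; unfold dx; rw [fderiv_im]; simp
  have h2 : dy (fun z : ℂ => z.im - a) = fun _ => 1 := by
    ext w; unfold dy; rw [fderiv_im]; simp
  unfold lap
  rw [h1, h2, dx_const, dy_const, add_zero]

theorem lap_dq (y z : ℂ) : lap (dq y) z = 4 := by
  have e : dq y = fun z => (z.re - y.re) ^ 2 + (z.im - y.im) ^ 2 := rfl
  rw [e, lap_add ((contDiff_re y.re).pow 2) ((contDiff_im y.im).pow 2),
    lap_sq (contDiff_re y.re), lap_sq (contDiff_im y.im), lap_re, lap_im]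
  unfold gsq dx dy
  rw [fderiv_re, fderiv_im]
  simp
  norm_num

/-- a function with nonnegative Laplacian is below its mean on circles -/
theorem sub_mean (hf : ContDiff ℝ 2 f) (y : ℂ) (hr : 0 < r) (h : ∀ z ∈ ball y r, 0 ≤ lap f z) :
    f y ≤ Real.circleAverage f y r := by
  rw [PJC.t_JC f y r hf hr]
  have h1 : 0 ≤ ∫ z in ball y r, Real.log (r / ‖z - y‖) * lap f z := by
    apply setIntegral_nonneg measurableSet_ball
    intro z hz
    apply mul_nonneg _ (h z hz)
    rw [mem_ball, dist_eq_norm] at hz
    rcases (norm_nonneg (z - y)).eq_or_lt with h0 | h0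
    · rw [← h0]; simp
    · apply Real.log_nonneg
      rw [le_div_iff₀ h0]; linarith
  have h2 : 0 ≤ (2 * Real.pi)⁻¹ := by have := Real.pi_pos; positivity
  nlinarith [mul_nonneg h2 h1]

/-- WMP -/
theorem t_WMP : S_WMP := by
  intro f y r C A hf hr hC hlap hA
  -- it suffices to have the bound with an extra `δ r²`
  have key : ∀ δ : ℝ, 0 < δ → ∀ z ∈ closedBall y r, f z ≤ A + C * r ^ 2 / 4 + δ * r ^ 2 := by
    intro δ hδ z hz
    set g : ℂ → ℝ := fun z => f z + (C / 4 + δ) * dq y z with hg
    have hg2 : ContDiff ℝ 2 g := hf.add (contDiff_const.mul (contDiff_dq y))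
    obtain ⟨z0, hz0, hmax⟩ := (isCompact_closedBall y r).exists_isMaxOn
      ⟨y, by simp [hr.le]⟩ (f := g) hg2.continuous.continuousOn
    have hfg : ∀ z, f z ≤ g z := by
      intro z
      have : 0 ≤ (C / 4 + δ) * dq y z := by
        apply mul_nonneg (by positivity)
        unfold dq; positivity
      simp only [hg]; linarith
    have hle : g z ≤ g z0 := hmax hz
    refine (hfg z).trans (hle.trans ?_)
    by_cases hs : z0 ∈ sphere y r
    · have h1 := hA z0 hs
      have h2 : dq y z0 = r ^ 2 := by
        rw [dq_eq]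
        rw [mem_sphere, dist_eq_norm] at hs
        rw [hs]
      simp only [hg]
      rw [h2]
      nlinarith
    · exfalso
      have hd : dist z0 y < r := by
        rw [mem_closedBall] at hz0
        rw [mem_sphere] at hs
        exact lt_of_le_of_ne hz0 hs
      set s : ℝ := (r - dist z0 y) / 2 with hsdef
      have hs0 : 0 < s := by rw [hsdef]; linarith
      have hsub : closedBall z0 s ⊆ ball y r := by
        apply closedBall_subset_ball'
        rw [hsdef]; linarith
      set F : ℂ → ℝ := fun z => g z - δ * dq z0 z with hF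
      have hF2 : ContDiff ℝ 2 F := hg2.sub (contDiff_const.mul (contDiff_dq z0))
      have hlapF : ∀ z ∈ ball z0 s, 0 ≤ lap F z := by
        intro z hz
        have hzy := hsub (ball_subset_closedBall hz)
        have h1 := hlap z hzy
        rw [hF, lap_sub hg2 (contDiff_const.mul (contDiff_dq z0)),
          lap_const_mul δ (contDiff_dq z0), lap_dq, hg,
          lap_add hf (contDiff_const.mul (contDiff_dq y)),
          lap_const_mul (C / 4 + δ) (contDiff_dq y), lap_dq]
        linarith
      have h1 := sub_mean hF2 z0 hs0 hlapF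
      have h2 : Real.circleAverage F z0 s ≤ g z0 - δ * s ^ 2 := by
        apply Real.circleAverage_mono_on_of_le_circle
        · exact hF2.continuous.continuousOn.circleIntegrable hs0.le
        · intro x hx
          rw [abs_of_pos hs0] at hx
          have h3 : g x ≤ g z0 :=
            hmax (ball_subset_closedBall (hsub (sphere_subset_closedBall hx)))
          have h4 : dq z0 x = s ^ 2 := by
            rw [dq_eq]
            rw [mem_sphere, dist_eq_norm] at hx
            rw [hx]
          simp only [hF]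
          rw [h4]
          linarith
      have h3 : F z0 = g z0 := by
        simp only [hF]
        unfold dq
        ring
      rw [h3] at h1
      have : 0 < δ * s ^ 2 := by positivity
      linarith
  intro z hz
  by_contra hc
  push Not at hc
  have h1 := key ((f z - (A + C * r ^ 2 / 4)) / (2 * r ^ 2)) (div_pos (by linarith) (by positivity))
    z hz
  have h2 : (f z - (A + C * r ^ 2 / 4)) / (2 * r ^ 2) * r ^ 2 =
      (f z - (A + C * r ^ 2 / 4)) / 2 := by field_simp
  rw [h2] at h1
  linarith

end Pool.Agent.Helper904_QS.PWMP
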