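import Pool.Agent.Helper904_QS.FIN
import Pool.Agent.Helper904_QS.PAR
import Pool.Agent.Helper904_QS.MET
import Pool.Agent.Helper904_QS.LCH
import Pool.Agent.Helper904_QS.CMP
import Pool.Agent.Helper904_QS.HM
import Pool.Agent.Helper904_QS.LIP
import Pool.Agent.Helper904_QS.ISO
import Pool.Agent.Helper904_QS.LBI
import Pool.Agent.Helper904_QS.CA
import Pool.Agent.Helper904_QS.LK
import Pool.Agent.Helper904_QS.HK
import Pool.Agent.Helper904_QS.LT
import Pool.Agent.Helper904_QS.MC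
import Pool.Agent.Helper904_QS.WH
import Pool.Agent.Helper904_QS.VC
import Pool.Agent.Helper904_QS.TP
import Pool.Agent.Helper904_QS.SB
import Pool.Agent.Helper904_QS.UP
import Pool.Agent.Helper904_QS.CIRC
import Pool.Agent.Helper904_QS.IE
import Pool.Agent.Helper904_QS.JC
import Pool.Agent.Helper904_QS.WMP
import Pool.Agent.Helper904_QS.LC
import Pool.Agent.Helper904_QS.G
import Pool.Agent.Helper904_QS.J
import Pool.Agent.Helper904_QS.KER
import Pool.Agent.Helper904_QS.GRAD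

/-!
Assembly of all the pieces.
-/

set_option autoImplicit false

namespace Pool.Agent.Helper904_QS

theorem all_IE : S_IE := PIE.t_IE PJ.t_J PKER.t_KER PKER.t_INT PCURV.t_CURV PREG.t_REG

theorem all_CIRC : S_CIRC := PCIRC.t_CIRC PJ.t_J PKER.t_KER PKER.t_INT PLC.t_LC

theorem all_UP : S_UP := PUP.t_UP all_CIRC PJC.t_JC PWMP.t_WMP PLC.t_LC

theorem all_SB : S_SB := PSB.t_SB PG.t_G PKER.t_KER PKER.t_INT PJ.t_J all_IE

theorem all_TP : S_TP := PTP.t_TP PREG.t_REG PCURV.t_CURV PGRAD.t_GRAD PGRAD.t_WEDGE all_UP all_SB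

theorem all_LT : S_LT :=
  PLT.t_LT PJ.t_J PKER.t_KER PKER.t_INT PREG.t_REG PCURV.t_CURV PVC.t_VC all_TP

theorem all_HK : S_HK := PHK.t_HK PREG.t_REG all_LT

theorem all_MC : S_MC := PMC.t_MC PJ.t_J PKER.t_KER PKER.t_INT

theorem all_WH : S_WH := PWH.t_WH PJ.t_J PKER.t_KER PKER.t_INT

theorem all_LK : S_LK := PLK.t_LK all_MC all_WH PJ.t_J PKER.t_KER PKER.t_INT

theorem all_CA : S_CA := PCA.t_CA all_HK all_LK

theorem all_PAR : S_PAR := PPAR.t_PAR PISO.t_ISO PLBI.t_LBI PLCH.t_LCH PMET.t_MET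

theorem all_FIN : S_FIN :=
  PFIN.t_FIN all_PAR PCMP.t_CMP all_CA (PHM.t_HM1 PLIP.t_LIP) (PHM.t_HM2 PLIP.t_LIP)

end Pool.Agent.Helper904_QS
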