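import Mathlib

/-!
Lemma 1 of PAPER.md: the pointwise algebra of the curvature inequality.
-/

set_option autoImplicit false

open scoped InnerProductSpace ComplexConjugate

namespace Pool.Agent.Helper904_QS

variable {F : Type*} [NormedAddCommGroup F] [InnerProductSpace ℂ F]

/-- Pointwise algebra. `a = ⟨P,V⟩`, `b = ⟨Q,V⟩ = ⟨A V, V⟩`, `W = A P + R`. -/
theorem curv_alg (V P Q R : F) (A : F →ₗ[ℂ] F) (κ N G : ℝ) (hκ0 : 0 ≤ κ)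
    (hκ : ∀ x, ‖A x‖ ≤ κ * ‖x‖)
    (hN : ‖V‖ ^ 2 ≤ N) (hN0 : 0 < N) (hG : 0 ≤ G)
    (hG2 : G ^ 2 = N * ‖P‖ ^ 2 - ‖⟪V, P⟫_ℂ‖ ^ 2) (hb : ⟪V, Q⟫_ℂ = ⟪V, A V⟫_ℂ) :
    G ^ 2 - 2 * κ * N * G - 2 * N * (‖R‖ * ‖V‖) ≤
      N * (‖P‖ ^ 2 + ‖Q‖ ^ 2 + 2 * (⟪V, A P + R⟫_ℂ).re) -
        ‖⟪V, P⟫_ℂ + conj ⟪V, Q⟫_ℂ‖ ^ 2 := by
  set a : ℂ := ⟪V, P⟫_ℂ with ha
  set b : ℂ := ⟪V, Q⟫_ℂ with hbdef
  -- expansion of the modulus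
  have h1 : ‖a + conj b‖ ^ 2 = ‖a‖ ^ 2 + ‖b‖ ^ 2 + 2 * (a * b).re := by
    rw [← Complex.normSq_eq_norm_sq, ← Complex.normSq_eq_norm_sq, ← Complex.normSq_eq_norm_sq,
      Complex.normSq_add]
    simp
  -- Cauchy-Schwarz for `Q`
  have h2 : ‖b‖ ^ 2 ≤ N * ‖Q‖ ^ 2 := by
    have : ‖b‖ ≤ ‖V‖ * ‖Q‖ := norm_inner_le_norm V Q
    calc ‖b‖ ^ 2 ≤ (‖V‖ * ‖Q‖) ^ 2 := by gcongr
      _ = ‖V‖ ^ 2 * ‖Q‖ ^ 2 := by ring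
      _ ≤ N * ‖Q‖ ^ 2 := by gcongr
  -- the vector `N P - a V`
  set D : F := (N : ℂ) • P - a • V with hD
  have h3 : ‖D‖ ^ 2 ≤ N * G ^ 2 := by
    have e1 : ‖D‖ ^ 2 = N ^ 2 * ‖P‖ ^ 2 - 2 * N * ‖a‖ ^ 2 + ‖a‖ ^ 2 * ‖V‖ ^ 2 := by
      have := @norm_sub_sq ℂ F _ _ _ ((N : ℂ) • P) (a • V)
      rw [hD, this]
      have e2 : ‖(N : ℂ) • P‖ ^ 2 = N ^ 2 * ‖P‖ ^ 2 := by
        rw [norm_smul, mul_pow]; simp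
      have e3 : ‖a • V‖ ^ 2 = ‖a‖ ^ 2 * ‖V‖ ^ 2 := by rw [norm_smul, mul_pow]
      have e4 : RCLike.re ⟪(N : ℂ) • P, a • V⟫_ℂ = N * ‖a‖ ^ 2 := by
        rw [inner_smul_left, inner_smul_right]
        have : ⟪P, V⟫_ℂ = conj a := by rw [ha, inner_conj_symm]
        rw [this, Complex.conj_ofReal, Complex.mul_conj, Complex.normSq_eq_norm_sq]
        have : ((N : ℂ) * ((‖a‖ ^ 2 : ℝ) : ℂ)) = ((N * ‖a‖ ^ 2 : ℝ) : ℂ) := by push_cast; ring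
        rw [this]
        exact Complex.ofReal_re _
      rw [e2, e3, e4]
      ring
    have e5 : ‖a‖ ^ 2 * ‖V‖ ^ 2 ≤ ‖a‖ ^ 2 * N := by gcongr
    rw [e1, hG2]
    nlinarith
  have h4 : ‖D‖ * ‖V‖ ≤ N * G := by
    have h5 : (‖D‖ * ‖V‖) ^ 2 ≤ (N * G) ^ 2 := by
      calc (‖D‖ * ‖V‖) ^ 2 = ‖D‖ ^ 2 * ‖V‖ ^ 2 := by ring
        _ ≤ (N * G ^ 2) * N := by gcongr
        _ = (N * G) ^ 2 := by ring
    exact (pow_le_pow_iff_left₀ (by positivity) (by positivity) (by norm_num)).1 h5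
  -- the cross term
  have h6 : (N : ℂ) * ⟪V, A P⟫_ℂ - a * b = ⟪V, A D⟫_ℂ := by
    rw [hD, map_sub, map_smul, map_smul, inner_sub_right, inner_smul_right, inner_smul_right, hb]
  have h7 : -(κ * (N * G)) ≤ ((N : ℂ) * ⟪V, A P⟫_ℂ - a * b).re := by
    rw [h6]
    have h8 : ‖⟪V, A D⟫_ℂ‖ ≤ κ * (N * G) := by
      calc ‖⟪V, A D⟫_ℂ‖ ≤ ‖V‖ * ‖A D‖ := norm_inner_le_norm _ _
        _ ≤ ‖V‖ * (κ * ‖D‖) := by gcongr; exact hκ D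
        _ = κ * (‖D‖ * ‖V‖) := by ring
        _ ≤ κ * (N * G) := by gcongr
    have := (abs_le.1 ((Complex.abs_re_le_norm ⟪V, A D⟫_ℂ).trans h8)).1
    exact this
  have h9 : -(‖R‖ * ‖V‖) ≤ (⟪V, R⟫_ℂ).re := by
    have h8 : ‖⟪V, R⟫_ℂ‖ ≤ ‖R‖ * ‖V‖ := by
      rw [mul_comm]; exact norm_inner_le_norm _ _
    exact (abs_le.1 ((Complex.abs_re_le_norm ⟪V, R⟫_ℂ).trans h8)).1
  have h10 : ((N : ℂ) * ⟪V, A P⟫_ℂ - a * b).re = N * (⟪V, A P⟫_ℂ).re - (a * b).re := by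
    rw [Complex.sub_re, Complex.re_ofReal_mul]
  rw [h10] at h7
  rw [h1, inner_add_right, Complex.add_re]
  nlinarith

end Pool.Agent.Helper904_QS
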