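import Pool.Agent.Helper904_QS.Curv4

/-!
The curvature inequality: conclusion.
-/

set_option autoImplicit false

open MeasureTheory Set Metric Filter Topology
open scoped ContDiff InnerProductSpace ComplexConjugate

namespace Pool.Agent.Helper904_QS

section
variable {m Λ k : ℝ} {U : Set ℂ} {u σ : ℂ → ℝ}

/-- the bound for the second quantity -/
theorem curv2_main (h : Sol m Λ k U u σ) (hm : 0 < m) (hk : 1 ≤ k) (hU : IsOpen U) {ε : ℝ}
    (hε : 0 < ε) (z : ℂ) (hz : z ∈ U) {B : ℝ} (hB : 1 + Λ + 1 / m ≤ B) (hΛ : 0 < Λ) :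
    -((11 * B ^ 2 * k) ^ 2 + 2 * (48 * B ^ 6 * k ^ 2)) ≤ lap (L2 u σ k m ε) z := by
  have hs0 : 0 < σ z := hm.trans_le (h.low z hz)
  have hs : σ z ≠ 0 := hs0.ne'
  have hB1 : 1 ≤ B := by have : 0 < 1 / m := by positivity
                         linarith
  have hsB : σ z ≤ B := by
    have := h.up z hz
    have : 0 < 1 / m := by positivity
    linarith
  have hsi : 1 / σ z ≤ B := by
    have : 1 / σ z ≤ 1 / m := one_div_le_one_div_of_le hm (h.low z hz)
    linarith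
  have hΛB : Λ ≤ B := by
    have : 0 < 1 / m := by positivity
    linarith
  have hdd : ‖dd σ z‖ ≤ 2 * B := by
    calc ‖dd σ z‖ ≤ |(dd σ z).re| + |(dd σ z).im| := Complex.norm_le_abs_re_add_abs_im _
      _ ≤ Λ + Λ := by
        simp only [dd, abs_neg]
        exact add_le_add (h.d1x z hz) (h.d1y z hz)
      _ ≤ 2 * B := by linarith
  have hal : ‖al σ z‖ ≤ 2 * B ^ 2 := by
    have e : al σ z = ((1 / σ z : ℝ) : ℂ) * conj (dd σ z) := by
      apply Complex.ext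
      · simp [al, dd]; field_simp
      · simp [al, dd]; field_simp
    rw [e, norm_mul, RCLike.norm_conj, Complex.norm_real, Real.norm_of_nonneg (by positivity)]
    calc 1 / σ z * ‖dd σ z‖ ≤ B * (2 * B) := by gcongr
      _ = _ := by ring
  have hbe : ‖be σ z‖ ≤ 4 * B ^ 2 := by
    have e : be σ z = ((2 * (1 / σ z) : ℝ) : ℂ) * dd σ z := by
      apply Complex.ext
      · rw [Complex.re_ofReal_mul]; simp only [be, dd]; field_simp
      · rw [Complex.im_ofReal_mul]; simp only [be, dd]; field_simp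
    rw [e, norm_mul, Complex.norm_real, Real.norm_of_nonneg (by positivity)]
    calc 2 * (1 / σ z) * ‖dd σ z‖ ≤ 2 * B * (2 * B) := by gcongr
      _ = _ := by ring
  have hlap : |lap σ z| ≤ 2 * B := by
    calc |lap σ z| ≤ |dx (dx σ) z| + |dy (dy σ) z| := abs_add_le _ _
      _ ≤ Λ + Λ := add_le_add (h.d2xx z hz) (h.d2yy z hz)
      _ ≤ 2 * B := by linarith
  have hqq : ‖qq σ z‖ ≤ 4 * B := by
    calc ‖qq σ z‖ ≤ |(qq σ z).re| + |(qq σ z).im| := Complex.norm_le_abs_re_add_abs_im _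
      _ ≤ (|dx (dx σ) z| + |dy (dy σ) z|) + 2 * |dx (dy σ) z| := by
        simp only [qq, q1, q2]
        gcongr
        · exact abs_sub _ _
        · rw [abs_mul]; norm_num
      _ ≤ (Λ + Λ) + 2 * Λ := by
        gcongr
        · exact h.d2xx z hz
        · exact h.d2yy z hz
        · exact h.d2xy z hz
      _ ≤ 4 * B := by linarith
  set X : ℝ := ‖vV (f2 k u σ) (g2 k u σ) z‖ with hX
  have hX0 : 0 ≤ X := norm_nonneg _
  have hq : ‖qq u z‖ ≤ X := by
    rw [← V2_0 (k := k) (σ := σ)]; exact PiLp.norm_apply_le _ _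
  have hk0 : 0 < k := by linarith
  have hkv : ‖kv k u z‖ ≤ B * X := by
    have h1 : ‖vV (f2 k u σ) (g2 k u σ) z 1‖ ≤ X := PiLp.norm_apply_le _ _
    have h2 : kv k u z = ((1 / σ z : ℝ) : ℂ) * vV (f2 k u σ) (g2 k u σ) z 1 := by
      rw [V2_1]
      apply Complex.ext
      · rw [Complex.re_ofReal_mul]; simp only [kv, bx]; field_simp
      · rw [Complex.im_ofReal_mul]; simp only [kv, by']; field_simp
    rw [h2, norm_mul, Complex.norm_real, Real.norm_of_nonneg (by positivity)]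
    gcongr
  have hT : |k ^ 2 * u z| ≤ B ^ 2 * X := by
    have h1 : |bz k u σ z| ≤ X := by
      have : ‖vV (f2 k u σ) (g2 k u σ) z 2‖ ≤ X := PiLp.norm_apply_le _ _
      rw [V2_2] at this
      have h2 := Complex.abs_re_le_norm (⟨bz k u σ z, 0⟩ : ℂ)
      exact h2.trans this
    have h2 : k ^ 2 * u z = (1 / σ z) ^ 2 * bz k u σ z := by unfold bz; field_simp
    rw [h2, abs_mul, abs_of_pos (by positivity : 0 < (1 / σ z) ^ 2)]
    gcongr
  have hkk : k ≤ k ^ 2 := by nlinarith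
  have hk1 : 1 ≤ k ^ 2 := by nlinarith
  have key := curv_lower (f2_contDiff h) (g2_contDiff h) (ε := (m * k) ^ 2 * ε) (by positivity) z
    (A2 (al σ z) (be σ z) ((k * σ z : ℝ) : ℂ)) (11 * B ^ 2 * k)
    (48 * B ^ 6 * k ^ 2) (by positivity)
    (fun x => (A2_bound _ _ _ x).trans (by
      gcongr
      rw [Complex.norm_real, Real.norm_of_nonneg (by positivity)]
      calc k * σ z + ‖be σ z‖ + 3 * ‖al σ z‖ ≤ k * B + 4 * B ^ 2 + 3 * (2 * B ^ 2) := by gcongr
        _ ≤ k * B ^ 2 + 4 * B ^ 2 * k + 6 * B ^ 2 * k := by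
          have : B ≤ B ^ 2 := by nlinarith
          have : 0 < B ^ 2 := by positivity
          nlinarith
        _ = _ := by ring)) (by positivity) (V2_struct h hU z hz hs) ?_
  · have e : (fun z => Real.log (nN (f2 k u σ) (g2 k u σ) ((m * k) ^ 2 * ε) z)) =
        L2 u σ k m ε := by
      ext y; rw [L2, N2_eq]
    rw [e] at key
    exact key.2
  · have e : vW (f2 k u σ) (g2 k u σ) z - A2 (al σ z) (be σ z) ((k * σ z : ℝ) : ℂ)
          (vP (f2 k u σ) (g2 k u σ) z) =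
        WithLp.toLp 2 ![vW (f2 k u σ) (g2 k u σ) z 0 -
            (-(((k * σ z : ℝ) : ℂ) * vP (f2 k u σ) (g2 k u σ) z 1) -
            be σ z * vP (f2 k u σ) (g2 k u σ) z 2),
          vW (f2 k u σ) (g2 k u σ) z 1 - al σ z * vP (f2 k u σ) (g2 k u σ) z 1,
          vW (f2 k u σ) (g2 k u σ) z 2 - 2 * al σ z * vP (f2 k u σ) (g2 k u σ) z 2] := by
      ext i
      fin_cases i
      · simp [A2]
      · simp [A2]
      · simp [A2]
    rw [e]
    refine (norm_toLp3_le _).trans ?_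
    simp only [Matrix.cons_val_zero, Matrix.cons_val_one, Matrix.cons_val]
    rw [R2_0 h hU z hz hs, R2_1 h hU z hz hs, R2_2 h z hz hs]
    have b0 : ‖((2 * (k ^ 2 * u z) : ℝ) : ℂ) * (dd σ z * dd σ z) -
        ((2 * σ z * (k ^ 2 * u z) : ℝ) : ℂ) * qq σ z -
        ((k * σ z : ℝ) : ℂ) * (dd σ z * kv k u z)‖ ≤ 18 * B ^ 6 * k ^ 2 * X := by
      have t1 : ‖((2 * (k ^ 2 * u z) : ℝ) : ℂ) * (dd σ z * dd σ z)‖ ≤ 8 * B ^ 6 * k ^ 2 * X := by
        rw [norm_mul, norm_mul (dd σ z), Complex.norm_real, Real.norm_eq_abs, abs_mul, abs_two]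
        calc 2 * |k ^ 2 * u z| * (‖dd σ z‖ * ‖dd σ z‖) ≤
              2 * (B ^ 2 * X) * (2 * B * (2 * B)) := by gcongr
          _ = 8 * B ^ 4 * 1 * X := by ring
          _ ≤ _ := by gcongr; norm_num
      have t2 : ‖((2 * σ z * (k ^ 2 * u z) : ℝ) : ℂ) * qq σ z‖ ≤ 8 * B ^ 6 * k ^ 2 * X := by
        rw [norm_mul, Complex.norm_real, Real.norm_eq_abs, abs_mul,
          abs_of_pos (by positivity : 0 < 2 * σ z)]
        calc 2 * σ z * |k ^ 2 * u z| * ‖qq σ z‖ ≤ 2 * B * (B ^ 2 * X) * (4 * B) := by gcongr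
          _ = 8 * B ^ 4 * 1 * X := by ring
          _ ≤ _ := by gcongr; norm_num
      have t3 : ‖((k * σ z : ℝ) : ℂ) * (dd σ z * kv k u z)‖ ≤ 2 * B ^ 6 * k ^ 2 * X := by
        rw [norm_mul, norm_mul (dd σ z), Complex.norm_real, Real.norm_of_nonneg (by positivity)]
        calc k * σ z * (‖dd σ z‖ * ‖kv k u z‖) ≤ k * B * (2 * B * (B * X)) := by gcongr
          _ = 2 * B ^ 3 * k * X := by ring
          _ ≤ _ := by gcongr; norm_num
      calc _ ≤ ‖((2 * (k ^ 2 * u z) : ℝ) : ℂ) * (dd σ z * dd σ z)‖ +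
            ‖((2 * σ z * (k ^ 2 * u z) : ℝ) : ℂ) * qq σ z‖ +
            ‖((k * σ z : ℝ) : ℂ) * (dd σ z * kv k u z)‖ := by
            refine (norm_sub_le _ _).trans ?_
            gcongr
            exact norm_sub_le _ _
        _ ≤ 8 * B ^ 6 * k ^ 2 * X + 8 * B ^ 6 * k ^ 2 * X + 2 * B ^ 6 * k ^ 2 * X := by gcongr
        _ = _ := by ring
    have b1 : ‖-(((3 * k * σ z ^ 2 * (k ^ 2 * u z) : ℝ) : ℂ) * dd σ z) -
        ((k ^ 2 * σ z ^ 3 : ℝ) : ℂ) * kv k u z + ((lap σ z : ℝ) : ℂ) * kv k u z -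
        ((1 / σ z : ℝ) : ℂ) * (dd σ z * conj (dd σ z) * kv k u z)‖ ≤
        13 * B ^ 6 * k ^ 2 * X := by
      have t1 : ‖((3 * k * σ z ^ 2 * (k ^ 2 * u z) : ℝ) : ℂ) * dd σ z‖ ≤
          6 * B ^ 6 * k ^ 2 * X := by
        rw [norm_mul, Complex.norm_real, Real.norm_eq_abs, abs_mul,
          abs_of_pos (by positivity : 0 < 3 * k * σ z ^ 2)]
        calc 3 * k * σ z ^ 2 * |k ^ 2 * u z| * ‖dd σ z‖ ≤
              3 * k * B ^ 2 * (B ^ 2 * X) * (2 * B) := by gcongr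
          _ = 6 * B ^ 5 * k * X := by ring
          _ ≤ _ := by gcongr; norm_num
      have t2 : ‖((k ^ 2 * σ z ^ 3 : ℝ) : ℂ) * kv k u z‖ ≤ B ^ 6 * k ^ 2 * X := by
        rw [norm_mul, Complex.norm_real, Real.norm_of_nonneg (by positivity)]
        calc k ^ 2 * σ z ^ 3 * ‖kv k u z‖ ≤ k ^ 2 * B ^ 3 * (B * X) := by gcongr
          _ = B ^ 4 * k ^ 2 * X := by ring
          _ ≤ _ := by gcongr <;> norm_num
      have t3 : ‖((lap σ z : ℝ) : ℂ) * kv k u z‖ ≤ 2 * B ^ 6 * k ^ 2 * X := by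
        rw [norm_mul, Complex.norm_real, Real.norm_eq_abs]
        calc |lap σ z| * ‖kv k u z‖ ≤ 2 * B * (B * X) := by gcongr
          _ = 2 * B ^ 2 * 1 * X := by ring
          _ ≤ _ := by gcongr; norm_num
      have t4 : ‖((1 / σ z : ℝ) : ℂ) * (dd σ z * conj (dd σ z) * kv k u z)‖ ≤
          4 * B ^ 6 * k ^ 2 * X := by
        rw [norm_mul, Complex.norm_real, norm_mul, norm_mul, RCLike.norm_conj,
          Real.norm_of_nonneg (by positivity)]
        calc 1 / σ z * (‖dd σ z‖ * ‖dd σ z‖ * ‖kv k u z‖) ≤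
              B * (2 * B * (2 * B) * (B * X)) := by gcongr
          _ = 4 * B ^ 4 * 1 * X := by ring
          _ ≤ _ := by gcongr; norm_num
      calc _ ≤ ‖((3 * k * σ z ^ 2 * (k ^ 2 * u z) : ℝ) : ℂ) * dd σ z‖ +
            ‖((k ^ 2 * σ z ^ 3 : ℝ) : ℂ) * kv k u z‖ + ‖((lap σ z : ℝ) : ℂ) * kv k u z‖ +
            ‖((1 / σ z : ℝ) : ℂ) * (dd σ z * conj (dd σ z) * kv k u z)‖ := by
            refine (norm_sub_le _ _).trans ?_
            gcongr
            refine (norm_add_le _ _).trans ?_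
            gcongr
            refine (norm_sub_le _ _).trans ?_
            rw [norm_neg]
        _ ≤ 6 * B ^ 6 * k ^ 2 * X + B ^ 6 * k ^ 2 * X + 2 * B ^ 6 * k ^ 2 * X +
            4 * B ^ 6 * k ^ 2 * X := by gcongr
        _ = _ := by ring
    have b2 : ‖-((k ^ 2 * σ z ^ 4 * (k ^ 2 * u z) : ℝ) : ℂ) +
        ((2 * k * σ z : ℝ) : ℂ) * conj (conj (dd σ z) * kv k u z) -
        ((2 * (k ^ 2 * u z) : ℝ) : ℂ) * (dd σ z * conj (dd σ z)) +
        ((2 * σ z * lap σ z * (k ^ 2 * u z) : ℝ) : ℂ)‖ ≤ 17 * B ^ 6 * k ^ 2 * X := by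
      have t1 : ‖((k ^ 2 * σ z ^ 4 * (k ^ 2 * u z) : ℝ) : ℂ)‖ ≤ B ^ 6 * k ^ 2 * X := by
        rw [Complex.norm_real, Real.norm_eq_abs, abs_mul,
          abs_of_pos (by positivity : 0 < k ^ 2 * σ z ^ 4)]
        calc k ^ 2 * σ z ^ 4 * |k ^ 2 * u z| ≤ k ^ 2 * B ^ 4 * (B ^ 2 * X) := by gcongr
          _ = _ := by ring
      have t2 : ‖((2 * k * σ z : ℝ) : ℂ) * conj (conj (dd σ z) * kv k u z)‖ ≤
          4 * B ^ 6 * k ^ 2 * X := by
        rw [norm_mul, RCLike.norm_conj, norm_mul, RCLike.norm_conj, Complex.norm_real,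
          Real.norm_of_nonneg (by positivity)]
        calc 2 * k * σ z * (‖dd σ z‖ * ‖kv k u z‖) ≤ 2 * k * B * (2 * B * (B * X)) := by gcongr
          _ = 4 * B ^ 3 * k * X := by ring
          _ ≤ _ := by gcongr; norm_num
      have t3 : ‖((2 * (k ^ 2 * u z) : ℝ) : ℂ) * (dd σ z * conj (dd σ z))‖ ≤
          8 * B ^ 6 * k ^ 2 * X := by
        rw [norm_mul, norm_mul (dd σ z), Complex.norm_real, RCLike.norm_conj, Real.norm_eq_abs,
          abs_mul, abs_two]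
        calc 2 * |k ^ 2 * u z| * (‖dd σ z‖ * ‖dd σ z‖) ≤
              2 * (B ^ 2 * X) * (2 * B * (2 * B)) := by gcongr
          _ = 8 * B ^ 4 * 1 * X := by ring
          _ ≤ _ := by gcongr; norm_num
      have t4 : ‖((2 * σ z * lap σ z * (k ^ 2 * u z) : ℝ) : ℂ)‖ ≤ 4 * B ^ 6 * k ^ 2 * X := by
        rw [Complex.norm_real, Real.norm_eq_abs, abs_mul, abs_mul,
          abs_of_pos (by positivity : 0 < 2 * σ z)]
        calc 2 * σ z * |lap σ z| * |k ^ 2 * u z| ≤ 2 * B * (2 * B) * (B ^ 2 * X) := by gcongr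
          _ = 4 * B ^ 4 * 1 * X := by ring
          _ ≤ _ := by gcongr; norm_num
      calc _ ≤ ‖((k ^ 2 * σ z ^ 4 * (k ^ 2 * u z) : ℝ) : ℂ)‖ +
            ‖((2 * k * σ z : ℝ) : ℂ) * conj (conj (dd σ z) * kv k u z)‖ +
            ‖((2 * (k ^ 2 * u z) : ℝ) : ℂ) * (dd σ z * conj (dd σ z))‖ +
            ‖((2 * σ z * lap σ z * (k ^ 2 * u z) : ℝ) : ℂ)‖ := by
            refine (norm_add_le _ _).trans ?_
            gcongr
            refine (norm_sub_le _ _).trans ?_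
            gcongr
            refine (norm_add_le _ _).trans ?_
            rw [norm_neg]
        _ ≤ B ^ 6 * k ^ 2 * X + 4 * B ^ 6 * k ^ 2 * X + 8 * B ^ 6 * k ^ 2 * X +
            4 * B ^ 6 * k ^ 2 * X := by gcongr
        _ = _ := by ring
    linarith

end

namespace PCURV

theorem t_CURV : S_CURV := by
  intro m Λ hm hmΛ
  have hΛ : 0 < Λ := hm.trans_le hmΛ
  set B := 1 + Λ + 1 / m with hB
  have hB1 : 1 ≤ B := by have : 0 < 1 / m := by positivity
                         linarith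
  refine ⟨(2 * B ^ 2) ^ 2 + 2 * (40 * B ^ 4) + ((11 * B ^ 2) ^ 2 + 2 * (48 * B ^ 6)),
    by positivity, ?_⟩
  intro k ε U u σ hk hε hU h z hz
  have hk1 : 1 ≤ k ^ 2 := by nlinarith
  have k1 := (curv1_main h hm hk hU hε z hz hB.le hΛ).2
  have k2 := curv2_main h hm hk hU hε z hz hB.le hΛ
  have p1 : 0 < B ^ 4 := by positivity
  have p2 : 0 < B ^ 6 := by positivity
  constructor
  · refine le_trans ?_ k1
    have : 0 ≤ B ^ 4 * (k ^ 2 - 1) := mul_nonneg p1.le (by linarith)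
    have : 0 ≤ B ^ 4 * k ^ 2 := by positivity
    have : 0 ≤ B ^ 6 * k ^ 2 := by positivity
    nlinarith
  · refine le_trans ?_ k2
    have : 0 ≤ B ^ 4 * k ^ 2 := by positivity
    nlinarith

end PCURV

end Pool.Agent.Helper904_QS
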