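import Pool.Agent.Helper904_QS.Calc
import Pool.Agent.Helper904_QS.Alg

/-!
The curvature inequality for a vector valued function with components `f i + I g i`.
-/

set_option autoImplicit false

open MeasureTheory Set Metric Filter Topology
open scoped ContDiff InnerProductSpace ComplexConjugate

namespace Pool.Agent.Helper904_QS

variable {n : ℕ}

/-- the vector `V` -/
noncomputable def vV (f g : Fin n → ℂ → ℝ) (z : ℂ) : EuclideanSpace ℂ (Fin n) :=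
  WithLp.toLp 2 fun i => ⟨f i z, g i z⟩
/-- the vector `2∂V` -/
noncomputable def vP (f g : Fin n → ℂ → ℝ) (z : ℂ) : EuclideanSpace ℂ (Fin n) :=
  WithLp.toLp 2 fun i => ⟨dx (f i) z + dy (g i) z, dx (g i) z - dy (f i) z⟩
/-- the vector `2∂̄V` -/
noncomputable def vQ (f g : Fin n → ℂ → ℝ) (z : ℂ) : EuclideanSpace ℂ (Fin n) :=
  WithLp.toLp 2 fun i => ⟨dx (f i) z - dy (g i) z, dx (g i) z + dy (f i) z⟩
/-- the vector `ΔV` -/
noncomputable def vW (f g : Fin n → ℂ → ℝ) (z : ℂ) : EuclideanSpace ℂ (Fin n) :=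
  WithLp.toLp 2 fun i => ⟨lap (f i) z, lap (g i) z⟩

/-- `N = |V|² + ε` -/
noncomputable def nN (f g : Fin n → ℂ → ℝ) (ε : ℝ) (z : ℂ) : ℝ :=
  ∑ i, (f i z ^ 2 + g i z ^ 2) + ε

theorem vec_normsq (a b : Fin n → ℝ) :
    ‖(WithLp.toLp 2 (fun i => (⟨a i, b i⟩ : ℂ)) : EuclideanSpace ℂ (Fin n))‖ ^ 2 =
      ∑ i, (a i ^ 2 + b i ^ 2) := by
  rw [EuclideanSpace.norm_sq_eq]
  refine Finset.sum_congr rfl fun i _ => ?_
  rw [← Complex.normSq_eq_norm_sq]
  simp [Complex.normSq_apply]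
  ring

theorem vec_inner (a b c d : Fin n → ℝ) :
    ⟪(WithLp.toLp 2 (fun i => (⟨a i, b i⟩ : ℂ)) : EuclideanSpace ℂ (Fin n)),
      (WithLp.toLp 2 (fun i => (⟨c i, d i⟩ : ℂ)) : EuclideanSpace ℂ (Fin n))⟫_ℂ =
      ⟨∑ i, (a i * c i + b i * d i), ∑ i, (a i * d i - b i * c i)⟩ := by
  rw [PiLp.inner_apply]
  apply Complex.ext
  · rw [Complex.re_sum]
    refine Finset.sum_congr rfl fun i _ => ?_
    simp [Complex.mul_re]; ring
  · rw [Complex.im_sum]
    refine Finset.sum_congr rfl fun i _ => ?_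
    simp [Complex.mul_im]; ring

theorem nN_contDiff {f g : Fin n → ℂ → ℝ} (hf : ∀ i, ContDiff ℝ 2 (f i))
    (hg : ∀ i, ContDiff ℝ 2 (g i)) (ε : ℝ) : ContDiff ℝ 2 (nN f g ε) := by
  unfold nN
  exact (ContDiff.sum fun i _ => ((hf i).pow 2).add ((hg i).pow 2)).add contDiff_const

theorem dx_sum {ι : Type*} (s : Finset ι) (F : ι → ℂ → ℝ) (z : ℂ)
    (hF : ∀ i ∈ s, DifferentiableAt ℝ (F i) z) :
    dx (fun z => ∑ i ∈ s, F i z) z = ∑ i ∈ s, dx (F i) z := by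
  unfold dx
  rw [fderiv_fun_sum hF]
  simp

theorem dy_sum {ι : Type*} (s : Finset ι) (F : ι → ℂ → ℝ) (z : ℂ)
    (hF : ∀ i ∈ s, DifferentiableAt ℝ (F i) z) :
    dy (fun z => ∑ i ∈ s, F i z) z = ∑ i ∈ s, dy (F i) z := by
  unfold dy
  rw [fderiv_fun_sum hF]
  simp

theorem dx_nN {f g : Fin n → ℂ → ℝ} (hf : ∀ i, ContDiff ℝ 2 (f i))
    (hg : ∀ i, ContDiff ℝ 2 (g i)) (ε : ℝ) (z : ℂ) :
    dx (nN f g ε) z = ∑ i, (2 * f i z * dx (f i) z + 2 * g i z * dx (g i) z) := by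
  have df := fun i => (hf i).differentiable (by norm_num)
  have dg := fun i => (hg i).differentiable (by norm_num)
  unfold nN
  have dd : ∀ i, DifferentiableAt ℝ (fun z => f i z ^ 2 + g i z ^ 2) z :=
    fun i => ((df i z).fun_pow 2).fun_add ((dg i z).fun_pow 2)
  rw [dx_add (DifferentiableAt.fun_sum fun i _ => dd i)
    (differentiableAt_const ε), dx_const, add_zero, dx_sum _ _ _ (fun i _ => dd i)]
  refine Finset.sum_congr rfl fun i _ => ?_
  rw [dx_add ((df i z).fun_pow 2) ((dg i z).fun_pow 2), dx_sq (df i z), dx_sq (dg i z)]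

theorem dy_nN {f g : Fin n → ℂ → ℝ} (hf : ∀ i, ContDiff ℝ 2 (f i))
    (hg : ∀ i, ContDiff ℝ 2 (g i)) (ε : ℝ) (z : ℂ) :
    dy (nN f g ε) z = ∑ i, (2 * f i z * dy (f i) z + 2 * g i z * dy (g i) z) := by
  have df := fun i => (hf i).differentiable (by norm_num)
  have dg := fun i => (hg i).differentiable (by norm_num)
  unfold nN
  have dd : ∀ i, DifferentiableAt ℝ (fun z => f i z ^ 2 + g i z ^ 2) z :=
    fun i => ((df i z).fun_pow 2).fun_add ((dg i z).fun_pow 2)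
  rw [dy_add (DifferentiableAt.fun_sum fun i _ => dd i)
    (differentiableAt_const ε), dy_const, add_zero, dy_sum _ _ _ (fun i _ => dd i)]
  refine Finset.sum_congr rfl fun i _ => ?_
  rw [dy_add ((df i z).fun_pow 2) ((dg i z).fun_pow 2), dy_sq (df i z), dy_sq (dg i z)]

theorem lap_sum {ι : Type*} (s : Finset ι) (F : ι → ℂ → ℝ) (z : ℂ)
    (hF : ∀ i ∈ s, ContDiff ℝ 2 (F i)) :
    lap (fun z => ∑ i ∈ s, F i z) z = ∑ i ∈ s, lap (F i) z := by
  have h1 : dx (fun z => ∑ i ∈ s, F i z) = fun z => ∑ i ∈ s, dx (F i) z := by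
    ext y; exact dx_sum s F y fun i hi => (hF i hi).differentiable (by norm_num) y
  have h2 : dy (fun z => ∑ i ∈ s, F i z) = fun z => ∑ i ∈ s, dy (F i) z := by
    ext y; exact dy_sum s F y fun i hi => (hF i hi).differentiable (by norm_num) y
  unfold lap
  rw [h1, h2, dx_sum s _ z fun i hi => (contDiff_dx1 (hF i hi)).differentiable (by norm_num) z,
    dy_sum s _ z fun i hi => (contDiff_dy1 (hF i hi)).differentiable (by norm_num) z,
    ← Finset.sum_add_distrib]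

theorem lap_nN {f g : Fin n → ℂ → ℝ} (hf : ∀ i, ContDiff ℝ 2 (f i))
    (hg : ∀ i, ContDiff ℝ 2 (g i)) (ε : ℝ) (z : ℂ) :
    lap (nN f g ε) z = ∑ i, (2 * gsq (f i) z + 2 * f i z * lap (f i) z +
      (2 * gsq (g i) z + 2 * g i z * lap (g i) z)) := by
  unfold nN
  rw [lap_add (ContDiff.sum fun i _ => ((hf i).pow 2).add ((hg i).pow 2)) contDiff_const,
    lap_const, add_zero, lap_sum _ _ _ (fun i _ => ((hf i).pow 2).add ((hg i).pow 2))]
  refine Finset.sum_congr rfl fun i _ => ?_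
  rw [lap_add ((hf i).pow 2) ((hg i).pow 2), lap_sq (hf i), lap_sq (hg i)]

/-- The curvature inequality in general form. -/
theorem curv_gen {f g : Fin n → ℂ → ℝ} (hf : ∀ i, ContDiff ℝ 2 (f i))
    (hg : ∀ i, ContDiff ℝ 2 (g i)) {ε : ℝ} (hε : 0 < ε) (z : ℂ)
    (A : EuclideanSpace ℂ (Fin n) →ₗ[ℂ] EuclideanSpace ℂ (Fin n)) (κ ρ G : ℝ) (hκ0 : 0 ≤ κ)
    (hκ : ∀ x, ‖A x‖ ≤ κ * ‖x‖) (hρ0 : 0 ≤ ρ)
    (hb : ⟪vV f g z, vQ f g z⟫_ℂ = ⟪vV f g z, A (vV f g z)⟫_ℂ)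
    (hR : ‖vW f g z - A (vP f g z)‖ ≤ ρ * ‖vV f g z‖) (hG : 0 ≤ G)
    (hG2 : G ^ 2 = nN f g ε z * ‖vP f g z‖ ^ 2 - ‖⟪vV f g z, vP f g z⟫_ℂ‖ ^ 2) :
    G ^ 2 - 2 * κ * nN f g ε z * G - 2 * ρ * nN f g ε z ^ 2 ≤
      nN f g ε z ^ 2 * lap (fun z => Real.log (nN f g ε z)) z := by
  have hNpos : ∀ z, 0 < nN f g ε z := by
    intro z
    unfold nN
    have : 0 ≤ ∑ i, (f i z ^ 2 + g i z ^ 2) := Finset.sum_nonneg fun i _ => by positivity
    linarith
  set N := nN f g ε z with hN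
  have hN0 : 0 < N := hNpos z
  have hVN : ‖vV f g z‖ ^ 2 ≤ N := by
    rw [vV, vec_normsq, hN, nN]; linarith
  have key := curv_alg (vV f g z) (vP f g z) (vQ f g z) (vW f g z - A (vP f g z)) A κ N G hκ0 hκ
    hVN hN0 hG hG2 hb
  rw [add_sub_cancel] at key
  have e1 : lap (fun z => Real.log (nN f g ε z)) z =
      (N * lap (nN f g ε) z - gsq (nN f g ε) z) / N ^ 2 :=
    lap_log (nN_contDiff hf hg ε) (fun z => (hNpos z).ne') z
  have e2 : N ^ 2 * lap (fun z => Real.log (nN f g ε z)) z =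
      N * lap (nN f g ε) z - gsq (nN f g ε) z := by
    rw [e1]; field_simp
  have e3 : lap (nN f g ε) z = ‖vP f g z‖ ^ 2 + ‖vQ f g z‖ ^ 2 +
      2 * (⟪vV f g z, vW f g z⟫_ℂ).re := by
    rw [lap_nN hf hg, vP, vQ, vV, vW, vec_normsq, vec_normsq, vec_inner]
    simp only
    rw [Finset.mul_sum, ← Finset.sum_add_distrib, ← Finset.sum_add_distrib]
    refine Finset.sum_congr rfl fun i _ => ?_
    unfold gsq
    ring
  have e4 : gsq (nN f g ε) z = ‖⟪vV f g z, vP f g z⟫_ℂ + conj ⟪vV f g z, vQ f g z⟫_ℂ‖ ^ 2 := by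
    rw [vP, vQ, vV, vec_inner, vec_inner, ← Complex.normSq_eq_norm_sq, Complex.normSq_apply]
    simp only [Complex.add_re, Complex.add_im, Complex.conj_re, Complex.conj_im]
    unfold gsq
    rw [dx_nN hf hg, dy_nN hf hg]
    have h1 : ∑ i, (2 * f i z * dx (f i) z + 2 * g i z * dx (g i) z) =
        ∑ i, (f i z * (dx (f i) z + dy (g i) z) + g i z * (dx (g i) z - dy (f i) z)) +
        ∑ i, (f i z * (dx (f i) z - dy (g i) z) + g i z * (dx (g i) z + dy (f i) z)) := by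
      rw [← Finset.sum_add_distrib]
      refine Finset.sum_congr rfl fun i _ => ?_
      ring
    have h2 : ∑ i, (2 * f i z * dy (f i) z + 2 * g i z * dy (g i) z) =
        -(∑ i, (f i z * (dx (g i) z - dy (f i) z) - g i z * (dx (f i) z + dy (g i) z)) +
        -∑ i, (f i z * (dx (g i) z + dy (f i) z) - g i z * (dx (f i) z - dy (g i) z))) := by
      rw [← sub_eq_add_neg, ← Finset.sum_sub_distrib, ← Finset.sum_neg_distrib]
      refine Finset.sum_congr rfl fun i _ => ?_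
      ring
    rw [h1, h2]
    ring
  rw [e2, e3, e4]
  have hRV : ‖vW f g z - A (vP f g z)‖ * ‖vV f g z‖ ≤ ρ * N := by
    calc _ ≤ (ρ * ‖vV f g z‖) * ‖vV f g z‖ := by gcongr
      _ = ρ * ‖vV f g z‖ ^ 2 := by ring
      _ ≤ ρ * N := by gcongr
  nlinarith [mul_le_mul_of_nonneg_left hRV hN0.le]

end Pool.Agent.Helper904_QS
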