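import Pool.Agent.Helper904_QS.Curv0

/-!
Derivatives of the components of `V₁`, `V₂` at a point of `U`, in terms of the jets of `u`, `σ`.
-/

set_option autoImplicit false

open MeasureTheory Set Metric Filter Topology
open scoped ContDiff InnerProductSpace ComplexConjugate

namespace Pool.Agent.Helper904_QS

theorem lap_dx {u : ℂ → ℝ} (hu : ContDiff ℝ 3 u) (z : ℂ) : lap (dx u) z = dx (lap u) z := by
  have h2 : ContDiff ℝ 2 u := hu.of_le (by norm_num)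
  have e1 : dy (dx u) = dx (dy u) := by ext y; exact (dx_dy h2 y).symm
  have hdy : ContDiff ℝ 2 (dy u) := contDiff_dy2 hu
  have hdx : ContDiff ℝ 2 (dx u) := contDiff_dx2 hu
  have e2 : dx (lap u) z = dx (dx (dx u)) z + dx (dy (dy u)) z := by
    have : lap u = fun z => dx (dx u) z + dy (dy u) z := rfl
    rw [this, dx_add ((contDiff_dx1 hdx).differentiable (by norm_num) z)
      ((contDiff_dy1 hdy).differentiable (by norm_num) z)]
  rw [e2, dx_dy hdy]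
  unfold lap
  rw [e1]

theorem lap_dy {u : ℂ → ℝ} (hu : ContDiff ℝ 3 u) (z : ℂ) : lap (dy u) z = dy (lap u) z := by
  have h2 : ContDiff ℝ 2 u := hu.of_le (by norm_num)
  have e1 : dx (dy u) = dy (dx u) := by ext y; exact dx_dy h2 y
  have hdy : ContDiff ℝ 2 (dy u) := contDiff_dy2 hu
  have hdx : ContDiff ℝ 2 (dx u) := contDiff_dx2 hu
  have e2 : dy (lap u) z = dy (dx (dx u)) z + dy (dy (dy u)) z := by
    have : lap u = fun z => dx (dx u) z + dy (dy u) z := rfl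
    rw [this, dy_add ((contDiff_dx1 hdx).differentiable (by norm_num) z)
      ((contDiff_dy1 hdy).differentiable (by norm_num) z)]
  rw [e2, ← dx_dy hdx]
  unfold lap
  rw [e1]

section
variable {m Λ k : ℝ} {U : Set ℂ} {u σ : ℂ → ℝ}

/-- the right side of the equation -/
noncomputable def rhs (k : ℝ) (u σ : ℂ → ℝ) (z : ℂ) : ℝ := -(k ^ 2 * (σ z ^ 2 * u z))

theorem Sol.lap_eq (h : Sol m Λ k U u σ) : ∀ z ∈ U, lap u z = rhs k u σ z := by
  intro z hz; rw [h.eq z hz]; unfold rhs; ring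

theorem Sol.du (h : Sol m Λ k U u σ) : Differentiable ℝ u := h.hu.differentiable (by norm_num)
theorem Sol.dux (h : Sol m Λ k U u σ) : Differentiable ℝ (dx u) :=
  (contDiff_dx3 h.hu).differentiable (by norm_num)
theorem Sol.duy (h : Sol m Λ k U u σ) : Differentiable ℝ (dy u) :=
  (contDiff_dy3 h.hu).differentiable (by norm_num)
theorem Sol.ds (h : Sol m Λ k U u σ) : Differentiable ℝ σ := h.hs.differentiable (by norm_num)
theorem Sol.dsx (h : Sol m Λ k U u σ) : Differentiable ℝ (dx σ) :=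
  (contDiff_dx2 h.hs).differentiable (by norm_num)
theorem Sol.dsy (h : Sol m Λ k U u σ) : Differentiable ℝ (dy σ) :=
  (contDiff_dy2 h.hs).differentiable (by norm_num)
theorem Sol.s2 (h : Sol m Λ k U u σ) : ContDiff ℝ 2 σ := h.hs.of_le (by norm_num)
theorem Sol.u2 (h : Sol m Λ k U u σ) : ContDiff ℝ 2 u := h.hu.of_le (by norm_num)
theorem Sol.u3 (h : Sol m Λ k U u σ) : ContDiff ℝ 3 u := h.hu.of_le (by norm_num)

theorem rhs_dx (h : Sol m Λ k U u σ) (z : ℂ) :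
    dx (rhs k u σ) z = -(k ^ 2 * (2 * σ z * dx σ z * u z + σ z ^ 2 * dx u z)) := by
  have e : rhs k u σ = fun z => (-k ^ 2) * (σ z ^ 2 * u z) := by ext; unfold rhs; ring
  rw [e, dx_const_mul _ (((h.ds z).fun_pow 2).fun_mul (h.du z)), dx_mul ((h.ds z).fun_pow 2) (h.du z),
    dx_sq (h.ds z)]
  ring

theorem rhs_dy (h : Sol m Λ k U u σ) (z : ℂ) :
    dy (rhs k u σ) z = -(k ^ 2 * (2 * σ z * dy σ z * u z + σ z ^ 2 * dy u z)) := by
  have e : rhs k u σ = fun z => (-k ^ 2) * (σ z ^ 2 * u z) := by ext; unfold rhs; ring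
  rw [e, dy_const_mul _ (((h.ds z).fun_pow 2).fun_mul (h.du z)), dy_mul ((h.ds z).fun_pow 2) (h.du z),
    dy_sq (h.ds z)]
  ring

/-- Derivative of `-(k² (2 σ a u + σ² b))`. -/
theorem dx_rr (h : Sol m Λ k U u σ) {a b : ℂ → ℝ} {z : ℂ} (ha : DifferentiableAt ℝ a z)
    (hb : DifferentiableAt ℝ b z) :
    dx (fun z => -(k ^ 2 * (2 * σ z * a z * u z + σ z ^ 2 * b z))) z =
      -(k ^ 2 * (2 * dx σ z * a z * u z + 2 * σ z * dx a z * u z + 2 * σ z * a z * dx u z +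
        2 * σ z * dx σ z * b z + σ z ^ 2 * dx b z)) := by
  have e : (fun z => -(k ^ 2 * (2 * σ z * a z * u z + σ z ^ 2 * b z))) =
      fun z => (-k ^ 2) * (2 * (σ z * a z * u z) + σ z ^ 2 * b z) := by ext; ring
  have s1 := h.ds z
  have s2 := h.du z
  rw [e, dx_const_mul _ (((((s1.fun_mul ha).fun_mul s2).const_mul 2)).fun_add
      ((s1.fun_pow 2).fun_mul hb)),
    dx_add (((s1.fun_mul ha).fun_mul s2).const_mul 2) ((s1.fun_pow 2).fun_mul hb),
    dx_const_mul _ ((s1.fun_mul ha).fun_mul s2), dx_mul (s1.fun_mul ha) s2, dx_mul s1 ha,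
    dx_mul (s1.fun_pow 2) hb, dx_sq s1]
  ring

theorem dy_rr (h : Sol m Λ k U u σ) {a b : ℂ → ℝ} {z : ℂ} (ha : DifferentiableAt ℝ a z)
    (hb : DifferentiableAt ℝ b z) :
    dy (fun z => -(k ^ 2 * (2 * σ z * a z * u z + σ z ^ 2 * b z))) z =
      -(k ^ 2 * (2 * dy σ z * a z * u z + 2 * σ z * dy a z * u z + 2 * σ z * a z * dy u z +
        2 * σ z * dy σ z * b z + σ z ^ 2 * dy b z)) := by
  have e : (fun z => -(k ^ 2 * (2 * σ z * a z * u z + σ z ^ 2 * b z))) =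
      fun z => (-k ^ 2) * (2 * (σ z * a z * u z) + σ z ^ 2 * b z) := by ext; ring
  have s1 := h.ds z
  have s2 := h.du z
  rw [e, dy_const_mul _ (((((s1.fun_mul ha).fun_mul s2).const_mul 2)).fun_add
      ((s1.fun_pow 2).fun_mul hb)),
    dy_add (((s1.fun_mul ha).fun_mul s2).const_mul 2) ((s1.fun_pow 2).fun_mul hb),
    dy_const_mul _ ((s1.fun_mul ha).fun_mul s2), dy_mul (s1.fun_mul ha) s2, dy_mul s1 ha,
    dy_mul (s1.fun_pow 2) hb, dy_sq s1]
  ring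

/-- first derivatives of `lap u` on `U` -/
theorem dx_lap (h : Sol m Λ k U u σ) (hU : IsOpen U) : ∀ z ∈ U,
    dx (lap u) z = -(k ^ 2 * (2 * σ z * dx σ z * u z + σ z ^ 2 * dx u z)) := by
  intro z hz
  rw [dx_congr hU h.lap_eq z hz, rhs_dx h]

theorem dy_lap (h : Sol m Λ k U u σ) (hU : IsOpen U) : ∀ z ∈ U,
    dy (lap u) z = -(k ^ 2 * (2 * σ z * dy σ z * u z + σ z ^ 2 * dy u z)) := by
  intro z hz
  rw [dy_congr hU h.lap_eq z hz, rhs_dy h]

theorem dxx_lap (h : Sol m Λ k U u σ) (hU : IsOpen U) : ∀ z ∈ U, dx (dx (lap u)) z =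
    -(k ^ 2 * (2 * dx σ z * dx σ z * u z + 2 * σ z * dx (dx σ) z * u z + 2 * σ z * dx σ z * dx u z +
        2 * σ z * dx σ z * dx u z + σ z ^ 2 * dx (dx u) z)) := by
  intro z hz
  rw [dx_congr hU (dx_lap h hU) z hz, dx_rr h (h.dsx z) (h.dux z)]

theorem dyy_lap (h : Sol m Λ k U u σ) (hU : IsOpen U) : ∀ z ∈ U, dy (dy (lap u)) z =
    -(k ^ 2 * (2 * dy σ z * dy σ z * u z + 2 * σ z * dy (dy σ) z * u z + 2 * σ z * dy σ z * dy u z +
        2 * σ z * dy σ z * dy u z + σ z ^ 2 * dy (dy u) z)) := by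
  intro z hz
  rw [dy_congr hU (dy_lap h hU) z hz, dy_rr h (h.dsy z) (h.duy z)]

theorem dxy_lap (h : Sol m Λ k U u σ) (hU : IsOpen U) : ∀ z ∈ U, dx (dy (lap u)) z =
    -(k ^ 2 * (2 * dx σ z * dy σ z * u z + 2 * σ z * dx (dy σ) z * u z + 2 * σ z * dy σ z * dx u z +
        2 * σ z * dx σ z * dy u z + σ z ^ 2 * dx (dy u) z)) := by
  intro z hz
  rw [dx_congr hU (dy_lap h hU) z hz, dx_rr h (h.dsy z) (h.duy z)]

/-! components of `V₁` -/

/-- `k σ u` -/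
noncomputable def sc (k : ℝ) (u σ : ℂ → ℝ) (z : ℂ) : ℝ := k * (σ z * u z)

theorem sc_contDiff (h : Sol m Λ k U u σ) : ContDiff ℝ 2 (sc k u σ) :=
  contDiff_const.mul (h.s2.mul h.u2)

theorem sc_dx (h : Sol m Λ k U u σ) (z : ℂ) : dx (sc k u σ) z = k * (σ z * dx u z + dx σ z * u z) := by
  unfold sc
  rw [dx_const_mul _ ((h.ds z).fun_mul (h.du z)), dx_mul (h.ds z) (h.du z)]

theorem sc_dy (h : Sol m Λ k U u σ) (z : ℂ) : dy (sc k u σ) z = k * (σ z * dy u z + dy σ z * u z) := by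
  unfold sc
  rw [dy_const_mul _ ((h.ds z).fun_mul (h.du z)), dy_mul (h.ds z) (h.du z)]

theorem sc_lap (h : Sol m Λ k U u σ) (z : ℂ) : lap (sc k u σ) z =
    k * (σ z * lap u z + 2 * (dx σ z * dx u z + dy σ z * dy u z) + u z * lap σ z) := by
  have e : sc k u σ = fun z => k * (σ z * u z) := rfl
  rw [e, lap_const_mul _ (h.s2.mul h.u2), lap_mul h.s2 h.u2]

/-! components of `V₂` -/

/-- `k σ u_x` -/
noncomputable def bx (k : ℝ) (u σ : ℂ → ℝ) (z : ℂ) : ℝ := k * (σ z * dx u z)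
/-- `- k σ u_y` -/
noncomputable def by' (k : ℝ) (u σ : ℂ → ℝ) (z : ℂ) : ℝ := -k * (σ z * dy u z)
/-- `k² σ² u` -/
noncomputable def bz (k : ℝ) (u σ : ℂ → ℝ) (z : ℂ) : ℝ := k ^ 2 * (σ z ^ 2 * u z)
/-- `u_xx - u_yy` -/
noncomputable def q1 (u : ℂ → ℝ) (z : ℂ) : ℝ := dx (dx u) z - dy (dy u) z
/-- `- 2 u_xy` -/
noncomputable def q2 (u : ℂ → ℝ) (z : ℂ) : ℝ := -2 * dx (dy u) z

theorem bx_contDiff (h : Sol m Λ k U u σ) : ContDiff ℝ 2 (bx k u σ) :=
  contDiff_const.mul (h.s2.mul (contDiff_dx2 h.u3))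
theorem by_contDiff (h : Sol m Λ k U u σ) : ContDiff ℝ 2 (by' k u σ) :=
  contDiff_const.mul (h.s2.mul (contDiff_dy2 h.u3))
theorem bz_contDiff (h : Sol m Λ k U u σ) : ContDiff ℝ 2 (bz k u σ) :=
  contDiff_const.mul ((h.s2.pow 2).mul h.u2)
theorem q1_contDiff (h : Sol m Λ k U u σ) : ContDiff ℝ 2 (q1 u) :=
  (contDiff_dx2 (contDiff_dx3 h.hu)).sub (contDiff_dy2 (contDiff_dy3 h.hu))
theorem q2_contDiff (h : Sol m Λ k U u σ) : ContDiff ℝ 2 (q2 u) :=
  contDiff_const.mul (contDiff_dx2 (contDiff_dy3 h.hu))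

theorem bx_dx (h : Sol m Λ k U u σ) (z : ℂ) :
    dx (bx k u σ) z = k * (σ z * dx (dx u) z + dx σ z * dx u z) := by
  unfold bx
  rw [dx_const_mul _ ((h.ds z).fun_mul (h.dux z)), dx_mul (h.ds z) (h.dux z)]
theorem bx_dy (h : Sol m Λ k U u σ) (z : ℂ) :
    dy (bx k u σ) z = k * (σ z * dx (dy u) z + dy σ z * dx u z) := by
  unfold bx
  rw [dy_const_mul _ ((h.ds z).fun_mul (h.dux z)), dy_mul (h.ds z) (h.dux z), dx_dy h.u2]
theorem by_dx (h : Sol m Λ k U u σ) (z : ℂ) :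
    dx (by' k u σ) z = -k * (σ z * dx (dy u) z + dx σ z * dy u z) := by
  unfold by'
  rw [dx_const_mul _ ((h.ds z).fun_mul (h.duy z)), dx_mul (h.ds z) (h.duy z)]
theorem by_dy (h : Sol m Λ k U u σ) (z : ℂ) :
    dy (by' k u σ) z = -k * (σ z * dy (dy u) z + dy σ z * dy u z) := by
  unfold by'
  rw [dy_const_mul _ ((h.ds z).fun_mul (h.duy z)), dy_mul (h.ds z) (h.duy z)]
theorem bz_dx (h : Sol m Λ k U u σ) (z : ℂ) :
    dx (bz k u σ) z = k ^ 2 * (σ z ^ 2 * dx u z + 2 * σ z * dx σ z * u z) := by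
  unfold bz
  rw [dx_const_mul _ (((h.ds z).fun_pow 2).fun_mul (h.du z)), dx_mul ((h.ds z).fun_pow 2) (h.du z),
    dx_sq (h.ds z)]
theorem bz_dy (h : Sol m Λ k U u σ) (z : ℂ) :
    dy (bz k u σ) z = k ^ 2 * (σ z ^ 2 * dy u z + 2 * σ z * dy σ z * u z) := by
  unfold bz
  rw [dy_const_mul _ (((h.ds z).fun_pow 2).fun_mul (h.du z)), dy_mul ((h.ds z).fun_pow 2) (h.du z),
    dy_sq (h.ds z)]

theorem bx_lap (h : Sol m Λ k U u σ) (z : ℂ) : lap (bx k u σ) z =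
    k * (σ z * dx (lap u) z + 2 * (dx σ z * dx (dx u) z + dy σ z * dx (dy u) z) +
      dx u z * lap σ z) := by
  have e : bx k u σ = fun z => k * (σ z * dx u z) := rfl
  rw [e, lap_const_mul _ (h.s2.mul (contDiff_dx2 h.u3)), lap_mul h.s2 (contDiff_dx2 h.u3),
    lap_dx h.u3, dx_dy h.u2]
theorem by_lap (h : Sol m Λ k U u σ) (z : ℂ) : lap (by' k u σ) z =
    -k * (σ z * dy (lap u) z + 2 * (dx σ z * dx (dy u) z + dy σ z * dy (dy u) z) +
      dy u z * lap σ z) := by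
  have e : by' k u σ = fun z => -k * (σ z * dy u z) := rfl
  rw [e, lap_const_mul _ (h.s2.mul (contDiff_dy2 h.u3)), lap_mul h.s2 (contDiff_dy2 h.u3),
    lap_dy h.u3]
theorem bz_lap (h : Sol m Λ k U u σ) (z : ℂ) : lap (bz k u σ) z =
    k ^ 2 * (σ z ^ 2 * lap u z + 2 * (2 * σ z * dx σ z * dx u z + 2 * σ z * dy σ z * dy u z) +
      u z * (2 * gsq σ z + 2 * σ z * lap σ z)) := by
  have e : bz k u σ = fun z => k ^ 2 * (σ z ^ 2 * u z) := rfl
  rw [e, lap_const_mul _ ((h.s2.pow 2).mul h.u2), lap_mul (h.s2.pow 2) h.u2, lap_sq h.s2,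
    dx_sq (h.ds z), dy_sq (h.ds z)]

theorem q1_lap (h : Sol m Λ k U u σ) (z : ℂ) :
    lap (q1 u) z = dx (dx (lap u)) z - dy (dy (lap u)) z := by
  have e : q1 u = fun z => dx (dx u) z - dy (dy u) z := rfl
  have e1 : lap (dx u) = dx (lap u) := by ext y; exact lap_dx h.u3 y
  have e2 : lap (dy u) = dy (lap u) := by ext y; exact lap_dy h.u3 y
  rw [e, lap_sub (contDiff_dx2 (contDiff_dx3 h.hu)) (contDiff_dy2 (contDiff_dy3 h.hu)),
    lap_dx (contDiff_dx3 h.hu), lap_dy (contDiff_dy3 h.hu), e1, e2]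
theorem q2_lap (h : Sol m Λ k U u σ) (z : ℂ) :
    lap (q2 u) z = -2 * dx (dy (lap u)) z := by
  have e : q2 u = fun z => -2 * dx (dy u) z := rfl
  have e2 : lap (dy u) = dy (lap u) := by ext y; exact lap_dy h.u3 y
  rw [e, lap_const_mul _ (contDiff_dx2 (contDiff_dy3 h.hu)),
    lap_dx (contDiff_dy3 h.hu), e2]
/-- `2∂̄ q = 2∂ (lap u)` -/
theorem q_dbar1 (h : Sol m Λ k U u σ) (z : ℂ) : dx (q1 u) z - dy (q2 u) z = dx (lap u) z := by
  have d1 := (contDiff_dx2 (contDiff_dx3 h.hu)).differentiable (by norm_num) z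
  have d2 := (contDiff_dy2 (contDiff_dy3 h.hu)).differentiable (by norm_num) z
  have d3 := (contDiff_dx2 (contDiff_dy3 h.hu)).differentiable (by norm_num) z
  have e1 : dx (q1 u) z = dx (dx (dx u)) z - dx (dy (dy u)) z := by
    have : q1 u = fun z => dx (dx u) z - dy (dy u) z := rfl
    rw [this, dx_sub d1 d2]
  have e2 : dy (q2 u) z = -2 * dy (dx (dy u)) z := by
    have : q2 u = fun z => -2 * dx (dy u) z := rfl
    rw [this, dy_const_mul _ d3]
  have e3 : dx (lap u) z = dx (dx (dx u)) z + dx (dy (dy u)) z := by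
    have : lap u = fun z => dx (dx u) z + dy (dy u) z := rfl
    rw [this, dx_add d1 d2]
  rw [e1, e2, e3, ← dx_dy (contDiff_dy2 h.u3)]
  ring
theorem q_dbar2 (h : Sol m Λ k U u σ) (z : ℂ) : dx (q2 u) z + dy (q1 u) z = -dy (lap u) z := by
  have d1 := (contDiff_dx2 (contDiff_dx3 h.hu)).differentiable (by norm_num) z
  have d2 := (contDiff_dy2 (contDiff_dy3 h.hu)).differentiable (by norm_num) z
  have d3 := (contDiff_dx2 (contDiff_dy3 h.hu)).differentiable (by norm_num) z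
  have e1 : dy (q1 u) z = dy (dx (dx u)) z - dy (dy (dy u)) z := by
    have : q1 u = fun z => dx (dx u) z - dy (dy u) z := rfl
    rw [this, dy_sub d1 d2]
  have e2 : dx (q2 u) z = -2 * dx (dx (dy u)) z := by
    have : q2 u = fun z => -2 * dx (dy u) z := rfl
    rw [this, dx_const_mul _ d3]
  have e3 : dy (lap u) z = dy (dx (dx u)) z + dy (dy (dy u)) z := by
    have : lap u = fun z => dx (dx u) z + dy (dy u) z := rfl
    rw [this, dy_add d1 d2]
  have e4 : dx (dx (dy u)) z = dy (dx (dx u)) z := by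
    have : dx (dy u) = dy (dx u) := by ext y; exact dx_dy h.u2 y
    rw [this, dx_dy (contDiff_dx2 h.u3)]
  rw [e1, e2, e3, e4]
  ring

end

end Pool.Agent.Helper904_QS
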