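import Pool.Agent.Helper904_QS.Curv1

/-!
The curvature inequality for `V₁` (two components).
-/

set_option autoImplicit false

open MeasureTheory Set Metric Filter Topology
open scoped ContDiff InnerProductSpace ComplexConjugate

namespace Pool.Agent.Helper904_QS

theorem norm_toLp2_le (v : Fin 2 → ℂ) :
    ‖(WithLp.toLp 2 v : EuclideanSpace ℂ (Fin 2))‖ ≤ ‖v 0‖ + ‖v 1‖ := by
  have h : ‖(WithLp.toLp 2 v : EuclideanSpace ℂ (Fin 2))‖ ^ 2 ≤ (‖v 0‖ + ‖v 1‖) ^ 2 := by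
    rw [EuclideanSpace.norm_sq_eq]
    simp only [Fin.sum_univ_two]
    nlinarith [norm_nonneg (v 0), norm_nonneg (v 1), mul_nonneg (norm_nonneg (v 0)) (norm_nonneg (v 1))]
  exact (pow_le_pow_iff_left₀ (norm_nonneg _) (by positivity) (by norm_num)).1 h

theorem norm_toLp3_le (v : Fin 3 → ℂ) :
    ‖(WithLp.toLp 2 v : EuclideanSpace ℂ (Fin 3))‖ ≤ ‖v 0‖ + ‖v 1‖ + ‖v 2‖ := by
  have h : ‖(WithLp.toLp 2 v : EuclideanSpace ℂ (Fin 3))‖ ^ 2 ≤ (‖v 0‖ + ‖v 1‖ + ‖v 2‖) ^ 2 := by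
    rw [EuclideanSpace.norm_sq_eq]
    simp only [Fin.sum_univ_three]
    nlinarith [norm_nonneg (v 0), norm_nonneg (v 1), norm_nonneg (v 2),
      mul_nonneg (norm_nonneg (v 0)) (norm_nonneg (v 1)),
      mul_nonneg (norm_nonneg (v 0)) (norm_nonneg (v 2)),
      mul_nonneg (norm_nonneg (v 1)) (norm_nonneg (v 2))]
  exact (pow_le_pow_iff_left₀ (norm_nonneg _) (by positivity) (by norm_num)).1 h

/-- the quantity `G` -/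
noncomputable def gG {n : ℕ} (f g : Fin n → ℂ → ℝ) (ε : ℝ) (z : ℂ) : ℝ :=
  √(nN f g ε z * ‖vP f g z‖ ^ 2 - ‖⟪vV f g z, vP f g z⟫_ℂ‖ ^ 2)

theorem nN_pos {n : ℕ} (f g : Fin n → ℂ → ℝ) {ε : ℝ} (hε : 0 < ε) (z : ℂ) : 0 < nN f g ε z := by
  unfold nN
  have : 0 ≤ ∑ i, (f i z ^ 2 + g i z ^ 2) := Finset.sum_nonneg fun i _ => by positivity
  linarith

theorem vV_sq {n : ℕ} (f g : Fin n → ℂ → ℝ) (ε : ℝ) (z : ℂ) :
    ‖vV f g z‖ ^ 2 = nN f g ε z - ε := by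
  rw [vV, vec_normsq, nN]; ring

theorem gG_sq {n : ℕ} (f g : Fin n → ℂ → ℝ) {ε : ℝ} (hε : 0 < ε) (z : ℂ) :
    gG f g ε z ^ 2 = nN f g ε z * ‖vP f g z‖ ^ 2 - ‖⟪vV f g z, vP f g z⟫_ℂ‖ ^ 2 := by
  unfold gG
  rw [Real.sq_sqrt]
  have h1 : ‖⟪vV f g z, vP f g z⟫_ℂ‖ ≤ ‖vV f g z‖ * ‖vP f g z‖ := norm_inner_le_norm _ _
  have h2 : ‖⟪vV f g z, vP f g z⟫_ℂ‖ ^ 2 ≤ ‖vV f g z‖ ^ 2 * ‖vP f g z‖ ^ 2 := by
    rw [← mul_pow]; gcongr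
  have h3 := vV_sq f g ε z
  have h4 : ‖vV f g z‖ ^ 2 * ‖vP f g z‖ ^ 2 ≤ nN f g ε z * ‖vP f g z‖ ^ 2 := by
    gcongr; linarith
  linarith

theorem curv_lower {n : ℕ} {f g : Fin n → ℂ → ℝ} (hf : ∀ i, ContDiff ℝ 2 (f i))
    (hg : ∀ i, ContDiff ℝ 2 (g i)) {ε : ℝ} (hε : 0 < ε) (z : ℂ)
    (A : EuclideanSpace ℂ (Fin n) →ₗ[ℂ] EuclideanSpace ℂ (Fin n)) (κ ρ : ℝ) (hκ0 : 0 ≤ κ)
    (hκ : ∀ x, ‖A x‖ ≤ κ * ‖x‖) (hρ0 : 0 ≤ ρ)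
    (hb : ⟪vV f g z, vQ f g z⟫_ℂ = ⟪vV f g z, A (vV f g z)⟫_ℂ)
    (hR : ‖vW f g z - A (vP f g z)‖ ≤ ρ * ‖vV f g z‖) :
    gG f g ε z ^ 2 - 2 * κ * nN f g ε z * gG f g ε z - 2 * ρ * nN f g ε z ^ 2 ≤
      nN f g ε z ^ 2 * lap (fun z => Real.log (nN f g ε z)) z ∧
    -(κ ^ 2 + 2 * ρ) ≤ lap (fun z => Real.log (nN f g ε z)) z := by
  have key := curv_gen hf hg hε z A κ ρ (gG f g ε z) hκ0 hκ hρ0 hb hR (Real.sqrt_nonneg _)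
    (gG_sq f g hε z)
  refine ⟨key, ?_⟩
  have hN := nN_pos f g hε z
  set N := nN f g ε z
  set G := gG f g ε z
  have h1 : -(κ ^ 2 + 2 * ρ) * N ^ 2 ≤ N ^ 2 * lap (fun z => Real.log (nN f g ε z)) z := by
    nlinarith [sq_nonneg (G - κ * N)]
  have h2 : 0 < N ^ 2 := by positivity
  nlinarith

section
variable {m Λ k : ℝ} {U : Set ℂ} {u σ : ℂ → ℝ}

/-- `V₁` -/
noncomputable def f1 (k : ℝ) (u σ : ℂ → ℝ) : Fin 2 → ℂ → ℝ := ![dx u, sc k u σ]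
/-- `V₁` -/
noncomputable def g1 (u : ℂ → ℝ) : Fin 2 → ℂ → ℝ := ![fun z => -dy u z, fun _ => 0]

theorem f1_contDiff (h : Sol m Λ k U u σ) (i : Fin 2) : ContDiff ℝ 2 (f1 k u σ i) := by
  fin_cases i
  · exact contDiff_dx2 h.u3
  · exact sc_contDiff h
theorem g1_contDiff (h : Sol m Λ k U u σ) (i : Fin 2) : ContDiff ℝ 2 (g1 u i) := by
  fin_cases i
  · exact (contDiff_dy2 h.u3).neg
  · exact contDiff_const

theorem N1_eq (ε : ℝ) (z : ℂ) : N1 u σ k ε z = nN (f1 k u σ) (g1 u) ε z := by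
  unfold N1 nN gsq
  rw [Fin.sum_univ_two]
  simp only [f1, g1, sc, Matrix.cons_val_zero, Matrix.cons_val_one]
  ring

/-- the map `A` for `V₁` -/
noncomputable def A1 (α : ℂ) : EuclideanSpace ℂ (Fin 2) →ₗ[ℂ] EuclideanSpace ℂ (Fin 2) where
  toFun x := WithLp.toLp 2 ![0, α * x 1]
  map_add' x y := by
    ext i; fin_cases i <;> simp; ring
  map_smul' c x := by
    ext i; fin_cases i <;> simp; ring

theorem A1_bound (α : ℂ) (x : EuclideanSpace ℂ (Fin 2)) : ‖A1 α x‖ ≤ ‖α‖ * ‖x‖ := by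
  have h := norm_toLp2_le ![0, α * x 1]
  simp only [Matrix.cons_val_zero, Matrix.cons_val_one, norm_zero, zero_add, norm_mul] at h
  calc ‖A1 α x‖ ≤ ‖α‖ * ‖x 1‖ := h
    _ ≤ ‖α‖ * ‖x‖ := by gcongr; exact PiLp.norm_apply_le x 1

end

end Pool.Agent.Helper904_QS
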