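import Pool.Agent.Helper904_QS.Defs

/-!
# MP_177f55_an: exact statements of the pieces.  Paper proofs: `PAPER.md` in this folder
(section numbers refer to it).  Each piece `S_X` is to be proved as `theorem t_X : S_X` in its own file;
a piece may take other pieces as hypotheses, `theorem t_X (h : S_Y) : S_X`.
-/

set_option autoImplicit false

open MeasureTheory Set Metric Filter Topology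
open scoped ContDiff

namespace Pool.Agent.Helper904_QS

/-! ## Tools (section 2) -/

/-- G: Green's identity with a compactly supported `C²` function. -/
def S_G : Prop := ∀ f φ : ℂ → ℝ, ContDiff ℝ 2 f → ContDiff ℝ 2 φ → HasCompactSupport φ →
  ∫ z, φ z * lap f z = ∫ z, lap φ z * f z

/-- KER: elementary facts on the kernels. -/
def S_KER : Prop := ∀ r : ℝ, 0 < r →
  Continuous (chi r) ∧ (∀ z, 0 ≤ chi r z) ∧ (∀ z, chi r z ≤ 4 / r ^ 2) ∧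
  (∀ z, r ≤ ‖z‖ → chi r z = 0) ∧ (∀ z, ‖z‖ ≤ r / 2 → 3 / r ^ 2 ≤ chi r z) ∧
  (∀ z y, |chi r (z - y) - chi r z| ≤ 4 / r ^ 4 * (‖y‖ * (2 * ‖z‖ + ‖y‖))) ∧
  (∫ z, chi r z) = 2 * Real.pi ∧
  Integrable (Phi r) ∧ (∀ z, 0 ≤ Phi r z) ∧ (∀ z, r ≤ ‖z‖ → Phi r z = 0) ∧
  (∀ z, 0 < ‖z‖ → ‖z‖ < r → Phi r z ≤ Real.log (r / ‖z‖)) ∧
  (∀ z, 0 < ‖z‖ → ‖z‖ ≤ r / 2 → 1 / 6 ≤ Phi r z) ∧
  (∫ z, Phi r z) = Real.pi * r ^ 2 / 6 ∧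
  (∫ z, Phi r z ^ 2) ≤ 10 * r ^ 2 ∧ Integrable (fun z => Phi r z ^ 2)

/-- INT: integrability of the kernel against a continuous function. -/
def S_INT : Prop := ∀ (f : ℂ → ℝ) (y : ℂ) (r : ℝ), Continuous f → 0 < r →
  Integrable (fun z => chi r (z - y) * f z) ∧ Integrable (fun z => Phi r (z - y) * f z)

/-- J: the smoothed Jensen formula. -/
def S_J : Prop := ∀ (f : ℂ → ℝ) (y : ℂ) (r : ℝ), ContDiff ℝ 2 f → 0 < r →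
  2 * Real.pi * f y = (∫ z, chi r (z - y) * f z) - ∫ z, Phi r (z - y) * lap f z

/-- JC: Jensen's formula on circles. -/
def S_JC : Prop := ∀ (f : ℂ → ℝ) (y : ℂ) (r : ℝ), ContDiff ℝ 2 f → 0 < r →
  Real.circleAverage f y r =
    f y + (2 * Real.pi)⁻¹ * ∫ z in ball y r, Real.log (r / ‖z - y‖) * lap f z

/-- WMP: weak maximum principle on a disc. -/
def S_WMP : Prop := ∀ (f : ℂ → ℝ) (y : ℂ) (r C A : ℝ), ContDiff ℝ 2 f → 0 < r → 0 ≤ C →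
  (∀ z ∈ ball y r, -C ≤ lap f z) → (∀ z ∈ sphere y r, f z ≤ A) →
  ∀ z ∈ closedBall y r, f z ≤ A + C * r ^ 2 / 4

/-- LC: the logarithmic potential at a point where the masses of discs are `≤ C₁ t²`. -/
def S_LC : Prop := ∀ (h : ℂ → ℝ) (y : ℂ) (ρ C₁ : ℝ), Continuous h → (∀ z, 0 ≤ h z) → 0 < ρ →
  (∀ t ∈ Ioc 0 ρ, ∫ z in ball y t, h z ≤ C₁ * t ^ 2) →
  IntegrableOn (fun z => Real.log (ρ / ‖z - y‖) * h z) (ball y ρ) ∧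
    ∫ z in ball y ρ, Real.log (ρ / ‖z - y‖) * h z ≤ C₁ * ρ ^ 2 / 2

/-- VC: Vitali covering. -/
def S_VC : Prop := ∀ (μ : Measure ℂ) (c τ : ℝ) (S : Set ℂ) (s : ℂ → ℝ), 0 < c →
  (∀ x ∈ S, 0 < s x ∧ s x ≤ τ ∧ ENNReal.ofReal (c * s x ^ 2) ≤ μ (closedBall x (s x))) →
  ENNReal.ofReal c * volume S ≤ ENNReal.ofReal (25 * Real.pi) * μ univ

/-! ## The curvature inequality and its companions (section 1) -/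

/-- REG: regularity and the elementary relations between `N₁, N₂, w`. -/
def S_REG : Prop := ∀ (m Λ k ε : ℝ) (U : Set ℂ) (u σ : ℂ → ℝ), 0 < m → 1 ≤ k → 0 < ε →
  Sol m Λ k U u σ →
  ContDiff ℝ 2 (L1 u σ k ε) ∧ ContDiff ℝ 2 (L2 u σ k m ε) ∧ ContDiff ℝ 2 (ww u σ k m ε) ∧
  (∀ z, lap (ww u σ k m ε) z = (lap (L2 u σ k m ε) z - lap (L1 u σ k ε) z) / 2) ∧
  (∀ z, 0 < N1 u σ k ε z ∧ 0 < N2 u σ k m ε z) ∧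
  (∀ z ∈ U, 0 ≤ ww u σ k m ε z) ∧
  (∀ z, N2 u σ k m ε z = (m * k) ^ 2 * Real.exp (2 * ww u σ k m ε z) * N1 u σ k ε z)

/-- CURV: Lemma 2. -/
def S_CURV : Prop := ∀ m Λ : ℝ, 0 < m → m ≤ Λ → ∃ C : ℝ, 0 < C ∧
  ∀ (k ε : ℝ) (U : Set ℂ) (u σ : ℂ → ℝ), 1 ≤ k → 0 < ε → IsOpen U → Sol m Λ k U u σ →
  ∀ z ∈ U, -(C * k ^ 2) ≤ lap (L1 u σ k ε) z ∧ -(C * k ^ 2) ≤ lap (L2 u σ k m ε) z

/-- GRAD: Lemma 3 (for `k = 1`). -/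
def S_GRAD : Prop := ∀ m Λ : ℝ, 0 < m → m ≤ Λ → ∃ C : ℝ, 0 < C ∧
  ∀ (ε : ℝ) (U : Set ℂ) (u σ : ℂ → ℝ), 0 < ε → IsOpen U → Sol m Λ 1 U u σ →
  ∀ z ∈ U, |dx (L1 u σ 1 ε) z| ≤ C * Real.exp (ww u σ 1 m ε z) ∧
    |dy (L1 u σ 1 ε) z| ≤ C * Real.exp (ww u σ 1 m ε z)

/-- WEDGE: Lemma 4 (for `k = 1`). -/
def S_WEDGE : Prop := ∀ m Λ B : ℝ, 0 < m → m ≤ Λ → 0 ≤ B → ∃ C : ℝ, 0 < C ∧
  ∀ (ε : ℝ) (U : Set ℂ) (u σ : ℂ → ℝ), 0 < ε → IsOpen U → Sol m Λ 1 U u σ →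
  ∀ z ∈ U, lap (L1 u σ 1 ε) z ≤ B →
    |u z| ≤ C * Real.exp (-ww u σ 1 m ε z) * √(N1 u σ 1 ε z)

/-! ## Interior estimate (Lemma 5) -/

/-- IE: Lemma 5. -/
def S_IE : Prop := ∀ m Λ : ℝ, 0 < m → m ≤ Λ → ∃ C : ℝ, 0 < C ∧
  ∀ (r : ℝ) (u σ : ℂ → ℝ), 0 < r → r ≤ √24 / m → Sol m Λ 1 (ball 0 r) u σ →
  √(V2 u σ 1 0) ≤ C / r ^ 4 * ∫ z in ball (0 : ℂ) r, |u z|

/-! ## The typical point theorem (section 3) -/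

/-- CIRC: Step 1. -/
def S_CIRC : Prop := ∀ C₁ T : ℝ, 0 < C₁ → 0 < T → ∃ C : ℝ, 0 < C ∧
  ∀ w : ℂ → ℝ, ContDiff ℝ 2 w → (∀ z ∈ ball (0 : ℂ) (32 * T), 0 ≤ w z) →
  (∀ t ∈ Ioc 0 (32 * T), ∫ z in ball (0 : ℂ) t, |lap w z| ≤ C₁ * t ^ 2) →
  ∃ r ∈ Icc (T * Real.exp (-w 0)) (2 * (T * Real.exp (-w 0))), ∀ y : ℂ, ‖y‖ = r → w y ≤ w 0 + C

/-- UP: Step 2. -/
def S_UP : Prop := ∀ C₁ CA CB T : ℝ, 0 < C₁ → 0 < CA → 0 < CB → 0 < T → ∃ C : ℝ, 0 < C ∧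
  ∀ w L : ℂ → ℝ, ContDiff ℝ 2 w → ContDiff ℝ 2 L → (∀ z ∈ ball (0 : ℂ) (32 * T), 0 ≤ w z) →
  (∀ t ∈ Ioc 0 (32 * T), ∫ z in ball (0 : ℂ) t, |lap w z| ≤ C₁ * t ^ 2) →
  (∀ t ∈ Ioc 0 (32 * T), ∫ z in ball (0 : ℂ) t, |lap L z| ≤ C₁ * t ^ 2) →
  (∀ z ∈ ball (0 : ℂ) (32 * T), -CA ≤ lap L z) →
  (∀ z ∈ ball (0 : ℂ) (32 * T), |dx L z| ≤ CB * Real.exp (w z) ∧ |dy L z| ≤ CB * Real.exp (w z)) →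
  ∀ y ∈ closedBall (0 : ℂ) (T * Real.exp (-w 0)), L y ≤ L 0 + C

/-- SB: Step 5, sign balance. -/
def S_SB : Prop := ∀ m Λ CF : ℝ, 0 < m → m ≤ Λ → 0 < CF → ∃ T : ℝ, 0 < T ∧
  ∀ CG : ℝ, 0 < CG → ∃ η : ℝ, 0 < η ∧
  ∀ (r X : ℝ) (u σ : ℂ → ℝ), 0 < r → r ≤ T → 0 < X → Sol m Λ 1 (ball 0 r) u σ →
  (∀ z ∈ ball (0 : ℂ) r, |u z| ≤ CG * X) → |u 0| ≤ CF * X →
  m / √2 * T ^ 2 * X ≤ √(V2 u σ 1 0) * r ^ 2 →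
  η * r ^ 2 ≤ volume.real {z ∈ ball (0 : ℂ) r | 0 < u z}

/-- TP: the typical point theorem. -/
def S_TP : Prop := ∀ m Λ C₁ : ℝ, 0 < m → m ≤ Λ → 0 < C₁ → ∃ R₁ c₀ : ℝ, 0 < R₁ ∧ 0 < c₀ ∧
  ∀ (ε : ℝ) (u σ : ℂ → ℝ), 0 < ε → Sol m Λ 1 (ball 0 R₁) u σ →
  ε ≤ gsq u 0 + (σ 0 * u 0) ^ 2 →
  (∀ t ∈ Ioc 0 R₁, ∫ z in ball (0 : ℂ) t, (|lap (L1 u σ 1 ε) z| + |lap (L2 u σ 1 m ε) z|)
    ≤ C₁ * t ^ 2) →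
  ∃ s ∈ Ioc 0 R₁, c₀ * s ^ 2 ≤ volume.real {z ∈ ball (0 : ℂ) s | 0 < u z} ∧
    c₀ * s ^ 2 ≤ volume.real {z ∈ ball (0 : ℂ) s | u z < 0}

/-! ## Unit scale (section 4) -/

/-- LT: the local theorem for large `k`, around a point `z₀`. -/
def S_LT : Prop := ∀ m Λ C₅ : ℝ, 0 < m → m ≤ Λ → 0 < C₅ → ∃ k₀ A₀ c : ℝ, 1 ≤ k₀ ∧ 0 < A₀ ∧ 0 < c ∧
  ∀ (k ε : ℝ) (z₀ : ℂ) (u σ : ℂ → ℝ), k₀ ≤ k → 0 < ε → Sol m Λ k (ball z₀ 1) u σ →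
  (∀ y ∈ ball z₀ 1, L1 u σ k ε y + L2 u σ k m ε y ≤ L1 u σ k ε z₀ + L2 u σ k m ε z₀ + C₅) →
  (∀ y ∈ ball z₀ 1, 2 * ε * Real.exp (A₀ * k ^ 2) * N2 u σ k m ε y ≤
    N1 u σ k ε z₀ * N2 u σ k m ε z₀) →
  c ≤ volume.real {z ∈ ball z₀ 1 | 0 < u z} ∧ c ≤ volume.real {z ∈ ball z₀ 1 | u z < 0}

/-- MC: modulus of continuity, `k` bounded. -/
def S_MC : Prop := ∀ Λ k₀ a : ℝ, 0 < Λ → 0 < k₀ → 0 < a → ∃ d : ℝ, 0 < d ∧ d ≤ 1 / 8 ∧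
  ∀ (k A : ℝ) (u σ : ℂ → ℝ), 0 < k → k ≤ k₀ → ContDiff ℝ 2 u → Continuous σ →
  (∀ z ∈ ball (0 : ℂ) (7 / 4), |σ z| ≤ Λ) →
  (∀ z ∈ ball (0 : ℂ) (7 / 4), lap u z = -(k ^ 2 * σ z ^ 2 * u z)) →
  (∀ z ∈ ball (0 : ℂ) (7 / 4), |u z| ≤ A) →
  ∀ y ∈ closedBall (0 : ℂ) (1 / 2), ∀ y' ∈ closedBall y d, |u y - u y'| ≤ a * A

/-- WH: weak Harnack step, `k` bounded: `h = u + δ ≥ 0`. -/
def S_WH : Prop := ∀ Λ k₀ : ℝ, 0 < Λ → 0 < k₀ → ∃ C : ℝ, 0 < C ∧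
  ∀ (k δ : ℝ) (u σ : ℂ → ℝ), 0 < k → k ≤ k₀ → 0 ≤ δ → ContDiff ℝ 2 u → Continuous σ →
  (∀ z ∈ ball (0 : ℂ) (7 / 4), |σ z| ≤ Λ) →
  (∀ z ∈ ball (0 : ℂ) (7 / 4), lap u z = -(k ^ 2 * σ z ^ 2 * u z)) →
  (∀ z ∈ ball (0 : ℂ) (7 / 4), -δ ≤ u z) →
  ∀ y ∈ ball (0 : ℂ) (1 / 2), ∫ z in ball (0 : ℂ) (5 / 8), (u z + δ) ≤ C * (u y + δ + δ)

/-! ## Conformal atlases (section 5) -/

/-- A finite family of parametrised discs covering `M`. -/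
structure Atl (M ι : Type) [TopologicalSpace M] (ψ : ι → ℂ → M) (σ : ι → ℂ → ℝ) : Prop where
  cont : ∀ i, ContinuousOn (ψ i) (ball 0 2)
  opn : ∀ i, ∀ U : Set ℂ, U ⊆ ball 0 2 → IsOpen U → IsOpen (ψ i '' U)
  cover : ∀ x : M, ∃ i, ∃ z ∈ ball (0 : ℂ) (1 / 2), ψ i z = x
  sm : ∀ i, ContDiff ℝ 3 (σ i)
  pos : ∀ i, ∀ z ∈ closedBall (0 : ℂ) (7 / 4), 0 < σ i z

/-- `u` is a solution, `f i` are smooth functions which represent it in the discs. -/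
structure Eig (M ι : Type) (ψ : ι → ℂ → M) (σ : ι → ℂ → ℝ) (k : ℝ) (u : M → ℝ) (f : ι → ℂ → ℝ) :
    Prop where
  sm : ∀ i, ContDiff ℝ 4 (f i)
  rep : ∀ i, ∀ z ∈ ball (0 : ℂ) (7 / 4), f i z = u (ψ i z)
  eq : ∀ i, ∀ z ∈ ball (0 : ℂ) (7 / 4), lap (f i) z = -(k ^ 2 * σ i z ^ 2 * f i z)
  ne : ∃ x, u x ≠ 0

/-- comparability of the derivatives in two discs -/
def Comp (M ι : Type) (ψ : ι → ℂ → M) (σ : ι → ℂ → ℝ) : Prop := ∃ C : ℝ, 1 ≤ C ∧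
  ∀ (k : ℝ) (u : M → ℝ) (f : ι → ℂ → ℝ), 1 ≤ k → Eig M ι ψ σ k u f →
  ∀ i j, ∀ z ∈ closedBall (0 : ℂ) (3 / 2), ∀ z' ∈ closedBall (0 : ℂ) (1 / 2), ψ i z = ψ j z' →
  gsq (f i) z ≤ C * gsq (f j) z' ∧ hsq (f i) z ≤ C * (hsq (f j) z' + gsq (f j) z')

/-- HK: large `k`. -/
def S_HK : Prop := ∀ (M ι : Type) [TopologicalSpace M] [CompactSpace M] [Nonempty M] [Fintype ι]
  (ψ : ι → ℂ → M) (σ : ι → ℂ → ℝ), Atl M ι ψ σ → Comp M ι ψ σ →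
  ∃ k₀ c : ℝ, 0 < k₀ ∧ 0 < c ∧ ∀ (k : ℝ) (u : M → ℝ) (f : ι → ℂ → ℝ), k₀ ≤ k →
  Eig M ι ψ σ k u f →
  (∃ i, c ≤ volume.real {z ∈ ball (0 : ℂ) (3 / 2) | 0 < f i z}) ∧
    ∃ i, c ≤ volume.real {z ∈ ball (0 : ℂ) (3 / 2) | f i z < 0}

/-- LK: bounded `k`. -/
def S_LK : Prop := ∀ (M ι : Type) [TopologicalSpace M] [CompactSpace M] [ConnectedSpace M]
  [Fintype ι] (ψ : ι → ℂ → M) (σ : ι → ℂ → ℝ), Atl M ι ψ σ →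
  ∀ k₀ : ℝ, 0 < k₀ →
  ∃ c : ℝ, 0 < c ∧ ∀ (k : ℝ) (u : M → ℝ) (f : ι → ℂ → ℝ), 0 < k → k ≤ k₀ →
  Eig M ι ψ σ k u f →
  (∃ i, c ≤ volume.real {z ∈ ball (0 : ℂ) (3 / 2) | 0 < f i z}) ∧
    ∃ i, c ≤ volume.real {z ∈ ball (0 : ℂ) (3 / 2) | f i z < 0}

/-- CA: all `k > 0`. -/
def S_CA : Prop := ∀ (M ι : Type) [TopologicalSpace M] [CompactSpace M] [ConnectedSpace M]
  [Fintype ι] (ψ : ι → ℂ → M) (σ : ι → ℂ → ℝ), Atl M ι ψ σ → Comp M ι ψ σ →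
  ∃ c : ℝ, 0 < c ∧ ∀ (k : ℝ) (u : M → ℝ) (f : ι → ℂ → ℝ), 0 < k → Eig M ι ψ σ k u f →
  (∃ i, c ≤ volume.real {z ∈ ball (0 : ℂ) (3 / 2) | 0 < f i z}) ∧
    ∃ i, c ≤ volume.real {z ∈ ball (0 : ℂ) (3 / 2) | f i z < 0}

/-! ## Isothermal coordinates, invariance of the Laplace-Beltrami operator -/

/-- the quadratic form `a dx² + 2 b dx dy + c dy²` at `p`, polarised -/
def qf (a b c : ℂ → ℝ) (p v w : ℂ) : ℝ :=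
  a p * (v.re * w.re) + b p * (v.re * w.im + v.im * w.re) + c p * (v.im * w.im)

/-- ISO: local isothermal coordinates of a smooth metric. -/
def S_ISO : Prop := ∀ (a b c : ℂ → ℝ) (p : ℂ) (W : Set ℂ), W ∈ 𝓝 p →
  ContDiffAt ℝ ∞ a p → ContDiffAt ℝ ∞ b p → ContDiffAt ℝ ∞ c p → 0 < a p →
  0 < a p * c p - b p ^ 2 →
  ∃ (h : ℂ → ℂ) (σ : ℂ → ℝ), ContDiffOn ℝ 5 h (ball 0 2) ∧ ContDiffOn ℝ 4 σ (ball 0 2) ∧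
    h 0 = p ∧ MapsTo h (ball 0 2) W ∧ InjOn h (ball 0 2) ∧ (∀ z ∈ ball (0 : ℂ) 2, 0 < σ z) ∧
    ∀ z ∈ ball (0 : ℂ) 2,
      qf a b c (h z) (fderiv ℝ h z 1) (fderiv ℝ h z 1) = σ z ^ 2 ∧
      qf a b c (h z) (fderiv ℝ h z Complex.I) (fderiv ℝ h z Complex.I) = σ z ^ 2 ∧
      qf a b c (h z) (fderiv ℝ h z 1) (fderiv ℝ h z Complex.I) = 0

/-- The Laplace-Beltrami operator of `a dx² + 2 b dx dy + c dy²`. -/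
noncomputable def LB (a b c f : ℂ → ℝ) (p : ℂ) : ℝ :=
  (√(a p * c p - b p ^ 2))⁻¹ *
    (dx (fun z => (√(a z * c z - b z ^ 2))⁻¹ * (c z * dx f z - b z * dy f z)) p +
     dy (fun z => (√(a z * c z - b z ^ 2))⁻¹ * (-(b z * dx f z) + a z * dy f z)) p)

/-- LBI: the Laplace-Beltrami operator in isothermal coordinates. -/
def S_LBI : Prop := ∀ (a b c f : ℂ → ℝ) (h : ℂ → ℂ) (σ : ℂ → ℝ) (Ω : Set ℂ), IsOpen Ω →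
  ContDiffOn ℝ 1 a Ω → ContDiffOn ℝ 1 b Ω → ContDiffOn ℝ 1 c Ω → ContDiffOn ℝ 2 f Ω →
  (∀ p ∈ Ω, 0 < a p ∧ 0 < a p * c p - b p ^ 2) →
  ContDiffOn ℝ 2 h (ball 0 2) → MapsTo h (ball 0 2) Ω → (∀ z ∈ ball (0 : ℂ) 2, 0 < σ z) →
  (∀ z ∈ ball (0 : ℂ) 2,
      qf a b c (h z) (fderiv ℝ h z 1) (fderiv ℝ h z 1) = σ z ^ 2 ∧
      qf a b c (h z) (fderiv ℝ h z Complex.I) (fderiv ℝ h z Complex.I) = σ z ^ 2 ∧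
      qf a b c (h z) (fderiv ℝ h z 1) (fderiv ℝ h z Complex.I) = 0) →
  ∀ z ∈ ball (0 : ℂ) 2, lap (fun y => f (h y)) z = σ z ^ 2 * LB a b c f (h z)

end Pool.Agent.Helper904_QS
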