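import Pool.Agent.Helper904_QS.Curv2
import Pool.Agent.Helper904_QS.Stmts

/-!
The curvature inequality for `V₁` (two components): the pointwise structure.
-/

set_option autoImplicit false

open MeasureTheory Set Metric Filter Topology
open scoped ContDiff InnerProductSpace ComplexConjugate

namespace Pool.Agent.Helper904_QS

section
variable {m Λ k : ℝ} {U : Set ℂ} {u σ : ℂ → ℝ}

/-- `σ_{z̄}/σ` up to a factor -/
noncomputable def al (σ : ℂ → ℝ) (z : ℂ) : ℂ := ⟨dx σ z / σ z, dy σ z / σ z⟩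

/-- `2∂σ` -/
noncomputable def dd (σ : ℂ → ℝ) (z : ℂ) : ℂ := ⟨dx σ z, -dy σ z⟩

/-- `k 2∂u` -/
noncomputable def kv (k : ℝ) (u : ℂ → ℝ) (z : ℂ) : ℂ := ⟨k * dx u z, -(k * dy u z)⟩

/-- `4∂²u` -/
noncomputable def qq (u : ℂ → ℝ) (z : ℂ) : ℂ := ⟨q1 u z, q2 u z⟩

theorem V1_0 (z : ℂ) : vV (f1 k u σ) (g1 u) z 0 = dd u z := rfl
theorem V1_1 (z : ℂ) : vV (f1 k u σ) (g1 u) z 1 = ⟨sc k u σ z, 0⟩ := rfl
theorem P1_0 (h : Sol m Λ k U u σ) (z : ℂ) : vP (f1 k u σ) (g1 u) z 0 = qq u z := by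
  change (⟨dx (dx u) z + dy (fun z => -dy u z) z, dx (fun z => -dy u z) z - dy (dx u) z⟩ : ℂ) = _
  rw [dy_neg, dx_neg, ← dx_dy h.u2, qq, q1, q2]
  congr 1; ring
theorem P1_1 (z : ℂ) : vP (f1 k u σ) (g1 u) z 1 = ⟨dx (sc k u σ) z, -dy (sc k u σ) z⟩ := by
  change (⟨dx (sc k u σ) z + dy (fun z => 0) z, dx (fun z => 0) z - dy (sc k u σ) z⟩ : ℂ) = _
  rw [dy_const, dx_const]
  congr 1 <;> ring
theorem Q1_0 (h : Sol m Λ k U u σ) (z : ℂ) : vQ (f1 k u σ) (g1 u) z 0 = ⟨lap u z, 0⟩ := by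
  change (⟨dx (dx u) z - dy (fun z => -dy u z) z, dx (fun z => -dy u z) z + dy (dx u) z⟩ : ℂ) = _
  rw [dy_neg, dx_neg, ← dx_dy h.u2, lap]
  congr 1 <;> ring
theorem Q1_1 (z : ℂ) : vQ (f1 k u σ) (g1 u) z 1 = ⟨dx (sc k u σ) z, dy (sc k u σ) z⟩ := by
  change (⟨dx (sc k u σ) z - dy (fun z => 0) z, dx (fun z => 0) z + dy (sc k u σ) z⟩ : ℂ) = _
  rw [dy_const, dx_const]
  congr 1 <;> ring
theorem W1_0 (h : Sol m Λ k U u σ) (z : ℂ) :
    vW (f1 k u σ) (g1 u) z 0 = ⟨dx (lap u) z, -dy (lap u) z⟩ := by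
  change (⟨lap (dx u) z, lap (fun z => -dy u z) z⟩ : ℂ) = _
  rw [lap_neg, lap_dx h.u3, lap_dy h.u3]
theorem W1_1 (z : ℂ) : vW (f1 k u σ) (g1 u) z 1 = ⟨lap (sc k u σ) z, 0⟩ := by
  change (⟨lap (sc k u σ) z, lap (fun z => 0) z⟩ : ℂ) = _
  rw [lap_const]

theorem V1_struct (h : Sol m Λ k U u σ) (z : ℂ) (hz : z ∈ U) (hs : σ z ≠ 0) :
    ⟪vV (f1 k u σ) (g1 u) z, vQ (f1 k u σ) (g1 u) z⟫_ℂ =
      ⟪vV (f1 k u σ) (g1 u) z, A1 (al σ z) (vV (f1 k u σ) (g1 u) z)⟫_ℂ := by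
  rw [PiLp.inner_apply, PiLp.inner_apply, Fin.sum_univ_two, Fin.sum_univ_two]
  change _ = ⟪_, (0 : ℂ)⟫_ℂ + ⟪_, al σ z * vV (f1 k u σ) (g1 u) z 1⟫_ℂ
  rw [V1_0, V1_1, Q1_0 h, Q1_1, inner_zero_right, h.lap_eq z hz, sc_dx h, sc_dy h]
  simp only [RCLike.inner_apply]
  apply Complex.ext
  · simp only [Complex.add_re, Complex.mul_re, Complex.conj_re, Complex.conj_im, al, dd, sc, rhs,
      Complex.zero_re, Complex.mul_im]
    field_simp
    ring
  · simp only [Complex.add_im, Complex.mul_im, Complex.mul_re, Complex.conj_re, Complex.conj_im, al,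
      dd, sc, rhs, Complex.zero_im]
    field_simp
    ring

theorem R1_0 (h : Sol m Λ k U u σ) (hU : IsOpen U) (z : ℂ) (hz : z ∈ U) :
    vW (f1 k u σ) (g1 u) z 0 =
      -(((k * σ z) ^ 2 : ℝ) * dd u z) - ((2 * k ^ 2 * σ z * u z : ℝ) : ℂ) * dd σ z := by
  rw [W1_0 h, dx_lap h hU z hz, dy_lap h hU z hz]
  apply Complex.ext
  · simp only [dd, Complex.sub_re, Complex.neg_re, Complex.re_ofReal_mul]
    ring
  · simp only [dd, Complex.sub_im, Complex.neg_im, Complex.im_ofReal_mul]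
    ring

theorem R1_1 (h : Sol m Λ k U u σ) (z : ℂ) (hz : z ∈ U) (hs : σ z ≠ 0) :
    vW (f1 k u σ) (g1 u) z 1 - al σ z * vP (f1 k u σ) (g1 u) z 1 =
      -((k ^ 3 * σ z ^ 3 * u z : ℝ) : ℂ) + (k : ℂ) * conj (conj (dd σ z) * dd u z)
        + ((k * u z * lap σ z : ℝ) : ℂ) -
        ((k * u z / σ z : ℝ) : ℂ) * (dd σ z * conj (dd σ z)) := by
  rw [W1_1, P1_1, sc_lap h, sc_dx h, sc_dy h, h.lap_eq z hz]
  apply Complex.ext
  · simp only [dd, al, rhs, Complex.add_re, Complex.sub_re, Complex.neg_re, Complex.ofReal_re,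
      Complex.ofReal_im, Complex.mul_re, Complex.mul_im, Complex.conj_re, Complex.conj_im]
    field_simp
    ring
  · simp only [dd, al, rhs, Complex.add_im, Complex.sub_im, Complex.neg_im, Complex.ofReal_re,
      Complex.ofReal_im, Complex.mul_re, Complex.mul_im, Complex.conj_re, Complex.conj_im]
    field_simp
    ring

/-- the bound for the first component -/
theorem curv1_main (h : Sol m Λ k U u σ) (hm : 0 < m) (hk : 1 ≤ k) (hU : IsOpen U) {ε : ℝ}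
    (hε : 0 < ε) (z : ℂ) (hz : z ∈ U) {B : ℝ} (hB : 1 + Λ + 1 / m ≤ B) (hΛ : 0 < Λ) :
    gG (f1 k u σ) (g1 u) ε z ^ 2 - 2 * (2 * B ^ 2) * N1 u σ k ε z * gG (f1 k u σ) (g1 u) ε z -
      2 * (40 * B ^ 4 * k ^ 2) * N1 u σ k ε z ^ 2 ≤
      N1 u σ k ε z ^ 2 * lap (L1 u σ k ε) z ∧
    -((2 * B ^ 2) ^ 2 + 2 * (40 * B ^ 4 * k ^ 2)) ≤ lap (L1 u σ k ε) z := by
  have hs0 : 0 < σ z := hm.trans_le (h.low z hz)
  have hs : σ z ≠ 0 := hs0.ne'
  have hB1 : 1 ≤ B := by have : 0 < 1 / m := by positivity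
                         linarith
  have hsB : σ z ≤ B := by
    have := h.up z hz
    have : 0 < 1 / m := by positivity
    linarith
  have hsi : 1 / σ z ≤ B := by
    have : 1 / σ z ≤ 1 / m := one_div_le_one_div_of_le hm (h.low z hz)
    linarith
  have hΛB : Λ ≤ B := by
    have : 0 < 1 / m := by positivity
    linarith
  have hdd : ‖dd σ z‖ ≤ 2 * B := by
    calc ‖dd σ z‖ ≤ |(dd σ z).re| + |(dd σ z).im| := Complex.norm_le_abs_re_add_abs_im _
      _ ≤ Λ + Λ := by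
        simp only [dd, abs_neg]
        exact add_le_add (h.d1x z hz) (h.d1y z hz)
      _ ≤ 2 * B := by linarith
  have hal : ‖al σ z‖ ≤ 2 * B ^ 2 := by
    have e : al σ z = ((1 / σ z : ℝ) : ℂ) * conj (dd σ z) := by
      apply Complex.ext
      · simp [al, dd]; field_simp
      · simp [al, dd]; field_simp
    rw [e, norm_mul, RCLike.norm_conj, Complex.norm_real, Real.norm_of_nonneg (by positivity)]
    calc 1 / σ z * ‖dd σ z‖ ≤ B * (2 * B) := by gcongr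
      _ = _ := by ring
  have hlap : |lap σ z| ≤ 2 * B := by
    calc |lap σ z| ≤ |dx (dx σ) z| + |dy (dy σ) z| := abs_add_le _ _
      _ ≤ Λ + Λ := add_le_add (h.d2xx z hz) (h.d2yy z hz)
      _ ≤ 2 * B := by linarith
  set X : ℝ := ‖vV (f1 k u σ) (g1 u) z‖ with hX
  have hX0 : 0 ≤ X := norm_nonneg _
  have hv : ‖dd u z‖ ≤ X := by
    rw [← V1_0 (k := k) (σ := σ)]; exact PiLp.norm_apply_le _ _
  have hT : |k * u z| ≤ B * X := by
    have h1 : |sc k u σ z| ≤ X := by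
      have : ‖vV (f1 k u σ) (g1 u) z 1‖ ≤ X := PiLp.norm_apply_le _ _
      rw [V1_1] at this
      have h2 := Complex.abs_re_le_norm (⟨sc k u σ z, 0⟩ : ℂ)
      exact h2.trans this
    have h2 : k * u z = 1 / σ z * sc k u σ z := by unfold sc; field_simp
    rw [h2, abs_mul, abs_of_pos (by positivity : 0 < 1 / σ z)]
    gcongr
  have hk0 : 0 < k := by linarith
  have hkk : k ≤ k ^ 2 := by nlinarith
  have hk1 : 1 ≤ k ^ 2 := by nlinarith
  have key := curv_lower (f1_contDiff h) (g1_contDiff h) hε z (A1 (al σ z)) (2 * B ^ 2)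
    (40 * B ^ 4 * k ^ 2) (by positivity)
    (fun x => (A1_bound _ x).trans (by gcongr)) (by positivity) (V1_struct h z hz hs) ?_
  · have e : (fun z => Real.log (nN (f1 k u σ) (g1 u) ε z)) = L1 u σ k ε := by
      ext y; rw [L1, N1_eq]
    rw [e, ← N1_eq] at key
    exact key
  · have e : vW (f1 k u σ) (g1 u) z - A1 (al σ z) (vP (f1 k u σ) (g1 u) z) =
        WithLp.toLp 2 ![vW (f1 k u σ) (g1 u) z 0,
          vW (f1 k u σ) (g1 u) z 1 - al σ z * vP (f1 k u σ) (g1 u) z 1] := by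
      ext i
      fin_cases i
      · simp [A1]
      · simp [A1]
    rw [e]
    refine (norm_toLp2_le _).trans ?_
    simp only [Matrix.cons_val_zero, Matrix.cons_val_one]
    have b0 : ‖vW (f1 k u σ) (g1 u) z 0‖ ≤ 5 * B ^ 4 * k ^ 2 * X := by
      rw [R1_0 h hU z hz]
      have t1 : ‖(((k * σ z) ^ 2 : ℝ) : ℂ) * dd u z‖ ≤ B ^ 2 * k ^ 2 * X := by
        rw [norm_mul, Complex.norm_real, Real.norm_of_nonneg (by positivity)]
        calc (k * σ z) ^ 2 * ‖dd u z‖ ≤ (k * B) ^ 2 * X := by gcongr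
          _ = _ := by ring
      have t2 : ‖((2 * k ^ 2 * σ z * u z : ℝ) : ℂ) * dd σ z‖ ≤ 4 * B ^ 3 * k * X := by
        rw [norm_mul, Complex.norm_real, Real.norm_eq_abs]
        have : 2 * k ^ 2 * σ z * u z = (2 * k * σ z) * (k * u z) := by ring
        rw [this, abs_mul, abs_of_pos (by positivity : 0 < 2 * k * σ z)]
        calc 2 * k * σ z * |k * u z| * ‖dd σ z‖ ≤ 2 * k * B * (B * X) * (2 * B) := by gcongr
          _ = _ := by ring
      calc ‖-((((k * σ z) ^ 2 : ℝ) : ℂ) * dd u z) - ((2 * k ^ 2 * σ z * u z : ℝ) : ℂ) * dd σ z‖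
          ≤ ‖(((k * σ z) ^ 2 : ℝ) : ℂ) * dd u z‖ + ‖((2 * k ^ 2 * σ z * u z : ℝ) : ℂ) * dd σ z‖ := by
            refine (norm_sub_le _ _).trans ?_
            rw [norm_neg]
        _ ≤ B ^ 2 * k ^ 2 * X + 4 * B ^ 3 * k * X := add_le_add t1 t2
        _ ≤ B ^ 4 * k ^ 2 * X + 4 * B ^ 4 * k ^ 2 * X := by
          gcongr <;> norm_num
        _ = _ := by ring
    have b1 : ‖vW (f1 k u σ) (g1 u) z 1 - al σ z * vP (f1 k u σ) (g1 u) z 1‖ ≤
        9 * B ^ 4 * k ^ 2 * X := by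
      rw [R1_1 h z hz hs]
      have t1 : ‖((k ^ 3 * σ z ^ 3 * u z : ℝ) : ℂ)‖ ≤ B ^ 4 * k ^ 2 * X := by
        rw [Complex.norm_real, Real.norm_eq_abs]
        have : k ^ 3 * σ z ^ 3 * u z = (k ^ 2 * σ z ^ 3) * (k * u z) := by ring
        rw [this, abs_mul, abs_of_pos (by positivity : 0 < k ^ 2 * σ z ^ 3)]
        calc k ^ 2 * σ z ^ 3 * |k * u z| ≤ k ^ 2 * B ^ 3 * (B * X) := by gcongr
          _ = _ := by ring
      have t2 : ‖(k : ℂ) * conj (conj (dd σ z) * dd u z)‖ ≤ 2 * B ^ 4 * k ^ 2 * X := by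
        rw [norm_mul, RCLike.norm_conj, norm_mul, RCLike.norm_conj, Complex.norm_real,
          Real.norm_of_nonneg hk0.le]
        calc k * (‖dd σ z‖ * ‖dd u z‖) ≤ k ^ 2 * (2 * B * X) := by gcongr
          _ = 2 * B ^ 1 * k ^ 2 * X := by ring
          _ ≤ 2 * B ^ 4 * k ^ 2 * X := by gcongr <;> norm_num
      have t3 : ‖((k * u z * lap σ z : ℝ) : ℂ)‖ ≤ 2 * B ^ 4 * k ^ 2 * X := by
        rw [Complex.norm_real, Real.norm_eq_abs, abs_mul]
        calc |k * u z| * |lap σ z| ≤ (B * X) * (2 * B) := by gcongr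
          _ = 2 * B ^ 2 * 1 * X := by ring
          _ ≤ 2 * B ^ 4 * k ^ 2 * X := by gcongr <;> norm_num
      have t4 : ‖((k * u z / σ z : ℝ) : ℂ) * (dd σ z * conj (dd σ z))‖ ≤
          4 * B ^ 4 * k ^ 2 * X := by
        rw [norm_mul, Complex.norm_real, norm_mul, RCLike.norm_conj, Real.norm_eq_abs,
          div_eq_mul_one_div, abs_mul, abs_of_pos (by positivity : 0 < 1 / σ z)]
        calc |k * u z| * (1 / σ z) * (‖dd σ z‖ * ‖dd σ z‖) ≤ (B * X) * B * (2 * B * (2 * B)) := by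
              gcongr
          _ = 4 * B ^ 4 * 1 * X := by ring
          _ ≤ 4 * B ^ 4 * k ^ 2 * X := by gcongr
      calc _ ≤ ‖((k ^ 3 * σ z ^ 3 * u z : ℝ) : ℂ)‖ + ‖(k : ℂ) * conj (conj (dd σ z) * dd u z)‖ +
            ‖((k * u z * lap σ z : ℝ) : ℂ)‖ +
            ‖((k * u z / σ z : ℝ) : ℂ) * (dd σ z * conj (dd σ z))‖ := by
            refine (norm_sub_le _ _).trans ?_
            gcongr
            refine (norm_add_le _ _).trans ?_
            gcongr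
            refine (norm_add_le _ _).trans ?_
            rw [norm_neg]
        _ ≤ B ^ 4 * k ^ 2 * X + 2 * B ^ 4 * k ^ 2 * X + 2 * B ^ 4 * k ^ 2 * X +
            4 * B ^ 4 * k ^ 2 * X := by gcongr
        _ = _ := by ring
    have : 0 ≤ B ^ 4 * k ^ 2 * X := by positivity
    linarith

end

end Pool.Agent.Helper904_QS
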