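import Pool.Agent.Helper904_QS.Curv3

/-!
The curvature inequality for `V₂` (three components).
-/

set_option autoImplicit false
set_option linter.unusedSimpArgs false

open MeasureTheory Set Metric Filter Topology
open scoped ContDiff InnerProductSpace ComplexConjugate

namespace Pool.Agent.Helper904_QS

section
variable {m Λ k : ℝ} {U : Set ℂ} {u σ : ℂ → ℝ}

/-- `V₂` -/
noncomputable def f2 (k : ℝ) (u σ : ℂ → ℝ) : Fin 3 → ℂ → ℝ := ![q1 u, bx k u σ, bz k u σ]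
/-- `V₂` -/
noncomputable def g2 (k : ℝ) (u σ : ℂ → ℝ) : Fin 3 → ℂ → ℝ := ![q2 u, by' k u σ, fun _ => 0]

theorem f2_contDiff (h : Sol m Λ k U u σ) (i : Fin 3) : ContDiff ℝ 2 (f2 k u σ i) := by
  fin_cases i
  · exact q1_contDiff h
  · exact bx_contDiff h
  · exact bz_contDiff h
theorem g2_contDiff (h : Sol m Λ k U u σ) (i : Fin 3) : ContDiff ℝ 2 (g2 k u σ i) := by
  fin_cases i
  · exact q2_contDiff h
  · exact by_contDiff h
  · exact contDiff_const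

theorem N2_eq (ε : ℝ) (z : ℂ) :
    N2 u σ k m ε z = nN (f2 k u σ) (g2 k u σ) ((m * k) ^ 2 * ε) z := by
  unfold N2 V2 nN gsq qsq
  rw [Fin.sum_univ_three]
  simp only [f2, g2, Matrix.cons_val_zero, Matrix.cons_val_one, Matrix.cons_val, q1, q2, bx, by', bz]
  ring

/-- the map `A` for `V₂` -/
noncomputable def A2 (α β c : ℂ) : EuclideanSpace ℂ (Fin 3) →ₗ[ℂ] EuclideanSpace ℂ (Fin 3) where
  toFun x := WithLp.toLp 2 ![-(c * x 1) - β * x 2, α * x 1, 2 * α * x 2]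
  map_add' x y := by
    ext i; fin_cases i <;> simp <;> ring
  map_smul' c x := by
    ext i; fin_cases i <;> simp <;> ring

theorem A2_bound (α β c : ℂ) (x : EuclideanSpace ℂ (Fin 3)) :
    ‖A2 α β c x‖ ≤ (‖c‖ + ‖β‖ + 3 * ‖α‖) * ‖x‖ := by
  have h := norm_toLp3_le ![-(c * x 1) - β * x 2, α * x 1, 2 * α * x 2]
  simp only [Matrix.cons_val_zero, Matrix.cons_val_one, Matrix.cons_val] at h
  have h1 : ‖-(c * x 1) - β * x 2‖ ≤ ‖c‖ * ‖x‖ + ‖β‖ * ‖x‖ := by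
    refine (norm_sub_le _ _).trans ?_
    rw [norm_neg, norm_mul, norm_mul]
    gcongr
    · exact PiLp.norm_apply_le x 1
    · exact PiLp.norm_apply_le x 2
  have h2 : ‖α * x 1‖ ≤ ‖α‖ * ‖x‖ := by
    rw [norm_mul]; gcongr; exact PiLp.norm_apply_le x 1
  have h3 : ‖2 * α * x 2‖ ≤ 2 * ‖α‖ * ‖x‖ := by
    rw [norm_mul, norm_mul, Complex.norm_two]; gcongr; exact PiLp.norm_apply_le x 2
  calc ‖A2 α β c x‖ ≤ _ := h
    _ ≤ (‖c‖ * ‖x‖ + ‖β‖ * ‖x‖) + ‖α‖ * ‖x‖ + 2 * ‖α‖ * ‖x‖ := by gcongr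
    _ = _ := by ring

theorem V2_0 (z : ℂ) : vV (f2 k u σ) (g2 k u σ) z 0 = qq u z := rfl
theorem V2_1 (z : ℂ) : vV (f2 k u σ) (g2 k u σ) z 1 = ⟨bx k u σ z, by' k u σ z⟩ := rfl
theorem V2_2 (z : ℂ) : vV (f2 k u σ) (g2 k u σ) z 2 = ⟨bz k u σ z, 0⟩ := rfl
theorem P2_1 (z : ℂ) : vP (f2 k u σ) (g2 k u σ) z 1 =
    ⟨dx (bx k u σ) z + dy (by' k u σ) z, dx (by' k u σ) z - dy (bx k u σ) z⟩ := rfl
theorem P2_2 (z : ℂ) : vP (f2 k u σ) (g2 k u σ) z 2 = ⟨dx (bz k u σ) z, -dy (bz k u σ) z⟩ := by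
  change (⟨dx (bz k u σ) z + dy (fun z => 0) z, dx (fun z => 0) z - dy (bz k u σ) z⟩ : ℂ) = _
  rw [dy_const, dx_const]
  congr 1 <;> ring
theorem Q2_0 (h : Sol m Λ k U u σ) (z : ℂ) :
    vQ (f2 k u σ) (g2 k u σ) z 0 = ⟨dx (lap u) z, -dy (lap u) z⟩ := by
  change (⟨dx (q1 u) z - dy (q2 u) z, dx (q2 u) z + dy (q1 u) z⟩ : ℂ) = _
  rw [q_dbar1 h, q_dbar2 h]
theorem Q2_1 (z : ℂ) : vQ (f2 k u σ) (g2 k u σ) z 1 =
    ⟨dx (bx k u σ) z - dy (by' k u σ) z, dx (by' k u σ) z + dy (bx k u σ) z⟩ := rfl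
theorem Q2_2 (z : ℂ) : vQ (f2 k u σ) (g2 k u σ) z 2 = ⟨dx (bz k u σ) z, dy (bz k u σ) z⟩ := by
  change (⟨dx (bz k u σ) z - dy (fun z => 0) z, dx (fun z => 0) z + dy (bz k u σ) z⟩ : ℂ) = _
  rw [dy_const, dx_const]
  congr 1 <;> ring
theorem W2_0 (z : ℂ) : vW (f2 k u σ) (g2 k u σ) z 0 = ⟨lap (q1 u) z, lap (q2 u) z⟩ := rfl
theorem W2_1 (z : ℂ) : vW (f2 k u σ) (g2 k u σ) z 1 = ⟨lap (bx k u σ) z, lap (by' k u σ) z⟩ := rfl
theorem W2_2 (z : ℂ) : vW (f2 k u σ) (g2 k u σ) z 2 = ⟨lap (bz k u σ) z, 0⟩ := by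
  change (⟨lap (bz k u σ) z, lap (fun z => 0) z⟩ : ℂ) = _
  rw [lap_const]

/-- `2 (2∂σ)/σ` -/
noncomputable def be (σ : ℂ → ℝ) (z : ℂ) : ℂ := ⟨2 * dx σ z / σ z, -(2 * dy σ z / σ z)⟩

theorem uyy (h : Sol m Λ k U u σ) (z : ℂ) (hz : z ∈ U) :
    dy (dy u) z = rhs k u σ z - dx (dx u) z := by
  have := h.lap_eq z hz
  unfold lap at this
  linarith

theorem V2_struct (h : Sol m Λ k U u σ) (hU : IsOpen U) (z : ℂ) (hz : z ∈ U) (hs : σ z ≠ 0) :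
    ⟪vV (f2 k u σ) (g2 k u σ) z, vQ (f2 k u σ) (g2 k u σ) z⟫_ℂ =
      ⟪vV (f2 k u σ) (g2 k u σ) z, A2 (al σ z) (be σ z) ((k * σ z : ℝ) : ℂ)
        (vV (f2 k u σ) (g2 k u σ) z)⟫_ℂ := by
  rw [PiLp.inner_apply, PiLp.inner_apply, Fin.sum_univ_three, Fin.sum_univ_three]
  change _ = ⟪_, -(((k * σ z : ℝ) : ℂ) * vV (f2 k u σ) (g2 k u σ) z 1) -
      be σ z * vV (f2 k u σ) (g2 k u σ) z 2⟫_ℂ + ⟪_, al σ z * vV (f2 k u σ) (g2 k u σ) z 1⟫_ℂ +
      ⟪_, 2 * al σ z * vV (f2 k u σ) (g2 k u σ) z 2⟫_ℂ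
  rw [V2_0, V2_1, V2_2, Q2_0 h, Q2_1, Q2_2, dx_lap h hU z hz, dy_lap h hU z hz, bx_dx h, bx_dy h,
    by_dx h, by_dy h, bz_dx h, bz_dy h, uyy h z hz]
  simp only [RCLike.inner_apply]
  have h2 : (2 : ℂ) = ((2 : ℝ) : ℂ) := by norm_num
  rw [h2]
  apply Complex.ext
  · simp only [Complex.add_re, Complex.sub_re, Complex.neg_re, Complex.mul_re, Complex.conj_re,
      Complex.conj_im, al, be, qq, q1, q2, bx, by', bz, rhs,
      Complex.mul_im, Complex.ofReal_re, Complex.ofReal_im, Complex.sub_im, Complex.neg_im,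
      uyy h z hz]
    field_simp
    ring
  · simp only [Complex.add_im, Complex.sub_re, Complex.neg_re, Complex.mul_re, Complex.conj_re,
      Complex.conj_im, al, be, qq, q1, q2, bx, by', bz, rhs,
      Complex.mul_im, Complex.ofReal_re, Complex.ofReal_im, Complex.sub_im, Complex.neg_im,
      uyy h z hz]
    field_simp
    ring

theorem R2_0 (h : Sol m Λ k U u σ) (hU : IsOpen U) (z : ℂ) (hz : z ∈ U) (hs : σ z ≠ 0) :
    vW (f2 k u σ) (g2 k u σ) z 0 - (-(((k * σ z : ℝ) : ℂ) * vP (f2 k u σ) (g2 k u σ) z 1) -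
      be σ z * vP (f2 k u σ) (g2 k u σ) z 2) =
      ((2 * (k ^ 2 * u z) : ℝ) : ℂ) * (dd σ z * dd σ z) -
        ((2 * σ z * (k ^ 2 * u z) : ℝ) : ℂ) * qq σ z -
        ((k * σ z : ℝ) : ℂ) * (dd σ z * kv k u z) := by
  rw [W2_0, P2_1, P2_2, bx_dx h, bx_dy h, by_dx h, by_dy h, bz_dx h, bz_dy h, q1_lap h, q2_lap h,
    dxx_lap h hU z hz, dyy_lap h hU z hz, dxy_lap h hU z hz]
  apply Complex.ext
  · simp only [Complex.add_re, Complex.sub_re, Complex.neg_re, Complex.mul_re, dd, kv,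
      al, be, qq, q1, q2, rhs,
      Complex.mul_im, Complex.ofReal_re, Complex.ofReal_im, Complex.sub_im, Complex.neg_im]
    field_simp
    ring
  · simp only [Complex.add_im, Complex.sub_re, Complex.neg_re, Complex.mul_re, dd, kv,
      al, be, qq, q1, q2, rhs,
      Complex.mul_im, Complex.ofReal_re, Complex.ofReal_im, Complex.sub_im, Complex.neg_im]
    field_simp
    ring

theorem R2_1 (h : Sol m Λ k U u σ) (hU : IsOpen U) (z : ℂ) (hz : z ∈ U) (hs : σ z ≠ 0) :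
    vW (f2 k u σ) (g2 k u σ) z 1 - al σ z * vP (f2 k u σ) (g2 k u σ) z 1 =
      -(((3 * k * σ z ^ 2 * (k ^ 2 * u z) : ℝ) : ℂ) * dd σ z) -
        ((k ^ 2 * σ z ^ 3 : ℝ) : ℂ) * kv k u z + ((lap σ z : ℝ) : ℂ) * kv k u z -
        ((1 / σ z : ℝ) : ℂ) * (dd σ z * conj (dd σ z) * kv k u z) := by
  rw [W2_1, P2_1, bx_dx h, bx_dy h, by_dx h, by_dy h, bx_lap h, by_lap h,
    dx_lap h hU z hz, dy_lap h hU z hz, uyy h z hz]
  apply Complex.ext
  · simp only [Complex.add_re, Complex.sub_re, Complex.neg_re, Complex.mul_re, dd, kv,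
      al, qq, q1, q2, rhs, Complex.conj_re, Complex.conj_im,
      Complex.mul_im, Complex.ofReal_re, Complex.ofReal_im, Complex.sub_im, Complex.neg_im]
    field_simp
    ring
  · simp only [Complex.add_im, Complex.sub_re, Complex.neg_re, Complex.mul_re, dd, kv,
      al, qq, q1, q2, rhs, Complex.conj_re, Complex.conj_im,
      Complex.mul_im, Complex.ofReal_re, Complex.ofReal_im, Complex.sub_im, Complex.neg_im]
    field_simp
    ring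

theorem R2_2 (h : Sol m Λ k U u σ) (z : ℂ) (hz : z ∈ U) (hs : σ z ≠ 0) :
    vW (f2 k u σ) (g2 k u σ) z 2 - 2 * al σ z * vP (f2 k u σ) (g2 k u σ) z 2 =
      -((k ^ 2 * σ z ^ 4 * (k ^ 2 * u z) : ℝ) : ℂ) +
        ((2 * k * σ z : ℝ) : ℂ) * conj (conj (dd σ z) * kv k u z) -
        ((2 * (k ^ 2 * u z) : ℝ) : ℂ) * (dd σ z * conj (dd σ z)) +
        ((2 * σ z * lap σ z * (k ^ 2 * u z) : ℝ) : ℂ) := by
  rw [W2_2, P2_2, bz_dx h, bz_dy h, bz_lap h, h.lap_eq z hz]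
  have h2 : (2 : ℂ) = ((2 : ℝ) : ℂ) := by norm_num
  rw [h2]
  apply Complex.ext
  · simp only [Complex.add_re, Complex.sub_re, Complex.neg_re, Complex.mul_re, dd, kv, gsq,
      al, rhs, Complex.conj_re, Complex.conj_im,
      Complex.mul_im, Complex.ofReal_re, Complex.ofReal_im]
    field_simp
    ring
  · simp only [Complex.add_im, Complex.sub_re, Complex.neg_re, Complex.mul_re, dd, kv, gsq,
      al, rhs, Complex.conj_re, Complex.conj_im,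
      Complex.mul_im, Complex.ofReal_re, Complex.ofReal_im, Complex.sub_im, Complex.neg_im]
    field_simp
    ring

end

end Pool.Agent.Helper904_QS
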