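import Mathlib

/-!
# MP_177f55_an: quasi-symmetry on surfaces.  Definitions for the flat local analysis.
The plane is `ℂ`, seen as a real plane.
-/

set_option autoImplicit false

open MeasureTheory Set Metric Filter Topology
open scoped ContDiff

namespace Pool.Agent.Helper904_QS

/-- `∂/∂x` -/
noncomputable def dx (f : ℂ → ℝ) (z : ℂ) : ℝ := fderiv ℝ f z 1

/-- `∂/∂y` -/
noncomputable def dy (f : ℂ → ℝ) (z : ℂ) : ℝ := fderiv ℝ f z Complex.I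

/-- the Laplacian -/
noncomputable def lap (f : ℂ → ℝ) (z : ℂ) : ℝ := dx (dx f) z + dy (dy f) z

/-- `|∇f|²` -/
noncomputable def gsq (f : ℂ → ℝ) (z : ℂ) : ℝ := dx f z ^ 2 + dy f z ^ 2

/-- square of the trace free Hessian, `|4 ∂²f|²` -/
noncomputable def qsq (f : ℂ → ℝ) (z : ℂ) : ℝ :=
  (dx (dx f) z - dy (dy f) z) ^ 2 + 4 * dx (dy f) z ^ 2

/-- square of the full Hessian -/
noncomputable def hsq (f : ℂ → ℝ) (z : ℂ) : ℝ :=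
  dx (dx f) z ^ 2 + 2 * dx (dy f) z ^ 2 + dy (dy f) z ^ 2

/-- first order quantity `|V₁|² + ε` -/
noncomputable def N1 (u σ : ℂ → ℝ) (k ε : ℝ) (z : ℂ) : ℝ := gsq u z + (k * σ z * u z) ^ 2 + ε

/-- `|V₂|²` -/
noncomputable def V2 (u σ : ℂ → ℝ) (k : ℝ) (z : ℂ) : ℝ :=
  qsq u z + (k * σ z) ^ 2 * gsq u z + ((k * σ z) ^ 2 * u z) ^ 2

/-- second order quantity `|V₂|² + m² k² ε` -/
noncomputable def N2 (u σ : ℂ → ℝ) (k m ε : ℝ) (z : ℂ) : ℝ := V2 u σ k z + (m * k) ^ 2 * ε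

noncomputable def L1 (u σ : ℂ → ℝ) (k ε : ℝ) (z : ℂ) : ℝ := Real.log (N1 u σ k ε z)

noncomputable def L2 (u σ : ℂ → ℝ) (k m ε : ℝ) (z : ℂ) : ℝ := Real.log (N2 u σ k m ε z)

/-- `w = (1/2) log (N₂ / (m² k² N₁))` -/
noncomputable def ww (u σ : ℂ → ℝ) (k m ε : ℝ) (z : ℂ) : ℝ :=
  (L2 u σ k m ε z - L1 u σ k ε z - Real.log ((m * k) ^ 2)) / 2

/-- `u` solves `Δu = -k²σ²u` on `U`, and `σ` is controlled there. -/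
structure Sol (m Λ k : ℝ) (U : Set ℂ) (u σ : ℂ → ℝ) : Prop where
  hu : ContDiff ℝ 4 u
  hs : ContDiff ℝ 3 σ
  low : ∀ z ∈ U, m ≤ σ z
  up : ∀ z ∈ U, σ z ≤ Λ
  d1x : ∀ z ∈ U, |dx σ z| ≤ Λ
  d1y : ∀ z ∈ U, |dy σ z| ≤ Λ
  d2xx : ∀ z ∈ U, |dx (dx σ) z| ≤ Λ
  d2xy : ∀ z ∈ U, |dx (dy σ) z| ≤ Λ
  d2yy : ∀ z ∈ U, |dy (dy σ) z| ≤ Λ
  eq : ∀ z ∈ U, lap u z = -(k ^ 2 * σ z ^ 2 * u z)

/-- the kernel `4 r⁻² (1 - |z|²/r²)₊` -/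
noncomputable def chi (r : ℝ) (z : ℂ) : ℝ := 4 / r ^ 2 * max 0 (1 - ‖z‖ ^ 2 / r ^ 2)

/-- the truncated Green function: `Δ Φ_r = -2π δ₀ + χ_r` -/
noncomputable def Phi (r : ℝ) (z : ℂ) : ℝ :=
  if 0 < ‖z‖ ∧ ‖z‖ < r then
    (-Real.log (‖z‖ ^ 2 / r ^ 2) - (1 - ‖z‖ ^ 2 / r ^ 2) - (1 - ‖z‖ ^ 2 / r ^ 2) ^ 2 / 2) / 2
  else 0

end Pool.Agent.Helper904_QS
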