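import Pool.Agent.Helper904_QS.REG

/-!
Lemma 3 and Lemma 4.
-/

set_option autoImplicit false

open MeasureTheory Set Metric Filter Topology
open scoped ContDiff InnerProductSpace ComplexConjugate

namespace Pool.Agent.Helper904_QS

section
variable {m Λ : ℝ} {U : Set ℂ} {u σ : ℂ → ℝ}

theorem dx_N1 (h : Sol m Λ 1 U u σ) (ε : ℝ) (z : ℂ) : dx (N1 u σ 1 ε) z =
    2 * dx u z * dx (dx u) z + 2 * dy u z * dx (dy u) z +
      2 * (σ z * u z) * (σ z * dx u z + dx σ z * u z) := by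
  have e : N1 u σ 1 ε = nN (f1 1 u σ) (g1 u) ε := by ext z; rw [N1_eq]
  rw [e, dx_nN (f1_contDiff h) (g1_contDiff h), Fin.sum_univ_two]
  have e1 : f1 1 u σ 0 = dx u := rfl
  have e2 : f1 1 u σ 1 = sc 1 u σ := rfl
  have e3 : g1 u 0 = fun z => -dy u z := rfl
  have e4 : g1 u 1 = fun _ => 0 := rfl
  rw [e1, e2, e3, e4, dx_neg, dx_const, sc_dx h, sc]
  ring

theorem dy_N1 (h : Sol m Λ 1 U u σ) (ε : ℝ) (z : ℂ) : dy (N1 u σ 1 ε) z =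
    2 * dx u z * dx (dy u) z + 2 * dy u z * dy (dy u) z +
      2 * (σ z * u z) * (σ z * dy u z + dy σ z * u z) := by
  have e : N1 u σ 1 ε = nN (f1 1 u σ) (g1 u) ε := by ext z; rw [N1_eq]
  rw [e, dy_nN (f1_contDiff h) (g1_contDiff h), Fin.sum_univ_two]
  have e1 : f1 1 u σ 0 = dx u := rfl
  have e2 : f1 1 u σ 1 = sc 1 u σ := rfl
  have e3 : g1 u 0 = fun z => -dy u z := rfl
  have e4 : g1 u 1 = fun _ => 0 := rfl
  rw [e1, e2, e3, e4, dy_neg, dy_const, sc_dy h, sc, dx_dy h.u2]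
  ring

end

namespace PGRAD

/-- pointwise bounds by `√N₂` -/
theorem bounds2 {m Λ : ℝ} {U : Set ℂ} {u σ : ℂ → ℝ} (h : Sol m Λ 1 U u σ) (hm : 0 < m) {ε : ℝ}
    (hε : 0 < ε) {z : ℂ} (hz : z ∈ U) :
    |q1 u z| ≤ √(N2 u σ 1 m ε z) ∧ |q2 u z| ≤ √(N2 u σ 1 m ε z) ∧
    |σ z * dx u z| ≤ √(N2 u σ 1 m ε z) ∧ |σ z * dy u z| ≤ √(N2 u σ 1 m ε z) ∧
    |σ z ^ 2 * u z| ≤ √(N2 u σ 1 m ε z) ∧ |dx (dx u) z| ≤ √(N2 u σ 1 m ε z) ∧
    |dy (dy u) z| ≤ √(N2 u σ 1 m ε z) ∧ |dx (dy u) z| ≤ √(N2 u σ 1 m ε z) := by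
  have hd : N2 u σ 1 m ε z = q1 u z ^ 2 + q2 u z ^ 2 + (σ z * dx u z) ^ 2 + (σ z * dy u z) ^ 2 +
      (σ z ^ 2 * u z) ^ 2 + m ^ 2 * ε := by
    unfold N2 V2 qsq gsq q1 q2; ring
  have h0 : 0 ≤ m ^ 2 * ε := by positivity
  have a1 : |q1 u z| ≤ √(N2 u σ 1 m ε z) := Real.abs_le_sqrt (by
    rw [hd]; nlinarith [sq_nonneg (q2 u z), sq_nonneg (σ z * dx u z), sq_nonneg (σ z * dy u z),
      sq_nonneg (σ z ^ 2 * u z)])
  have a2 : |q2 u z| ≤ √(N2 u σ 1 m ε z) := Real.abs_le_sqrt (by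
    rw [hd]; nlinarith [sq_nonneg (q1 u z), sq_nonneg (σ z * dx u z), sq_nonneg (σ z * dy u z),
      sq_nonneg (σ z ^ 2 * u z)])
  have a3 : |σ z * dx u z| ≤ √(N2 u σ 1 m ε z) := Real.abs_le_sqrt (by
    rw [hd]; nlinarith [sq_nonneg (q1 u z), sq_nonneg (q2 u z), sq_nonneg (σ z * dy u z),
      sq_nonneg (σ z ^ 2 * u z)])
  have a4 : |σ z * dy u z| ≤ √(N2 u σ 1 m ε z) := Real.abs_le_sqrt (by
    rw [hd]; nlinarith [sq_nonneg (q1 u z), sq_nonneg (q2 u z), sq_nonneg (σ z * dx u z),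
      sq_nonneg (σ z ^ 2 * u z)])
  have a5 : |σ z ^ 2 * u z| ≤ √(N2 u σ 1 m ε z) := Real.abs_le_sqrt (by
    rw [hd]; nlinarith [sq_nonneg (q1 u z), sq_nonneg (q2 u z), sq_nonneg (σ z * dx u z),
      sq_nonneg (σ z * dy u z)])
  have hl : dx (dx u) z + dy (dy u) z = -(σ z ^ 2 * u z) := by
    have := h.eq z hz; unfold lap at this; rw [this]; ring
  have e1 : dx (dx u) z = (q1 u z + -(σ z ^ 2 * u z)) / 2 := by unfold q1; linarith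
  have e2 : dy (dy u) z = (-q1 u z + -(σ z ^ 2 * u z)) / 2 := by unfold q1; linarith
  have e3 : dx (dy u) z = -q2 u z / 2 := by unfold q2; ring
  have hX : 0 ≤ √(N2 u σ 1 m ε z) := Real.sqrt_nonneg _
  refine ⟨a1, a2, a3, a4, a5, ?_, ?_, ?_⟩
  · rw [e1, abs_div, abs_two]
    have := abs_add_le (q1 u z) (-(σ z ^ 2 * u z))
    rw [abs_neg] at this
    linarith
  · rw [e2, abs_div, abs_two]
    have := abs_add_le (-q1 u z) (-(σ z ^ 2 * u z))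
    rw [abs_neg, abs_neg] at this
    linarith
  · rw [e3, abs_div, abs_two, abs_neg]
    linarith

/-- pointwise bounds by `√N₁` -/
theorem bounds1 {m Λ : ℝ} {U : Set ℂ} {u σ : ℂ → ℝ} (h : Sol m Λ 1 U u σ) (hm : 0 < m) {ε : ℝ}
    (hε : 0 < ε) {z : ℂ} (hz : z ∈ U) :
    |dx u z| ≤ √(N1 u σ 1 ε z) ∧ |dy u z| ≤ √(N1 u σ 1 ε z) ∧
    |σ z * u z| ≤ √(N1 u σ 1 ε z) ∧ √ε ≤ √(N1 u σ 1 ε z) ∧ |u z| ≤ 1 / m * √(N1 u σ 1 ε z) ∧
    ‖dd u z‖ ≤ √(N1 u σ 1 ε z) := by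
  have hd : N1 u σ 1 ε z = dx u z ^ 2 + dy u z ^ 2 + (σ z * u z) ^ 2 + ε := by
    unfold N1 gsq; ring
  have a3 : |σ z * u z| ≤ √(N1 u σ 1 ε z) := Real.abs_le_sqrt (by
    rw [hd]; nlinarith [sq_nonneg (dx u z), sq_nonneg (dy u z)])
  refine ⟨?_, ?_, a3, ?_, ?_, ?_⟩
  · exact Real.abs_le_sqrt (by rw [hd]; nlinarith [sq_nonneg (dy u z), sq_nonneg (σ z * u z)])
  · exact Real.abs_le_sqrt (by rw [hd]; nlinarith [sq_nonneg (dx u z), sq_nonneg (σ z * u z)])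
  · apply Real.sqrt_le_sqrt
    rw [hd]; nlinarith [sq_nonneg (dx u z), sq_nonneg (dy u z), sq_nonneg (σ z * u z)]
  · have hs := h.low z hz
    have h1 : m * |u z| ≤ |σ z * u z| := by
      rw [abs_mul, abs_of_pos (hm.trans_le hs)]
      gcongr
    rw [one_div, inv_mul_eq_div, le_div_iff₀ hm]
    linarith
  · rw [← abs_of_nonneg (norm_nonneg (dd u z))]
    apply Real.abs_le_sqrt
    rw [← Complex.normSq_eq_norm_sq, Complex.normSq_apply, hd]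
    simp only [dd]
    nlinarith [sq_nonneg (σ z * u z)]

/-- `√N₂ = m e^w √N₁` -/
theorem sqrt_N2 {m Λ : ℝ} {U : Set ℂ} {u σ : ℂ → ℝ} (h : Sol m Λ 1 U u σ) (hm : 0 < m) {ε : ℝ}
    (hε : 0 < ε) (z : ℂ) :
    √(N2 u σ 1 m ε z) = m * Real.exp (ww u σ 1 m ε z) * √(N1 u σ 1 ε z) := by
  have e := (PREG.t_REG m Λ 1 ε U u σ hm le_rfl hε h).2.2.2.2.2.2 z
  rw [e]
  have : (m * 1) ^ 2 * Real.exp (2 * ww u σ 1 m ε z) * N1 u σ 1 ε z =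
      (m * Real.exp (ww u σ 1 m ε z)) ^ 2 * N1 u σ 1 ε z := by
    rw [two_mul, Real.exp_add]; ring
  rw [this, Real.sqrt_mul (by positivity), Real.sqrt_sq (by positivity)]

theorem t_GRAD : S_GRAD := by
  intro m Λ hm hmΛ
  have hΛ : 0 < Λ := hm.trans_le hmΛ
  refine ⟨(6 + 2 * Λ / m ^ 2) * m, by positivity, ?_⟩
  intro ε U u σ hε hU h z hz
  obtain ⟨a1, a2, a3, a4, a5, a6, a7, a8⟩ := bounds2 h hm hε hz
  obtain ⟨b1, b2, b3, b4, b5, b6⟩ := bounds1 h hm hε hz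
  have hX := sqrt_N2 h hm hε z
  set X := √(N2 u σ 1 m ε z) with hXd
  set Y := √(N1 u σ 1 ε z) with hYd
  have hX0 : 0 ≤ X := Real.sqrt_nonneg _
  have hN := N1_pos (u := u) (σ := σ) (k := 1) hε z
  have hY0 : 0 < Y := Real.sqrt_pos.2 hN
  have hYY : Y ^ 2 = N1 u σ 1 ε z := Real.sq_sqrt hN.le
  have hs := h.low z hz
  have hs0 : 0 < σ z := hm.trans_le hs
  have hu : |u z| ≤ 1 / m ^ 2 * X := by
    have h1 : m ^ 2 * |u z| ≤ |σ z ^ 2 * u z| := by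
      rw [abs_mul, abs_of_pos (by positivity : 0 < σ z ^ 2)]
      gcongr
    rw [one_div, inv_mul_eq_div, le_div_iff₀ (by positivity)]
    linarith
  have main : ∀ p q r s : ℝ, |p| ≤ X → |q| ≤ X → |r| ≤ X → |s| ≤ Λ →
      |2 * dx u z * p + 2 * dy u z * q + 2 * (σ z * u z) * (r + s * u z)| ≤
        (6 + 2 * Λ / m ^ 2) * X * Y := by
    intro p q r s hp hq hr hs
    have t1 : |2 * dx u z * p| ≤ 2 * Y * X := by
      rw [abs_mul, abs_mul, abs_two]; gcongr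
    have t2 : |2 * dy u z * q| ≤ 2 * Y * X := by
      rw [abs_mul, abs_mul, abs_two]; gcongr
    have t3 : |2 * (σ z * u z) * (r + s * u z)| ≤ 2 * Y * (X + Λ * (1 / m ^ 2 * X)) := by
      rw [abs_mul, abs_mul, abs_two]
      gcongr
      refine (abs_add_le _ _).trans ?_
      rw [abs_mul s]
      gcongr
    calc _ ≤ |2 * dx u z * p| + |2 * dy u z * q| + |2 * (σ z * u z) * (r + s * u z)| :=
          abs_add_three _ _ _
      _ ≤ 2 * Y * X + 2 * Y * X + 2 * Y * (X + Λ * (1 / m ^ 2 * X)) := by gcongr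
      _ = _ := by field_simp; ring
  have fin : ∀ D : ℝ, |D| ≤ (6 + 2 * Λ / m ^ 2) * X * Y →
      |D / N1 u σ 1 ε z| ≤ (6 + 2 * Λ / m ^ 2) * m * Real.exp (ww u σ 1 m ε z) := by
    intro D hD
    rw [abs_div, abs_of_pos hN, div_le_iff₀ hN, ← hYY]
    refine hD.trans (le_of_eq ?_)
    rw [hX]
    ring
  have dN : Differentiable ℝ (N1 u σ 1 ε) := by
    have e : N1 u σ 1 ε = nN (f1 1 u σ) (g1 u) ε := by ext z; rw [N1_eq]
    rw [e]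
    exact (nN_contDiff (f1_contDiff h) (g1_contDiff h) ε).differentiable (by norm_num)
  constructor
  · have e : dx (L1 u σ 1 ε) z = dx (N1 u σ 1 ε) z / N1 u σ 1 ε z := by
      change dx (fun z => Real.log (N1 u σ 1 ε z)) z = _
      rw [dx_log (dN z) hN.ne']
    rw [e]
    apply fin
    rw [dx_N1 h]
    exact main _ _ _ _ a6 a8 a3 (h.d1x z hz)
  · have e : dy (L1 u σ 1 ε) z = dy (N1 u σ 1 ε) z / N1 u σ 1 ε z := by
      change dy (fun z => Real.log (N1 u σ 1 ε z)) z = _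
      rw [dy_log (dN z) hN.ne']
    rw [e]
    apply fin
    rw [dy_N1 h]
    exact main _ _ _ _ a8 a7 a4 (h.d1y z hz)

theorem lagrange (a b c d : ℂ) :
    (‖a‖ ^ 2 + ‖b‖ ^ 2) * (‖c‖ ^ 2 + ‖d‖ ^ 2) - ‖c * conj a + d * conj b‖ ^ 2 =
      ‖a * d - b * c‖ ^ 2 := by
  simp only [← Complex.normSq_eq_norm_sq, Complex.normSq_apply, Complex.add_re, Complex.add_im,
    Complex.sub_re, Complex.sub_im, Complex.mul_re, Complex.mul_im, Complex.conj_re,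
    Complex.conj_im]
  ring

theorem t_WEDGE : S_WEDGE := by
  intro m Λ B₀ hm hmΛ hB₀
  have hΛ : 0 < Λ := hm.trans_le hmΛ
  set B := 1 + Λ + 1 / m with hB
  have hB1 : 1 ≤ B := by have : 0 < 1 / m := by positivity
                         linarith
  set κ := 2 * B ^ 2 with hκ
  set ρ := 40 * B ^ 4 * (1 : ℝ) ^ 2 with hρ
  set C0 := κ + √(κ ^ 2 + B₀ + 2 * ρ) with hC0
  have hκ0 : 0 < κ := by positivity
  have hC0' : 0 < C0 := by positivity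
  refine ⟨(C0 + Λ + 2 * Λ * (1 / m) + 2 * Λ + m) / m ^ 2, by positivity, ?_⟩
  intro ε U u σ hε hU h z hz hlap
  obtain ⟨b1, b2, b3, b4, b5, b6⟩ := bounds1 h hm hε hz
  have hX := sqrt_N2 h hm hε z
  have key := (curv1_main h hm le_rfl hU hε z hz hB.le hΛ).1
  have hG0 : 0 ≤ gG (f1 1 u σ) (g1 u) ε z := Real.sqrt_nonneg _
  have hN := N1_pos (u := u) (σ := σ) (k := 1) hε z
  have hGsq := gG_sq (f1 1 u σ) (g1 u) hε z
  have hVsq := vV_sq (f1 1 u σ) (g1 u) ε z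
  rw [← N1_eq] at hGsq hVsq
  set G := gG (f1 1 u σ) (g1 u) ε z
  set N := N1 u σ 1 ε z with hNd
  -- upper bound for G
  have hG : G ≤ C0 * N := by
    have h1 : N ^ 2 * lap (L1 u σ 1 ε) z ≤ N ^ 2 * B₀ := by gcongr
    have h2 : (G - κ * N) ^ 2 ≤ (κ ^ 2 + B₀ + 2 * ρ) * N ^ 2 := by nlinarith
    have h3 : G - κ * N ≤ √((κ ^ 2 + B₀ + 2 * ρ) * N ^ 2) := Real.le_sqrt_of_sq_le h2
    rw [Real.sqrt_mul (by positivity), Real.sqrt_sq hN.le] at h3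
    rw [hC0]; linarith
  -- lower bound for G
  have hG2 : ‖dd u z * (⟨dx (sc 1 u σ) z, -dy (sc 1 u σ) z⟩ : ℂ) -
      (⟨sc 1 u σ z, 0⟩ : ℂ) * qq u z‖ ≤ G := by
    have e1 : ‖vV (f1 1 u σ) (g1 u) z‖ ^ 2 = ‖dd u z‖ ^ 2 + ‖(⟨sc 1 u σ z, 0⟩ : ℂ)‖ ^ 2 := by
      rw [EuclideanSpace.norm_sq_eq, Fin.sum_univ_two, V1_0, V1_1]
    have e2 : ‖vP (f1 1 u σ) (g1 u) z‖ ^ 2 = ‖qq u z‖ ^ 2 +
        ‖(⟨dx (sc 1 u σ) z, -dy (sc 1 u σ) z⟩ : ℂ)‖ ^ 2 := by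
      rw [EuclideanSpace.norm_sq_eq, Fin.sum_univ_two, P1_0 h, P1_1]
    have e3 : ⟪vV (f1 1 u σ) (g1 u) z, vP (f1 1 u σ) (g1 u) z⟫_ℂ =
        qq u z * conj (dd u z) + (⟨dx (sc 1 u σ) z, -dy (sc 1 u σ) z⟩ : ℂ) *
          conj (⟨sc 1 u σ z, 0⟩ : ℂ) := by
      rw [PiLp.inner_apply, Fin.sum_univ_two, V1_0, V1_1, P1_0 h, P1_1]
      rfl
    have e4 := lagrange (dd u z) (⟨sc 1 u σ z, 0⟩ : ℂ) (qq u z)
      (⟨dx (sc 1 u σ) z, -dy (sc 1 u σ) z⟩ : ℂ)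
    rw [← e1, ← e2, ← e3] at e4
    have e5 : ‖dd u z * (⟨dx (sc 1 u σ) z, -dy (sc 1 u σ) z⟩ : ℂ) -
      (⟨sc 1 u σ z, 0⟩ : ℂ) * qq u z‖ ^ 2 ≤ G ^ 2 := by
      rw [← e4, hGsq]
      have : ‖vV (f1 1 u σ) (g1 u) z‖ ^ 2 * ‖vP (f1 1 u σ) (g1 u) z‖ ^ 2 ≤
          N * ‖vP (f1 1 u σ) (g1 u) z‖ ^ 2 := by
        gcongr; linarith
      linarith
    exact (pow_le_pow_iff_left₀ (norm_nonneg _) hG0 (by norm_num)).1 e5
  set Y := √N with hYd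
  have hY0 : 0 < Y := Real.sqrt_pos.2 hN
  have hYY : Y ^ 2 = N := Real.sq_sqrt hN.le
  have hs0 : 0 < σ z := hm.trans_le (h.low z hz)
  have hsΛ := h.up z hz
  have hdd : ‖dd σ z‖ ≤ 2 * Λ := by
    calc ‖dd σ z‖ ≤ |(dd σ z).re| + |(dd σ z).im| := Complex.norm_le_abs_re_add_abs_im _
      _ ≤ Λ + Λ := by
        simp only [dd, abs_neg]
        exact add_le_add (h.d1x z hz) (h.d1y z hz)
      _ = 2 * Λ := by ring
  -- |σ u| |q| ≤ C N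
  have hq : |σ z * u z| * ‖qq u z‖ ≤ (C0 + Λ + 2 * Λ * (1 / m)) * N := by
    have e1 : (⟨dx (sc 1 u σ) z, -dy (sc 1 u σ) z⟩ : ℂ) =
        (σ z : ℂ) * dd u z + (u z : ℂ) * dd σ z := by
      rw [sc_dx h, sc_dy h]
      apply Complex.ext
      · rw [Complex.add_re, Complex.re_ofReal_mul, Complex.re_ofReal_mul]; simp only [dd]; ring
      · rw [Complex.add_im, Complex.im_ofReal_mul, Complex.im_ofReal_mul]; simp only [dd]; ring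
    have e2 : (⟨sc 1 u σ z, 0⟩ : ℂ) * qq u z =
        ((σ z : ℂ) * (dd u z * dd u z) + (u z : ℂ) * (dd u z * dd σ z)) -
        (dd u z * (⟨dx (sc 1 u σ) z, -dy (sc 1 u σ) z⟩ : ℂ) - (⟨sc 1 u σ z, 0⟩ : ℂ) * qq u z) := by
      rw [e1]; ring
    have e3 : ‖(⟨sc 1 u σ z, 0⟩ : ℂ)‖ = |σ z * u z| := by
      have : (⟨sc 1 u σ z, 0⟩ : ℂ) = ((σ z * u z : ℝ) : ℂ) := by
        apply Complex.ext
        · simp [sc]
        · simp
      rw [this, Complex.norm_real, Real.norm_eq_abs]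
    have e4 : |σ z * u z| * ‖qq u z‖ = ‖(⟨sc 1 u σ z, 0⟩ : ℂ) * qq u z‖ := by
      rw [norm_mul, e3]
    rw [e4, e2]
    have t1 : ‖(σ z : ℂ) * (dd u z * dd u z)‖ ≤ Λ * (Y * Y) := by
      rw [norm_mul, norm_mul (dd u z), Complex.norm_real, Real.norm_of_nonneg hs0.le]
      gcongr
    have t2 : ‖(u z : ℂ) * (dd u z * dd σ z)‖ ≤ 1 / m * Y * (Y * (2 * Λ)) := by
      rw [norm_mul, norm_mul (dd u z), Complex.norm_real, Real.norm_eq_abs]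
      gcongr
    calc _ ≤ ‖(σ z : ℂ) * (dd u z * dd u z) + (u z : ℂ) * (dd u z * dd σ z)‖ +
          ‖dd u z * (⟨dx (sc 1 u σ) z, -dy (sc 1 u σ) z⟩ : ℂ) - (⟨sc 1 u σ z, 0⟩ : ℂ) * qq u z‖ :=
          norm_sub_le _ _
      _ ≤ (Λ * (Y * Y) + 1 / m * Y * (Y * (2 * Λ))) + G := by
          gcongr
          exact (norm_add_le _ _).trans (add_le_add t1 t2)
      _ ≤ (Λ * (Y * Y) + 1 / m * Y * (Y * (2 * Λ))) + C0 * N := by gcongr
      _ = _ := by rw [← hYY]; ring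
  -- √N₂ ≤ |q| + σ|v| + σ²|u| + m √ε
  have hN2 : √(N2 u σ 1 m ε z) ≤ ‖qq u z‖ + Λ * Y + Λ * Y + m * Y := by
    apply Real.sqrt_le_iff.2
    refine ⟨by positivity, ?_⟩
    have e1 : N2 u σ 1 m ε z = ‖qq u z‖ ^ 2 + (σ z) ^ 2 * ‖dd u z‖ ^ 2 +
        (σ z * (σ z * u z)) ^ 2 + m ^ 2 * (√ε) ^ 2 := by
      rw [← Complex.normSq_eq_norm_sq, ← Complex.normSq_eq_norm_sq, Complex.normSq_apply,
        Complex.normSq_apply, Real.sq_sqrt hε.le]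
      simp only [qq, dd]
      unfold N2 V2 qsq gsq q1 q2; ring
    rw [e1]
    have p1 : 0 ≤ ‖qq u z‖ := norm_nonneg _
    have p2 : (σ z) ^ 2 * ‖dd u z‖ ^ 2 ≤ (Λ * Y) ^ 2 := by rw [← mul_pow]; gcongr
    have p3 : (σ z * (σ z * u z)) ^ 2 ≤ (Λ * Y) ^ 2 := by
      rw [← sq_abs, abs_mul, abs_of_pos hs0]; gcongr
    have p4 : m ^ 2 * (√ε) ^ 2 ≤ (m * Y) ^ 2 := by rw [← mul_pow]; gcongr
    have p5 : 0 ≤ Λ * Y := by positivity
    have p6 : 0 ≤ m * Y := by positivity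
    nlinarith [mul_nonneg p1 p5, mul_nonneg p1 p6, mul_nonneg p5 p6, mul_nonneg p5 p5]
  have hfin : |σ z * u z| * √(N2 u σ 1 m ε z) ≤
      (C0 + Λ + 2 * Λ * (1 / m) + 2 * Λ + m) * Y ^ 2 := by
    calc |σ z * u z| * √(N2 u σ 1 m ε z) ≤ |σ z * u z| * (‖qq u z‖ + Λ * Y + Λ * Y + m * Y) := by
          gcongr
      _ = |σ z * u z| * ‖qq u z‖ + |σ z * u z| * (2 * Λ * Y + m * Y) := by ring
      _ ≤ (C0 + Λ + 2 * Λ * (1 / m)) * N + Y * (2 * Λ * Y + m * Y) := by gcongr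
      _ = _ := by rw [← hYY]; ring
  rw [hX] at hfin
  have h1 : m * |u z| ≤ |σ z * u z| := by
    rw [abs_mul, abs_of_pos hs0]
    gcongr
    exact h.low z hz
  have h2 : m * |u z| * (m * Real.exp (ww u σ 1 m ε z) * Y) ≤
      (C0 + Λ + 2 * Λ * (1 / m) + 2 * Λ + m) * Y ^ 2 := by
    refine le_trans ?_ hfin
    gcongr
  have h3 : Real.exp (-ww u σ 1 m ε z) * Real.exp (ww u σ 1 m ε z) = 1 := by
    rw [← Real.exp_add]; simp
  have hE := Real.exp_pos (ww u σ 1 m ε z)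
  have hE' := Real.exp_pos (-ww u σ 1 m ε z)
  have h4 : |u z| * m ^ 2 ≤ (C0 + Λ + 2 * Λ * (1 / m) + 2 * Λ + m) *
      Real.exp (-ww u σ 1 m ε z) * Y := by
    have h5 : Real.exp (-ww u σ 1 m ε z) * (m * |u z| * (m * Real.exp (ww u σ 1 m ε z) * Y)) ≤
        Real.exp (-ww u σ 1 m ε z) * ((C0 + Λ + 2 * Λ * (1 / m) + 2 * Λ + m) * Y ^ 2) := by
      gcongr
    have h6 : Real.exp (-ww u σ 1 m ε z) * (m * |u z| * (m * Real.exp (ww u σ 1 m ε z) * Y)) =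
        |u z| * m ^ 2 * Y := by
      calc _ = |u z| * m ^ 2 * Y *
          (Real.exp (-ww u σ 1 m ε z) * Real.exp (ww u σ 1 m ε z)) := by ring
        _ = _ := by rw [h3, mul_one]
    rw [h6] at h5
    have h7 : |u z| * m ^ 2 * Y ≤ ((C0 + Λ + 2 * Λ * (1 / m) + 2 * Λ + m) *
      Real.exp (-ww u σ 1 m ε z) * Y) * Y := by
      refine h5.trans (le_of_eq ?_); ring
    exact le_of_mul_le_mul_right h7 hY0
  rw [← le_div_iff₀ (by positivity)] at h4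
  refine h4.trans (le_of_eq ?_)
  ring

end PGRAD

end Pool.Agent.Helper904_QS
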