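import Pool.Agent.Helper904_QS.Stmts

/-!
# ISO (seat 8, helper18): definitions and statements of the pieces.
-/

set_option autoImplicit false

open MeasureTheory Set Metric Filter Topology
open scoped ContDiff

namespace Pool.Agent.Helper904_QS.PISO

/-- the character `exp (2πi (n₀ x + n₁ y))` -/
noncomputable def en (n : Fin 2 → ℤ) (z : ℂ) : ℂ :=
  Complex.exp (2 * Real.pi * Complex.I * (n 0 * z.re + n 1 * z.im))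

/-- the weight -/
noncomputable def wt (n : Fin 2 → ℤ) : ℝ := (1 + ‖n‖) ^ 5

/-- derivative in the direction `v` -/
noncomputable def dv (v : ℂ) (g : ℂ → ℂ) (z : ℂ) : ℂ := fderiv ℝ g z v

/-- FOUA: a smooth periodic function that is the identity near `0`. -/
def S_FOUA : Prop := ∃ s : ℝ → ℝ, ContDiff ℝ ∞ s ∧ (∀ x, s (x + 1) = s x) ∧ (∀ x, |s x| ≤ 1) ∧
  ∃ r : ℝ, 0 < r ∧ ∀ x, |x| < r → s x = x

/-- FOUB: smallness after rescaling. -/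
def S_FOUB : Prop := ∀ (μ : ℂ → ℂ) (p : ℂ), ContDiffAt ℝ 9 μ p → ∀ s : ℝ → ℝ, ContDiff ℝ ∞ s →
  (∀ x, s (x + 1) = s x) → (∀ x, |s x| ≤ 1) → ∀ ε : ℝ, 0 < ε →
  ∃ δ : ℝ, 0 < δ ∧ δ < ε ∧
    ContDiff ℝ 9 (fun z : ℂ => μ (p + δ * (s z.re + s z.im * Complex.I)) - μ p) ∧
    (∀ z : ℂ, ‖μ (p + δ * (s z.re + s z.im * Complex.I)) - μ p‖ ≤ ε) ∧
    (∀ z : ℂ, ‖((dv 1)^[8] (fun z : ℂ => μ (p + δ * (s z.re + s z.im * Complex.I)) - μ p)) z‖ ≤ ε) ∧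
    (∀ z : ℂ, ‖((dv Complex.I)^[8]
      (fun z : ℂ => μ (p + δ * (s z.re + s z.im * Complex.I)) - μ p)) z‖ ≤ ε)

/-- FOUC: Fourier coefficients of a periodic function. -/
def S_FOUC : Prop := ∀ (g : ℂ → ℂ) (ε : ℝ), ContDiff ℝ 9 g → (∀ z, g (z + 1) = g z) →
  (∀ z, g (z + Complex.I) = g z) → (∀ z, ‖g z‖ ≤ ε) → (∀ z, ‖((dv 1)^[8] g) z‖ ≤ ε) →
  (∀ z, ‖((dv Complex.I)^[8] g) z‖ ≤ ε) →
  ∃ c : (Fin 2 → ℤ) → ℂ, (∀ n, ‖c n‖ ≤ ε) ∧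
    (∀ n j, n j ≠ 0 → ‖c n‖ ≤ ε / (4 * |(n j : ℝ)|) ^ 8) ∧
    ∀ z, HasSum (fun n => c n * en n z) (g z)

/-- FOUD: summation of the coefficients. -/
def S_FOUD : Prop := ∃ C : ℝ, 0 < C ∧ ∀ (c : (Fin 2 → ℤ) → ℂ) (ε : ℝ), 0 ≤ ε →
  (∀ n, ‖c n‖ ≤ ε) → (∀ n j, n j ≠ 0 → ‖c n‖ ≤ ε / (4 * |(n j : ℝ)|) ^ 8) →
  Summable (fun n => wt n * ‖c n‖) ∧ ∑' n, wt n * ‖c n‖ ≤ C * ε

/-- FOU: rescaled Beltrami coefficients are close to constants in the weighted Wiener algebra. -/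
def S_FOU : Prop := ∀ (μ : ℂ → ℂ) (p : ℂ), ContDiffAt ℝ 9 μ p → ∀ ε : ℝ, 0 < ε →
  ∃ (δ r : ℝ) (c : (Fin 2 → ℤ) → ℂ), 0 < δ ∧ δ < ε ∧ 0 < r ∧
    Summable (fun n => wt n * ‖c n‖) ∧
    (∀ z ∈ ball (0 : ℂ) r, ∑' n, c n * en n z = μ (p + δ * z)) ∧
    ‖c 0 - μ p‖ ≤ ε ∧ ∑' n, (if n = 0 then 0 else wt n * ‖c n‖) ≤ ε

/-- SOL: solution of the Beltrami equation in the Wiener algebra. -/
def S_SOL : Prop := ∀ (c : (Fin 2 → ℤ) → ℂ), Summable (fun n => wt n * ‖c n‖) →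
  ∑' n, wt n * ‖c n‖ < 1 →
  ∑' n, (if n = 0 then 0 else wt n * ‖c n‖) ≤ (1 - ∑' n, wt n * ‖c n‖) / 2 →
  ∃ f F : ℂ → ℂ, ContDiff ℝ 5 f ∧ (∀ z, ‖F z - 1‖ ≤ 1 / 2) ∧
    ∀ z ξ : ℂ, fderiv ℝ f z ξ = F z * (ξ + (∑' n, c n * en n z) * starRingEnd ℂ ξ)

end Pool.Agent.Helper904_QS.PISO
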