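import Pool.Agent.Helper904_QS.IsoDefs

/-!
# ISO, piece FOUC: Fourier coefficients of a doubly periodic function of class `C⁹`.
The decay comes from iterated differences, no integration by parts.
-/

set_option autoImplicit false

open MeasureTheory Set Metric Filter Topology
open scoped ContDiff

namespace Pool.Agent.Helper904_QS.PISOC

open Pool.Agent.Helper904_QS.PISO
open UnitAddTorus

/-- normalised measure on the circle -/
noncomputable local instance : MeasureSpace UnitAddCircle := ⟨AddCircle.haarAddCircle⟩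

local instance : Measure.IsAddHaarMeasure (volume : Measure UnitAddCircle) :=
  inferInstanceAs (Measure.IsAddHaarMeasure AddCircle.haarAddCircle)

local instance : IsProbabilityMeasure (volume : Measure UnitAddCircle) :=
  inferInstanceAs (IsProbabilityMeasure AddCircle.haarAddCircle)

/-! ### differences on the plane -/

/-- difference operator on the plane -/
def df (w : ℂ) (g : ℂ → ℂ) (z : ℂ) : ℂ := g (z + w) - g z

lemma df_diff (w : ℂ) {g : ℂ → ℂ} (hg : Differentiable ℝ g) : Differentiable ℝ (df w g) := by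
  unfold df
  exact (hg.comp (by fun_prop : Differentiable ℝ fun z : ℂ => z + w)).sub hg

lemma df_iter_diff (w : ℂ) (k : ℕ) : ∀ {g : ℂ → ℂ}, Differentiable ℝ g →
    Differentiable ℝ ((df w)^[k] g) := by
  induction k with
  | zero => intro g hg; exact hg
  | succ k ih =>
    intro g hg
    rw [Function.iterate_succ_apply]
    exact ih (df_diff w hg)

lemma dv_df (v w : ℂ) {g : ℂ → ℂ} (hg : Differentiable ℝ g) : dv v (df w g) = df w (dv v g) := by
  funext z
  unfold dv df
  have h1 : HasFDerivAt (fun z : ℂ => g (z + w)) (fderiv ℝ g (z + w)) z := by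
    have h2 : HasFDerivAt g (fderiv ℝ g (z + w)) (z + w) := (hg (z + w)).hasFDerivAt
    have h3 : HasFDerivAt (fun z : ℂ => z + w) (ContinuousLinearMap.id ℝ ℂ) z :=
      (hasFDerivAt_id z).add_const w
    have h4 := h2.comp z h3
    rwa [ContinuousLinearMap.comp_id] at h4
  have h5 : HasFDerivAt (fun z => g (z + w) - g z) (fderiv ℝ g (z + w) - fderiv ℝ g z) z :=
    h1.sub (hg z).hasFDerivAt
  rw [h5.fderiv]
  rfl

lemma dv_df_iter (v w : ℂ) (k : ℕ) : ∀ {g : ℂ → ℂ}, Differentiable ℝ g →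
    dv v ((df w)^[k] g) = (df w)^[k] (dv v g) := by
  induction k with
  | zero => intro g _; rfl
  | succ k ih =>
    intro g hg
    rw [Function.iterate_succ_apply, Function.iterate_succ_apply, ih (df_diff w hg), dv_df v w hg]

lemma df_bound (v : ℂ) (h : ℝ) {G : ℂ → ℂ} (hG : Differentiable ℝ G) {M : ℝ}
    (hM : ∀ z, ‖dv v G z‖ ≤ M) (z : ℂ) : ‖df ((h : ℂ) * v) G z‖ ≤ |h| * M := by
  have h1 := norm_image_sub_le_of_norm_deriv_le_segment_01'
    (f := fun t : ℝ => G (z + (t : ℂ) * ((h : ℂ) * v)))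
    (f' := fun t : ℝ => (h : ℂ) * dv v G (z + (t : ℂ) * ((h : ℂ) * v))) (C := |h| * M)
    (fun t _ => ?_) (fun t _ => ?_)
  · simpa [df] using h1
  · have e1 : HasDerivAt (fun t : ℝ => z + (t : ℂ) * ((h : ℂ) * v)) ((h : ℂ) * v) t := by
      have := ((Complex.ofRealCLM.hasDerivAt (x := t)).mul_const ((h : ℂ) * v)).const_add z
      simpa using this
    have e2 : HasFDerivAt G (fderiv ℝ G (z + (t : ℂ) * ((h : ℂ) * v)))
        (z + (t : ℂ) * ((h : ℂ) * v)) := (hG _).hasFDerivAt
    have e3 := e2.comp_hasDerivAt t e1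
    refine (e3.congr_deriv ?_).hasDerivWithinAt
    have e4 : (h : ℂ) * v = h • v := by simp
    rw [e4, map_smul]
    simp [dv]
  · rw [norm_mul, Complex.norm_real, Real.norm_eq_abs]
    exact mul_le_mul_of_nonneg_left (hM _) (abs_nonneg h)

lemma dv_contDiff (v : ℂ) {g : ℂ → ℂ} {l : ℕ} (hg : ContDiff ℝ (l + 1 : ℕ) g) :
    ContDiff ℝ (l : ℕ) (dv v g) := by
  unfold dv
  have h1 : ContDiff ℝ (l : ℕ) (fderiv ℝ g) := hg.fderiv_right (by norm_cast)
  exact h1.clm_apply contDiff_const

lemma df_iter_bound (v : ℂ) (h : ℝ) (M : ℝ) (l : ℕ) : ∀ {g : ℂ → ℂ}, ContDiff ℝ (l : ℕ) g →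
    (∀ z, ‖((dv v)^[l] g) z‖ ≤ M) → ∀ z, ‖((df ((h : ℂ) * v))^[l] g) z‖ ≤ |h| ^ l * M := by
  induction l with
  | zero => intro g _ hM z; simpa using hM z
  | succ l ih =>
    intro g hg hM z
    have hd : Differentiable ℝ g := hg.differentiable (by norm_cast)
    rw [Function.iterate_succ_apply']
    have h1 : ∀ z, ‖dv v ((df ((h : ℂ) * v))^[l] g) z‖ ≤ |h| ^ l * M := by
      intro z
      rw [dv_df_iter v _ l hd]
      refine ih (dv_contDiff v hg) ?_ z
      intro w
      have := hM w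
      rwa [Function.iterate_succ_apply] at this
    have h2 := df_bound v h (df_iter_diff ((h : ℂ) * v) l hd) h1 z
    calc _ ≤ |h| * (|h| ^ l * M) := h2
      _ = |h| ^ (l + 1) * M := by ring

/-! ### the torus -/

/-- the torus -/
abbrev T2 := UnitAddTorus (Fin 2)

/-- projection to the torus -/
def pr (x : Fin 2 → ℝ) : T2 := fun j => (x j : UnitAddCircle)

/-- the plane -/
noncomputable def toC (x : Fin 2 → ℝ) : ℂ := (x 0 : ℂ) + (x 1 : ℂ) * Complex.I

lemma toC_cont : Continuous toC := by unfold toC; fun_prop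

lemma toC_add (x y : Fin 2 → ℝ) : toC (x + y) = toC x + toC y := by
  unfold toC
  simp only [Pi.add_apply]
  push_cast
  ring

lemma pr_add (x y : Fin 2 → ℝ) : pr (x + y) = pr x + pr y := by
  funext j
  simp [pr]

lemma pr_quot : IsOpenQuotientMap pr :=
  IsOpenQuotientMap.piMap fun _ => QuotientAddGroup.isOpenQuotientMap_mk

lemma pr_surj : Function.Surjective pr := pr_quot.surjective

lemma periodic_int {g : ℂ → ℂ} (h1 : ∀ z, g (z + 1) = g z) (hI : ∀ z, g (z + Complex.I) = g z)
    (z : ℂ) (a b : ℤ) : g (z + a + b * Complex.I) = g z := by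
  have p1 : Function.Periodic g 1 := h1
  have pI : Function.Periodic g Complex.I := hI
  have e1 := (pI.int_mul b) (z + a)
  have e2 := (p1.int_mul a) z
  rw [mul_one] at e2
  rw [e1, e2]

lemma factor {g : ℂ → ℂ} (h1 : ∀ z, g (z + 1) = g z) (hI : ∀ z, g (z + Complex.I) = g z)
    {x y : Fin 2 → ℝ} (h : pr x = pr y) : g (toC x) = g (toC y) := by
  have h2 : ∀ j, ∃ n : ℤ, x j = y j + n := by
    intro j
    have h3 : (x j : UnitAddCircle) = (y j : UnitAddCircle) := congrFun h j
    have h4 : ((x j - y j : ℝ) : UnitAddCircle) = 0 := by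
      rw [AddCircle.coe_sub, h3, sub_self]
    obtain ⟨n, hn⟩ := (AddCircle.coe_eq_zero_iff (1 : ℝ)).1 h4
    refine ⟨n, ?_⟩
    rw [zsmul_eq_mul, mul_one] at hn
    linarith
  obtain ⟨a, ha⟩ := h2 0
  obtain ⟨b, hb⟩ := h2 1
  have : toC x = toC y + a + b * Complex.I := by
    unfold toC
    rw [ha, hb]
    push_cast
    ring
  rw [this, periodic_int h1 hI]

/-- the lift of a doubly periodic function -/
lemma exists_lift {g : ℂ → ℂ} (hg : Continuous g) (h1 : ∀ z, g (z + 1) = g z)
    (hI : ∀ z, g (z + Complex.I) = g z) : ∃ F : C(T2, ℂ), ∀ x, F (pr x) = g (toC x) := by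
  choose r hr using pr_surj
  have h2 : ∀ x, g (toC (r (pr x))) = g (toC x) := fun x => factor h1 hI (hr (pr x))
  refine ⟨⟨fun t => g (toC (r t)), ?_⟩, h2⟩
  rw [← pr_quot.continuous_comp_iff]
  have : (fun t => g (toC (r t))) ∘ pr = fun x => g (toC x) := funext h2
  rw [this]
  exact hg.comp toC_cont

/-! ### Fourier coefficients -/

/-- difference operator on the torus -/
def dt (a : T2) (G : T2 → ℂ) (t : T2) : ℂ := G (t + a) - G t

lemma dt_cont (a : T2) {G : T2 → ℂ} (hG : Continuous G) : Continuous (dt a G) := by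
  unfold dt
  exact (hG.comp (continuous_add_const a)).sub hG

lemma intble {G : T2 → ℂ} (hG : Continuous G) : Integrable G (volume : Measure T2) :=
  hG.integrable_of_hasCompactSupport (HasCompactSupport.of_compactSpace G)

lemma norm_mF (n : Fin 2 → ℤ) (t : T2) : ‖mFourier n t‖ = 1 := by
  unfold mFourier
  simp only [ContinuousMap.coe_mk, norm_prod, fourier_apply, Circle.norm_coe, Finset.prod_const_one]

lemma mF_add (n : Fin 2 → ℤ) (s t : T2) : mFourier n (s + t) = mFourier n s * mFourier n t := by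
  unfold mFourier
  simp only [ContinuousMap.coe_mk, fourier_apply, Pi.add_apply, smul_add, AddCircle.toCircle_add,
    Circle.coe_mul, Finset.prod_mul_distrib]

lemma coeff_shift (n : Fin 2 → ℤ) (a : T2) (G : T2 → ℂ) :
    mFourierCoeff (fun t => G (t + a)) n = mFourier n a * mFourierCoeff G n := by
  unfold mFourierCoeff
  have h1 : ∀ t : T2, mFourier (-n) t • G (t + a) =
      mFourier n a * (mFourier (-n) (t + a) • G (t + a)) := by
    intro t
    rw [mF_add, smul_eq_mul, smul_eq_mul]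
    have h2 : mFourier n a * mFourier (-n) a = 1 := by
      rw [← mFourier_add, add_neg_cancel, mFourier_zero]; rfl
    linear_combination (-(mFourier (-n) t * G (t + a))) * h2
  simp_rw [h1]
  rw [integral_const_mul]
  congr 1
  exact integral_add_right_eq_self (fun t => mFourier (-n) t • G t) a

lemma coeff_dt (n : Fin 2 → ℤ) (a : T2) {G : T2 → ℂ} (hG : Continuous G) :
    mFourierCoeff (dt a G) n = (mFourier n a - 1) * mFourierCoeff G n := by
  rw [sub_mul, one_mul, ← coeff_shift]
  unfold mFourierCoeff dt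
  simp_rw [smul_sub]
  refine integral_sub (intble ?_) (intble ?_)
  · exact (mFourier (-n)).continuous.smul (hG.comp (continuous_add_const a))
  · exact (mFourier (-n)).continuous.smul hG

lemma coeff_dt_iter (n : Fin 2 → ℤ) (a : T2) (k : ℕ) : ∀ {G : T2 → ℂ}, Continuous G →
    mFourierCoeff ((dt a)^[k] G) n = (mFourier n a - 1) ^ k * mFourierCoeff G n := by
  induction k with
  | zero => intro G _; simp
  | succ k ih =>
    intro G hG
    rw [Function.iterate_succ_apply, ih (dt_cont a hG), coeff_dt n a hG]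
    ring

lemma coeff_le (n : Fin 2 → ℤ) {G : T2 → ℂ} {M : ℝ} (hM : ∀ t, ‖G t‖ ≤ M) :
    ‖mFourierCoeff G n‖ ≤ M := by
  unfold mFourierCoeff
  have h1 : ∀ t : T2, ‖mFourier (-n) t • G t‖ ≤ M := by
    intro t
    rw [norm_smul, norm_mF, one_mul]
    exact hM t
  have := norm_integral_le_of_norm_le_const (μ := (volume : Measure T2))
    (Filter.Eventually.of_forall h1)
  simpa using this

/-- differences on the torus and in the plane -/
lemma dt_df (b : Fin 2 → ℝ) (k : ℕ) : ∀ {G : T2 → ℂ} {g : ℂ → ℂ}, (∀ x, G (pr x) = g (toC x)) →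
    ∀ x, ((dt (pr b))^[k] G) (pr x) = ((df (toC b))^[k] g) (toC x) := by
  induction k with
  | zero => intro G g h x; exact h x
  | succ k ih =>
    intro G g h x
    rw [Function.iterate_succ_apply, Function.iterate_succ_apply]
    refine ih (fun y => ?_) x
    unfold dt df
    rw [← pr_add, ← toC_add, h, h]

/-- the value of a character -/
lemma mF_pr (n : Fin 2 → ℤ) (x : Fin 2 → ℝ) : mFourier n (pr x) = en n (toC x) := by
  unfold mFourier en pr toC
  simp only [ContinuousMap.coe_mk, Fin.prod_univ_two, fourier_coe_apply]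
  rw [← Complex.exp_add]
  congr 1
  simp
  ring

lemma bound_j {g : ℂ → ℂ} {ε : ℝ} (hg : ContDiff ℝ 9 g) (v : ℂ)
    (h8 : ∀ z, ‖((dv v)^[8] g) z‖ ≤ ε) (F : C(T2, ℂ)) (hF : ∀ x, F (pr x) = g (toC x))
    (n : Fin 2 → ℤ) (e : Fin 2 → ℝ) (he : toC e = v) (m : ℤ) (hm : m ≠ 0)
    (hn : ∀ h : ℝ, en n (toC (h • e)) = Complex.exp (2 * Real.pi * Complex.I * (m * h))) :
    ‖mFourierCoeff F n‖ ≤ ε / (4 * |(m : ℝ)|) ^ 8 := by
  have hm' : (m : ℝ) ≠ 0 := by exact_mod_cast hm
  set h : ℝ := 1 / (2 * m) with hh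
  have hto : toC (h • e) = (h : ℂ) * v := by
    rw [← he]
    unfold toC
    simp only [Pi.smul_apply, smul_eq_mul]
    push_cast
    ring
  have h1 : mFourier n (pr (h • e)) = -1 := by
    rw [mF_pr, hn, hh]
    have : (2 * (Real.pi : ℂ) * Complex.I * (m * ((1 / (2 * m) : ℝ) : ℂ))) = Real.pi * Complex.I := by
      push_cast
      have hmc : (m : ℂ) ≠ 0 := by exact_mod_cast hm
      field_simp
    rw [this, Complex.exp_pi_mul_I]
  have h2 := coeff_dt_iter n (pr (h • e)) 8 F.continuous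
  rw [h1] at h2
  have h3 : ∀ t, ‖((dt (pr (h • e)))^[8] F) t‖ ≤ |h| ^ 8 * ε := by
    intro t
    obtain ⟨x, rfl⟩ := pr_surj t
    rw [dt_df (h • e) 8 hF x, hto]
    exact df_iter_bound v h ε 8 (hg.of_le (by norm_num)) h8 (toC x)
  have h4 := coeff_le n h3
  rw [h2, norm_mul, norm_pow] at h4
  have h5 : ‖(-1 - 1 : ℂ)‖ = 2 := by norm_num
  rw [h5] at h4
  have h6 : |h| ^ 8 * ε = 2 ^ 8 * (ε / (4 * |(m : ℝ)|) ^ 8) := by
    have hm2 : |(m : ℝ)| ≠ 0 := abs_ne_zero.2 hm'
    rw [hh, abs_div, abs_mul, abs_one, abs_two]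
    field_simp
    norm_num
    ring
  rw [h6] at h4
  exact le_of_mul_le_mul_left h4 (by norm_num)

theorem t_FOUC : S_FOUC := by
  intro g ε hg h1 hI h0 hx hy
  obtain ⟨F, hF⟩ := exists_lift hg.continuous h1 hI
  have hε : 0 ≤ ε := (norm_nonneg _).trans (h0 0)
  have b0 : ∀ n, ‖mFourierCoeff F n‖ ≤ ε := by
    intro n
    refine coeff_le n fun t => ?_
    obtain ⟨x, rfl⟩ := pr_surj t
    rw [hF]
    exact h0 _
  have bj : ∀ (n : Fin 2 → ℤ) (j : Fin 2), n j ≠ 0 →
      ‖mFourierCoeff F n‖ ≤ ε / (4 * |(n j : ℝ)|) ^ 8 := by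
    intro n j hj
    fin_cases j
    · refine bound_j hg 1 hx F hF n ![1, 0] (by simp [toC]) (n 0) hj fun h => ?_
      unfold en toC
      congr 1
      simp
    · refine bound_j hg Complex.I hy F hF n ![0, 1] (by simp [toC]) (n 1) hj fun h => ?_
      unfold en toC
      congr 1
      simp
  have hsum : Summable (mFourierCoeff F) := by
    have hs := EisensteinSeries.summable_one_div_norm_rpow (k := 8) (by norm_num)
    refine (hs.mul_left ε).of_norm_bounded_eventually ?_
    have hfin : ({0} : Set (Fin 2 → ℤ)).Finite := Set.finite_singleton 0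
    filter_upwards [hfin.compl_mem_cofinite] with n hn
    have hn0 : n ≠ 0 := hn
    obtain ⟨j, hj⟩ : ∃ j : Fin 2, ‖n‖ = |(n j : ℝ)| := by
      rw [EisensteinSeries.norm_eq_max_natAbs]
      rcases le_total (n 0).natAbs (n 1).natAbs with h | h
      · exact ⟨1, by rw [max_eq_right h, Nat.cast_natAbs, Int.cast_abs]⟩
      · exact ⟨0, by rw [max_eq_left h, Nat.cast_natAbs, Int.cast_abs]⟩
    have hpos : 0 < ‖n‖ := norm_pos_iff.2 hn0
    have hnj : n j ≠ 0 := by
      intro h0
      rw [h0, Int.cast_zero, abs_zero] at hj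
      exact hpos.ne' hj
    refine (bj n j hnj).trans ?_
    rw [← hj, Real.rpow_neg hpos.le, ← div_eq_mul_inv]
    have e8 : ‖n‖ ^ (8 : ℝ) = ‖n‖ ^ 8 := by
      rw [show (8 : ℝ) = ((8 : ℕ) : ℝ) by norm_num, Real.rpow_natCast]
    rw [e8]
    apply div_le_div_of_nonneg_left hε (by positivity)
    apply pow_le_pow_left₀ hpos.le
    linarith
  refine ⟨fun n => mFourierCoeff F n, b0, bj, fun z => ?_⟩
  have h2 := hasSum_mFourier_series_apply_of_summable hsum (pr ![z.re, z.im])
  have hz : toC ![z.re, z.im] = z := by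
    unfold toC
    simp
  rw [hF, hz] at h2
  have h3 : (fun n => mFourierCoeff F n * en n z) =
      fun n => mFourierCoeff F n • mFourier n (pr ![z.re, z.im]) := by
    funext n
    rw [mF_pr, hz, smul_eq_mul]
  rw [h3]
  exact h2

end Pool.Agent.Helper904_QS.PISOC
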