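import Pool.Agent.Helper904_QS.IsoFOUB
import Pool.Agent.Helper904_QS.IsoFOUC

/-!
# ISO, piece FOU
-/

set_option autoImplicit false

open MeasureTheory Set Metric Filter Topology
open scoped ContDiff

namespace Pool.Agent.Helper904_QS.PISO

theorem t_FOUA : S_FOUA := by
  have hpi := Real.pi_pos
  let b : ContDiffBump (0 : ℝ) := ⟨1 / 2, 3 / 4, by norm_num, by norm_num⟩
  have hbin : ∀ t : ℝ, |t| ≤ 1 / 2 → b t = 1 := by
    intro t ht
    apply b.one_of_mem_closedBall
    rw [mem_closedBall, dist_zero_right, Real.norm_eq_abs]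
    exact ht
  have hφ : ContDiff ℝ ∞ (fun t : ℝ => b t * Real.arcsin t) := by
    rw [contDiff_iff_contDiffAt]
    intro t
    by_cases ht : |t| < 1
    · have h1 : t ≠ -1 := by rintro rfl; simp at ht
      have h2 : t ≠ 1 := by rintro rfl; simp at ht
      exact (b.contDiff.contDiffAt).mul (Real.contDiffAt_arcsin h1 h2)
    · push Not at ht
      have h3 : (fun t : ℝ => b t * Real.arcsin t) =ᶠ[𝓝 t] fun _ => 0 := by
        have hopen : IsOpen {x : ℝ | 3 / 4 < |x|} := isOpen_lt continuous_const continuous_abs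
        filter_upwards [hopen.mem_nhds (show (3 / 4 : ℝ) < |t| by linarith)] with x hx
        have : b x = 0 := by
          apply b.zero_of_le_dist
          rw [dist_zero_right, Real.norm_eq_abs]
          exact le_of_lt hx
        rw [this, zero_mul]
      exact contDiffAt_const.congr_of_eventuallyEq h3
  refine ⟨fun x => (1 / (2 * Real.pi)) * (b (Real.sin (2 * Real.pi * x)) *
    Real.arcsin (Real.sin (2 * Real.pi * x))), ?_, ?_, ?_, 1 / 16, by norm_num, ?_⟩
  · apply contDiff_const.mul
    exact hφ.comp (Real.contDiff_sin.comp (contDiff_const.mul contDiff_id))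
  · intro x
    have : Real.sin (2 * Real.pi * (x + 1)) = Real.sin (2 * Real.pi * x) := by
      rw [show 2 * Real.pi * (x + 1) = 2 * Real.pi * x + 2 * Real.pi by ring, Real.sin_add_two_pi]
    simp only [this]
  · intro x
    rw [abs_mul, abs_mul, abs_of_pos (by positivity : 0 < 1 / (2 * Real.pi))]
    have h1 : |b (Real.sin (2 * Real.pi * x))| ≤ 1 := by
      rw [abs_of_nonneg b.nonneg]; exact b.le_one
    have h2 : |Real.arcsin (Real.sin (2 * Real.pi * x))| ≤ Real.pi / 2 := by
      rw [abs_le]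
      exact ⟨Real.neg_pi_div_two_le_arcsin _, Real.arcsin_le_pi_div_two _⟩
    calc 1 / (2 * Real.pi) * (|b (Real.sin (2 * Real.pi * x))| * |Real.arcsin (Real.sin (2 * Real.pi * x))|)
        ≤ 1 / (2 * Real.pi) * (1 * (Real.pi / 2)) := by gcongr
      _ = 1 / 4 := by field_simp; norm_num
      _ ≤ 1 := by norm_num
  · intro x hx
    have hp4 := Real.pi_le_four
    have h1 : |2 * Real.pi * x| ≤ 1 / 2 := by
      rw [abs_mul, abs_of_pos (by positivity : 0 < 2 * Real.pi)]
      nlinarith [abs_nonneg x]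
    have h2 : |Real.sin (2 * Real.pi * x)| ≤ 1 / 2 := (Real.abs_sin_le_abs).trans h1
    have h3 : Real.arcsin (Real.sin (2 * Real.pi * x)) = 2 * Real.pi * x := by
      rw [abs_le] at h1
      apply Real.arcsin_sin
      · linarith [Real.pi_gt_three]
      · linarith [Real.pi_gt_three]
    simp only [hbin _ h2, h3]
    field_simp

theorem t_FOUD : S_FOUD := by
  have hs := EisensteinSeries.summable_one_div_norm_rpow (k := 3) (by norm_num)
  have hs1 : Summable (fun n : Fin 2 → ℤ => if n = 0 then (1:ℝ) else 0) :=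
    summable_of_ne_finset_zero (s := {0}) (by intro n hn; simp at hn; simp [hn])
  have hsum := hs.add hs1
  refine ⟨∑' n : Fin 2 → ℤ, (‖n‖ ^ (-(3:ℝ)) + if n = 0 then (1:ℝ) else 0), ?_, ?_⟩
  · have hnn : ∀ n : Fin 2 → ℤ, 0 ≤ (‖n‖ ^ (-(3:ℝ)) + if n = 0 then (1:ℝ) else 0) := by
      intro n
      have : 0 ≤ ‖n‖ ^ (-(3:ℝ)) := Real.rpow_nonneg (norm_nonneg _) _
      split_ifs <;> linarith
    refine Summable.tsum_pos hsum hnn 0 ?_
    rw [if_pos rfl]
    have : 0 ≤ ‖(0 : Fin 2 → ℤ)‖ ^ (-(3:ℝ)) := Real.rpow_nonneg (norm_nonneg _) _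
    linarith
  · intro c ε hε h0 h1
    have key : ∀ n, wt n * ‖c n‖ ≤ (‖n‖ ^ (-(3:ℝ)) + if n = 0 then (1:ℝ) else 0) * ε := by
      intro n
      rcases eq_or_ne n 0 with h | h
      · subst h
        rw [if_pos rfl]
        have e1 : 0 ≤ ‖(0 : Fin 2 → ℤ)‖ ^ (-(3:ℝ)) := Real.rpow_nonneg (norm_nonneg _) _
        have e2 : wt 0 = 1 := by simp [wt]
        rw [e2]
        nlinarith [h0 0]
      · rw [if_neg h, add_zero]
        obtain ⟨j, hj⟩ : ∃ j, ‖n‖ = |(n j : ℝ)| := by
          by_contra hc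
          push Not at hc
          have hpos : 0 < ‖n‖ := norm_pos_iff.2 h
          have : ‖n‖ < ‖n‖ := by
            rw [pi_norm_lt_iff hpos]
            intro j
            refine lt_of_le_of_ne (norm_le_pi_norm n j) ?_
            intro hh
            exact hc j (by rw [← hh, Int.norm_eq_abs])
          exact lt_irrefl _ this
        have hnj : n j ≠ 0 := by
          intro hh
          rw [hh] at hj
          simp at hj
          exact h hj
        have hn1 : 1 ≤ ‖n‖ := by
          rw [hj]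
          have : (1:ℤ) ≤ |n j| := Int.one_le_abs hnj
          exact_mod_cast this
        have hb := h1 n j hnj
        rw [← hj] at hb
        have hw : wt n ≤ 32 * ‖n‖ ^ 5 := by
          unfold wt
          calc (1 + ‖n‖) ^ 5 ≤ (2 * ‖n‖) ^ 5 := pow_le_pow_left₀ (by positivity) (by linarith) 5
            _ = 32 * ‖n‖ ^ 5 := by ring
        have hr : ‖n‖ ^ (-(3:ℝ)) = 1 / ‖n‖ ^ 3 := by
          rw [Real.rpow_neg (norm_nonneg _), one_div]
          norm_cast
        rw [hr]
        calc wt n * ‖c n‖ ≤ (32 * ‖n‖ ^ 5) * (ε / (4 * ‖n‖) ^ 8) :=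
              mul_le_mul hw hb (norm_nonneg _) (by positivity)
          _ = (32 / 4 ^ 8) * (1 / ‖n‖ ^ 3 * ε) := by
              have : ‖n‖ ≠ 0 := by linarith
              field_simp
          _ ≤ 1 * (1 / ‖n‖ ^ 3 * ε) := by
              apply mul_le_mul_of_nonneg_right (by norm_num) (by positivity)
          _ = _ := one_mul _
    have hwn : ∀ n, 0 ≤ wt n * ‖c n‖ := fun n =>
      mul_nonneg (by unfold wt; positivity) (norm_nonneg _)
    have hsm : Summable (fun n => wt n * ‖c n‖) :=
      Summable.of_nonneg_of_le hwn key (hsum.mul_right ε)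
    refine ⟨hsm, ?_⟩
    rw [← tsum_mul_right]
    exact hsm.tsum_le_tsum key (hsum.mul_right ε)

theorem t_FOU : S_FOU := by
  intro μ p hμ ε hε
  obtain ⟨s, hs, hper, hs1, r, hr, hsr⟩ := t_FOUA
  obtain ⟨C, hC, hD⟩ := t_FOUD
  set ε₁ := min ε (ε / C) with hε₁
  have hε₁pos : 0 < ε₁ := lt_min hε (by positivity)
  have hle1 : ε₁ ≤ ε := min_le_left _ _
  have hle2 : C * ε₁ ≤ ε := by
    have : ε₁ ≤ ε / C := min_le_right _ _
    rw [le_div_iff₀ hC] at this
    linarith
  obtain ⟨δ, hδ, hδε, hg9, hgb, hgx, hgy⟩ := PISOB.t_FOUB μ p hμ s hs hper hs1 ε₁ hε₁pos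
  set g : ℂ → ℂ := fun z : ℂ => μ (p + δ * (s z.re + s z.im * Complex.I)) - μ p with hg
  have hp1 : ∀ z, g (z + 1) = g z := by
    intro z
    simp only [hg]
    simp [hper]
  have hp2 : ∀ z, g (z + Complex.I) = g z := by
    intro z
    simp only [hg]
    simp [hper]
  obtain ⟨c', hc1, hc2, hc3⟩ := PISOC.t_FOUC g ε₁ hg9 hp1 hp2 hgb hgx hgy
  obtain ⟨hsm, hle⟩ := hD c' ε₁ hε₁pos.le hc1 hc2
  have hw0 : ∀ n, 0 ≤ wt n := fun n => by unfold wt; positivity
  set c : (Fin 2 → ℤ) → ℂ := fun n => c' n + (if n = 0 then μ p else 0) with hc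
  have hs0 : Summable (fun n : Fin 2 → ℤ => if n = 0 then ‖μ p‖ else 0) :=
    summable_of_ne_finset_zero (s := {0}) (by intro n hn; simp at hn; simp [hn])
  refine ⟨δ, r, c, hδ, lt_of_lt_of_le hδε hle1, hr, ?_, ?_, ?_, ?_⟩
  · refine Summable.of_nonneg_of_le (fun n => mul_nonneg (hw0 n) (norm_nonneg _)) (fun n => ?_)
      (hsm.add hs0)
    simp only [hc]
    split_ifs with h
    · subst h
      have e2 : wt 0 = 1 := by simp [wt]
      rw [e2]
      have := norm_add_le (c' 0) (μ p)
      linarith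
    · simp
  · intro z hz
    have h1 := hc3 z
    have h2 : HasSum (fun n : Fin 2 → ℤ => (if n = 0 then μ p else 0) * en n z) (μ p) := by
      have := hasSum_ite_eq (0 : Fin 2 → ℤ) (μ p)
      convert this using 1
      ext n
      split_ifs with h
      · subst h; simp [en]
      · simp
    have h3 := h1.add h2
    have h4 : (fun n => c n * en n z) = fun n => c' n * en n z + (if n = 0 then μ p else 0) * en n z := by
      ext n; simp only [hc]; ring
    rw [h4, h3.tsum_eq]
    simp only [hg, sub_add_cancel]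
    rw [mem_ball_zero_iff] at hz
    have hzr := hsr z.re (lt_of_le_of_lt (Complex.abs_re_le_norm z) hz)
    have hzi := hsr z.im (lt_of_le_of_lt (Complex.abs_im_le_norm z) hz)
    rw [hzr, hzi, Complex.re_add_im]
  · simp only [hc, if_true, add_sub_cancel_right]
    exact (hc1 0).trans hle1
  · refine le_trans ?_ (hle.trans hle2)
    refine Summable.tsum_le_tsum (fun n => ?_) ?_ hsm
    · split_ifs with h
      · exact mul_nonneg (hw0 n) (norm_nonneg _)
      · simp only [hc, if_neg h, add_zero]; exact le_rfl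
    · refine Summable.of_nonneg_of_le (fun n => ?_) (fun n => ?_) hsm
      · split_ifs
        · exact le_rfl
        · exact mul_nonneg (hw0 n) (norm_nonneg _)
      · split_ifs with h
        · exact mul_nonneg (hw0 n) (norm_nonneg _)
        · simp only [hc, if_neg h, add_zero]; exact le_rfl

end Pool.Agent.Helper904_QS.PISO
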