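import Pool.Agent.Helper904_QS.IsoDefs

set_option autoImplicit false

open MeasureTheory Set Metric Filter Topology
open scoped ContDiff

namespace Pool.Agent.Helper904_QS.PISOB
open Pool.Agent.Helper904_QS.PISO

/-- derivative of a function of `(t, z)` in the direction `(0, v)` -/
noncomputable def Dz (v : ℂ) (G : ℝ × ℂ → ℂ) (P : ℝ × ℂ) : ℂ := fderiv ℝ G P (0, v)

/-- the open set on which everything lives -/
def UU (ρ : ℝ) : Set (ℝ × ℂ) := {P | |P.1| < ρ}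

theorem isOpen_UU (ρ : ℝ) : IsOpen (UU ρ) :=
  isOpen_lt (continuous_abs.comp continuous_fst) continuous_const

theorem contDiffOn_Dz (ρ : ℝ) (v : ℂ) (k : ℕ) (G : ℝ × ℂ → ℂ)
    (h : ContDiffOn ℝ ((k + 1 : ℕ) : WithTop ℕ∞) G (UU ρ)) :
    ContDiffOn ℝ ((k : ℕ) : WithTop ℕ∞) (Dz v G) (UU ρ) := by
  have h1 : ContDiffOn ℝ ((k : ℕ) : WithTop ℕ∞) (fderiv ℝ G) (UU ρ) :=
    h.fderiv_of_isOpen (isOpen_UU ρ) (by norm_cast)
  exact h1.clm_apply contDiffOn_const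

theorem contDiffOn_iter (ρ : ℝ) (v : ℂ) (k l : ℕ) : ∀ G : ℝ × ℂ → ℂ,
    ContDiffOn ℝ ((k + l : ℕ) : WithTop ℕ∞) G (UU ρ) →
    ContDiffOn ℝ ((k : ℕ) : WithTop ℕ∞) ((Dz v)^[l] G) (UU ρ) := by
  induction l with
  | zero => intro G h; exact h
  | succ l ih =>
    intro G h
    rw [Function.iterate_succ_apply]
    exact ih _ (contDiffOn_Dz ρ v (k + l) G h)

theorem slice_one (ρ : ℝ) (v : ℂ) (G : ℝ × ℂ → ℂ)
    (h : DifferentiableOn ℝ G (UU ρ)) (t : ℝ) (ht : |t| < ρ) :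
    dv v (fun z => G (t, z)) = fun z => Dz v G (t, z) := by
  funext z
  have hd : DifferentiableAt ℝ G (t, z) := (h (t, z) ht).differentiableAt ((isOpen_UU ρ).mem_nhds ht)
  have h1 : HasFDerivAt (fun z : ℂ => (t, z)) (ContinuousLinearMap.inr ℝ ℝ ℂ) z :=
    hasFDerivAt_prodMk_right t z
  have h2 : HasFDerivAt (fun z : ℂ => G (t, z))
      ((fderiv ℝ G (t, z)).comp (ContinuousLinearMap.inr ℝ ℝ ℂ)) z :=
    hd.hasFDerivAt.comp z h1
  unfold dv Dz
  rw [h2.fderiv]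
  rfl

theorem slice_iter (ρ : ℝ) (v : ℂ) (l : ℕ) : ∀ G : ℝ × ℂ → ℂ,
    ContDiffOn ℝ ((l : ℕ) : WithTop ℕ∞) G (UU ρ) → ∀ t : ℝ, |t| < ρ →
    (dv v)^[l] (fun z => G (t, z)) = fun z => ((Dz v)^[l] G) (t, z) := by
  induction l with
  | zero => intro G _ t _; rfl
  | succ l ih =>
    intro G h t ht
    rw [Function.iterate_succ_apply, Function.iterate_succ_apply]
    rw [slice_one ρ v G (h.differentiableOn (by simp)) t ht]
    exact ih _ (contDiffOn_Dz ρ v l G h) t ht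

theorem dv_zero_iter (v : ℂ) (l : ℕ) : (dv v)^[l] (fun _ => (0 : ℂ)) = fun _ => 0 := by
  induction l with
  | zero => rfl
  | succ l ih =>
    rw [Function.iterate_succ_apply']
    rw [ih]
    funext z
    unfold dv
    simp

theorem dv_periodic (v c : ℂ) (g : ℂ → ℂ) (h : Function.Periodic g c) :
    Function.Periodic (dv v g) c := by
  intro z
  unfold dv
  have h1 : (fun x => g (x + c)) = g := funext h
  rw [← fderiv_comp_add_right, h1]

theorem dv_iter_periodic (v c : ℂ) (g : ℂ → ℂ) (l : ℕ) (h : Function.Periodic g c) :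
    Function.Periodic ((dv v)^[l] g) c := by
  induction l with
  | zero => exact h
  | succ l ih =>
    rw [Function.iterate_succ_apply']
    exact dv_periodic v c _ ih

/-- the unit square -/
def KK : Set ℂ := Icc (0 : ℝ) 1 ×ℂ Icc (0 : ℝ) 1

theorem isCompact_KK : IsCompact KK := isCompact_Icc.reProdIm isCompact_Icc

theorem periodic_bound (g : ℂ → ℂ) (h1 : Function.Periodic g 1)
    (h2 : Function.Periodic g Complex.I) (ε : ℝ) (h : ∀ z ∈ KK, ‖g z‖ ≤ ε) (z : ℂ) :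
    ‖g z‖ ≤ ε := by
  have hz : z = (((Int.fract z.re : ℝ) : ℂ) + ((Int.fract z.im : ℝ) : ℂ) * Complex.I +
      (⌊z.re⌋ : ℂ) * 1) + (⌊z.im⌋ : ℂ) * Complex.I := by
    apply Complex.ext
    · simp
    · simp
  rw [hz, (h2.int_mul ⌊z.im⌋) _, (h1.int_mul ⌊z.re⌋) _]
  apply h
  refine ⟨?_, ?_⟩
  · simp only [mem_preimage]
    have : (((Int.fract z.re : ℝ) : ℂ) + ((Int.fract z.im : ℝ) : ℂ) * Complex.I).re = Int.fract z.re := by simp
    rw [this]
    exact ⟨Int.fract_nonneg _, (Int.fract_lt_one _).le⟩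
  · simp only [mem_preimage]
    have : (((Int.fract z.re : ℝ) : ℂ) + ((Int.fract z.im : ℝ) : ℂ) * Complex.I).im = Int.fract z.im := by simp
    rw [this]
    exact ⟨Int.fract_nonneg _, (Int.fract_lt_one _).le⟩

theorem tube (ρ : ℝ) (hρ : 0 < ρ) (Φ : ℝ × ℂ → ℂ) (hc : ContinuousOn Φ (UU ρ))
    (h0 : ∀ z, Φ (0, z) = 0) (ε : ℝ) (hε : 0 < ε) :
    ∃ ρ' : ℝ, 0 < ρ' ∧ ∀ t, |t| < ρ' → ∀ z ∈ KK, ‖Φ (t, z)‖ ≤ ε := by
  have hopen : IsOpen (UU ρ ∩ Φ ⁻¹' (ball 0 ε)) :=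
    hc.isOpen_inter_preimage (isOpen_UU ρ) isOpen_ball
  obtain ⟨u, w, hu, _, h0u, hKw, huw⟩ := generalized_tube_lemma (s := ({0} : Set ℝ))
    isCompact_singleton isCompact_KK hopen (by
      rintro ⟨t, z⟩ ⟨ht, _⟩
      rw [mem_singleton_iff] at ht
      simp only at ht
      subst ht
      refine ⟨?_, ?_⟩
      · simp [UU, hρ]
      · rw [mem_preimage, h0 z]
        exact mem_ball_self hε)
  obtain ⟨ρ', hρ', hball⟩ := Metric.isOpen_iff.1 hu 0 (h0u (mem_singleton _))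
  refine ⟨ρ', hρ', fun t ht z hz => ?_⟩
  have htu : t ∈ u := hball (by rw [mem_ball, dist_zero_right]; exact ht)
  have := (huw (⟨htu, hKw hz⟩ : (t, z) ∈ u ×ˢ w)).2
  rw [mem_preimage, mem_ball, dist_zero_right] at this
  exact this.le

theorem t_FOUB : S_FOUB := by
  intro μ p hμ s hs hper hbd ε hε
  obtain ⟨u, hu, hμu⟩ := hμ.contDiffOn le_rfl (by intro h; exact absurd h (by decide))
  obtain ⟨r, hr, hball⟩ := Metric.mem_nhds_iff.1 hu
  set ρ : ℝ := r / 3 with hρdef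
  have hρ : 0 < ρ := by positivity
  have hnorm : ∀ z : ℂ, ‖((s z.re : ℝ) : ℂ) + ((s z.im : ℝ) : ℂ) * Complex.I‖ ≤ 2 := by
    intro z
    calc _ ≤ ‖((s z.re : ℝ) : ℂ)‖ + ‖((s z.im : ℝ) : ℂ) * Complex.I‖ := norm_add_le _ _
      _ = |s z.re| + |s z.im| := by
          rw [norm_mul, Complex.norm_I, mul_one, Complex.norm_real, Complex.norm_real,
            Real.norm_eq_abs, Real.norm_eq_abs]
      _ ≤ 1 + 1 := add_le_add (hbd _) (hbd _)
      _ = 2 := by norm_num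
  have hmaps : ∀ (t : ℝ) (z : ℂ), |t| < ρ →
      p + (t : ℂ) * (((s z.re : ℝ) : ℂ) + ((s z.im : ℝ) : ℂ) * Complex.I) ∈ u := by
    intro t z ht
    apply hball
    rw [mem_ball, dist_eq_norm, add_sub_cancel_left, norm_mul, Complex.norm_real, Real.norm_eq_abs]
    have h1 := mul_le_mul_of_nonneg_left (hnorm z) (abs_nonneg t)
    have h2 : |t| * 2 < ρ * 2 := by linarith
    calc _ ≤ |t| * 2 := h1
      _ < ρ * 2 := h2
      _ < r := by rw [hρdef]; linarith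
  have hs9 : ContDiff ℝ 9 s := contDiff_infty.1 hs 9
  have hinner : ContDiff ℝ 9 (fun z : ℂ => ((s z.re : ℝ) : ℂ) + ((s z.im : ℝ) : ℂ) * Complex.I) := by
    have h1 : ContDiff ℝ 9 (fun z : ℂ => ((s z.re : ℝ) : ℂ)) :=
      Complex.ofRealCLM.contDiff.comp (hs9.comp Complex.reCLM.contDiff)
    have h2 : ContDiff ℝ 9 (fun z : ℂ => ((s z.im : ℝ) : ℂ)) :=
      Complex.ofRealCLM.contDiff.comp (hs9.comp Complex.imCLM.contDiff)
    exact h1.add (h2.mul contDiff_const)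
  set Ψ : ℝ × ℂ → ℂ := fun P => μ (p + (P.1 : ℂ) *
    (((s P.2.re : ℝ) : ℂ) + ((s P.2.im : ℝ) : ℂ) * Complex.I)) - μ p with hΨdef
  have hΨ : ContDiffOn ℝ 9 Ψ (UU ρ) := by
    have h1 : ContDiff ℝ 9 (fun P : ℝ × ℂ => p + (P.1 : ℂ) *
        (((s P.2.re : ℝ) : ℂ) + ((s P.2.im : ℝ) : ℂ) * Complex.I)) := by
      refine contDiff_const.add (ContDiff.mul ?_ ?_)
      · exact Complex.ofRealCLM.contDiff.comp contDiff_fst
      · exact hinner.comp contDiff_snd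
    exact (hμu.comp h1.contDiffOn (fun P hP => hmaps P.1 P.2 hP)).sub contDiffOn_const
  have hΨ0 : ∀ z, Ψ (0, z) = 0 := by intro z; simp [hΨdef]
  have hslice0 : (fun z => Ψ (0, z)) = fun _ => 0 := funext hΨ0
  have hcont : ∀ v : ℂ, ContinuousOn ((Dz v)^[8] Ψ) (UU ρ) := by
    intro v
    have h1 : ContDiffOn ℝ ((1 + 8 : ℕ) : WithTop ℕ∞) Ψ (UU ρ) := hΨ
    exact (contDiffOn_iter ρ v 1 8 Ψ h1).continuousOn
  have h8 : ContDiffOn ℝ ((8 : ℕ) : WithTop ℕ∞) Ψ (UU ρ) := hΨ.of_le (by norm_cast)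
  have hsl : ∀ (v : ℂ) (t : ℝ), |t| < ρ →
      (dv v)^[8] (fun z => Ψ (t, z)) = fun z => ((Dz v)^[8] Ψ) (t, z) :=
    fun v t ht => slice_iter ρ v 8 Ψ h8 t ht
  have hz : ∀ (v z : ℂ), ((Dz v)^[8] Ψ) (0, z) = 0 := by
    intro v z
    have h1 := congrFun (hsl v 0 (by simpa using hρ)) z
    rw [hslice0, dv_zero_iter] at h1
    exact h1.symm
  obtain ⟨ρ₁, hρ₁, hb₁⟩ := tube ρ hρ Ψ hΨ.continuousOn hΨ0 ε hε
  obtain ⟨ρ₂, hρ₂, hb₂⟩ := tube ρ hρ _ (hcont 1) (hz 1) ε hε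
  obtain ⟨ρ₃, hρ₃, hb₃⟩ := tube ρ hρ _ (hcont Complex.I) (hz Complex.I) ε hε
  set m : ℝ := min ε (min ρ (min ρ₁ (min ρ₂ ρ₃))) with hm
  have hmpos : 0 < m := by
    rw [hm]
    exact lt_min hε (lt_min hρ (lt_min hρ₁ (lt_min hρ₂ hρ₃)))
  have hδε : m / 2 < ε := by
    have : m ≤ ε := min_le_left _ _
    linarith
  have hδρ : |m / 2| < ρ := by
    have : m ≤ ρ := (min_le_right _ _).trans (min_le_left _ _)
    rw [abs_of_pos (by positivity)]
    linarith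
  have hδ₁ : |m / 2| < ρ₁ := by
    have : m ≤ ρ₁ := (min_le_right _ _).trans ((min_le_right _ _).trans (min_le_left _ _))
    rw [abs_of_pos (by positivity)]
    linarith
  have hδ₂ : |m / 2| < ρ₂ := by
    have : m ≤ ρ₂ := (min_le_right _ _).trans ((min_le_right _ _).trans
      ((min_le_right _ _).trans (min_le_left _ _)))
    rw [abs_of_pos (by positivity)]
    linarith
  have hδ₃ : |m / 2| < ρ₃ := by
    have : m ≤ ρ₃ := (min_le_right _ _).trans ((min_le_right _ _).trans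
      ((min_le_right _ _).trans (min_le_right _ _)))
    rw [abs_of_pos (by positivity)]
    linarith
  set g : ℂ → ℂ := fun z => Ψ (m / 2, z) with hg
  have hp1 : Function.Periodic g 1 := by
    intro z
    simp only [hg, hΨdef, Complex.add_re, Complex.one_re, Complex.add_im, Complex.one_im, add_zero,
      hper]
  have hpI : Function.Periodic g Complex.I := by
    intro z
    simp only [hg, hΨdef, Complex.add_re, Complex.I_re, Complex.add_im, Complex.I_im, add_zero,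
      hper]
  refine ⟨m / 2, by positivity, hδε, ?_, ?_, ?_, ?_⟩
  · have h1 : ContDiff ℝ 9 (fun z : ℂ => p + ((m / 2 : ℝ) : ℂ) *
        (((s z.re : ℝ) : ℂ) + ((s z.im : ℝ) : ℂ) * Complex.I)) :=
      contDiff_const.add (contDiff_const.mul hinner)
    exact (hμu.comp_contDiff h1 (fun z => hmaps (m / 2) z hδρ)).sub contDiff_const
  · intro z
    exact periodic_bound g hp1 hpI ε (fun z hz => hb₁ (m / 2) hδ₁ z hz) z
  · intro z
    have key : ∀ z, ‖((dv 1)^[8] g) z‖ ≤ ε := by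
      refine periodic_bound _ (dv_iter_periodic _ _ g 8 hp1) (dv_iter_periodic _ _ g 8 hpI) ε ?_
      intro z hz
      rw [hg, hsl 1 (m / 2) hδρ]
      exact hb₂ (m / 2) hδ₂ z hz
    exact key z
  · intro z
    have key : ∀ z, ‖((dv Complex.I)^[8] g) z‖ ≤ ε := by
      refine periodic_bound _ (dv_iter_periodic _ _ g 8 hp1) (dv_iter_periodic _ _ g 8 hpI) ε ?_
      intro z hz
      rw [hg, hsl Complex.I (m / 2) hδρ]
      exact hb₃ (m / 2) hδ₃ z hz
    exact key z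

end Pool.Agent.Helper904_QS.PISOB
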