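import Pool.Agent.Helper904_QS.IsoDefs

/-!
# ISO, piece SOL: the weighted ℓ¹ space and its operators
-/

set_option autoImplicit false

open MeasureTheory Set Metric Filter Topology
open scoped ContDiff

namespace Pool.Agent.Helper904_QS.PISO

/-- the sequence space -/
abbrev XX : Type := lp (fun _ : (Fin 2 → ℤ) => ℂ) 1

lemma xx_summable (u : XX) : Summable (fun n => ‖u n‖) := by
  have h := (memℓp_gen_iff (p := 1) (by norm_num)).1 (lp.memℓp u)
  simpa using h

lemma xx_norm (u : XX) : ‖u‖ = ∑' n, ‖u n‖ := by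
  rw [lp.norm_eq_tsum_rpow (by norm_num)]
  simp

/-- element of `XX` from a summable family -/
def xmk (a : (Fin 2 → ℤ) → ℂ) (h : Summable (fun n => ‖a n‖)) : XX :=
  ⟨a, memℓp_gen (by simpa using h)⟩

@[simp] lemma xmk_apply (a : (Fin 2 → ℤ) → ℂ) (h : Summable (fun n => ‖a n‖)) (n : Fin 2 → ℤ) :
    xmk a h n = a n := rfl

section Lam

variable {Y : Type} [NormedAddCommGroup Y] [NormedSpace ℂ Y] [CompleteSpace Y]

omit [CompleteSpace Y] in
lemma lam_summable_norm (y : (Fin 2 → ℤ) → Y) (C : ℝ) (hC : ∀ n, ‖y n‖ ≤ C) (u : XX) :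
    Summable (fun n => ‖u n • y n‖) := by
  refine Summable.of_nonneg_of_le (fun _ => norm_nonneg _) (fun n => ?_)
    ((xx_summable u).mul_right C)
  rw [norm_smul]
  exact mul_le_mul_of_nonneg_left (hC n) (norm_nonneg _)

/-- the operator `u ↦ ∑ u n • y n` -/
noncomputable def lam (y : (Fin 2 → ℤ) → Y) (C : ℝ) (hC : ∀ n, ‖y n‖ ≤ C) : XX →L[ℂ] Y :=
  LinearMap.mkContinuous
    { toFun := fun u => ∑' n, u n • y n
      map_add' := by
        intro u v
        rw [← (lam_summable_norm y C hC u).of_norm.tsum_add (lam_summable_norm y C hC v).of_norm]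
        congr 1; ext n
        simp [add_smul]
      map_smul' := by
        intro c u
        simp only [RingHom.id_apply]
        rw [← (lam_summable_norm y C hC u).of_norm.tsum_const_smul c]
        congr 1; ext n
        simp [mul_smul] }
    C (by
      intro u
      simp only [LinearMap.coe_mk, AddHom.coe_mk]
      refine (norm_tsum_le_tsum_norm (lam_summable_norm y C hC u)).trans ?_
      rw [xx_norm, ← tsum_mul_left]
      refine (lam_summable_norm y C hC u).tsum_le_tsum (fun n => ?_) ((xx_summable u).mul_left C)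
      rw [norm_smul, mul_comm]
      exact mul_le_mul_of_nonneg_right (hC n) (norm_nonneg _))

lemma lam_apply (y : (Fin 2 → ℤ) → Y) (C : ℝ) (hC : ∀ n, ‖y n‖ ≤ C) (u : XX) :
    lam y C hC u = ∑' n, u n • y n := rfl

lemma lam_norm (y : (Fin 2 → ℤ) → Y) (C : ℝ) (hC : ∀ n, ‖y n‖ ≤ C) (h0 : 0 ≤ C) :
    ‖lam y C hC‖ ≤ C := LinearMap.mkContinuous_norm_le _ h0 _

lemma comp_lam {Z : Type} [NormedAddCommGroup Z] [NormedSpace ℂ Z] (A : Y →L[ℂ] Z)
    (y : (Fin 2 → ℤ) → Y) (C : ℝ) (hC : ∀ n, ‖y n‖ ≤ C) (u : XX) :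
    A (lam y C hC u) = ∑' n, u n • A (y n) := by
  rw [lam_apply, A.map_tsum (lam_summable_norm y C hC u).of_norm]
  simp

end Lam

/-! ## weights and characters -/

lemma wt_pos (n : Fin 2 → ℤ) : 0 < wt n := by unfold wt; positivity

lemma one_le_wt (n : Fin 2 → ℤ) : 1 ≤ wt n := by
  unfold wt
  exact one_le_pow₀ (by linarith [norm_nonneg n])

lemma wt_zero : wt 0 = 1 := by simp [wt]

lemma wt_sub_mul (k n : Fin 2 → ℤ) : wt k ≤ wt (k - n) * wt n := by
  unfold wt
  rw [← mul_pow]
  apply pow_le_pow_left₀ (by positivity)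
  have h : ‖k‖ ≤ ‖k - n‖ + ‖n‖ := by
    calc ‖k‖ = ‖(k - n) + n‖ := by simp
      _ ≤ _ := norm_add_le _ _
  nlinarith [norm_nonneg (k - n), norm_nonneg n]

lemma en_norm (n : Fin 2 → ℤ) (z : ℂ) : ‖en n z‖ = 1 := by
  unfold en
  rw [show (2 * Real.pi * Complex.I * (n 0 * z.re + n 1 * z.im) : ℂ) =
    ((2 * Real.pi * (n 0 * z.re + n 1 * z.im) : ℝ) : ℂ) * Complex.I by push_cast; ring]
  exact Complex.norm_exp_ofReal_mul_I _

lemma en_zero (z : ℂ) : en 0 z = 1 := by simp [en]

lemma en_add (m n : Fin 2 → ℤ) (z : ℂ) : en (m + n) z = en m z * en n z := by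
  unfold en
  rw [← Complex.exp_add]
  congr 1
  simp only [Pi.add_apply]
  push_cast
  ring

/-- evaluation at `z` -/
noncomputable def ev (z : ℂ) : XX →L[ℂ] ℂ :=
  lam (fun n => en n z / wt n) 1 (by
    intro n
    rw [norm_div, en_norm, Complex.norm_real, Real.norm_of_nonneg (wt_pos n).le]
    rw [div_le_one (wt_pos n)]
    exact one_le_wt n)

lemma ev_apply (z : ℂ) (u : XX) : ev z u = ∑' n, u n * (en n z / wt n) := by
  unfold ev
  rw [lam_apply]
  simp [smul_eq_mul]

lemma ev_summable (z : ℂ) (u : XX) : Summable (fun n => u n * (en n z / wt n)) := by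
  have := (lam_summable_norm (fun n => en n z / (wt n : ℂ)) 1 (by
    intro n
    rw [norm_div, en_norm, Complex.norm_real, Real.norm_of_nonneg (wt_pos n).le]
    rw [div_le_one (wt_pos n)]
    exact one_le_wt n) u).of_norm
  simpa [smul_eq_mul] using this

lemma ev_norm_le (z : ℂ) (u : XX) : ‖ev z u‖ ≤ ‖u‖ := by
  have h1 : ‖ev z‖ ≤ 1 := lam_norm _ _ _ zero_le_one
  calc ‖ev z u‖ ≤ ‖ev z‖ * ‖u‖ := (ev z).le_opNorm u
    _ ≤ 1 * ‖u‖ := by gcongr
    _ = ‖u‖ := one_mul _

section Conv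

variable (c : (Fin 2 → ℤ) → ℂ) (hc : Summable (fun n => wt n * ‖c n‖))

include hc in
lemma summable_c : Summable (fun n => ‖c n‖) := by
  refine Summable.of_nonneg_of_le (fun _ => norm_nonneg _) (fun n => ?_) hc
  nlinarith [one_le_wt n, norm_nonneg (c n)]

lemma yy_bound (n k : Fin 2 → ℤ) : ‖c (k - n) * (wt k / wt n : ℝ)‖ ≤ wt (k - n) * ‖c (k - n)‖ := by
  rw [norm_mul, Complex.norm_real, Real.norm_of_nonneg (div_nonneg (wt_pos k).le (wt_pos n).le)]
  have : wt k / wt n ≤ wt (k - n) := by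
    rw [div_le_iff₀ (wt_pos n)]; exact wt_sub_mul k n
  rw [mul_comm]
  exact mul_le_mul_of_nonneg_right this (norm_nonneg _)

include hc in
lemma yy_summable (n : Fin 2 → ℤ) :
    Summable (fun k => ‖c (k - n) * (wt k / wt n : ℝ)‖) := by
  refine Summable.of_nonneg_of_le (fun _ => norm_nonneg _) (fun k => yy_bound c n k) ?_
  exact (Equiv.subRight n).summable_iff.2 hc

/-- the image of the `n`-th basis vector under multiplication by the function with coefficients `c` -/
noncomputable def yy (n : Fin 2 → ℤ) : XX :=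
  xmk (fun k => c (k - n) * (wt k / wt n : ℝ)) (yy_summable c hc n)

lemma yy_norm (n : Fin 2 → ℤ) : ‖yy c hc n‖ ≤ ∑' m, wt m * ‖c m‖ := by
  rw [xx_norm]
  have h1 : ∑' k, ‖(yy c hc n) k‖ ≤ ∑' k, wt (k - n) * ‖c (k - n)‖ := by
    refine (yy_summable c hc n).tsum_le_tsum (fun k => yy_bound c n k) ?_
    exact (Equiv.subRight n).summable_iff.2 hc
  refine h1.trans (le_of_eq ?_)
  exact (Equiv.subRight n).tsum_eq (fun m => wt m * ‖c m‖)

/-- the function with coefficients `c` -/
noncomputable def mm (z : ℂ) : ℂ := ∑' n, c n * en n z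

include hc in
lemma mm_summable (z : ℂ) : Summable (fun n => c n * en n z) := by
  apply Summable.of_norm
  simp only [norm_mul, en_norm, mul_one]
  exact summable_c c hc

lemma ev_yy (z : ℂ) (n : Fin 2 → ℤ) : ev z (yy c hc n) = mm c z * (en n z / wt n) := by
  rw [ev_apply, mm, ← tsum_mul_right]
  rw [← (Equiv.subRight n).tsum_eq (fun m => c m * en m z * (en n z / (wt n : ℂ)))]
  congr 1; ext k
  simp only [yy, xmk_apply, Equiv.subRight_apply]
  have hk : en k z = en (k - n) z * en n z := by rw [← en_add]; simp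
  have h1 : (wt k : ℂ) ≠ 0 := by exact_mod_cast (wt_pos k).ne'
  have h2 : (wt n : ℂ) ≠ 0 := by exact_mod_cast (wt_pos n).ne'
  rw [hk]
  push_cast
  field_simp

/-- multiplication by the function with coefficients `c` -/
noncomputable def TT : XX →L[ℂ] XX := lam (yy c hc) _ (yy_norm c hc)

lemma TT_norm : ‖TT c hc‖ ≤ ∑' m, wt m * ‖c m‖ :=
  lam_norm _ _ _ (tsum_nonneg fun m => mul_nonneg (wt_pos m).le (norm_nonneg _))

lemma ev_TT (z : ℂ) (u : XX) : ev z (TT c hc u) = mm c z * ev z u := by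
  unfold TT
  rw [comp_lam, ev_apply, ← tsum_mul_left]
  congr 1; ext n
  rw [ev_yy, smul_eq_mul]
  ring

end Conv

/-- bounded multipliers -/
noncomputable def MM (b : (Fin 2 → ℤ) → ℂ) (hb : ∀ n, ‖b n‖ ≤ 1) : XX →L[ℂ] XX :=
  LinearMap.mkContinuous
    { toFun := fun u => xmk (fun n => b n * u n) (by
        refine Summable.of_nonneg_of_le (fun _ => norm_nonneg _) (fun n => ?_) (xx_summable u)
        rw [norm_mul]
        nlinarith [hb n, norm_nonneg (u n), norm_nonneg (b n)])
      map_add' := by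
        intro u v
        ext n
        simp [mul_add]
      map_smul' := by
        intro c u
        ext n
        simp only [xmk_apply, lp.coeFn_smul, Pi.smul_apply, smul_eq_mul, RingHom.id_apply]
        ring }
    1 (by
      intro u
      simp only [LinearMap.coe_mk, AddHom.coe_mk, one_mul]
      rw [xx_norm, xx_norm]
      refine Summable.tsum_le_tsum (fun n => ?_) ?_ (xx_summable u)
      · rw [xmk_apply, norm_mul]
        nlinarith [hb n, norm_nonneg (u n), norm_nonneg (b n)]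
      · refine Summable.of_nonneg_of_le (fun _ => norm_nonneg _) (fun n => ?_) (xx_summable u)
        rw [xmk_apply, norm_mul]
        nlinarith [hb n, norm_nonneg (u n), norm_nonneg (b n)])

lemma MM_apply (b : (Fin 2 → ℤ) → ℂ) (hb : ∀ n, ‖b n‖ ≤ 1) (u : XX) (n : Fin 2 → ℤ) :
    MM b hb u n = b n * u n := rfl

lemma MM_norm (b : (Fin 2 → ℤ) → ℂ) (hb : ∀ n, ‖b n‖ ≤ 1) : ‖MM b hb‖ ≤ 1 :=
  LinearMap.mkContinuous_norm_le _ zero_le_one _

end Pool.Agent.Helper904_QS.PISO
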