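import Pool.Agent.Helper904_QS.IsoSOL1

/-!
# ISO, piece SOL: solution of the Beltrami equation in the Wiener algebra
-/

set_option autoImplicit false

open MeasureTheory Set Metric Filter Topology
open scoped ContDiff

namespace Pool.Agent.Helper904_QS.PISO

/-- the complex frequency -/
noncomputable def nu (n : Fin 2 → ℤ) : ℂ := n 0 + n 1 * Complex.I

lemma nu_eq_zero {n : Fin 2 → ℤ} (h : nu n = 0) : n = 0 := by
  unfold nu at h
  have h1 := congrArg Complex.re h
  have h2 := congrArg Complex.im h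
  simp at h1 h2
  ext j
  fin_cases j
  · simpa using h1
  · simpa using h2

/-- the multiplier `ν̄/ν` -/
noncomputable def sS (n : Fin 2 → ℤ) : ℂ := starRingEnd ℂ (nu n) / nu n

lemma sS_norm (n : Fin 2 → ℤ) : ‖sS n‖ ≤ 1 := by
  unfold sS
  rw [norm_div, Complex.norm_conj]
  exact div_self_le_one _

lemma sS_zero : sS 0 = 0 := by simp [sS, nu]

lemma one_le_nu {n : Fin 2 → ℤ} (h : n ≠ 0) : 1 ≤ ‖nu n‖ := by
  have h0 : 1 ≤ ‖nu n‖ ^ 2 := by
    rw [← Complex.normSq_eq_norm_sq, Complex.normSq_apply]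
    have e1 : (nu n).re = n 0 := by simp [nu]
    have e2 : (nu n).im = n 1 := by simp [nu]
    rw [e1, e2]
    have : (1 : ℤ) ≤ n 0 * n 0 + n 1 * n 1 := by
      by_contra hc
      push Not at hc
      have h1 : n 0 = 0 := by nlinarith [mul_self_nonneg (n 0), mul_self_nonneg (n 1), sq_nonneg (n 0)]
      have h2 : n 1 = 0 := by nlinarith [mul_self_nonneg (n 0), mul_self_nonneg (n 1), sq_nonneg (n 1)]
      apply h
      ext j
      fin_cases j
      · simpa using h1
      · simpa using h2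
    exact_mod_cast this
  nlinarith [norm_nonneg (nu n)]

/-! ## the characters: smoothness -/

/-- the one-variable exponential -/
noncomputable def Ee (t : ℝ) : ℂ := Complex.exp (2 * Real.pi * Complex.I * t)

lemma Ee_hasDeriv (t : ℝ) : HasDerivAt Ee (2 * Real.pi * Complex.I * Ee t) t := by
  have h1 : HasDerivAt (fun t : ℝ => (2 * Real.pi * Complex.I * t : ℂ)) (2 * Real.pi * Complex.I) t := by
    simpa using (Complex.ofRealCLM.hasDerivAt (x := t)).const_mul (2 * Real.pi * Complex.I)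
  have h2 := h1.cexp
  unfold Ee
  convert h2 using 1
  ring

lemma Ee_contDiff : ContDiff ℝ ∞ Ee := by
  unfold Ee
  exact (contDiff_const.mul Complex.ofRealCLM.contDiff).cexp

lemma Ee_iter (k : ℕ) : iteratedDeriv k Ee = fun t => (2 * Real.pi * Complex.I) ^ k * Ee t := by
  induction k with
  | zero => simp
  | succ k ih =>
    rw [iteratedDeriv_succ, ih]
    ext t
    rw [((Ee_hasDeriv t).const_mul _).deriv]
    ring

lemma Ee_norm (t : ℝ) : ‖Ee t‖ = 1 := by
  unfold Ee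
  rw [show (2 * Real.pi * Complex.I * t : ℂ) = ((2 * Real.pi * t : ℝ) : ℂ) * Complex.I by
    push_cast; ring]
  exact Complex.norm_exp_ofReal_mul_I _

/-- the frequency functional -/
noncomputable def ell (n : Fin 2 → ℤ) : ℂ →L[ℝ] ℝ :=
  (n 0 : ℝ) • Complex.reCLM + (n 1 : ℝ) • Complex.imCLM

lemma ell_apply (n : Fin 2 → ℤ) (z : ℂ) : ell n z = n 0 * z.re + n 1 * z.im := by
  simp [ell]

lemma ell_norm (n : Fin 2 → ℤ) : ‖ell n‖ ≤ 2 * ‖n‖ := by
  apply ContinuousLinearMap.opNorm_le_bound _ (by positivity)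
  intro z
  rw [ell_apply]
  have h0 : |(n 0 : ℝ)| ≤ ‖n‖ := by
    have := norm_le_pi_norm n 0
    rwa [Int.norm_eq_abs] at this
  have h1 : |(n 1 : ℝ)| ≤ ‖n‖ := by
    have := norm_le_pi_norm n 1
    rwa [Int.norm_eq_abs] at this
  have h2 := Complex.abs_re_le_norm z
  have h3 := Complex.abs_im_le_norm z
  rw [Real.norm_eq_abs]
  calc |(n 0 : ℝ) * z.re + n 1 * z.im| ≤ |(n 0 : ℝ) * z.re| + |n 1 * z.im| := abs_add_le _ _
    _ = |(n 0 : ℝ)| * |z.re| + |(n 1 : ℝ)| * |z.im| := by rw [abs_mul, abs_mul]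
    _ ≤ ‖n‖ * ‖z‖ + ‖n‖ * ‖z‖ := by gcongr
    _ = 2 * ‖n‖ * ‖z‖ := by ring

lemma en_eq (n : Fin 2 → ℤ) : en n = Ee ∘ (ell n) := by
  ext z
  unfold en Ee
  simp only [Function.comp_apply, ell_apply]
  congr 1
  push_cast
  ring

lemma en_contDiff (n : Fin 2 → ℤ) : ContDiff ℝ ∞ (en n) := by
  rw [en_eq]
  exact Ee_contDiff.comp (ell n).contDiff

lemma en_iter (n : Fin 2 → ℤ) (k : ℕ) (z : ℂ) :
    ‖iteratedFDeriv ℝ k (en n) z‖ ≤ (4 * Real.pi * ‖n‖) ^ k := by
  rw [en_eq, ContinuousLinearMap.iteratedFDeriv_comp_right (ell n) Ee_contDiff z (i := k)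
    (by exact_mod_cast le_top)]
  refine (ContinuousMultilinearMap.norm_compContinuousLinearMap_le _ _).trans ?_
  rw [norm_iteratedFDeriv_eq_norm_iteratedDeriv, Ee_iter]
  simp only [norm_mul, norm_pow, Ee_norm, Complex.norm_I, mul_one, Finset.prod_const, Finset.card_univ,
    Fintype.card_fin, Complex.norm_real]
  have h1 : ‖(2:ℂ)‖ * ‖Real.pi‖ = 2 * Real.pi := by
    rw [Real.norm_of_nonneg Real.pi_pos.le]; norm_num
  rw [h1, ← mul_pow]
  apply pow_le_pow_left₀ (by positivity)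
  have := ell_norm n
  nlinarith [Real.pi_pos]

lemma en_fderiv (n : Fin 2 → ℤ) (z ξ : ℂ) : fderiv ℝ (en n) z ξ =
    Real.pi * Complex.I * (starRingEnd ℂ (nu n) * ξ + nu n * starRingEnd ℂ ξ) * en n z := by
  have h1 : fderiv ℝ (en n) z ξ = (ell n ξ : ℝ) • (2 * Real.pi * Complex.I * Ee (ell n z)) := by
    rw [en_eq]
    have := ((Ee_hasDeriv (ell n z)).hasFDerivAt).comp z (ell n).hasFDerivAt
    rw [this.fderiv]
    simp
  have h2 : Ee (ell n z) = en n z := by rw [en_eq]; rfl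
  rw [h1, h2, Complex.real_smul, ell_apply]
  have h3 : starRingEnd ℂ (nu n) * ξ + nu n * starRingEnd ℂ ξ = 2 * ((n 0 : ℂ) * ξ.re + n 1 * ξ.im) := by
    unfold nu
    apply Complex.ext
    · simp; ring
    · simp; ring
  rw [h3]
  push_cast
  ring

end Pool.Agent.Helper904_QS.PISO
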