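import Pool.Agent.Helper904_QS.Stmts
import Pool.Agent.Helper904_QS.Calc

/-!
# MP_177f55_an, piece MC: modulus of continuity, `k` bounded.
-/

set_option autoImplicit false

open MeasureTheory Set Metric Filter Topology
open scoped ContDiff

namespace Pool.Agent.Helper904_QS.PMC

open Pool.Agent.Helper904_QS

theorem int_Phi_shift (hK : S_KER) {r : ℝ} (hr : 0 < r) (y : ℂ) :
    Integrable (fun z => Phi r (z - y)) ∧ (∫ z, Phi r (z - y)) = Real.pi * r ^ 2 / 6 := by
  obtain ⟨-, -, -, -, -, -, -, h1, -, -, -, -, h2, -, -⟩ := hK r hr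
  refine ⟨h1.comp_sub_right y, ?_⟩
  rw [integral_sub_right_eq_self (fun z => Phi r z) y, h2]

theorem int_chi_shift (hK : S_KER) {r : ℝ} (hr : 0 < r) (y : ℂ) :
    (∫ z, chi r (z - y)) = 2 * Real.pi := by
  obtain ⟨-, -, -, -, -, -, h1, -⟩ := hK r hr
  rw [integral_sub_right_eq_self (fun z => chi r z) y, h1]

/-- upper bound for the integral against `Phi` -/
theorem int_Phi_le (hK : S_KER) (hI : S_INT) {f : ℂ → ℝ} (hf : Continuous f) {y : ℂ} {r B : ℝ}
    (hr : 0 < r) (hB : ∀ z ∈ ball y r, f z ≤ B) :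
    ∫ z, Phi r (z - y) * f z ≤ B * (Real.pi * r ^ 2 / 6) := by
  obtain ⟨h1, h2⟩ := int_Phi_shift hK hr y
  rw [← h2, ← integral_const_mul]
  obtain ⟨-, -, -, -, -, -, -, -, hpos, hz, -⟩ := hK r hr
  refine integral_mono (hI f y r hf hr).2 (h1.const_mul B) ?_
  intro z
  show Phi r (z - y) * f z ≤ B * Phi r (z - y)
  by_cases hzy : z ∈ ball y r
  · nlinarith [hpos (z - y), hB z hzy]
  · have : r ≤ ‖z - y‖ := by
      rw [mem_ball, dist_eq_norm, not_lt] at hzy; exact hzy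
    rw [hz _ this]; simp

theorem abs_int_Phi_le (hK : S_KER) (hI : S_INT) {f : ℂ → ℝ} (hf : Continuous f) {y : ℂ} {r B : ℝ}
    (hr : 0 < r) (hB : ∀ z ∈ ball y r, |f z| ≤ B) :
    |∫ z, Phi r (z - y) * f z| ≤ B * (Real.pi * r ^ 2 / 6) := by
  rw [abs_le]
  constructor
  · have h := int_Phi_le hK hI (f := fun z => -f z) hf.neg hr
      (fun z hz => (neg_le_abs (f z)).trans (hB z hz))
    have e : (∫ z, Phi r (z - y) * -f z) = -∫ z, Phi r (z - y) * f z := by
      rw [← integral_neg]; congr 1; ext z; ring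
    rw [e] at h
    linarith
  · exact int_Phi_le hK hI hf hr (fun z hz => (le_abs_self _).trans (hB z hz))

/-- the difference of the smoothed means -/
theorem chi_diff (hK : S_KER) (hI : S_INT) {f : ℂ → ℝ} (hf : Continuous f) {y y' : ℂ} {r A d : ℝ}
    (hr : 0 < r) (hr1 : r ≤ 1) (hA : ∀ z ∈ ball (0 : ℂ) (7 / 4), |f z| ≤ A)
    (hy : ‖y‖ ≤ 1 / 2) (hd : ‖y - y'‖ ≤ d) (hd8 : d ≤ 1 / 8) :
    |(∫ z, chi r (z - y) * f z) - ∫ z, chi r (z - y') * f z| ≤ 280 * d / r ^ 4 * A := by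
  have hA0 : 0 ≤ A := (abs_nonneg (f 0)).trans (hA 0 (by simp))
  have hd0 : 0 ≤ d := (norm_nonneg _).trans hd
  have hy' : ‖y'‖ ≤ 5 / 8 := by
    have : ‖y'‖ ≤ ‖y‖ + ‖y - y'‖ := by
      have h := norm_sub_le y (y - y')
      simpa using h
    linarith
  obtain ⟨-, -, -, hz, -, hdiff, -⟩ := hK r hr
  rw [← integral_sub (hI f y r hf hr).1 (hI f y' r hf hr).1]
  have hsupp : ∀ z, z ∉ ball (0 : ℂ) (7 / 4) →
      chi r (z - y) * f z - chi r (z - y') * f z = 0 := by
    intro z hz'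
    rw [mem_ball, dist_zero_right, not_lt] at hz'
    have e1 : r ≤ ‖z - y‖ := by
      have := norm_sub_norm_le z y; linarith
    have e2 : r ≤ ‖z - y'‖ := by
      have := norm_sub_norm_le z y'; linarith
    rw [hz _ e1, hz _ e2]; ring
  rw [← setIntegral_eq_integral_of_forall_compl_eq_zero hsupp]
  have hvol : volume.real (ball (0 : ℂ) (7 / 4)) ≤ 10 := by
    rw [measureReal_def, Complex.volume_ball]
    simp only [ENNReal.toReal_mul, ENNReal.toReal_pow]
    rw [ENNReal.toReal_ofReal (by norm_num)]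
    have : (NNReal.pi : ℝ) = Real.pi := rfl
    simp only [ENNReal.coe_toReal, this]
    nlinarith [Real.pi_lt_d2]
  have hb : ∀ z ∈ ball (0 : ℂ) (7 / 4), ‖chi r (z - y) * f z - chi r (z - y') * f z‖ ≤
      28 * d / r ^ 4 * A := by
    intro z hz'
    have hz7 : ‖z‖ < 7 / 4 := by simpa using hz'
    have e : z - y = (z - y') - (y - y') := by ring
    have h1 := hdiff (z - y') (y - y')
    rw [← e] at h1
    have h2 : ‖z - y'‖ ≤ 19 / 8 := by
      have := norm_sub_le z y'; linarith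
    have h3 : ‖y - y'‖ * (2 * ‖z - y'‖ + ‖y - y'‖) ≤ d * 7 := by
      have a0 := norm_nonneg (y - y')
      have a1 := norm_nonneg (z - y')
      nlinarith
    have h4 : |chi r (z - y) - chi r (z - y')| ≤ 4 / r ^ 4 * (d * 7) :=
      h1.trans (mul_le_mul_of_nonneg_left h3 (by positivity))
    rw [Real.norm_eq_abs, ← sub_mul, abs_mul]
    calc |chi r (z - y) - chi r (z - y')| * |f z| ≤ (4 / r ^ 4 * (d * 7)) * A := by
          apply mul_le_mul h4 (hA z hz') (abs_nonneg _) (by positivity)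
      _ = 28 * d / r ^ 4 * A := by ring
  have h := norm_setIntegral_le_of_norm_le_const (μ := volume) (s := ball (0 : ℂ) (7 / 4))
    measure_ball_lt_top hb
  rw [Real.norm_eq_abs] at h
  refine h.trans ?_
  have : 0 ≤ 28 * d / r ^ 4 * A := by positivity
  calc 28 * d / r ^ 4 * A * volume.real (ball (0 : ℂ) (7 / 4)) ≤ 28 * d / r ^ 4 * A * 10 :=
        mul_le_mul_of_nonneg_left hvol this
    _ = 280 * d / r ^ 4 * A := by ring

theorem t_MC (hJ : S_J) (hK : S_KER) (hI : S_INT) : S_MC := by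
  intro Λ k₀ a hΛ hk₀ ha
  set r : ℝ := min 1 (a / (k₀ * Λ) ^ 2) with hr_def
  have hr : 0 < r := lt_min one_pos (by positivity)
  have hr1 : r ≤ 1 := min_le_left _ _
  have hr2 : r ^ 2 * (k₀ * Λ) ^ 2 ≤ a := by
    have h1 : r ≤ a / (k₀ * Λ) ^ 2 := min_le_right _ _
    have h2 : r * (k₀ * Λ) ^ 2 ≤ a := by
      rw [le_div_iff₀ (by positivity)] at h1; exact h1
    calc r ^ 2 * (k₀ * Λ) ^ 2 = r * (r * (k₀ * Λ) ^ 2) := by ring
      _ ≤ 1 * a := mul_le_mul hr1 h2 (by positivity) (by norm_num)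
      _ = a := one_mul a
  refine ⟨min (1 / 8) (a * r ^ 4 / 280), lt_min (by norm_num) (by positivity), min_le_left _ _, ?_⟩
  intro k A u σ hk hkk hu hσ hσb hlap hA y hy y' hy'
  set d : ℝ := min (1 / 8) (a * r ^ 4 / 280) with hd_def
  have hd8 : d ≤ 1 / 8 := min_le_left _ _
  have hd2 : 280 * d / r ^ 4 ≤ a := by
    have h1 : d ≤ a * r ^ 4 / 280 := min_le_right _ _
    rw [div_le_iff₀ (by positivity)]
    linarith
  have hA0 : 0 ≤ A := (abs_nonneg (u 0)).trans (hA 0 (by simp))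
  have hyn : ‖y‖ ≤ 1 / 2 := by simpa using hy
  have hyd : ‖y - y'‖ ≤ d := by
    rw [mem_closedBall, dist_comm, dist_eq_norm] at hy'; exact hy'
  have hy'n : ‖y'‖ ≤ 5 / 8 := by
    have : ‖y'‖ ≤ ‖y‖ + ‖y - y'‖ := by
      have h := norm_sub_le y (y - y')
      simpa using h
    linarith
  have hlapb : ∀ z ∈ ball (0 : ℂ) (7 / 4), |lap u z| ≤ k₀ ^ 2 * Λ ^ 2 * A := by
    intro z hz
    rw [hlap z hz, abs_neg, abs_mul, abs_of_nonneg (by positivity : 0 ≤ k ^ 2 * σ z ^ 2)]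
    have h1 : k ^ 2 ≤ k₀ ^ 2 := by nlinarith
    have h2 : σ z ^ 2 ≤ Λ ^ 2 := by
      have := hσb z hz
      rw [← sq_abs (σ z)]
      have h0 := abs_nonneg (σ z)
      nlinarith
    apply mul_le_mul (mul_le_mul h1 h2 (by positivity) (by positivity)) (hA z hz) (abs_nonneg _)
      (by positivity)
  have hcl : Continuous (lap u) := continuous_lap hu
  have sub1 : ball y r ⊆ ball (0 : ℂ) (7 / 4) := by
    intro z hz
    rw [mem_ball, dist_eq_norm] at hz
    rw [mem_ball, dist_zero_right]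
    have := norm_le_norm_add_norm_sub' z y
    linarith
  have sub2 : ball y' r ⊆ ball (0 : ℂ) (7 / 4) := by
    intro z hz
    rw [mem_ball, dist_eq_norm] at hz
    rw [mem_ball, dist_zero_right]
    have := norm_le_norm_add_norm_sub' z y'
    linarith
  have j1 := hJ u y r hu hr
  have j2 := hJ u y' r hu hr
  have b1 := abs_int_Phi_le hK hI hcl hr (fun z hz => hlapb z (sub1 hz))
  have b2 := abs_int_Phi_le hK hI hcl hr (fun z hz => hlapb z (sub2 hz))
  have b3 := chi_diff hK hI hu.continuous hr hr1 hA hyn hyd hd8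
  have b4 : k₀ ^ 2 * Λ ^ 2 * A * (Real.pi * r ^ 2 / 6) ≤ Real.pi / 6 * (a * A) := by
    have : k₀ ^ 2 * Λ ^ 2 * A * (Real.pi * r ^ 2 / 6) =
        Real.pi / 6 * (r ^ 2 * (k₀ * Λ) ^ 2 * A) := by ring
    rw [this]
    apply mul_le_mul_of_nonneg_left _ (by positivity)
    exact mul_le_mul_of_nonneg_right hr2 hA0
  have b5 : 280 * d / r ^ 4 * A ≤ a * A := mul_le_mul_of_nonneg_right hd2 hA0
  rw [abs_le] at b1 b2 b3 ⊢
  have hpi := Real.pi_gt_three
  have haA : 0 ≤ a * A := by positivity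
  have hmain1 : 2 * Real.pi * (u y - u y') ≤ a * A + Real.pi / 3 * (a * A) := by
    have : 2 * Real.pi * (u y - u y') = 2 * Real.pi * u y - 2 * Real.pi * u y' := by ring
    rw [this, j1, j2]
    linarith [b1.1, b2.2, b3.2]
  have hmain2 : -(a * A + Real.pi / 3 * (a * A)) ≤ 2 * Real.pi * (u y - u y') := by
    have : 2 * Real.pi * (u y - u y') = 2 * Real.pi * u y - 2 * Real.pi * u y' := by ring
    rw [this, j1, j2]
    linarith [b1.2, b2.1, b3.1]
  constructor
  · have h1 : 2 * Real.pi * (-(a * A)) ≤ 2 * Real.pi * (u y - u y') := by nlinarith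
    exact le_of_mul_le_mul_left h1 (by positivity)
  · have h1 : 2 * Real.pi * (u y - u y') ≤ 2 * Real.pi * (a * A) := by nlinarith
    exact le_of_mul_le_mul_left h1 (by positivity)

end Pool.Agent.Helper904_QS.PMC
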