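import Mathlib

/-!
# MP_177f55_an: the Laplace-Beltrami operator of a Riemannian surface, eigenfunctions.
-/

set_option autoImplicit false

open MeasureTheory Set Filter Topology Bundle
open scoped ContDiff Manifold

namespace Pool.Agent.Helper904_QS

/-- the model plane -/
abbrev E2 : Type := EuclideanSpace ℝ (Fin 2)

/-- partial derivative in the model plane -/
noncomputable def pd (i : Fin 2) (f : E2 → ℝ) (y : E2) : ℝ :=
  fderiv ℝ f y (EuclideanSpace.single i 1)

section
variable {M : Type} [TopologicalSpace M] [ChartedSpace E2 M]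

/-- The `i`-th coordinate vector field of the chart `e`, at the point with coordinates `y`. -/
noncomputable def coordVec (e : OpenPartialHomeomorph M E2) (y : E2) (i : Fin 2) :
    TangentSpace (𝓡 2) (e.symm y) :=
  mfderiv (𝓡 2) (𝓡 2) e.symm y (EuclideanSpace.single i 1 : E2)

variable [RiemannianBundle (fun x : M => TangentSpace (𝓡 2) x)]

/-- The coefficients `g_ij` of the Riemannian metric in the chart `e`. -/
noncomputable def gram (e : OpenPartialHomeomorph M E2) (y : E2) : Matrix (Fin 2) (Fin 2) ℝ :=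
  Matrix.of fun i j => inner ℝ (coordVec e y i) (coordVec e y j)

/-- The Laplace-Beltrami operator in the chart `e`:
`(det g)^(-1/2) ∑_i ∂_i ((det g)^(1/2) ∑_j g^ij ∂_j f)`. -/
noncomputable def lapChart (e : OpenPartialHomeomorph M E2) (f : E2 → ℝ) (y : E2) : ℝ :=
  (√(gram e y).det)⁻¹ *
    ∑ i, pd i (fun z => √(gram e z).det * ∑ j, (gram e z)⁻¹ i j * pd j f z) y

/-- `φ` is a Laplace eigenfunction with eigenvalue `lam`: it is smooth, not identically zero, and
`Δ φ + lam φ = 0`, the Laplace-Beltrami operator being computed in the charts of the atlas. -/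
def IsEigenfunction (lam : ℝ) (φ : M → ℝ) : Prop :=
  ContMDiff (𝓡 2) 𝓘(ℝ, ℝ) ∞ φ ∧ (∃ x, φ x ≠ 0) ∧
    ∀ e ∈ atlas E2 M, ∀ y ∈ e.target,
      lapChart e (fun z => φ (e.symm z)) y + lam * φ (e.symm y) = 0

end

/-- The final statement. -/
def S_FIN : Prop := ∀ (M : Type) [MetricSpace M] [ChartedSpace E2 M] [IsManifold (𝓡 2) ∞ M]
    [RiemannianBundle (fun x : M => TangentSpace (𝓡 2) x)]
    [IsContMDiffRiemannianBundle (𝓡 2) ∞ E2 (fun x : M => TangentSpace (𝓡 2) x)]
    [IsRiemannianManifold (𝓡 2) M] [CompactSpace M] [ConnectedSpace M]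
    [MeasurableSpace M] [BorelSpace M],
    ∃ c C : ℝ, 0 < c ∧ 0 < C ∧ ∀ (lam : ℝ) (φ : M → ℝ), 0 < lam → IsEigenfunction lam φ →
      c < (μH[2] {x : M | 0 < φ x}).toReal / (μH[2] {x : M | φ x < 0}).toReal ∧
      (μH[2] {x : M | 0 < φ x}).toReal / (μH[2] {x : M | φ x < 0}).toReal < C

end Pool.Agent.Helper904_QS
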