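import Pool.Agent.Helper904_QS.CURV

/-!
Regularity of `L₁, L₂, w` and the elementary relations.
-/

set_option autoImplicit false

open MeasureTheory Set Metric Filter Topology
open scoped ContDiff InnerProductSpace ComplexConjugate

namespace Pool.Agent.Helper904_QS

section
variable {m Λ k : ℝ} {U : Set ℂ} {u σ : ℂ → ℝ}

theorem N1_pos {ε : ℝ} (hε : 0 < ε) (z : ℂ) : 0 < N1 u σ k ε z := by
  rw [N1_eq]; exact nN_pos _ _ hε z

theorem N2_pos {ε : ℝ} (hε : 0 < ε) (hm : 0 < m) (hk : 0 < k) (z : ℂ) :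
    0 < N2 u σ k m ε z := by
  rw [N2_eq]; exact nN_pos _ _ (by positivity) z

theorem L1_contDiff (h : Sol m Λ k U u σ) {ε : ℝ} (hε : 0 < ε) : ContDiff ℝ 2 (L1 u σ k ε) := by
  have e : L1 u σ k ε = fun z => Real.log (nN (f1 k u σ) (g1 u) ε z) := by
    ext z; rw [L1, N1_eq]
  rw [e]
  exact (nN_contDiff (f1_contDiff h) (g1_contDiff h) ε).log fun z => (nN_pos _ _ hε z).ne'

theorem L2_contDiff (h : Sol m Λ k U u σ) {ε : ℝ} (hε : 0 < ε) (hm : 0 < m) (hk : 0 < k) :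
    ContDiff ℝ 2 (L2 u σ k m ε) := by
  have e : L2 u σ k m ε = fun z => Real.log (nN (f2 k u σ) (g2 k u σ) ((m * k) ^ 2 * ε) z) := by
    ext z; rw [L2, N2_eq]
  rw [e]
  exact (nN_contDiff (f2_contDiff h) (g2_contDiff h) _).log
    fun z => (nN_pos _ _ (by positivity) z).ne'

theorem N1_le_N2 (h : Sol m Λ k U u σ) (ε : ℝ) (hm : 0 < m) (hk : 0 < k) (z : ℂ) (hz : z ∈ U) :
    (m * k) ^ 2 * N1 u σ k ε z ≤ N2 u σ k m ε z := by
  have hs := h.low z hz
  have hs0 : 0 < σ z := hm.trans_le hs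
  have hg : 0 ≤ gsq u z := by unfold gsq; positivity
  have hq : 0 ≤ qsq u z := by unfold qsq; positivity
  have h1 : (m * k) ^ 2 ≤ (k * σ z) ^ 2 := by
    have : m * k ≤ k * σ z := by nlinarith
    gcongr
  have h2 : (m * k) ^ 2 * gsq u z ≤ (k * σ z) ^ 2 * gsq u z := by gcongr
  have h3 : (m * k) ^ 2 * (k * σ z * u z) ^ 2 ≤ (k * σ z) ^ 2 * (k * σ z * u z) ^ 2 := by gcongr
  have h4 : ((k * σ z) ^ 2 * u z) ^ 2 = (k * σ z) ^ 2 * (k * σ z * u z) ^ 2 := by ring
  unfold N2 V2 N1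
  rw [h4]
  nlinarith

end

namespace PREG

theorem t_REG : S_REG := by
  intro m Λ k ε U u σ hm hk hε h
  have hk0 : 0 < k := by linarith
  have c1 := L1_contDiff h hε
  have c2 := L2_contDiff h hε hm hk0
  have hw : ww u σ k m ε = fun z => (1 / 2) * ((L2 u σ k m ε z - L1 u σ k ε z) +
      (-Real.log ((m * k) ^ 2))) := by
    ext z; unfold ww; ring
  have c3 : ContDiff ℝ 2 (fun z => (L2 u σ k m ε z - L1 u σ k ε z) +
      (-Real.log ((m * k) ^ 2))) := (c2.sub c1).add contDiff_const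
  refine ⟨c1, c2, ?_, ?_, fun z => ⟨N1_pos hε z, N2_pos hε hm hk0 z⟩, ?_, ?_⟩
  · rw [hw]; exact contDiff_const.mul c3
  · intro z
    rw [hw, lap_const_mul _ c3, lap_add (c2.sub c1) contDiff_const, lap_sub c2 c1, lap_const]
    ring
  · intro z hz
    have h1 := N1_le_N2 h ε hm hk0 z hz
    have p1 := N1_pos (u := u) (σ := σ) (k := k) hε z
    have h2 : Real.log ((m * k) ^ 2 * N1 u σ k ε z) ≤ L2 u σ k m ε z :=
      Real.log_le_log (by positivity) h1
    rw [Real.log_mul (by positivity) p1.ne'] at h2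
    unfold ww
    have : L1 u σ k ε z = Real.log (N1 u σ k ε z) := rfl
    linarith
  · intro z
    have p1 := N1_pos (u := u) (σ := σ) (k := k) hε z
    have p2 := N2_pos (u := u) (σ := σ) hε hm hk0 z
    have e : 2 * ww u σ k m ε z = L2 u σ k m ε z - L1 u σ k ε z - Real.log ((m * k) ^ 2) := by
      unfold ww; ring
    rw [e, Real.exp_sub, Real.exp_sub, L2, L1, Real.exp_log p2, Real.exp_log p1,
      Real.exp_log (by positivity)]
    field_simp

end PREG

end Pool.Agent.Helper904_QS
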